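import Pool.Agent.H35.AN.Defs

/-!
# Project AN2 (MP_a3214d): definitions

Lower bounds for Malle's counting function `N(k, A_n; B)` over every number field `k`, with
families of polynomials that have many small parameters and one visible parameter.
-/

set_option autoImplicit false

open Polynomial IsDedekindDomain NumberField

namespace Pool.Agent.H9.AM

open Pool.Agent.H35.AN

/-! ### The abstract key statement -/

/-- Every conjugate of `x` has size `1` or size `H`, up to the factor `mu`. -/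
def TwoScale {K : Type*} [Field K] (mu H : ℝ) (x : K) : Prop :=
  ∀ φ : K →+* ℂ, (1 ≤ mu * ‖φ x‖ ∧ ‖φ x‖ ≤ mu) ∨ (H ≤ mu * ‖φ x‖ ∧ ‖φ x‖ ≤ mu * H)

section Key

variable {k : Type*} [Field k] [NumberField k]

/-- Every residue characteristic of a prime outside `M` that divides `y` divides `Δ`. -/
def Visible (M : ℕ) (y : 𝓞 k) (Δ : ℤ) : Prop :=
  ∀ (r : ℕ), r.Prime → ∀ p : HeightOneSpectrum (𝓞 k), (r : 𝓞 k) ∈ p.asIdeal →
    (M : 𝓞 k) ∉ p.asIdeal → y ∈ p.asIdeal → (r : ℤ) ∣ Δ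

/-- The class of `η` modulo `M` has a fixed valuation at all primes containing `M`. -/
def FixedAt (M : ℕ) (η : 𝓞 k) : Prop :=
  ∀ y : 𝓞 k, (M : 𝓞 k) ∣ y - η → ∀ p : HeightOneSpectrum (𝓞 k), (M : 𝓞 k) ∈ p.asIdeal →
    y ≠ 0 ∧ ord p (y : k) = ord p (η : k)

/-- The pairs (visible parameter, generator) that can belong to a field `K`. -/
def Cand (M : ℕ) (η c : 𝓞 k) (e : ℕ) (lam mu H T : ℝ) (K : Type) [Field K] [NumberField K]
    [Algebra k K] : Set (𝓞 k × 𝓞 K) :=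
  {z | (M : 𝓞 k) ∣ z.1 - η ∧ z.1 ≠ 0 ∧ Balanced lam T z.1 ∧ SqfreeOff M z.1 ∧
    Visible M z.1 (NumberField.discr K) ∧ Algebra.norm k (z.2 : K) = (c : k) * (z.1 : k) ^ e ∧
    TwoScale mu H (z.2 : K)}

end Key

/-- Newton polygon at `P` with one root of valuation `-V` and `N` roots of valuation `U / N`. -/
structure NPs {K : Type*} [Field K] [NumberField K] (P : HeightOneSpectrum (𝓞 K)) (N : ℕ)
    (V U : ℤ) (G : K[X]) : Prop where
  three_le : 3 ≤ N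
  deg : G.natDegree = N + 1
  V_pos : 0 < V
  U_pos : 0 < U
  lt : U < N * V
  top : ord P (G.coeff (N + 1)) = V
  ne : G.coeff N ≠ 0
  unit : ord P (G.coeff N) = 0
  sub : Ge P V (G.coeff (N - 1))
  mid : ∀ i, 1 ≤ i → i + 2 ≤ N → Ge P U (G.coeff i)
  zne : G.coeff 0 ≠ 0
  zero : ord P (G.coeff 0) = U

/-- The key statement for degree `n` over `k`: `r` small parameters of weights `ws`, a visible
parameter `y` of weight `wt`, a generator of norm `c y^e`, discriminants up to `H^(m D)`. -/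
def KeyW (k : Type) [Field k] [NumberField k] (n r : ℕ) (ws : Fin r → ℕ) (wt e D : ℕ) : Prop :=
  ∀ Y : ℕ, ∃ (M : ℕ) (η c : 𝓞 k) (Q : (Fin r → 𝓞 k) → 𝓞 k → k[X]),
    0 < M ∧ (∀ p : ℕ, p.Prime → p ≤ Y → p ∣ M) ∧ η ≠ 0 ∧ c ≠ 0 ∧
    (∀ (y : 𝓞 k) (δ δ' : Fin r → 𝓞 k), Q δ y = Q δ' y → δ = δ') ∧ FixedAt M η ∧
    ∀ lam : ℝ, 1 ≤ lam → ∃ (C mu : ℝ) (H0 : ℕ), 0 < C ∧ 1 ≤ mu ∧ ∀ H : ℕ, H0 ≤ H →
      ∀ (δ : Fin r → 𝓞 k) (y : 𝓞 k),
      (∀ i, ∀ φ : k →+* ℂ, ‖φ (δ i : k)‖ ≤ lam * (H : ℝ) ^ ws i) →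
      (M : 𝓞 k) ∣ y - η → Balanced lam ((H : ℝ) ^ wt) y → SqfreeOff M y →
      ∃ (K : IntermediateField k (AlgebraicClosure k)) (_ : NumberField K) (α : 𝓞 K),
        IsAltField k n K ∧ minpoly k (α : K) = Q δ y ∧
        Algebra.norm k (α : K) = (c : k) * (y : k) ^ e ∧ TwoScale mu (H : ℝ) (α : K) ∧
        |(NumberField.discr K : ℝ)| ≤ C * (H : ℝ) ^ (Module.finrank ℚ k * D) ∧
        Visible M y (NumberField.discr K)

/-! ### Polynomials -/

section Poly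

variable {k : Type*} [Field k]

/-- The antiderivative of `p` without constant term. -/
noncomputable def integ (p : k[X]) : k[X] :=
  ∑ i ∈ Finset.range (p.natDegree + 1), C (p.coeff i / ((i : k) + 1)) * X ^ (i + 1)

/-- The polynomial `∑ δ_i x^i`. -/
noncomputable def spoly {r : ℕ} (δ : Fin r → k) : k[X] := ∑ i, C (δ i) * X ^ (i : ℕ)

/-! #### Even degree `2h+2` -/

/-- `κ = 2h(h+1)(2h+1)`. -/
def kapE (h : ℕ) : ℤ := 2 * h * (h + 1) * (2 * h + 1)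

/-- Even family, degree `2h+2`: `κ b² ∫ x³ g² - d y²`. -/
noncomputable def fE (h : ℕ) (b y : k) (g : k[X]) : k[X] :=
  C ((kapE h : k) * b ^ 2) * integ (X ^ 3 * g ^ 2) - C ((dd2 h : k) * y ^ 2)

/-- `g = x^(h-2) (x-1) + M δ(x)`. -/
noncomputable def gE (h : ℕ) (M : k) (δ : Fin (h - 1) → k) : k[X] :=
  X ^ (h - 2) * (X - 1) + C M * spoly δ

/-! #### Odd degree `2h+1` -/

/-- `m' = (-1)^(h+1) (2h-1)`. -/
def mO (h : ℕ) : ℤ := (-1) ^ (h + 1) * (2 * h - 1)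

/-- `e = (2h-3)² m'`; the finite poles are the square roots of `e`. -/
def eO (h : ℕ) : ℤ := (2 * h - 3) ^ 2 * mO h

/-- `H` with `H + 2 x H' = (x² - e) R`. -/
noncomputable def hO (e : k) (R : k[X]) : k[X] :=
  ∑ i ∈ Finset.range (R.natDegree + 1),
    (C (R.coeff i / (2 * (i : k) + 5)) * X ^ (i + 2) - C (e * R.coeff i / (2 * (i : k) + 1)) * X ^ i)

/-- Odd family: `κ/2 ((x² - e) I - x H²) - w (x² - e)` with `I' = H R`, `I(0) = 0`. It satisfies
`f' (x² - e) - 2 x f = κ x² H²` and `f(0) = w e`. -/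
noncomputable def fO (κ e w : k) (R : k[X]) : k[X] :=
  C (κ / 2) * ((X ^ 2 - C e) * integ (hO e R * R) - X * hO e R ^ 2) - C w * (X ^ 2 - C e)

/-- `R = n x^(h-2) + M δ(x)`, `n = 2h+1`. -/
noncomputable def rO (h : ℕ) (M : k) (δ : Fin (h - 2) → k) : k[X] :=
  C (2 * (h : k) + 1) * X ^ (h - 2) + C M * spoly δ

end Poly

end Pool.Agent.H9.AM
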