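import Pool.Agent.H9.AM.Defs

/-!
# Project AN2 (MP_a3214d): definitions for the odd family

Degree `n = 2h+1`.  All members satisfy `f' (x² - e) = 2 x f + (2h-1) x² g²` with `deg g = h`.
-/

set_option autoImplicit false

open Polynomial IsDedekindDomain NumberField

namespace Pool.Agent.H9.AM

open Pool.Agent.H35.AN

/-- `μ = (2h-3)(2h+1) m'`. -/
def muO (h : ℕ) : ℤ := (2 * h - 3) * (2 * h + 1) * mO h

/-- `α = (2h+1)² m'`. -/
def alO (h : ℕ) : ℤ := (2 * h + 1) ^ 2 * mO h

/-- The abstract properties of a member `f` of the odd family of degree `2h+1`, with its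
polynomial `g` and its visible parameter `w`. -/
structure OddMem {k : Type*} [Field k] (h : ℕ) (w : k) (g f : k[X]) : Prop where
  deg : f.natDegree = 2 * h + 1
  monic : f.Monic
  gdeg : g.natDegree = h
  gmonic : g.Monic
  c0 : f.coeff 0 = w * (eO h : k)
  c1 : f.coeff 1 = 0
  c2 : f.coeff 2 = -w
  ident : derivative f * (X ^ 2 - C (eO h : k)) =
    C 2 * X * f + C (2 * (h : k) - 1) * X ^ 2 * g ^ 2

/-- The base member: `g = x^(h-2) (x² - μ)`. -/
noncomputable def gB {k : Type*} [Field k] (h : ℕ) : k[X] :=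
  X ^ (h - 2) * (X ^ 2 - C (muO h : k))

/-- The base member: `f = x^(2h-1) (x² - α) - w (x² - e)`. -/
noncomputable def fB {k : Type*} [Field k] (h : ℕ) (w : k) : k[X] :=
  X ^ (2 * h - 1) * (X ^ 2 - C (alO h : k)) - C w * (X ^ 2 - C (eO h : k))

/-- The polynomial `g` of the member with parameters `δ`. -/
noncomputable def gT {k : Type*} [Field k] (h : ℕ) (M : k) (δ : Fin (h - 2) → k) : k[X] :=
  hO (eO h : k) (rO h M δ)

/-- The member with parameters `δ` and `w`. -/
noncomputable def fT {k : Type*} [Field k] (h : ℕ) (M : k) (δ : Fin (h - 2) → k) (w : k) : k[X] :=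
  fO (2 * (h : k) - 1) (eO h : k) w (rO h M δ)

/-- All coefficients of `f - f0` are multiples of `N` in the ring of integers. -/
def CloseTo {k : Type*} [Field k] [NumberField k] (N : ℕ) (f f0 : k[X]) : Prop :=
  ∀ j, ∃ z : 𝓞 k, f.coeff j - f0.coeff j = (N : k) * (z : k)

/-- The local conditions at three primes `l`, `p`, `q` of `k`, degree `n = 2h+1`: `f` is
Eisenstein at `l ∣ n`; exactly two roots are units at `p`; a triple root near `x0` at `q`. -/
structure CondO (k : Type*) [Field k] [NumberField k] (h : ℕ) (w : k) (g f : k[X])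
    (l p q : HeightOneSpectrum (𝓞 k)) (x0 : ℤ) : Prop where
  mem : OddMem h w g f
  int : ∀ j, IsIntegral ℤ (f.coeff j)
  l_ord : ord l w = 1
  l_n : Ge l 1 ((2 * h + 1 : ℕ) : k)
  l_e : ord l (eO h : k) = 0
  l_close : ∀ j, Ge l 2 (f.coeff j - (fB h w).coeff j)
  p_ord : ord p w = 1
  p_units : UnitsUpTo p (2 * h + 1)
  p_close : ∀ j, Ge p 2 (f.coeff j - (fB h w).coeff j)
  q_ord : ord q w = 0
  q_units : UnitsUpTo q (2 * h + 1)
  q_close : ∀ j, Ge q 2 (f.coeff j - (fB h w).coeff j)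
  q_gclose : ∀ j, Ge q 1 (g.coeff j - (gB h).coeff j)
  q_mu : Ge q 1 ((x0 : k) ^ 2 - (muO h : k))
  q_one : ord q ((x0 : k) ^ (2 * h - 1) * ((x0 : k) ^ 2 - (alO h : k)) -
    w * ((x0 : k) ^ 2 - (eO h : k))) = 1

end Pool.Agent.H9.AM
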