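import Mathlib
import Pool.Agent.H9.AM.Defs
import Pool.Agent.H35.AN.DiscLe

/-!
# Project AN2, row AM-O13: upper bound for the discriminant

The integral family `1, x, ..., x^r, f(0)/x` of a root `x` of a monic polynomial `f` of degree
`r + 2` with integral coefficients.
-/

set_option autoImplicit false

open Polynomial IsDedekindDomain NumberField

namespace Pool.Agent.H9.AM

open Pool.Agent.H35.AN

theorem amO13_isIntegral {k K : Type} [Field k] [Field K] [Algebra k K]
    {x : K} {f : k[X]} (hf : f.Monic) (hx : aeval x f = 0)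
    (hint : ∀ j, IsIntegral ℤ (f.coeff j)) : IsIntegral ℤ x := by
  have hl : f ∈ lifts (algebraMap (integralClosure ℤ k) k) := by
    rw [lifts_iff_coeff_lifts]
    intro n
    exact ⟨⟨f.coeff n, hint n⟩, rfl⟩
  obtain ⟨g, hg, -, hgm⟩ := lifts_and_natDegree_eq_and_monic hl hf
  have h : IsIntegral (integralClosure ℤ k) x := by
    refine ⟨g, hgm, ?_⟩
    rw [← hg, aeval_map_algebraMap] at hx
    rwa [aeval_def] at hx
  exact isIntegral_trans x h

theorem amO13_divX_mul {k K : Type} [Field k] [Field K] [Algebra k K] {x : K} {f : k[X]}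
    (hx : aeval x f = 0) : aeval x (divX f) * x = - algebraMap k K (f.coeff 0) := by
  have h := congrArg (aeval x) (divX_mul_X_add f)
  rw [hx, map_add, map_mul, aeval_X, aeval_C] at h
  exact eq_neg_of_add_eq_zero_left h

theorem amO13_li {k K : Type} [Field k] [Field K] [Algebra k K] [FiniteDimensional k K] {x : K}
    {f : k[X]} {r : ℕ} (hmon : f.Monic) (hdeg : f.natDegree = r + 2)
    (hfin : Module.finrank k K = r + 2) (hgen : IntermediateField.adjoin k {x} = ⊤) :
    LinearIndependent k (Fin.snoc (α := fun _ : Fin (r + 2) => K)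
      (fun i : Fin (r + 1) => x ^ (i : ℕ)) (aeval x (divX f))) := by
  have hmin : (minpoly k x).natDegree = r + 2 := by
    have h1 := IntermediateField.adjoin.finrank (K := k) (Algebra.IsIntegral.isIntegral (R := k) x)
    rw [hgen] at h1
    rw [← h1, ← hfin]
    exact IntermediateField.finrank_top'
  rw [Fintype.linearIndependent_iff]
  intro g hg
  rw [Fin.sum_univ_castSucc] at hg
  simp only [Fin.snoc_castSucc, Fin.snoc_last] at hg
  set p : k[X] := (∑ i : Fin (r + 1), C (g i.castSucc) * X ^ (i : ℕ)) +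
    C (g (Fin.last (r + 1))) * divX f with hp
  have hpx : aeval x p = 0 := by
    rw [hp, map_add, map_sum, map_mul, aeval_C, ← hg, Algebra.smul_def]
    congr 1
    refine Finset.sum_congr rfl fun i _ => ?_
    rw [map_mul, aeval_C, map_pow, aeval_X, Algebra.smul_def]
  have hdivX : (divX f).natDegree = r + 1 := by
    rw [natDegree_divX_eq_natDegree_tsub_one, hdeg]; rfl
  have hpdeg : p.natDegree < r + 2 := by
    refine lt_of_le_of_lt (natDegree_add_le _ _) ?_
    rw [max_lt_iff]
    constructor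
    · refine lt_of_le_of_lt (natDegree_sum_le_of_forall_le (n := r + 1) _ _ fun i _ => ?_)
        (by omega)
      exact (natDegree_C_mul_X_pow_le _ _).trans (by omega)
    · exact lt_of_le_of_lt (natDegree_C_mul_le _ _) (by omega)
  have hp0 : p = 0 := by
    by_contra hne
    have h1 := minpoly.degree_le_of_ne_zero k x hne hpx
    have h2 := natDegree_le_natDegree h1
    omega
  have hc : ∀ j, (∑ i : Fin (r + 1), C (g i.castSucc) * X ^ (i : ℕ) : k[X]).coeff j =
      if h : j < r + 1 then g (Fin.castSucc ⟨j, h⟩) else 0 := by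
    intro j
    rw [finsetSum_coeff]
    simp only [coeff_C_mul, coeff_X_pow]
    split_ifs with h
    · rw [Finset.sum_eq_single (⟨j, h⟩ : Fin (r + 1))]
      · simp
      · intro b _ hb
        have : j ≠ (b : ℕ) := fun h' => hb (Fin.ext h'.symm)
        simp [this]
      · intro hb; exact absurd (Finset.mem_univ _) hb
    · refine Finset.sum_eq_zero fun b _ => ?_
      have : j ≠ (b : ℕ) := fun h' => h (h' ▸ b.2)
      simp [this]
  have hlast : g (Fin.last (r + 1)) = 0 := by
    have h1 : p.coeff (r + 1) = 0 := by rw [hp0, coeff_zero]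
    rw [hp, coeff_add, hc, dif_neg (by omega), zero_add, coeff_C_mul, coeff_divX] at h1
    have h2 : f.coeff (r + 1 + 1) = 1 := by
      have := hmon.coeff_natDegree
      rwa [hdeg] at this
    rwa [h2, mul_one] at h1
  intro i
  refine Fin.lastCases hlast (fun i => ?_) i
  have h1 : p.coeff (i : ℕ) = 0 := by rw [hp0, coeff_zero]
  rw [hp, coeff_add, hc, dif_pos i.2, hlast, C_0, zero_mul, coeff_zero, add_zero] at h1
  exact h1

theorem discr_le_pow (k : Type) [Field k] [NumberField k] (r : ℕ) (mu A : ℝ) (hmu : 1 ≤ mu)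
    (hA : 1 ≤ A) : ∃ C : ℝ, 0 < C ∧
    ∀ (K : Type) [Field K] [NumberField K] [Algebra k K] (x : K) (f : k[X]) (H : ℝ), 1 ≤ H →
      f.Monic → f.natDegree = r + 2 → aeval x f = 0 → Module.finrank k K = r + 2 →
      IntermediateField.adjoin k {x} = ⊤ → (∀ j, IsIntegral ℤ (f.coeff j)) →
      TwoScale mu H x → (∀ φ : k →+* ℂ, ‖φ (f.coeff 0)‖ ≤ A * H ^ r) →
      |(NumberField.discr K : ℝ)| ≤ C * H ^ (Module.finrank ℚ k * (r * (r + 3))) := by
  obtain ⟨C0, hC0, hC⟩ := discr_le_rel k (r + 2)
  refine ⟨C0 * (mu ^ (r * (r + 1)) * (A * mu) ^ 2) ^ Module.finrank ℚ k, by positivity, ?_⟩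
  intro K _ _ _ x f H hH hmon hdeg hx hfin hgen hint hts hf0
  have : FiniteDimensional k K := Module.Finite.of_restrictScalars_finite ℚ k K
  have hxint : IsIntegral ℤ x := amO13_isIntegral hmon hx hint
  have hdint : IsIntegral ℤ (aeval x (divX f)) := by
    rw [aeval_eq_sum_range]
    refine IsIntegral.sum _ fun i _ => ?_
    rw [Algebra.smul_def, coeff_divX]
    refine IsIntegral.mul ?_ (hxint.pow i)
    exact (hint (i + 1)).map (IsScalarTower.toAlgHom ℤ k K)
  have hH0 : 0 < H := by linarith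
  have hmu0 : 0 < mu := by linarith
  have hxlow : ∀ φ : K →+* ℂ, 1 ≤ mu * ‖φ x‖ := by
    intro φ
    rcases hts φ with h | h
    · exact h.1
    · linarith [h.1]
  have hxup : ∀ φ : K →+* ℂ, ‖φ x‖ ≤ mu * H := by
    intro φ
    rcases hts φ with h | h
    · refine h.2.trans ?_
      nlinarith
    · exact h.2
  have hd : ∀ φ : K →+* ℂ, ‖φ (aeval x (divX f))‖ ≤ A * mu * H ^ r := by
    intro φ
    have h1 : ‖φ (aeval x (divX f))‖ * ‖φ x‖ ≤ A * H ^ r := by
      rw [← norm_mul, ← map_mul, amO13_divX_mul hx, map_neg, norm_neg]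
      exact hf0 (φ.comp (algebraMap k K))
    have h2 := hxlow φ
    have h3 : 0 ≤ ‖φ (aeval x (divX f))‖ := norm_nonneg _
    calc ‖φ (aeval x (divX f))‖ = ‖φ (aeval x (divX f))‖ * 1 := (mul_one _).symm
      _ ≤ ‖φ (aeval x (divX f))‖ * (mu * ‖φ x‖) := mul_le_mul_of_nonneg_left h2 h3
      _ = mu * (‖φ (aeval x (divX f))‖ * ‖φ x‖) := by ring
      _ ≤ mu * (A * H ^ r) := mul_le_mul_of_nonneg_left h1 hmu0.le
      _ = A * mu * H ^ r := by ring
  have key := hC K hfin (Fin.snoc (α := fun _ : Fin (r + 2) => K)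
      (fun i : Fin (r + 1) => x ^ (i : ℕ)) (aeval x (divX f)))
    (fun j => by
      refine Fin.lastCases ?_ (fun i => ?_) j
      · rw [Fin.snoc_last]; exact hdint
      · rw [Fin.snoc_castSucc]; exact hxint.pow _)
    (amO13_li hmon hdeg hfin hgen)
    (Fin.snoc (α := fun _ : Fin (r + 2) => ℝ) (fun i : Fin (r + 1) => (mu * H) ^ (i : ℕ))
      (A * mu * H ^ r))
    (fun φ j => by
      refine Fin.lastCases ?_ (fun i => ?_) j
      · rw [Fin.snoc_last, Fin.snoc_last]; exact hd φ
      · rw [Fin.snoc_castSucc, Fin.snoc_castSucc, map_pow, norm_pow]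
        exact pow_le_pow_left₀ (norm_nonneg _) (hxup φ) _)
  refine key.trans (le_of_eq ?_)
  rw [Fin.prod_univ_castSucc]
  simp only [Fin.snoc_castSucc, Fin.snoc_last]
  rw [Finset.prod_pow_eq_pow_sum]
  set S : ℕ := ∑ i : Fin (r + 1), (i : ℕ) with hSdef
  have hS : S * 2 = r * (r + 1) := by
    have h1 : S = ∑ i ∈ Finset.range (r + 1), i := by
      rw [hSdef, Finset.sum_range]
    rw [h1, Finset.sum_range_id_mul_two, Nat.add_sub_cancel, mul_comm]
  have h4 : ((mu * H) ^ S * (A * mu * H ^ r)) ^ 2 =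
      (mu ^ (r * (r + 1)) * (A * mu) ^ 2) * H ^ (r * (r + 3)) := by
    rw [mul_pow, ← pow_mul, hS, mul_pow, mul_pow (A * mu), ← pow_mul]
    have : r * (r + 3) = r * (r + 1) + r * 2 := by ring
    rw [this, pow_add]
    ring
  rw [pow_mul, h4, mul_pow, ← pow_mul, mul_comm (r * (r + 3)), mul_assoc]

end Pool.Agent.H9.AM
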