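import Pool.Agent.H9.AM.DefsOdd
import Pool.Agent.H35.AN.Val
import Pool.Agent.H35.AN.Basic

/-!
# Project AN2 (MP_a3214d), row AM-O5: Eisenstein polynomials are irreducible and have distinct
roots
-/

set_option autoImplicit false

open Polynomial IsDedekindDomain NumberField

namespace Pool.Agent.H9.AM

open Pool.Agent.H35.AN

theorem irreducible_of_eisenstein {k : Type*} [Field k] [NumberField k] {n : ℕ} {F : k[X]}
    (hF : F.Monic) (hd : F.natDegree = n) (hn : 0 < n) (hint : ∀ j, IsIntegral ℤ (F.coeff j))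
    (l : HeightOneSpectrum (𝓞 k)) (h0 : ord l (F.coeff 0) = 1)
    (hj : ∀ j < n, Ge l 1 (F.coeff j)) : Irreducible F := by
  have hlift : F ∈ lifts (algebraMap (𝓞 k) k) := by
    rw [lifts_iff_coeff_lifts]
    intro j
    exact ⟨⟨F.coeff j, hint j⟩, rfl⟩
  obtain ⟨q, hq, hqd, hqm⟩ := lifts_and_natDegree_eq_and_monic hlift hF
  have hc : ∀ j, ((q.coeff j : 𝓞 k) : k) = F.coeff j := by
    intro j
    rw [← hq, coeff_map]
  have he : q.IsEisensteinAt l.asIdeal := by
    refine ⟨?_, ?_, ?_⟩
    · rw [hqm.leadingCoeff]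
      exact fun h => l.isPrime.ne_top ((Ideal.eq_top_iff_one _).mpr h)
    · intro j hlt
      rw [mem_iff_ge_one, hc]
      exact hj j (by omega)
    · rw [mem_pow_iff, hc]
      intro h
      have h1 : F.coeff 0 ≠ 0 := by
        intro h2
        rw [h2, ord_zero] at h0
        exact zero_ne_one h0
      rw [ge_iff l h1, h0] at h
      norm_num at h
  have hirr : Irreducible q := he.irreducible l.isPrime hqm.isPrimitive (by omega)
  have h2 := (Monic.irreducible_iff_irreducible_map_fraction_map (K := k) hqm).mp hirr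
  rwa [hq] at h2

theorem exists_roots_of_irreducible {k L : Type*} [Field k] [CharZero k] [Field L] [Algebra k L]
    [IsAlgClosed L] {n : ℕ} {F : k[X]} (hF : Irreducible F) (hd : F.natDegree = n) :
    Nonempty (Roots k L n F) := by
  refine an8_roots hd (leadingCoeff_ne_zero.mpr hF.ne_zero) fun x hx hx' => ?_
  obtain ⟨a, b, hab⟩ := hF.separable
  have h1 := congrArg (fun q : k[X] => (q.map (algebraMap k L)).eval x) hab
  simp only [Polynomial.map_add, Polynomial.map_mul, eval_add, eval_mul, hx, hx', mul_zero,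
    add_zero, Polynomial.map_one, eval_one] at h1
  exact zero_ne_one h1

end Pool.Agent.H9.AM
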