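import Pool.Agent.H9.AM.DefsOdd
import Pool.Agent.H35.AN.Val
import Pool.Agent.H35.AN.Tower

/-!
# Project AN2 (MP_a3214d), row AM-O4: Eisenstein valuations of roots
-/

set_option autoImplicit false

open Polynomial IsDedekindDomain NumberField

namespace Pool.Agent.H9.AM

open Pool.Agent.H35.AN

section Eisen

theorem ord_eisenstein {k K : Type} [Field k] [NumberField k] [Field K] [NumberField K]
    [Algebra k K] {n : ℕ} {F : k[X]} (hF : F.Monic) (hd : F.natDegree = n) (hn : 0 < n)
    (P : HeightOneSpectrum (𝓞 K)) (h0 : ord (below k P) (F.coeff 0) = 1)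
    (hj : ∀ j < n, Ge (below k P) 1 (F.coeff j)) {x : K} (hx : aeval x F = 0) :
    x ≠ 0 ∧ (n : ℤ) * ord P x = erel k P := by
  have hE : 0 < erel k P := erel_pos P
  set E : ℤ := (erel k P : ℤ) with hEdef
  have hE1 : 1 ≤ E := by
    have : (0 : ℤ) < (erel k P : ℤ) := by exact_mod_cast hE
    omega
  have hsum : x ^ n + ∑ i ∈ Finset.range n, algebraMap k K (F.coeff i) * x ^ i = 0 := by
    have h1 := hx
    rw [Polynomial.aeval_eq_sum_range, hd, Finset.sum_range_succ] at h1
    have h2 : F.coeff n = 1 := by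
      rw [← hd]
      exact hF.coeff_natDegree
    rw [h2, one_smul] at h1
    rw [add_comm, ← h1]
    congr 1
    refine Finset.sum_congr rfl fun i _ => ?_
    rw [Algebra.smul_def]
  have hc0 : F.coeff 0 ≠ 0 := by
    intro h
    rw [h, ord_zero] at h0
    exact absurd h0 (by norm_num)
  have hx0 : x ≠ 0 := by
    rintro rfl
    rw [zero_pow hn.ne', zero_add, ← Finset.add_sum_erase _ _ (Finset.mem_range.mpr hn),
      Finset.sum_eq_zero] at hsum
    · rw [pow_zero, mul_one, add_zero, map_eq_zero] at hsum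
      exact hc0 hsum
    · intro i hi
      rw [zero_pow (Finset.ne_of_mem_erase hi), mul_zero]
  refine ⟨hx0, ?_⟩
  set t : ℤ := ord P x with ht
  have hxt : Ge P t x := (ge_iff P hx0).mpr le_rfl
  have hcj : ∀ j < n, Ge P (E + j * t) (algebraMap k K (F.coeff j) * x ^ j) := by
    intro j hjn
    have h1 := ge_algebraMap (k := k) P (hj j hjn)
    rw [mul_one] at h1
    exact ge_mul P h1 (ge_pow P hxt j)
  have hpn : x ^ n ≠ 0 := pow_ne_zero _ hx0
  have hpo : ord P (x ^ n) = n * t := ord_pow P x n
  have hxn : x ^ n = -∑ i ∈ Finset.range n, algebraMap k K (F.coeff i) * x ^ i :=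
    eq_neg_of_add_eq_zero_left hsum
  have hnpos : (0 : ℤ) < n := by exact_mod_cast hn
  -- the valuation is positive
  have ht0 : 0 < t := by
    by_contra hle
    push Not at hle
    have h2 : Ge P (ord P (x ^ n) + 1)
        (-∑ i ∈ Finset.range n, algebraMap k K (F.coeff i) * x ^ i) := by
      refine ge_neg P (ge_sum P _ _ fun i hi => ?_)
      have hin : i < n := Finset.mem_range.mp hi
      refine ge_mono P ?_ (hcj i hin)
      rw [hpo]
      have : (i : ℤ) ≤ n := by exact_mod_cast hin.le
      nlinarith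
    exact ord_not_cancel P hpn hxn h2
  -- `E ≤ n t`
  have h1 : E ≤ n * t := by
    by_contra hlt
    push Not at hlt
    have h2 : Ge P (ord P (x ^ n) + 1)
        (-∑ i ∈ Finset.range n, algebraMap k K (F.coeff i) * x ^ i) := by
      refine ge_neg P (ge_sum P _ _ fun i hi => ?_)
      have hin : i < n := Finset.mem_range.mp hi
      refine ge_mono P ?_ (hcj i hin)
      rw [hpo]
      have : (0 : ℤ) ≤ i * t := by positivity
      omega
    exact ord_not_cancel P hpn hxn h2
  -- `n t ≤ E`
  have h2 : n * t ≤ E := by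
    by_contra hlt
    push Not at hlt
    have hc : algebraMap k K (F.coeff 0) ≠ 0 := (_root_.map_ne_zero _).mpr hc0
    have hco : ord P (algebraMap k K (F.coeff 0)) = E := by
      rw [ord_algebraMap, h0, mul_one]
    have hsum2 : algebraMap k K (F.coeff 0) =
        -(x ^ n + ∑ i ∈ (Finset.range n).erase 0, algebraMap k K (F.coeff i) * x ^ i) := by
      rw [← Finset.add_sum_erase _ _ (Finset.mem_range.mpr hn), pow_zero, mul_one] at hsum
      linear_combination hsum
    refine ord_not_cancel P hc hsum2 ?_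
    rw [hco]
    refine ge_neg P (ge_add P ?_ (ge_sum P _ _ fun i hi => ?_))
    · refine (ge_iff P hpn).mpr ?_
      rw [hpo]
      omega
    · have hi0 : i ≠ 0 := Finset.ne_of_mem_erase hi
      have hin : i < n := Finset.mem_range.mp (Finset.mem_of_mem_erase hi)
      refine ge_mono P ?_ (hcj i hin)
      have h3 : (1 : ℤ) ≤ i := by exact_mod_cast Nat.one_le_iff_ne_zero.mpr hi0
      nlinarith
  exact le_antisymm h2 h1

theorem amO4_eO_ne {k : Type*} [Field k] [CharZero k] {h : ℕ} (hh : 2 ≤ h) :
    ((eO h : ℤ) : k) ≠ 0 := by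
  rw [Int.cast_ne_zero]
  unfold eO mO
  have h1 : (2 * (h : ℤ) - 3) ≠ 0 := by omega
  have h2 : (2 * (h : ℤ) - 1) ≠ 0 := by omega
  exact mul_ne_zero (pow_ne_zero _ h1) (mul_ne_zero (pow_ne_zero _ (by norm_num)) h2)

/-- a general member is Eisenstein at `l` -/
theorem CondO.eisen {k : Type*} [Field k] [NumberField k] {h : ℕ} (hh : 2 ≤ h) {w : k}
    {g f : k[X]} {l p q : HeightOneSpectrum (𝓞 k)} {x0 : ℤ} (H : CondO k h w g f l p q x0) :
    ord l (f.coeff 0) = 1 ∧ ∀ j < 2 * h + 1, Ge l 1 (f.coeff j) := by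
  have hw : w ≠ 0 := by
    rintro rfl
    have := H.l_ord
    rw [ord_zero] at this
    exact absurd this (by norm_num)
  have hgw : Ge l 1 w := (ge_iff l hw).mpr H.l_ord.ge
  refine ⟨?_, ?_⟩
  · rw [H.mem.c0, ord_mul l hw (amO4_eO_ne hh), H.l_ord, H.l_e, add_zero]
  · intro j hj
    have h1 : f.coeff j = (f.coeff j - (fB h w).coeff j) + (fB h w).coeff j := by ring
    rw [h1]
    refine ge_add l (ge_mono l (by norm_num) (H.l_close j)) ?_
    have h2 : (fB h w : k[X]) = X ^ (2 * h + 1) - C (alO h : k) * X ^ (2 * h - 1) -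
        C w * X ^ 2 + C (w * (eO h : k)) := by
      unfold fB
      have h3 : (X : k[X]) ^ (2 * h + 1) = X ^ (2 * h - 1) * X ^ 2 := by
        rw [← pow_add]
        congr 1
        omega
      rw [h3, C_mul]
      ring
    rw [h2, coeff_add, coeff_sub, coeff_sub, coeff_X_pow, coeff_C_mul, coeff_X_pow, coeff_C_mul,
      coeff_X_pow, coeff_C, if_neg (by omega : ¬ j = 2 * h + 1), zero_sub]
    have hal : Ge l 1 ((alO h : ℤ) : k) := by
      unfold alO
      push_cast
      have h4 : ((2 * (h : k) + 1) ^ 2 * (mO h : k)) =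
          ((2 * h + 1 : ℕ) : k) * (((2 * h + 1 : ℕ) : k) * (mO h : k)) := by
        push_cast
        ring
      rw [h4]
      have h5 := ge_mul l H.l_n (ge_mul l (ge_nat l (2 * h + 1)) (ge_int l (mO h)))
      simpa using h5
    have hite : ∀ (q : Prop) [Decidable q], Ge l 0 (if q then (1 : k) else 0) := by
      intro q _
      split_ifs
      · exact an1_ge_one l
      · exact ge_zero l 0
    refine ge_add l (ge_sub l (ge_neg l ?_) ?_) ?_
    · have := ge_mul l hal (hite (j = 2 * h - 1))
      simpa using this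
    · have := ge_mul l hgw (hite (j = 2))
      simpa using this
    · split_ifs
      · have := ge_mul l hgw (ge_int l (eO h))
        simpa using this
      · exact ge_zero l 1

end Eisen

end Pool.Agent.H9.AM
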