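import Pool.Agent.H9.AM.Defs

/-!
# Project AN2 (MP_a3214d): antiderivatives, the even family
-/

set_option autoImplicit false

open Polynomial IsDedekindDomain NumberField

namespace Pool.Agent.H9.AM

open Pool.Agent.H35.AN

section Integ

variable {k : Type*} [Field k] [CharZero k]

theorem integ_coeff_zero (p : k[X]) : (integ p).coeff 0 = 0 := by
  unfold integ
  rw [finsetSum_coeff]
  refine Finset.sum_eq_zero fun i _ => ?_
  rw [coeff_C_mul, coeff_X_pow]
  simp

theorem integ_coeff_succ (p : k[X]) (i : ℕ) :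
    (integ p).coeff (i + 1) = p.coeff i / ((i : k) + 1) := by
  unfold integ
  rw [finsetSum_coeff]
  simp only [coeff_C_mul, coeff_X_pow, add_left_inj]
  by_cases hi : i ∈ Finset.range (p.natDegree + 1)
  · rw [Finset.sum_eq_single i]
    · simp
    · intro j _ hj
      rw [if_neg (Ne.symm hj), mul_zero]
    · intro h
      exact absurd hi h
  · rw [Finset.sum_eq_zero]
    · have : p.natDegree < i := by
        rw [Finset.mem_range] at hi
        omega
      rw [coeff_eq_zero_of_natDegree_lt this, zero_div]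
    · intro j hj
      rw [if_neg, mul_zero]
      rintro rfl
      exact hi hj

theorem derivative_integ (p : k[X]) : derivative (integ p) = p := by
  ext i
  rw [coeff_derivative, integ_coeff_succ, div_mul_cancel₀]
  exact_mod_cast Nat.succ_ne_zero i

theorem spoly_coeff {r : ℕ} (δ : Fin r → k) (i : ℕ) :
    (spoly δ).coeff i = if hi : i < r then δ ⟨i, hi⟩ else 0 := by
  unfold spoly
  rw [finsetSum_coeff]
  simp only [coeff_C_mul, coeff_X_pow]
  by_cases hi : i < r
  · rw [dif_pos hi, Finset.sum_eq_single ⟨i, hi⟩]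
    · simp
    · intro j _ hj
      rw [if_neg, mul_zero]
      intro h
      exact hj (Fin.ext h.symm)
    · intro h
      exact absurd (Finset.mem_univ _) h
  · rw [dif_neg hi, Finset.sum_eq_zero]
    intro j _
    rw [if_neg, mul_zero]
    intro h
    exact hi (h ▸ j.2)

variable {h : ℕ} (hh : 2 ≤ h) {b y : k} {g : k[X]}

theorem ame1_spoly_degree_lt {r : ℕ} (δ : Fin r → k) : (spoly δ).degree < r := by
  rw [degree_lt_iff_coeff_zero]
  intro m hm
  rw [spoly_coeff, dif_neg (not_lt.mpr hm)]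

theorem ame1_base_monic (m : ℕ) :
    (X ^ m * (X - 1) : k[X]).Monic ∧ (X ^ m * (X - 1) : k[X]).natDegree = m + 1 := by
  have h1 : (X - 1 : k[X]).Monic := by
    have := monic_X_sub_C (1 : k)
    rwa [map_one] at this
  have h2 : (X - 1 : k[X]).natDegree = 1 := by
    have := natDegree_X_sub_C (1 : k)
    rwa [map_one] at this
  refine ⟨(monic_X_pow m).mul h1, ?_⟩
  rw [(monic_X_pow m).natDegree_mul h1, natDegree_X_pow, h2]

include hh in
theorem gE_monic (M : k) (δ : Fin (h - 1) → k) :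
    (gE h M δ).Monic ∧ (gE h M δ).natDegree = h - 1 := by
  obtain ⟨h1, h2⟩ := ame1_base_monic (k := k) (h - 2)
  have h3 : h - 2 + 1 = h - 1 := by omega
  rw [h3] at h2
  have hd : (C M * spoly δ).degree < (X ^ (h - 2) * (X - 1) : k[X]).degree := by
    rw [degree_eq_natDegree h1.ne_zero, h2]
    refine lt_of_le_of_lt ?_ (ame1_spoly_degree_lt δ)
    rw [← smul_eq_C_mul]
    exact degree_smul_le M (spoly δ)
  unfold gE
  refine ⟨h1.add_of_left hd, ?_⟩
  rw [natDegree_add_eq_left_of_degree_lt hd, h2]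

include hh in
theorem gE_inj {M : k} (hM : M ≠ 0) : Function.Injective (gE (k := k) h M) := by
  intro δ δ' he
  unfold gE at he
  have h1 : C M * spoly δ = C M * spoly δ' := add_left_cancel he
  have h2 : spoly δ = spoly δ' := mul_left_cancel₀ (C_ne_zero.mpr hM) h1
  funext i
  have h3 := congrArg (fun q : k[X] => q.coeff (i : ℕ)) h2
  simp only [spoly_coeff, dif_pos i.2] at h3
  exact h3

theorem fE_coeff_zero (h : ℕ) (b y : k) (g : k[X]) :
    (fE h b y g).coeff 0 = -((dd2 h : k) * y ^ 2) := by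
  unfold fE
  rw [coeff_sub, coeff_C_mul, integ_coeff_zero, coeff_C_zero, mul_zero, zero_sub]

theorem fE_coeff_succ (h : ℕ) (b y : k) (g : k[X]) (i : ℕ) :
    (fE h b y g).coeff (i + 1) =
      (kapE h : k) * b ^ 2 * (X ^ 3 * g ^ 2).coeff i / ((i : k) + 1) := by
  unfold fE
  rw [coeff_sub, coeff_C_mul, integ_coeff_succ, coeff_C_succ, sub_zero, mul_div_assoc]

theorem fE_coeff_low (h : ℕ) (b y : k) (g : k[X]) {i : ℕ} (h1 : 1 ≤ i) (h3 : i ≤ 3) :
    (fE h b y g).coeff i = 0 := by
  obtain ⟨j, rfl⟩ : ∃ j, i = j + 1 := ⟨i - 1, by omega⟩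
  rw [fE_coeff_succ, coeff_X_pow_mul', if_neg (by omega), mul_zero, zero_div]

theorem fE_derivative (h : ℕ) (b y : k) (g : k[X]) :
    derivative (fE h b y g) = C ((kapE h : k) * b ^ 2) * (X ^ 3 * g ^ 2) := by
  unfold fE
  rw [derivative_sub, derivative_C, sub_zero, derivative_C_mul, derivative_integ]

include hh in
theorem ame1_sq_monic (hg : g.Monic) (hd : g.natDegree = h - 1) :
    (X ^ 3 * g ^ 2).Monic ∧ (X ^ 3 * g ^ 2).natDegree = 2 * h + 1 := by
  refine ⟨(monic_X_pow 3).mul (hg.pow 2), ?_⟩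
  rw [(monic_X_pow 3).natDegree_mul (hg.pow 2), natDegree_X_pow, hg.natDegree_pow, hd]
  omega

include hh in
theorem ame1_top (hg : g.Monic) (hd : g.natDegree = h - 1) :
    (fE h b y g).coeff (2 * h + 2) = (h : k) * (2 * h + 1) * b ^ 2 := by
  obtain ⟨h1, h2⟩ := ame1_sq_monic hh hg hd
  have h3 : (X ^ 3 * g ^ 2).coeff (2 * h + 1) = 1 := by
    rw [← h2]
    exact h1
  rw [show 2 * h + 2 = (2 * h + 1) + 1 from rfl, fE_coeff_succ, h3]
  unfold kapE
  have h4 : ((2 * h + 1 : ℕ) : k) + 1 ≠ 0 := by exact_mod_cast Nat.succ_ne_zero (2 * h + 1)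
  rw [div_eq_iff h4]
  push_cast
  ring

include hh in
theorem fE_natDegree (hb : b ≠ 0) (hg : g.Monic) (hd : g.natDegree = h - 1) :
    (fE h b y g).natDegree = 2 * h + 2 ∧
      (fE h b y g).leadingCoeff = (h : k) * (2 * h + 1) * b ^ 2 := by
  have ht := ame1_top (b := b) (y := y) hh hg hd
  have hne : (h : k) * (2 * h + 1) * b ^ 2 ≠ 0 := by
    have h0 : (h : k) ≠ 0 := by exact_mod_cast (by omega : h ≠ 0)
    have h1 : (2 * (h : k) + 1) ≠ 0 := by exact_mod_cast Nat.succ_ne_zero (2 * h)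
    exact mul_ne_zero (mul_ne_zero h0 h1) (pow_ne_zero 2 hb)
  have hdeg : (fE h b y g).natDegree = 2 * h + 2 := by
    apply le_antisymm
    · rw [natDegree_le_iff_coeff_eq_zero]
      intro N hN
      obtain ⟨j, rfl⟩ : ∃ j, N = j + 1 := ⟨N - 1, by omega⟩
      rw [fE_coeff_succ, coeff_eq_zero_of_natDegree_lt, mul_zero, zero_div]
      rw [(ame1_sq_monic hh hg hd).2]
      omega
    · apply le_natDegree_of_ne_zero
      rw [ht]
      exact hne
  refine ⟨hdeg, ?_⟩
  rw [leadingCoeff, hdeg, ht]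

include hh in
theorem fE_base : fE h b y (X ^ (h - 2) * (X - 1)) = F2 h y b := by
  have h0 : (X ^ 3 * (X ^ (h - 2) * (X - 1)) ^ 2 : k[X]) =
      X ^ (2 * h + 1) - C 2 * X ^ (2 * h) + X ^ (2 * h - 1) := by
    have e1 : 2 * h + 1 = 3 + 2 * (h - 2) + 2 := by omega
    have e2 : 2 * h = 3 + 2 * (h - 2) + 1 := by omega
    have e3 : 2 * h - 1 = 3 + 2 * (h - 2) := by omega
    rw [e1, e3, e2]
    rw [mul_pow, ← pow_mul, mul_comm (h - 2) 2, show (C 2 : k[X]) = 2 from rfl]
    ring
  ext i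
  rcases Nat.eq_zero_or_pos i with rfl | hi
  · rw [fE_coeff_zero]
    unfold F2
    rw [coeff_sub, coeff_C_zero, mul_coeff_zero, mul_coeff_zero, coeff_X_pow,
      if_neg (by omega : ¬ 0 = 2 * h)]
    simp
  · obtain ⟨j, rfl⟩ : ∃ j, i = j + 1 := ⟨i - 1, by omega⟩
    rw [fE_coeff_succ, h0]
    unfold F2
    have hX : (C (b ^ 2) * X ^ (2 * h) * (C ((h : k) * (2 * h + 1)) * X ^ 2 -
        C (4 * (h : k) * (h + 1)) * X + C (((h : k) + 1) * (2 * h + 1))) : k[X]) =
        C (b ^ 2 * ((h : k) * (2 * h + 1))) * X ^ (2 * h + 2) -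
        C (b ^ 2 * (4 * (h : k) * (h + 1))) * X ^ (2 * h + 1) +
        C (b ^ 2 * (((h : k) + 1) * (2 * h + 1))) * X ^ (2 * h) := by
      simp only [map_mul, pow_add]
      ring
    rw [hX]
    have hj : ((j : k) + 1) ≠ 0 := by exact_mod_cast Nat.succ_ne_zero j
    rw [div_eq_iff hj]
    simp only [coeff_sub, coeff_add, coeff_C_mul, coeff_X_pow, coeff_C_succ, sub_zero]
    unfold kapE
    have c1 : (j + 1 = 2 * h + 2) ↔ j = 2 * h + 1 := by omega
    have c2 : (j + 1 = 2 * h + 1) ↔ j = 2 * h := by omega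
    have c3 : (j + 1 = 2 * h) ↔ j = 2 * h - 1 := by omega
    simp only [c1, c2, c3]
    by_cases a1 : j = 2 * h + 1
    · subst a1
      rw [if_pos rfl, if_neg (by omega), if_neg (by omega)]
      push_cast
      ring
    · by_cases a2 : j = 2 * h
      · subst a2
        rw [if_neg (by omega), if_pos rfl, if_neg (by omega)]
        push_cast
        ring
      · by_cases a3 : j = 2 * h - 1
        · rw [if_neg a1, if_neg a2, if_pos a3]
          have e : ((j : k) + 1) = 2 * h := by
            have : j + 1 = 2 * h := by omega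
            exact_mod_cast this
          rw [e]
          push_cast
          ring
        · rw [if_neg a1, if_neg a2, if_neg a3]
          simp

include hh in
theorem fE_inj (hb : b ≠ 0) {g' : k[X]} (hg : g.Monic) (hg' : g'.Monic)
    (he : fE h b y g = fE h b y g') : g = g' := by
  have h1 := congrArg derivative he
  rw [fE_derivative, fE_derivative] at h1
  have hk : ((kapE h : k) * b ^ 2) ≠ 0 := by
    refine mul_ne_zero ?_ (pow_ne_zero 2 hb)
    unfold kapE
    have : (2 * (h : ℤ) * (h + 1) * (2 * h + 1)) ≠ 0 := by positivity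
    exact_mod_cast this
  have h2 : X ^ 3 * g ^ 2 = X ^ 3 * g' ^ 2 := mul_left_cancel₀ (C_ne_zero.mpr hk) h1
  have h3 : g ^ 2 = g' ^ 2 := mul_left_cancel₀ (pow_ne_zero 3 X_ne_zero) h2
  rcases sq_eq_sq_iff_eq_or_eq_neg.mp h3 with h4 | h4
  · exact h4
  · exfalso
    have h5 := congrArg leadingCoeff h4
    rw [leadingCoeff_neg, hg.leadingCoeff, hg'.leadingCoeff] at h5
    have : (2 : k) = 0 := by linear_combination h5
    exact two_ne_zero this

end Integ

end Pool.Agent.H9.AM
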