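import Pool.Agent.H9.AM.EvBasic
import Pool.Agent.H35.AN.Val

/-!
# Project AN2 (MP_a3214d): closeness to the base member, integrality, the Newton polygon at `l`
-/

set_option autoImplicit false

open Polynomial IsDedekindDomain NumberField

namespace Pool.Agent.H9.AM

open Pool.Agent.H35.AN

section Close

variable {k : Type} [Field k] [NumberField k] {h : ℕ} (hh : 2 ≤ h)

/-- coefficients of the base member -/
theorem ame2_F2_coeff {k : Type} [Field k] (h : ℕ) (a b : k) {i : ℕ} (hi : 1 ≤ i) :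
    (F2 h a b).coeff i = (if i = 2 * h + 2 then b ^ 2 * ((h : k) * (2 * h + 1)) else 0) -
      (if i = 2 * h + 1 then b ^ 2 * (4 * (h : k) * (h + 1)) else 0) +
      (if i = 2 * h then b ^ 2 * (((h : k) + 1) * (2 * h + 1)) else 0) := by
  unfold F2
  have hX : (C (b ^ 2) * X ^ (2 * h) * (C ((h : k) * (2 * h + 1)) * X ^ 2 -
      C (4 * (h : k) * (h + 1)) * X + C (((h : k) + 1) * (2 * h + 1))) : k[X]) =
      C (b ^ 2 * ((h : k) * (2 * h + 1))) * X ^ (2 * h + 2) -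
      C (b ^ 2 * (4 * (h : k) * (h + 1))) * X ^ (2 * h + 1) +
      C (b ^ 2 * (((h : k) + 1) * (2 * h + 1))) * X ^ (2 * h) := by
    simp only [map_mul, pow_add]
    ring
  rw [hX]
  obtain ⟨j, rfl⟩ : ∃ j, i = j + 1 := ⟨i - 1, by omega⟩
  simp only [coeff_sub, coeff_add, coeff_C_mul, coeff_X_pow, coeff_C_succ, sub_zero, mul_ite,
    mul_one, mul_zero]

include hh in
theorem ame2_diff (b y : 𝓞 k) (M : ℕ) (δ : Fin (h - 1) → 𝓞 k) (i : ℕ) :
    ∃ c : 𝓞 k, (fE h (b : k) (y : k) (gE h (M : k) (fun j => (δ j : k)))).coeff i -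
        (F2 h (y : k) (b : k)).coeff i =
      (M : k) / (((2 * h + 2).factorial : ℕ) : k) * (c : k) := by
  obtain ⟨g1, g2⟩ := gE_monic (k := k) hh (M : k) (fun j => (δ j : k))
  obtain ⟨b1, b2⟩ := ame1_base_monic (k := k) (h - 2)
  have b3 : (X ^ (h - 2) * (X - 1) : k[X]).natDegree = h - 1 := by
    rw [b2]
    omega
  rw [← fE_base hh]
  rcases Nat.eq_zero_or_pos i with rfl | hi
  · exact ⟨0, by rw [fE_coeff_zero, fE_coeff_zero]; simp⟩
  obtain ⟨j, rfl⟩ : ∃ j, i = j + 1 := ⟨i - 1, by omega⟩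
  rw [fE_coeff_succ, fE_coeff_succ]
  by_cases hj : j ≤ 2 * h + 1
  · have hEq : ∃ E : (𝓞 k)[X], X ^ 3 * (gE h (M : k) (fun j => (δ j : k))) ^ 2 -
        X ^ 3 * (X ^ (h - 2) * (X - 1)) ^ 2 = C (M : k) * E.map (algebraMap (𝓞 k) k) := by
      refine ⟨X ^ 3 * (2 * (X ^ (h - 2) * (X - 1)) * (∑ i, C (δ i) * X ^ (i : ℕ)) +
        C (M : 𝓞 k) * (∑ i, C (δ i) * X ^ (i : ℕ)) ^ 2), ?_⟩
      have hd : (∑ i, C (δ i) * X ^ (i : ℕ) : (𝓞 k)[X]).map (algebraMap (𝓞 k) k) =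
          spoly (fun j => (δ j : k)) := by
        unfold spoly
        rw [Polynomial.map_sum]
        refine Finset.sum_congr rfl fun i _ => ?_
        rw [Polynomial.map_mul, Polynomial.map_pow, map_C, map_X]
      simp only [Polynomial.map_mul, Polynomial.map_add, Polynomial.map_pow, map_X, map_C, hd,
        Polynomial.map_sub, Polynomial.map_one, Polynomial.map_ofNat]
      rw [map_natCast (algebraMap (𝓞 k) k)]
      unfold gE
      ring
    obtain ⟨E, hE⟩ := hEq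
    obtain ⟨u, hu⟩ : (j + 1) ∣ (2 * h + 2).factorial :=
      Nat.dvd_factorial (Nat.succ_pos j) (by omega)
    refine ⟨(kapE h : 𝓞 k) * b ^ 2 * (u : 𝓞 k) * E.coeff j, ?_⟩
    have h4 := congrArg (fun p => p.coeff j) hE
    simp only [coeff_sub, coeff_C_mul, coeff_map] at h4
    rw [← sub_div, ← mul_sub, h4, hu]
    have hj0 : ((j : k) + 1) ≠ 0 := by exact_mod_cast Nat.succ_ne_zero j
    have hu0 : (u : k) ≠ 0 := by
      rintro h5
      have h6 : u = 0 := by exact_mod_cast h5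
      rw [h6, mul_zero] at hu
      exact (Nat.factorial_ne_zero _) hu
    push_cast
    simp only [map_intCast]
    field_simp
  · refine ⟨0, ?_⟩
    rw [coeff_eq_zero_of_natDegree_lt (by rw [(ame1_sq_monic hh g1 g2).2]; omega),
      coeff_eq_zero_of_natDegree_lt (by rw [(ame1_sq_monic hh b1 b3).2]; omega)]
    simp

include hh in
theorem fE_close (P : HeightOneSpectrum (𝓞 k)) (b y : 𝓞 k) {M : ℕ} (hM : 0 < M)
    (δ : Fin (h - 1) → 𝓞 k) (i : ℕ) :
    Ge P (ord P (M : k) - ord P (((2 * h + 2).factorial : ℕ) : k))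
      ((fE h (b : k) (y : k) (gE h (M : k) (fun j => (δ j : k)))).coeff i -
        (F2 h (y : k) (b : k)).coeff i) := by
  obtain ⟨c, hc⟩ := ame2_diff hh b y M δ i
  rw [hc]
  have h1 : (M : k) ≠ 0 := by exact_mod_cast hM.ne'
  have h2 : (((2 * h + 2).factorial : ℕ) : k) ≠ 0 := by
    exact_mod_cast Nat.factorial_ne_zero _
  have h3 : Ge P (ord P (M : k) - ord P (((2 * h + 2).factorial : ℕ) : k))
      ((M : k) / (((2 * h + 2).factorial : ℕ) : k)) := by
    rw [ge_iff P (div_ne_zero h1 h2), ord_div P h1 h2]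
  have h4 := ge_mul P h3 (an1_ge_coe P c)
  rwa [add_zero] at h4

include hh in
theorem fE_integral (b y : 𝓞 k) {M : ℕ} (hM : 0 < M) (hfac : (2 * h + 2).factorial ∣ M)
    (δ : Fin (h - 1) → 𝓞 k) (i : ℕ) :
    IsIntegral ℤ ((fE h (b : k) (y : k) (gE h (M : k) (fun j => (δ j : k)))).coeff i) := by
  obtain ⟨c, hc⟩ := ame2_diff hh b y M δ i
  obtain ⟨v, rfl⟩ := hfac
  have h2 : (((2 * h + 2).factorial : ℕ) : k) ≠ 0 := by
    exact_mod_cast Nat.factorial_ne_zero _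
  have h3 : (F2 h (y : k) (b : k)).coeff i =
      (((F2 h (y : 𝓞 k) b).coeff i : 𝓞 k) : k) := by
    have h4 : (F2 h (y : 𝓞 k) b).map (algebraMap (𝓞 k) k) = F2 h (y : k) (b : k) := by
      unfold F2
      simp only [Polynomial.map_mul, Polynomial.map_add, Polynomial.map_pow, map_X, map_C,
        Polynomial.map_sub]
      simp only [map_mul (algebraMap (𝓞 k) k), map_add (algebraMap (𝓞 k) k),
        map_pow (algebraMap (𝓞 k) k), map_one (algebraMap (𝓞 k) k),
        map_natCast (algebraMap (𝓞 k) k), map_intCast (algebraMap (𝓞 k) k),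
        map_ofNat (algebraMap (𝓞 k) k)]
    rw [← h4, coeff_map]
  have h5 : (fE h (b : k) (y : k) (gE h (((2 * h + 2).factorial * v : ℕ) : k)
      (fun j => (δ j : k)))).coeff i =
      (((F2 h (y : 𝓞 k) b).coeff i + (v : 𝓞 k) * c : 𝓞 k) : k) := by
    rw [sub_eq_iff_eq_add] at hc
    rw [hc, h3]
    push_cast
    field_simp
    ring
  rw [h5]
  exact RingOfIntegers.isIntegral_coe _

/-- units at a prime dividing `2h+1` -/
theorem ame2_units (l : HeightOneSpectrum (𝓞 k)) (hV : 0 < ord l ((2 * h + 1 : ℕ) : k)) :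
    ord l (h : k) = 0 ∧ ord l ((h : k) + 1) = 0 ∧ ord l (2 : k) = 0 := by
  obtain ⟨r, hr, hrl⟩ := exists_rat_prime l
  have hr1 : (r : ℤ) ∣ ((2 * h + 1 : ℕ) : ℤ) := by
    by_contra hc
    have h1 := ord_int_unit l hr hrl hc
    rw [Int.cast_natCast] at h1
    omega
  have hr2 : ¬ (r : ℤ) ∣ 1 := by
    intro h1
    have h2 : r ∣ 1 := by exact_mod_cast h1
    exact hr.one_lt.ne' (Nat.dvd_one.mp h2)
  have a1 : ¬ (r : ℤ) ∣ (h : ℤ) := by
    intro h1
    apply hr2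
    have h2 := dvd_sub hr1 (h1.mul_left 2)
    have h3 : ((2 * h + 1 : ℕ) : ℤ) - 2 * (h : ℤ) = 1 := by push_cast; ring
    rwa [h3] at h2
  have a2 : ¬ (r : ℤ) ∣ ((h : ℤ) + 1) := by
    intro h1
    apply hr2
    have h2 := dvd_sub (h1.mul_left 2) hr1
    have h3 : 2 * ((h : ℤ) + 1) - ((2 * h + 1 : ℕ) : ℤ) = 1 := by push_cast; ring
    rwa [h3] at h2
  have a3 : ¬ (r : ℤ) ∣ (2 : ℤ) := by
    intro h1
    apply hr2
    have h2 := dvd_sub hr1 (h1.mul_right (h : ℤ))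
    have h3 : ((2 * h + 1 : ℕ) : ℤ) - 2 * (h : ℤ) = 1 := by push_cast; ring
    rwa [h3] at h2
  refine ⟨?_, ?_, ?_⟩
  · have := ord_int_unit l hr hrl a1
    rwa [Int.cast_natCast] at this
  · have := ord_int_unit l hr hrl a2
    push_cast at this
    exact this
  · have := ord_int_unit l hr hrl a3
    exact_mod_cast this

include hh in
theorem fE_nps (l : HeightOneSpectrum (𝓞 k)) (b y : 𝓞 k) {M : ℕ} (hM : 0 < M)
    (δ : Fin (h - 1) → 𝓞 k) (hb : b ≠ 0) (hy : y ≠ 0) (hV : 0 < ord l ((2 * h + 1 : ℕ) : k))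
    (hlb : ord l (b : k) = 0) (hly : 0 ≤ ord l (y : k))
    (hlt : ord l ((2 * h + 1 : ℕ) : k) + 2 * ord l (y : k) <
      (2 * (h : ℤ) + 1) * ord l ((2 * h + 1 : ℕ) : k))
    (hMl : ord l ((2 * h + 1 : ℕ) : k) + 2 * ord l (y : k) + 1 ≤
      ord l (M : k) - ord l (((2 * h + 2).factorial : ℕ) : k)) :
    NPs l (2 * h + 1) (ord l ((2 * h + 1 : ℕ) : k))
      (ord l ((2 * h + 1 : ℕ) : k) + 2 * ord l (y : k))
      (fE h (b : k) (y : k) (gE h (M : k) (fun j => (δ j : k)))) := by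
  obtain ⟨g1, g2⟩ := gE_monic (k := k) hh (M : k) (fun j => (δ j : k))
  obtain ⟨o1, o2, o3⟩ := ame2_units (h := h) l hV
  set g := gE h (M : k) (fun j => (δ j : k)) with hgdef
  have hbk : (b : k) ≠ 0 := RingOfIntegers.coe_ne_zero_iff.mpr hb
  have hyk : (y : k) ≠ 0 := RingOfIntegers.coe_ne_zero_iff.mpr hy
  obtain ⟨d1, d2⟩ := fE_natDegree (y := (y : k)) hh hbk g1 g2
  have hcl : ∀ i, Ge l (ord l ((2 * h + 1 : ℕ) : k) + 2 * ord l (y : k) + 1)
      ((fE h (b : k) (y : k) g).coeff i - (F2 h (y : k) (b : k)).coeff i) :=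
    fun i => ge_mono l hMl (fE_close hh l b y hM δ i)
  have hn0 : (2 * (h : k) + 1) ≠ 0 := by exact_mod_cast Nat.succ_ne_zero (2 * h)
  have hh0 : (h : k) ≠ 0 := by exact_mod_cast (by omega : h ≠ 0)
  have hh1 : (h : k) + 1 ≠ 0 := by exact_mod_cast Nat.succ_ne_zero h
  have hcast : ((2 * h + 1 : ℕ) : k) = 2 * (h : k) + 1 := by push_cast; ring
  set V := ord l ((2 * h + 1 : ℕ) : k) with hVdef
  have hV' : ord l (2 * (h : k) + 1) = V := by rw [hVdef, hcast]
  have hb2 : ord l ((b : k) ^ 2) = 0 := by rw [ord_pow, hlb, mul_zero]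
  have e1 : (fE h (b : k) (y : k) g).coeff (2 * h + 1) ≠ 0 ∧
      ord l ((fE h (b : k) (y : k) g).coeff (2 * h + 1)) = 0 := by
    have h1 := ame2_F2_coeff h (y : k) (b : k) (i := 2 * h + 1) (by omega)
    rw [if_neg (by omega), if_pos rfl, if_neg (by omega), zero_sub, add_zero] at h1
    have h2 : (b : k) ^ 2 * (4 * (h : k) * (h + 1)) ≠ 0 :=
      mul_ne_zero (pow_ne_zero 2 hbk) (mul_ne_zero (mul_ne_zero (by norm_num) hh0) hh1)
    have h40 : (4 : k) = 2 ^ 2 := by norm_num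
    have h3 : ord l (-((b : k) ^ 2 * (4 * (h : k) * (h + 1)))) = 0 := by
      rw [ord_neg, ord_mul l (pow_ne_zero 2 hbk)
        (mul_ne_zero (mul_ne_zero (by norm_num) hh0) hh1), hb2,
        ord_mul l (mul_ne_zero (by norm_num) hh0) hh1, o2, ord_mul l (by norm_num) hh0, o1, h40,
        ord_pow, o3]
      simp
    have h4 := ord_add_eq l (x := (F2 h (y : k) (b : k)).coeff (2 * h + 1))
      (y := (fE h (b : k) (y : k) g).coeff (2 * h + 1) - (F2 h (y : k) (b : k)).coeff (2 * h + 1))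
      (by rw [h1]; exact neg_ne_zero.mpr h2)
      (ge_mono l (by rw [h1, h3]; omega) (hcl (2 * h + 1)))
    rw [add_sub_cancel] at h4
    refine ⟨h4.1, ?_⟩
    rw [h4.2, h1, h3]
  have e2 : (fE h (b : k) (y : k) g).coeff 0 ≠ 0 ∧
      ord l ((fE h (b : k) (y : k) g).coeff 0) = V + 2 * ord l (y : k) := by
    rw [fE_coeff_zero]
    have h1 : ((dd2 h : ℤ) : k) = (-1) ^ h * ((h : k) * (2 * h + 1)) := by
      unfold dd2
      push_cast
      ring
    have h2 : ((-1 : k)) ^ h ≠ 0 := pow_ne_zero _ (by norm_num)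
    have h3 : ((dd2 h : ℤ) : k) ≠ 0 := by
      rw [h1]
      exact mul_ne_zero h2 (mul_ne_zero hh0 hn0)
    refine ⟨neg_ne_zero.mpr (mul_ne_zero h3 (pow_ne_zero 2 hyk)), ?_⟩
    rw [ord_neg, ord_mul l h3 (pow_ne_zero 2 hyk), h1, ord_mul l h2 (mul_ne_zero hh0 hn0),
      ord_mul l hh0 hn0, ord_pow, ord_pow, ord_neg, ord_one, o1, hV']
    push_cast
    ring
  refine ⟨by omega, ?_, hV, by omega, ?_, ?_, e1.1, e1.2, ?_, ?_, e2.1, e2.2⟩
  · rw [d1]
  · push_cast
    exact hlt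
  · have h1 : (fE h (b : k) (y : k) g).coeff (2 * h + 1 + 1) =
        (h : k) * (2 * h + 1) * (b : k) ^ 2 := by
      rw [← d2, leadingCoeff, d1]
    rw [h1, ord_mul l (mul_ne_zero hh0 hn0) (pow_ne_zero 2 hbk), hb2, ord_mul l hh0 hn0, o1, hV']
    ring
  · rw [show 2 * h + 1 - 1 = 2 * h from rfl]
    have h1 := ame2_F2_coeff h (y : k) (b : k) (i := 2 * h) (by omega)
    rw [if_neg (by omega), if_neg (by omega), if_pos rfl, sub_self, zero_add] at h1
    have h2 : Ge l V ((F2 h (y : k) (b : k)).coeff (2 * h)) := by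
      rw [h1, ge_iff l (mul_ne_zero (pow_ne_zero 2 hbk) (mul_ne_zero hh1 hn0)),
        ord_mul l (pow_ne_zero 2 hbk) (mul_ne_zero hh1 hn0), hb2, ord_mul l hh1 hn0, o2, hV']
      omega
    have h3 := ge_add l (ge_mono l (by omega) (hcl (2 * h))) h2
    rwa [sub_add_cancel] at h3
  · intro i hi1 hi2
    have h1 := ame2_F2_coeff h (y : k) (b : k) (i := i) hi1
    rw [if_neg (by omega), if_neg (by omega), if_neg (by omega), sub_self, zero_add] at h1
    have h2 := hcl i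
    rw [h1, sub_zero] at h2
    exact ge_mono l (by omega) h2

end Close

end Pool.Agent.H9.AM
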