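import Pool.Agent.H9.AM.Defs

/-!
# Project AN2, AM-G4: sizes of the complex roots
-/

set_option autoImplicit false

open Polynomial IsDedekindDomain NumberField

namespace Pool.Agent.H9.AM

open Pool.Agent.H35.AN

theorem root_bounds (n : ℕ) (hn : 0 < n) (lam : ℝ) (hlam : 1 ≤ lam) :
    ∃ mu : ℝ, 1 ≤ mu ∧ ∀ (H : ℝ), 1 ≤ H → ∀ c : ℕ → ℂ,
      (∀ i ≤ n, ‖c i‖ ≤ lam * H ^ (n - i)) → 1 ≤ lam * ‖c n‖ → H ^ n ≤ lam * ‖c 0‖ →
      ∀ x : ℂ, ∑ i ∈ Finset.range (n + 1), c i * x ^ i = 0 → H ≤ mu * ‖x‖ ∧ ‖x‖ ≤ mu * H := by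
  obtain ⟨m, rfl⟩ : ∃ m, n = m + 1 := ⟨n - 1, by omega⟩
  have hlam0 : 0 < lam := by linarith
  have hm0 : (0 : ℝ) ≤ m := Nat.cast_nonneg m
  have hA1 : (1 : ℝ) ≤ (m + 1) * lam ^ 2 := by nlinarith [mul_nonneg hm0 (sq_nonneg lam)]
  refine ⟨(m + 1) * lam ^ 2, hA1, fun H hH c hc h1 h0 x hx => ?_⟩
  have hH0 : 0 < H := by linarith
  constructor
  · by_contra hcon
    push Not at hcon
    have hxH : ‖x‖ ≤ H := by
      have : ‖x‖ ≤ (m + 1) * lam ^ 2 * ‖x‖ := le_mul_of_one_le_left (norm_nonneg _) hA1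
      linarith
    -- isolate the constant term
    rw [Finset.sum_range_succ'] at hx
    have h2 : c 0 = -∑ i ∈ Finset.range (m + 1), c (i + 1) * x ^ (i + 1) := by
      rw [pow_zero, mul_one] at hx
      linear_combination hx
    have h3 : ‖c 0‖ ≤ (m + 1) * (lam * (H ^ m * ‖x‖)) := by
      rw [h2, norm_neg]
      refine (norm_sum_le _ _).trans ?_
      have h4 : ∀ i ∈ Finset.range (m + 1), ‖c (i + 1) * x ^ (i + 1)‖ ≤ lam * (H ^ m * ‖x‖) := by
        intro i hi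
        rw [Finset.mem_range] at hi
        rw [norm_mul, norm_pow]
        calc ‖c (i + 1)‖ * ‖x‖ ^ (i + 1) ≤ (lam * H ^ (m + 1 - (i + 1))) * ‖x‖ ^ (i + 1) :=
              mul_le_mul_of_nonneg_right (hc (i + 1) (by omega)) (by positivity)
          _ = lam * (H ^ (m - i) * ‖x‖ ^ i * ‖x‖) := by
              rw [show m + 1 - (i + 1) = m - i by omega, pow_succ]; ring
          _ ≤ lam * (H ^ (m - i) * H ^ i * ‖x‖) := by
              gcongr
          _ = lam * (H ^ m * ‖x‖) := by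
              rw [← pow_add, show m - i + i = m by omega]
      refine (Finset.sum_le_sum h4).trans ?_
      rw [Finset.sum_const, Finset.card_range, nsmul_eq_mul]
      push_cast
      exact le_rfl
    have h5 : H ^ m * H ≤ H ^ m * ((m + 1) * lam ^ 2 * ‖x‖) := by
      calc H ^ m * H = H ^ (m + 1) := (pow_succ H m).symm
        _ ≤ lam * ‖c 0‖ := h0
        _ ≤ lam * ((m + 1) * (lam * (H ^ m * ‖x‖))) := by gcongr
        _ = H ^ m * ((m + 1) * lam ^ 2 * ‖x‖) := by ring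
    have h6 := le_of_mul_le_mul_left h5 (pow_pos hH0 m)
    linarith
  · by_contra hcon
    push Not at hcon
    have hxH : H ≤ ‖x‖ := by
      have : H ≤ (m + 1) * lam ^ 2 * H := le_mul_of_one_le_left hH0.le hA1
      linarith
    have hx0 : 0 < ‖x‖ := by linarith
    rw [Finset.sum_range_succ] at hx
    have h2 : c (m + 1) * x ^ (m + 1) = -∑ i ∈ Finset.range (m + 1), c i * x ^ i := by
      linear_combination hx
    have h3 : ‖c (m + 1)‖ * ‖x‖ ^ (m + 1) ≤ (m + 1) * (lam * (H * ‖x‖ ^ m)) := by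
      rw [← norm_pow, ← norm_mul, h2, norm_neg]
      refine (norm_sum_le _ _).trans ?_
      have h4 : ∀ i ∈ Finset.range (m + 1), ‖c i * x ^ i‖ ≤ lam * (H * ‖x‖ ^ m) := by
        intro i hi
        rw [Finset.mem_range] at hi
        rw [norm_mul, norm_pow]
        calc ‖c i‖ * ‖x‖ ^ i ≤ (lam * H ^ (m + 1 - i)) * ‖x‖ ^ i :=
              mul_le_mul_of_nonneg_right (hc i (by omega)) (by positivity)
          _ = lam * (H * (H ^ (m - i) * ‖x‖ ^ i)) := by
              rw [show m + 1 - i = (m - i) + 1 by omega, pow_succ]; ring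
          _ ≤ lam * (H * (‖x‖ ^ (m - i) * ‖x‖ ^ i)) := by
              gcongr
          _ = lam * (H * ‖x‖ ^ m) := by
              rw [← pow_add, show m - i + i = m by omega]
      refine (Finset.sum_le_sum h4).trans ?_
      rw [Finset.sum_const, Finset.card_range, nsmul_eq_mul]
      push_cast
      exact le_rfl
    have h5 : ‖x‖ ^ m * ‖x‖ ≤ ‖x‖ ^ m * ((m + 1) * lam ^ 2 * H) := by
      calc ‖x‖ ^ m * ‖x‖ = 1 * ‖x‖ ^ (m + 1) := by rw [pow_succ, one_mul]
        _ ≤ (lam * ‖c (m + 1)‖) * ‖x‖ ^ (m + 1) := by gcongr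
        _ = lam * (‖c (m + 1)‖ * ‖x‖ ^ (m + 1)) := by ring
        _ ≤ lam * ((m + 1) * (lam * (H * ‖x‖ ^ m))) := by gcongr
        _ = ‖x‖ ^ m * ((m + 1) * lam ^ 2 * H) := by ring
    have h6 := le_of_mul_le_mul_left h5 (pow_pos hx0 m)
    linarith

end Pool.Agent.H9.AM
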