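import Pool.Agent.H9.AM.EvBasic
import Pool.Agent.H9.AM.RootSize

/-!
# Project AN2, AM-E6: archimedean sizes, even family
-/

set_option autoImplicit false

open Polynomial IsDedekindDomain NumberField

namespace Pool.Agent.H9.AM

open Pool.Agent.H35.AN

/-- weighted coefficient bound for a product -/
theorem ame6_mul {p q : ℂ[X]} {H cp cq : ℝ} {a b : ℕ} (hH : 0 < H) (hcp : 0 ≤ cp) (hcq : 0 ≤ cq)
    (hp : ∀ i, ‖p.coeff i‖ * H ^ i ≤ cp * H ^ a) (hq : ∀ i, ‖q.coeff i‖ * H ^ i ≤ cq * H ^ b)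
    {N m : ℕ} (hm : m ≤ N) :
    ‖(p * q).coeff m‖ * H ^ m ≤ ((N : ℝ) + 1) * (cp * cq) * H ^ (a + b) := by
  rw [coeff_mul]
  have h0 : (0 : ℝ) ≤ (cp * cq) * H ^ (a + b) := by positivity
  calc ‖∑ x ∈ Finset.HasAntidiagonal.antidiagonal m, p.coeff x.1 * q.coeff x.2‖ * H ^ m
      ≤ (∑ x ∈ Finset.HasAntidiagonal.antidiagonal m, ‖p.coeff x.1 * q.coeff x.2‖) * H ^ m := by
        gcongr
        exact norm_sum_le _ _
    _ = ∑ x ∈ Finset.HasAntidiagonal.antidiagonal m, (‖p.coeff x.1‖ * H ^ x.1) * (‖q.coeff x.2‖ * H ^ x.2) := by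
        rw [Finset.sum_mul]
        refine Finset.sum_congr rfl fun x hx => ?_
        rw [norm_mul, ← Finset.HasAntidiagonal.mem_antidiagonal.1 hx, pow_add]
        ring
    _ ≤ ∑ x ∈ Finset.HasAntidiagonal.antidiagonal m, (cp * cq) * H ^ (a + b) := by
        refine Finset.sum_le_sum fun x _ => ?_
        calc (‖p.coeff x.1‖ * H ^ x.1) * (‖q.coeff x.2‖ * H ^ x.2)
            ≤ (cp * H ^ a) * (cq * H ^ b) :=
              mul_le_mul (hp _) (hq _) (by positivity) (by positivity)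
          _ = _ := by rw [pow_add]; ring
    _ = ((m : ℝ) + 1) * ((cp * cq) * H ^ (a + b)) := by
        rw [Finset.sum_const, Finset.Nat.card_antidiagonal, nsmul_eq_mul]
        push_cast
        ring
    _ ≤ ((N : ℝ) + 1) * ((cp * cq) * H ^ (a + b)) := by
        have : (m : ℝ) ≤ N := by exact_mod_cast hm
        gcongr
    _ = _ := by ring

/-- weighted coefficient bound for `g` -/
theorem ame6_g {k : Type} [Field k] [NumberField k] {h : ℕ} (hh : 2 ≤ h) (M : ℕ) {lam H : ℝ}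
    (hlam : 1 ≤ lam) (hH : 1 ≤ H) (δ : Fin (h - 1) → 𝓞 k) (φ : k →+* ℂ)
    (hδ : ∀ i : Fin (h - 1), ‖φ (δ i : k)‖ ≤ lam * H ^ (h - 1 - (i : ℕ))) (i : ℕ) :
    ‖((gE h (M : k) (fun j => (δ j : k))).map φ).coeff i‖ * H ^ i ≤
      (1 + M * lam) * H ^ (h - 1) := by
  have hH0 : 0 < H := by linarith
  have hM0 : (0 : ℝ) ≤ M := Nat.cast_nonneg M
  have hbase : ‖((X ^ (h - 2) * (X - 1) : k[X]).map φ).coeff i‖ * H ^ i ≤ H ^ (h - 1) := by
    rw [coeff_map, mul_sub, mul_one, ← pow_succ, coeff_sub, coeff_X_pow, coeff_X_pow]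
    rcases eq_or_ne i (h - 2 + 1) with h1 | h1
    · have h2 : i ≠ h - 2 := by omega
      rw [if_pos h1, if_neg h2, sub_zero, map_one, norm_one, one_mul]
      exact pow_le_pow_right₀ hH (by omega)
    · rcases eq_or_ne i (h - 2) with h2 | h2
      · rw [if_neg h1, if_pos h2, zero_sub, map_neg, map_one, norm_neg, norm_one, one_mul]
        exact pow_le_pow_right₀ hH (by omega)
      · rw [if_neg h1, if_neg h2, sub_zero, map_zero, norm_zero, zero_mul]
        positivity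
  have hsp : ‖((spoly (fun j => (δ j : k))).map φ).coeff i‖ * H ^ i ≤ lam * H ^ (h - 1) := by
    rw [coeff_map, spoly_coeff]
    by_cases hi : i < h - 1
    · rw [dif_pos hi]
      calc ‖φ (δ ⟨i, hi⟩ : k)‖ * H ^ i ≤ (lam * H ^ (h - 1 - i)) * H ^ i := by
            gcongr
            exact hδ ⟨i, hi⟩
        _ = lam * H ^ (h - 1) := by rw [mul_assoc, ← pow_add, Nat.sub_add_cancel hi.le]
    · rw [dif_neg hi, map_zero, norm_zero, zero_mul]
      positivity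
  unfold gE
  rw [Polynomial.map_add, coeff_add]
  have hCM : (C (M : k) * spoly (fun j => (δ j : k))).map φ =
      C (φ (M : k)) * (spoly (fun j => (δ j : k))).map φ := by
    rw [Polynomial.map_mul, map_C]
  rw [hCM, coeff_C_mul]
  have hM : ‖φ (M : k)‖ = M := by rw [map_natCast]; simp
  calc ‖((X ^ (h - 2) * (X - 1) : k[X]).map φ).coeff i +
        φ (M : k) * ((spoly (fun j => (δ j : k))).map φ).coeff i‖ * H ^ i
      ≤ (‖((X ^ (h - 2) * (X - 1) : k[X]).map φ).coeff i‖ +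
        M * ‖((spoly (fun j => (δ j : k))).map φ).coeff i‖) * H ^ i := by
        gcongr
        refine (norm_add_le _ _).trans ?_
        rw [norm_mul, hM]
    _ = ‖((X ^ (h - 2) * (X - 1) : k[X]).map φ).coeff i‖ * H ^ i +
        M * (‖((spoly (fun j => (δ j : k))).map φ).coeff i‖ * H ^ i) := by ring
    _ ≤ H ^ (h - 1) + M * (lam * H ^ (h - 1)) := by gcongr
    _ = _ := by ring

/-- the coefficients of the family, mapped to the complex numbers -/
theorem ame6_coeff {k : Type} [Field k] [NumberField k] {h : ℕ} (b y : k) (g : k[X])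
    (φ : k →+* ℂ) (i : ℕ) :
    φ ((fE h b y g).coeff (i + 1)) =
      (kapE h : ℂ) * φ b ^ 2 * (if 3 ≤ i then ((g.map φ) * (g.map φ)).coeff (i - 3) else 0) /
        ((i : ℂ) + 1) := by
  rw [fE_coeff_succ, map_div₀, map_mul, map_mul, map_pow, map_intCast, map_add, map_natCast,
    map_one]
  congr 2
  rw [coeff_X_pow_mul']
  split_ifs with h3
  · rw [← Polynomial.map_mul, coeff_map, sq]
  · rw [map_zero]

theorem sizeE (k : Type) [Field k] [NumberField k] {h : ℕ} (hh : 2 ≤ h) (b : 𝓞 k) (hb : b ≠ 0)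
    (M : ℕ) (lam : ℝ) (hlam : 1 ≤ lam) : ∃ C : ℝ, 1 ≤ C ∧ ∀ H : ℝ, 1 ≤ H →
    ∀ (δ : Fin (h - 1) → 𝓞 k) (y : 𝓞 k),
      (∀ (i : Fin (h - 1)) (φ : k →+* ℂ), ‖φ (δ i : k)‖ ≤ lam * H ^ (h - 1 - (i : ℕ))) →
      Balanced lam (H ^ (h + 1)) y → ∀ φ : k →+* ℂ,
        (∀ i ≤ 2 * h + 2, ‖φ ((fE h (b : k) (y : k) (gE h (M : k) (fun j => (δ j : k)))).coeff i)‖ ≤
          C * H ^ (2 * h + 2 - i)) ∧
        1 ≤ C * ‖φ ((fE h (b : k) (y : k) (gE h (M : k) (fun j => (δ j : k)))).coeff (2 * h + 2))‖ ∧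
        H ^ (2 * h + 2) ≤
          C * ‖φ ((fE h (b : k) (y : k) (gE h (M : k) (fun j => (δ j : k)))).coeff 0)‖ := by
  classical
  have hb0 : (b : k) ≠ 0 := by simpa using hb
  have hφb : ∀ φ : k →+* ℂ, 0 < ‖φ (b : k)‖ := fun φ => norm_pos_iff.2 ((_root_.map_ne_zero φ).2 hb0)
  -- bounds for `b`
  set B1 : ℝ := ∑ φ : k →+* ℂ, ‖φ (b : k)‖ ^ 2 with hB1
  set B2 : ℝ := ∑ φ : k →+* ℂ, (‖φ (b : k)‖ ^ 2)⁻¹ with hB2
  have hB1' : ∀ φ : k →+* ℂ, ‖φ (b : k)‖ ^ 2 ≤ B1 := fun φ =>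
    Finset.single_le_sum (f := fun φ : k →+* ℂ => ‖φ (b : k)‖ ^ 2) (fun _ _ => by positivity)
      (Finset.mem_univ φ)
  have hB2' : ∀ φ : k →+* ℂ, (‖φ (b : k)‖ ^ 2)⁻¹ ≤ B2 := fun φ =>
    Finset.single_le_sum (f := fun φ : k →+* ℂ => (‖φ (b : k)‖ ^ 2)⁻¹) (fun _ _ => by positivity)
      (Finset.mem_univ φ)
  have hB10 : 0 ≤ B1 := Finset.sum_nonneg fun _ _ => by positivity
  have hB20 : 0 ≤ B2 := Finset.sum_nonneg fun _ _ => by positivity
  have hM0 : (0 : ℝ) ≤ M := Nat.cast_nonneg M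
  set K1 : ℝ := |(kapE h : ℝ)| * B1 * ((((2 * h + 2 : ℕ) : ℝ) + 1) *
    ((1 + M * lam) * (1 + M * lam))) with hK1
  set K2 : ℝ := |(dd2 h : ℝ)| * lam ^ 2 with hK2
  have hK10 : 0 ≤ K1 := by positivity
  have hK20 : 0 ≤ K2 := by positivity
  refine ⟨K1 + K2 + B2 + lam ^ 2 + 1, by nlinarith [sq_nonneg lam], ?_⟩
  intro H hH δ y hδ hy φ
  have hH0 : 0 < H := by linarith
  set g := gE h (M : k) (fun j => (δ j : k)) with hg
  have hgb := fun i => ame6_g hh M hlam hH δ φ (fun i => hδ i φ) i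
  rw [← hg] at hgb
  have hHp : ∀ n : ℕ, (1 : ℝ) ≤ H ^ n := fun n => one_le_pow₀ hH
  refine ⟨?_, ?_, ?_⟩
  · intro i hi
    rcases Nat.eq_zero_or_pos i with rfl | hi0
    · rw [fE_coeff_zero, map_neg, norm_neg, map_mul, map_pow, map_intCast, norm_mul, norm_pow,
        Complex.norm_intCast, Nat.sub_zero]
      calc |(dd2 h : ℝ)| * ‖φ (y : k)‖ ^ 2 ≤ |(dd2 h : ℝ)| * (lam * H ^ (h + 1)) ^ 2 := by
            gcongr
            exact (hy φ).2
        _ = K2 * H ^ (2 * h + 2) := by rw [hK2, mul_pow, ← pow_mul]; ring_nf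
        _ ≤ _ := by
          gcongr
          nlinarith [sq_nonneg lam]
    · obtain ⟨j, rfl⟩ : ∃ j, i = j + 1 := ⟨i - 1, by omega⟩
      rw [ame6_coeff]
      have hstep : ‖(if 3 ≤ j then ((g.map φ) * (g.map φ)).coeff (j - 3) else 0 : ℂ)‖ ≤
          (((2 * h + 2 : ℕ) : ℝ) + 1) * ((1 + M * lam) * (1 + M * lam)) *
            H ^ (2 * h + 2 - (j + 1)) := by
        split_ifs with h3
        · have h4 := ame6_mul hH0 (by positivity) (by positivity) hgb hgb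
            (N := 2 * h + 2) (m := j - 3) (by omega)
          have h5 : H ^ (h - 1 + (h - 1)) = H ^ (2 * h + 2 - (j + 1)) * H ^ (j - 3) := by
            rw [← pow_add]
            congr 1
            omega
          rw [h5, ← mul_assoc] at h4
          exact le_of_mul_le_mul_right h4 (by positivity)
        · rw [norm_zero]
          positivity
      rw [norm_div, norm_mul, norm_mul, norm_pow, Complex.norm_intCast]
      have hden : (1 : ℝ) ≤ ‖((j : ℂ) + 1)‖ := by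
        have : ((j : ℂ) + 1) = ((j + 1 : ℕ) : ℂ) := by push_cast; ring
        rw [this, Complex.norm_natCast]
        exact_mod_cast Nat.succ_le_succ (Nat.zero_le j)
      refine (div_le_self (by positivity) hden).trans ?_
      calc |(kapE h : ℝ)| * ‖φ (b : k)‖ ^ 2 *
            ‖(if 3 ≤ j then ((g.map φ) * (g.map φ)).coeff (j - 3) else 0 : ℂ)‖
          ≤ |(kapE h : ℝ)| * B1 * ((((2 * h + 2 : ℕ) : ℝ) + 1) *
            ((1 + M * lam) * (1 + M * lam)) * H ^ (2 * h + 2 - (j + 1))) := by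
            gcongr
            exact hB1' φ
        _ = K1 * H ^ (2 * h + 2 - (j + 1)) := by rw [hK1]; ring
        _ ≤ _ := by
          gcongr
          nlinarith [sq_nonneg lam]
  · obtain ⟨hgm, hgd⟩ := gE_monic (k := k) hh (M : k) (fun j => (δ j : k))
    obtain ⟨h1, h2⟩ := fE_natDegree hh (y := (y : k)) hb0 hgm hgd
    have h3 : (fE h (b : k) (y : k) g).coeff (2 * h + 2) = (h : k) * (2 * h + 1) * (b : k) ^ 2 := by
      rw [← h2, leadingCoeff, h1]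
    rw [h3, map_mul, map_pow, norm_mul, norm_pow]
    have h4 : (1 : ℝ) ≤ ‖φ ((h : k) * (2 * h + 1))‖ := by
      have : (h : k) * (2 * h + 1) = ((h * (2 * h + 1) : ℕ) : k) := by push_cast; ring
      rw [this, map_natCast, Complex.norm_natCast]
      exact_mod_cast Nat.mul_pos (by omega) (by omega)
    have h5 : 1 ≤ B2 * ‖φ (b : k)‖ ^ 2 := by
      have := hB2' φ
      have h6 : 0 < ‖φ (b : k)‖ ^ 2 := pow_pos (hφb φ) 2
      calc (1 : ℝ) = (‖φ (b : k)‖ ^ 2)⁻¹ * ‖φ (b : k)‖ ^ 2 := (inv_mul_cancel₀ h6.ne').symm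
        _ ≤ _ := by gcongr
    calc (1 : ℝ) ≤ B2 * ‖φ (b : k)‖ ^ 2 := h5
      _ ≤ (K1 + K2 + B2 + lam ^ 2 + 1) * ‖φ (b : k)‖ ^ 2 := by
        gcongr
        nlinarith [sq_nonneg lam]
      _ ≤ (K1 + K2 + B2 + lam ^ 2 + 1) * (‖φ ((h : k) * (2 * h + 1))‖ * ‖φ (b : k)‖ ^ 2) := by
        gcongr
        exact le_mul_of_one_le_left (by positivity) h4
  · rw [fE_coeff_zero, map_neg, norm_neg, map_mul, map_pow, map_intCast, norm_mul, norm_pow,
      Complex.norm_intCast]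
    have hd : (1 : ℝ) ≤ |(dd2 h : ℝ)| := by
      have h1 : dd2 h ≠ 0 := by
        unfold dd2
        refine mul_ne_zero (pow_ne_zero _ (by norm_num)) ?_
        have : 0 < (h : ℤ) * (2 * h + 1) := by positivity
        exact this.ne'
      have h2 : (1 : ℤ) ≤ |dd2 h| := Int.one_le_abs h1
      exact_mod_cast h2
    have h1 : (H ^ (h + 1)) ^ 2 ≤ (lam * ‖φ (y : k)‖) ^ 2 := by
      gcongr
      exact (hy φ).1
    calc H ^ (2 * h + 2) = (H ^ (h + 1)) ^ 2 := by rw [← pow_mul]; ring_nf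
      _ ≤ (lam * ‖φ (y : k)‖) ^ 2 := h1
      _ = lam ^ 2 * (1 * ‖φ (y : k)‖ ^ 2) := by ring
      _ ≤ (K1 + K2 + B2 + lam ^ 2 + 1) * (|(dd2 h : ℝ)| * ‖φ (y : k)‖ ^ 2) := by
        gcongr
        linarith

theorem conjE (k : Type) [Field k] [NumberField k] {h : ℕ} (hh : 2 ≤ h) (b : 𝓞 k) (hb : b ≠ 0)
    (M : ℕ) (lam : ℝ) (hlam : 1 ≤ lam) : ∃ mu : ℝ, 1 ≤ mu ∧ ∀ H : ℝ, 1 ≤ H →
    ∀ (δ : Fin (h - 1) → 𝓞 k) (y : 𝓞 k),
      (∀ (i : Fin (h - 1)) (φ : k →+* ℂ), ‖φ (δ i : k)‖ ≤ lam * H ^ (h - 1 - (i : ℕ))) →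
      Balanced lam (H ^ (h + 1)) y → ∀ (K : Type) [Field K] [NumberField K] [Algebra k K] (x : K),
      ((fE h (b : k) (y : k) (gE h (M : k) (fun j => (δ j : k)))).map (algebraMap k K)).eval x = 0 →
      ∀ φ : K →+* ℂ, H ≤ mu * ‖φ x‖ ∧ ‖φ x‖ ≤ mu * H := by
  obtain ⟨C, hC, hsize⟩ := sizeE k hh b hb M lam hlam
  obtain ⟨mu, hmu, hroot⟩ := root_bounds (2 * h + 2) (by omega) C hC
  refine ⟨mu, hmu, ?_⟩
  intro H hH δ y hδ hy K _ _ _ x hx φ
  obtain ⟨h1, h2, h3⟩ := hsize H hH δ y hδ hy (φ.comp (algebraMap k K))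
  set f := fE h (b : k) (y : k) (gE h (M : k) (fun j => (δ j : k))) with hf
  refine hroot H hH (fun i => (φ.comp (algebraMap k K)) (f.coeff i)) h1 h2 h3 (φ x) ?_
  have hb0 : (b : k) ≠ 0 := by simpa using hb
  obtain ⟨hgm, hgd⟩ := gE_monic (k := k) hh (M : k) (fun j => (δ j : k))
  obtain ⟨hd, -⟩ := fE_natDegree hh (y := (y : k)) hb0 hgm hgd
  have h4 : (f.map (algebraMap k K)).natDegree < 2 * h + 2 + 1 := by
    rw [natDegree_map]
    exact Nat.lt_succ_of_le hd.le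
  have h5 := congrArg φ hx
  rw [eval_eq_sum_range' h4, map_sum, map_zero] at h5
  rw [← h5]
  refine Finset.sum_congr rfl fun i _ => ?_
  rw [map_mul, map_pow, coeff_map]
  rfl

end Pool.Agent.H9.AM
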