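import Pool.Agent.H9.AM.EvBasic
import Pool.Agent.H9.AM.EvClose
import Pool.Agent.H9.AM.EvSize
import Pool.Agent.H35.AN.Val
import Pool.Agent.H35.AN.DiscLe

/-!
# AM-E7: the discriminant bound, even family
-/

set_option autoImplicit false

open Polynomial IsDedekindDomain NumberField

namespace Pool.Agent.H9.AM

open Pool.Agent.H35.AN

/-- the leading coefficient times a root is integral -/
theorem amE7_int_lc {K : Type*} [Field K] (n : ℕ) (c : ℕ → K) (hc : ∀ i, IsIntegral ℤ (c i))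
    {x : K} (hx : ∑ i ∈ Finset.range (n + 1), c i * x ^ i = 0) : IsIntegral ℤ (c n * x) := by
  by_cases h0 : c n = 0
  · rw [h0, zero_mul]; exact isIntegral_zero
  let d : ℕ → integralClosure ℤ K := fun i => ⟨c i, hc i⟩
  have hd0 : d n ≠ 0 := by
    intro h
    exact h0 (congrArg Subtype.val h)
  let p : (integralClosure ℤ K)[X] := ∑ i ∈ Finset.range (n + 1), C (d i) * X ^ i
  have hcoeff : ∀ m, p.coeff m = if m < n + 1 then d m else 0 := by
    intro m
    simp only [p, finsetSum_coeff, coeff_C_mul_X_pow]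
    rw [Finset.sum_ite_eq]
    simp only [Finset.mem_range]
  have hpn : p.coeff n = d n := by rw [hcoeff, if_pos (by omega)]
  have hdeg : p.natDegree = n := by
    refine natDegree_eq_of_le_of_coeff_ne_zero ?_ (by rw [hpn]; exact hd0)
    rw [natDegree_le_iff_coeff_eq_zero]
    intro N hN
    rw [hcoeff, if_neg (by omega)]
  have hlc : p.leadingCoeff = d n := by rw [leadingCoeff, hdeg, hpn]
  have hp : aeval x p = 0 := by
    simp only [p, map_sum, map_mul, aeval_C, map_pow, aeval_X]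
    exact hx
  have h1 := isIntegral_leadingCoeff_smul p x hp
  rw [hlc] at h1
  have h2 : IsIntegral (integralClosure ℤ K) (c n * x) := h1
  exact isIntegral_trans (R := ℤ) (A := integralClosure ℤ K) _ h2

theorem amE7_int_z {K : Type*} [Field K] [CharZero K] {n : ℕ} (hn : 4 ≤ n) (c : ℕ → K)
    (hc : ∀ i, IsIntegral ℤ (c i)) {x y : K} {d : ℤ} (hx0 : x ≠ 0)
    (hx : ∑ i ∈ Finset.range (n + 1), c i * x ^ i = 0) (h0 : c 0 = -((d : K) * y ^ 2))
    (hlow : ∀ i, 1 ≤ i → i ≤ 3 → c i = 0) {j : ℕ} (hj : j ≤ 2) :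
    IsIntegral ℤ ((d : K) * c n ^ n * y / x ^ j) := by
  have hal : IsIntegral ℤ (c n * x) := amE7_int_lc n c hc hx
  have hsum : (d : K) * y ^ 2 = ∑ m ∈ Finset.range (n - 3), c (m + 4) * x ^ (m + 4) := by
    obtain ⟨r, rfl⟩ : ∃ r, n = r + 4 := ⟨n - 4, by omega⟩
    have e1 : r + 4 + 1 = (r + 1) + 4 := by omega
    have e2 : r + 4 - 3 = r + 1 := by omega
    rw [e1, Finset.sum_range_succ', Finset.sum_range_succ', Finset.sum_range_succ',
      Finset.sum_range_succ'] at hx
    rw [h0, hlow (0 + 1) (by omega) (by omega), hlow (0 + 1 + 1) (by omega) (by omega),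
      hlow (0 + 1 + 1 + 1) (by omega) (by omega)] at hx
    rw [e2]
    have e3 : ∑ m ∈ Finset.range (r + 1), c (m + 4) * x ^ (m + 4) =
        ∑ m ∈ Finset.range (r + 1), c (m + 1 + 1 + 1 + 1) * x ^ (m + 1 + 1 + 1 + 1) := rfl
    rw [e3]
    linear_combination (-1 : K) * hx
  refine IsIntegral.of_pow (n := 2) (by norm_num) ?_
  have key : ((d : K) * c n ^ n * y / x ^ j) ^ 2 = ∑ m ∈ Finset.range (n - 3),
      (d : K) * c (m + 4) * (c n ^ (2 * n - (m + 4 - 2 * j)) * (c n * x) ^ (m + 4 - 2 * j)) := by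
    have hxj : (x ^ j) ^ 2 ≠ 0 := pow_ne_zero _ (pow_ne_zero _ hx0)
    rw [div_pow, div_eq_iff hxj, Finset.sum_mul]
    have e4 : ((d : K) * c n ^ n * y) ^ 2 = (d : K) * c n ^ (2 * n) * ((d : K) * y ^ 2) := by ring
    rw [e4, hsum, Finset.mul_sum]
    refine Finset.sum_congr rfl fun m hm => ?_
    rw [Finset.mem_range] at hm
    have e5 : c n ^ (2 * n) = c n ^ (2 * n - (m + 4 - 2 * j)) * c n ^ (m + 4 - 2 * j) := by
      rw [← pow_add]; congr 1; omega
    have e6 : x ^ (m + 4) = x ^ (m + 4 - 2 * j) * (x ^ j) ^ 2 := by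
      rw [← pow_mul, ← pow_add]; congr 1; omega
    rw [e5, e6, mul_pow]
    ring
  rw [key]
  have hd : IsIntegral ℤ (d : K) := by
    have := isIntegral_algebraMap (R := ℤ) (A := K) (x := d)
    simpa using this
  refine IsIntegral.sum _ fun m _ => ?_
  exact (hd.mul (hc _)).mul (((hc n).pow _).mul (hal.pow _))

/-- powers of a generator are independent -/
theorem amE7_linInd {k K : Type*} [Field k] [Field K] [Algebra k K] {n : ℕ} {x : K}
    [FiniteDimensional k K] (hn : Module.finrank k K = n)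
    (hgen : IntermediateField.adjoin k {x} = ⊤) (c : Fin n → k)
    (hc : ∀ j, c j ≠ 0) (ω : Fin n → K)
    (hω : ∀ j, x ^ 2 * ω j = algebraMap k K (c j) * x ^ (j : ℕ)) : LinearIndependent k ω := by
  have hxi : IsIntegral k x := IsIntegral.of_finite k x
  have hdeg : (minpoly k x).natDegree = n := by
    rw [← IntermediateField.adjoin.finrank hxi, hgen, IntermediateField.finrank_top', hn]
  have hli := linearIndependent_pow (K := k) x
  rw [hdeg] at hli
  rw [Fintype.linearIndependent_iff] at hli ⊢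
  intro g hg j
  have h1 := hli (fun i => g i * c i) (by
    have h2 : x ^ 2 * ∑ i, g i • ω i = 0 := by rw [hg, mul_zero]
    rw [← h2, Finset.mul_sum]
    refine Finset.sum_congr rfl fun i _ => ?_
    rw [mul_smul_comm, hω, Algebra.smul_def, Algebra.smul_def, map_mul]
    ring) j
  exact (mul_eq_zero.1 h1).resolve_right (hc j)

/-- the exponents -/
def amE7_e (h j : ℕ) : ℕ := if j = 0 then h - 1 else if j = 1 then h else j - 2

theorem amE7_sum (h : ℕ) (hh : 2 ≤ h) :
    ∑ j : Fin (2 * h + 2), amE7_e h (j : ℕ) = (h + 1) * (2 * h - 1) := by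
  rw [Fin.sum_univ_eq_sum_range (fun j => amE7_e h j), Finset.sum_range_succ', Finset.sum_range_succ']
  have h1 : ∑ j ∈ Finset.range (2 * h), amE7_e h (j + 1 + 1) = ∑ j ∈ Finset.range (2 * h), j := by
    refine Finset.sum_congr rfl fun j _ => ?_
    unfold amE7_e
    rw [if_neg (by omega), if_neg (by omega)]
    omega
  rw [h1]
  have h2 := Finset.sum_range_id_mul_two (2 * h)
  have h3 : amE7_e h (0 + 1) = h := by unfold amE7_e; simp
  have h4 : amE7_e h 0 = h - 1 := by unfold amE7_e; simp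
  rw [h3, h4]
  obtain ⟨m, rfl⟩ : ∃ m, h = m + 1 := ⟨h - 1, by omega⟩
  have e1 : 2 * (m + 1) - 1 = 2 * m + 1 := by omega
  rw [e1] at h2 ⊢
  have e2 : m + 1 - 1 = m := by omega
  rw [e2]
  nlinarith

theorem discr_leE (k : Type) [Field k] [NumberField k] {h : ℕ} (hh : 2 ≤ h) (b : 𝓞 k)
    (hb : b ≠ 0) {M : ℕ} (hM : 0 < M) (hfac : (2 * h + 2).factorial ∣ M) (lam : ℝ)
    (hlam : 1 ≤ lam) : ∃ C : ℝ, 0 < C ∧ ∀ H : ℝ, 1 ≤ H →
    ∀ (δ : Fin (h - 1) → 𝓞 k) (y : 𝓞 k),
      (∀ (i : Fin (h - 1)) (φ : k →+* ℂ), ‖φ (δ i : k)‖ ≤ lam * H ^ (h - 1 - (i : ℕ))) →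
      Balanced lam (H ^ (h + 1)) y → ∀ (K : Type) [Field K] [NumberField K] [Algebra k K] (x : K),
      Module.finrank k K = 2 * h + 2 → IntermediateField.adjoin k {x} = ⊤ →
      ((fE h (b : k) (y : k) (gE h (M : k) (fun j => (δ j : k)))).map (algebraMap k K)).eval x = 0 →
      |(NumberField.discr K : ℝ)| ≤
        C * H ^ (Module.finrank ℚ k * ((2 * h + 2) * (2 * h - 1))) := by
  obtain ⟨C0, hC0, hC⟩ := discr_le_rel k (2 * h + 2)
  obtain ⟨mu, hmu, hconj⟩ := conjE k hh b hb M lam hlam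
  have hlam0 : 0 < lam := by linarith
  have hmu0 : 0 < mu := by linarith
  set a : k := (h : k) * (2 * h + 1) * (b : k) ^ 2 with ha
  have hbk : (b : k) ≠ 0 := by
    intro h0; exact hb (RingOfIntegers.ext h0)
  have ha0 : a ≠ 0 := by
    have h1 : (h : k) * (2 * h + 1) ≠ 0 := by
      have : (h : k) * (2 * h + 1) = ((h * (2 * h + 1) : ℕ) : k) := by push_cast; ring
      rw [this, Nat.cast_ne_zero]; positivity
    exact mul_ne_zero h1 (pow_ne_zero _ hbk)
  set β : ℝ := 1 + ∑ ψ : k →+* ℂ, ‖ψ a‖ with hβ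
  have hβ1 : 1 ≤ β := by
    have : 0 ≤ ∑ ψ : k →+* ℂ, ‖ψ a‖ := Finset.sum_nonneg fun _ _ => norm_nonneg _
    linarith
  have hβ0 : 0 < β := by linarith
  have hβa : ∀ ψ : k →+* ℂ, ‖ψ a‖ ≤ β := by
    intro ψ
    have := Finset.single_le_sum (f := fun ψ : k →+* ℂ => ‖ψ a‖)
      (fun _ _ => norm_nonneg _) (Finset.mem_univ ψ)
    linarith
  set E : ℝ := (β * mu) ^ (2 * h + 2) + |(dd2 h : ℝ)| * β ^ (2 * h + 2) * lam * mu ^ 2 with hE
  have hE0 : 0 < E := by positivity
  refine ⟨C0 * E ^ ((2 * h + 2) * (2 * Module.finrank ℚ k)), by positivity, ?_⟩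
  intro H hH δ y hδ hy K _ _ _ x hn hgen hx
  have hH0 : 0 < H := by linarith
  have hyk : (y : k) ≠ 0 := by
    intro h0
    obtain ⟨φ⟩ : Nonempty (k →+* ℂ) := inferInstance
    have := (hy φ).1
    rw [h0, map_zero, norm_zero, mul_zero] at this
    have h2 : 0 < H ^ (h + 1) := by positivity
    linarith
  have : FiniteDimensional k K := Module.finite_of_finrank_pos (by rw [hn]; omega)
  obtain ⟨hgm, hgd⟩ := gE_monic hh (M : k) (fun j => (δ j : k))
  obtain ⟨hFd, hFl⟩ := fE_natDegree hh (b := (b : k)) (y := (y : k)) hbk hgm hgd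
  have hFint := fE_integral hh b y hM hfac δ
  have hlow := fun i => fE_coeff_low h (b : k) (y : k) (gE h (M : k) (fun j => (δ j : k))) (i := i)
  have hF0 := fE_coeff_zero h (b : k) (y : k) (gE h (M : k) (fun j => (δ j : k)))
  have hcj := hconj H hH δ y hδ hy K x hx
  set F : k[X] := fE h (b : k) (y : k) (gE h (M : k) (fun j => (δ j : k))) with hF
  set c : ℕ → K := fun i => algebraMap k K (F.coeff i) with hc
  have hFn : F.coeff (2 * h + 2) = a := by
    rw [← hFd]; exact hFl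
  have hcn : c (2 * h + 2) = algebraMap k K a := by rw [hc]; simp only; rw [hFn]
  have hcint : ∀ i, IsIntegral ℤ (c i) := fun i =>
    (hFint i).map (IsScalarTower.toAlgHom ℤ k K)
  have hxs : ∑ i ∈ Finset.range (2 * h + 2 + 1), c i * x ^ i = 0 := by
    rw [eval_map_algebraMap, aeval_eq_sum_range, hFd] at hx
    rw [← hx]
    exact Finset.sum_congr rfl fun i _ => by rw [Algebra.smul_def]
  have hc0 : c 0 = -(((dd2 h : ℤ) : K) * (algebraMap k K (y : k)) ^ 2) := by
    rw [hc]; simp only; rw [hF0, map_neg, map_mul, map_pow, map_intCast]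
  have hclow : ∀ i, 1 ≤ i → i ≤ 3 → c i = 0 := by
    intro i h1 h3
    rw [hc]; simp only; rw [hlow i h1 h3, map_zero]
  have hd0 : dd2 h ≠ 0 := by unfold dd2; positivity
  have hdK : ((dd2 h : ℤ) : K) ≠ 0 := by rw [Int.cast_ne_zero]; exact hd0
  have hdk : ((dd2 h : ℤ) : k) ≠ 0 := by rw [Int.cast_ne_zero]; exact hd0
  have hyK : algebraMap k K (y : k) ≠ 0 := by simpa using hyk
  have hx0 : x ≠ 0 := by
    rintro rfl
    rw [Finset.sum_range_succ', Finset.sum_eq_zero, zero_add, pow_zero, mul_one, hc0,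
      neg_eq_zero] at hxs
    · exact mul_ne_zero hdK (pow_ne_zero _ hyK) hxs
    · intro i _
      rw [zero_pow (by omega), mul_zero]
  -- the family
  set z : k := (dd2 h : k) * a ^ (2 * h + 2) * (y : k) with hz
  have hz0 : z ≠ 0 := mul_ne_zero (mul_ne_zero hdk (pow_ne_zero _ ha0)) hyk
  set ω : Fin (2 * h + 2) → K := fun j => if (j : ℕ) = 0 then algebraMap k K z / x ^ 2
    else if (j : ℕ) = 1 then algebraMap k K z / x ^ 1 else (algebraMap k K a * x) ^ ((j : ℕ) - 2)
    with hω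
  have hzK : algebraMap k K z = ((dd2 h : ℤ) : K) * c (2 * h + 2) ^ (2 * h + 2) *
      algebraMap k K (y : k) := by
    rw [hz, hcn, map_mul, map_mul, map_pow, map_intCast]
  have hωint : ∀ j, IsIntegral ℤ (ω j) := by
    intro j
    rw [hω]
    simp only
    split_ifs with h1 h2
    · rw [hzK]
      exact amE7_int_z (by omega) c hcint hx0 hxs hc0 hclow le_rfl
    · rw [hzK]
      exact amE7_int_z (by omega) c hcint hx0 hxs hc0 hclow (by norm_num)
    · rw [← hcn]
      exact (amE7_int_lc _ c hcint hxs).pow _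
  have hli : LinearIndependent k ω := by
    refine amE7_linInd hn hgen (fun j => if (j : ℕ) = 0 then z else if (j : ℕ) = 1 then z
      else a ^ ((j : ℕ) - 2)) ?_ ω ?_
    · intro j
      split_ifs
      · exact hz0
      · exact hz0
      · exact pow_ne_zero _ ha0
    · intro j
      rw [hω]
      simp only
      split_ifs with h1 h2
      · rw [h1]; field_simp
      · rw [h2]; field_simp
      · have e1 : x ^ (j : ℕ) = x ^ 2 * x ^ ((j : ℕ) - 2) := by
          rw [← pow_add]; congr 1; omega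
        rw [e1, map_pow, mul_pow]; ring
  have hbd : ∀ (φ : K →+* ℂ) (j : Fin (2 * h + 2)), ‖φ (ω j)‖ ≤ E * H ^ amE7_e h (j : ℕ) := by
    intro φ j
    have hφy := (hy (φ.comp (algebraMap k K))).2
    have hφa := hβa (φ.comp (algebraMap k K))
    rw [RingHom.comp_apply] at hφy hφa
    obtain ⟨hx1, hx2⟩ := hcj φ
    have hφx0 : 0 < ‖φ x‖ := norm_pos_iff.2 (by simpa using hx0)
    have hφz : ‖φ (algebraMap k K z)‖ ≤ |(dd2 h : ℝ)| * β ^ (2 * h + 2) * (lam * H ^ (h + 1)) := by
      have e0 : φ (algebraMap k K z) = ((dd2 h : ℤ) : ℂ) * φ (algebraMap k K a) ^ (2 * h + 2) *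
          φ (algebraMap k K (y : k)) := by
        rw [hzK, hcn, map_mul, map_mul, map_pow, map_intCast]
      rw [e0, norm_mul, norm_mul, norm_pow, Complex.norm_intCast]
      gcongr
    have hdiv : ∀ i ≤ 2, ‖φ (algebraMap k K z / x ^ i)‖ ≤ E * H ^ (h + 1 - i) := by
      intro i hi
      rw [map_div₀, map_pow, norm_div, norm_pow, div_le_iff₀ (by positivity)]
      calc ‖φ (algebraMap k K z)‖
          ≤ |(dd2 h : ℝ)| * β ^ (2 * h + 2) * (lam * H ^ (h + 1)) := hφz
        _ = |(dd2 h : ℝ)| * β ^ (2 * h + 2) * lam * H ^ (h + 1 - i) * H ^ i := by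
            have : H ^ (h + 1) = H ^ (h + 1 - i) * H ^ i := by
              rw [← pow_add]; congr 1; omega
            rw [this]; ring
        _ ≤ |(dd2 h : ℝ)| * β ^ (2 * h + 2) * lam * H ^ (h + 1 - i) * (mu * ‖φ x‖) ^ i := by
            gcongr
        _ = |(dd2 h : ℝ)| * β ^ (2 * h + 2) * lam * mu ^ i * H ^ (h + 1 - i) * ‖φ x‖ ^ i := by
            rw [mul_pow]; ring
        _ ≤ |(dd2 h : ℝ)| * β ^ (2 * h + 2) * lam * mu ^ 2 * H ^ (h + 1 - i) * ‖φ x‖ ^ i := by
            gcongr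
        _ ≤ E * H ^ (h + 1 - i) * ‖φ x‖ ^ i := by
            gcongr
            rw [hE]
            have : 0 ≤ (β * mu) ^ (2 * h + 2) := by positivity
            linarith
    rw [hω]
    simp only
    split_ifs with h1 h2
    · have e1 : amE7_e h (j : ℕ) = h + 1 - 2 := by unfold amE7_e; rw [if_pos h1]; omega
      rw [e1]
      exact hdiv 2 le_rfl
    · have e1 : amE7_e h (j : ℕ) = h + 1 - 1 := by
        unfold amE7_e; rw [if_neg h1, if_pos h2]; omega
      rw [e1]
      exact hdiv 1 (by norm_num)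
    · have e1 : amE7_e h (j : ℕ) = (j : ℕ) - 2 := by
        unfold amE7_e; rw [if_neg h1, if_neg h2]
      rw [e1, map_pow, map_mul, norm_pow, norm_mul]
      have hj := j.2
      calc (‖φ (algebraMap k K a)‖ * ‖φ x‖) ^ ((j : ℕ) - 2)
          ≤ (β * (mu * H)) ^ ((j : ℕ) - 2) := by gcongr
        _ = (β * mu) ^ ((j : ℕ) - 2) * H ^ ((j : ℕ) - 2) := by rw [← mul_assoc, mul_pow]
        _ ≤ (β * mu) ^ (2 * h + 2) * H ^ ((j : ℕ) - 2) := by
            gcongr
            · nlinarith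
            · omega
        _ ≤ E * H ^ ((j : ℕ) - 2) := by
            gcongr
            rw [hE]
            have : 0 ≤ |(dd2 h : ℝ)| * β ^ (2 * h + 2) * lam * mu ^ 2 := by positivity
            linarith
  have hfin := hC K hn ω hωint hli (fun j => E * H ^ amE7_e h (j : ℕ)) hbd
  rw [Finset.prod_mul_distrib, Finset.prod_const, Finset.card_univ, Fintype.card_fin,
    Finset.prod_pow_eq_pow_sum, amE7_sum h hh] at hfin
  refine hfin.trans (le_of_eq ?_)
  rw [mul_pow, ← pow_mul, ← pow_mul]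
  rw [show Module.finrank ℚ k * ((2 * h + 2) * (2 * h - 1)) =
    (h + 1) * (2 * h - 1) * (2 * Module.finrank ℚ k) by ring]
  ring

end Pool.Agent.H9.AM
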