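import Pool.Agent.H35.AN.Val
import Pool.Agent.H35.AN.Tower
import Pool.Agent.H35.AN.Ram
import Pool.Agent.H9.AM.EvBasic

/-!
# Project AN2 (MP_a3214d): no root in `k` and the visible primes, even family
-/

set_option autoImplicit false

open Polynomial IsDedekindDomain NumberField

namespace Pool.Agent.H9.AM

open Pool.Agent.H35.AN

section Coeffs

variable {k : Type} [Field k] [NumberField k]

/-- The constants of the even family are units. -/
theorem ame5_units {h : ℕ} (hh : 2 ≤ h) (p : HeightOneSpectrum (𝓞 k))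
    (hu : UnitsUpTo p (2 * h + 2)) :
    (((h : k) * (2 * h + 1)) ≠ 0 ∧ ord p ((h : k) * (2 * h + 1)) = 0) ∧
      (((dd2 h : ℤ) : k) ≠ 0 ∧ ord p ((dd2 h : ℤ) : k) = 0) := by
  have o1 : ord p (h : k) = 0 := hu h (by omega) (by omega)
  have o3 : ord p (2 * (h : k) + 1) = 0 := by
    have h1 := hu (2 * h + 1) (by omega) (by omega)
    push_cast at h1
    exact h1
  have n1 : (h : k) ≠ 0 := Nat.cast_ne_zero.mpr (by omega)
  have n3 : 2 * (h : k) + 1 ≠ 0 := by exact_mod_cast (show 2 * h + 1 ≠ 0 by omega)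
  have n5 : ((-1 : k) ^ h) ≠ 0 := pow_ne_zero _ (by norm_num)
  have o5 : ord p ((-1 : k) ^ h) = 0 := by rw [ord_pow, ord_neg, ord_one, mul_zero]
  have hd : ((dd2 h : ℤ) : k) = (-1 : k) ^ h * ((h : k) * (2 * h + 1)) := by
    unfold dd2
    push_cast
    ring
  refine ⟨⟨mul_ne_zero n1 n3, ?_⟩, ?_⟩
  · rw [ord_mul p n1 n3, o1, o3, add_zero]
  · rw [hd]
    refine ⟨mul_ne_zero n5 (mul_ne_zero n1 n3), ?_⟩
    rw [ord_mul p n5 (mul_ne_zero n1 n3), ord_mul p n1 n3, o5, o1, o3, add_zero, add_zero]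

theorem ame5_sq {g : k[X]} (p : HeightOneSpectrum (𝓞 k)) (hgi : ∀ i, Ge p 0 (g.coeff i))
    (i : ℕ) : Ge p 0 ((X ^ 3 * g ^ 2).coeff i) := by
  rw [coeff_X_pow_mul']
  split_ifs with h3
  · rw [sq, coeff_mul]
    refine ge_sum p _ _ fun j _ => ?_
    have := ge_mul p (hgi j.1) (hgi j.2)
    rwa [add_zero] at this
  · exact ge_zero p 0

theorem ame5_coeff {h : ℕ} (b y : k) (hb : b ≠ 0) {g : k[X]} (p : HeightOneSpectrum (𝓞 k))
    (hu : UnitsUpTo p (2 * h + 2)) (hgi : ∀ i, Ge p 0 (g.coeff i)) {i : ℕ}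
    (h1 : 1 ≤ i) (h2 : i ≤ 2 * h + 2) : Ge p (2 * ord p b) ((fE h b y g).coeff i) := by
  obtain ⟨j, rfl⟩ : ∃ j, i = j + 1 := ⟨i - 1, by omega⟩
  rw [fE_coeff_succ, div_eq_mul_inv]
  have e1 : Ge p 0 ((kapE h : ℤ) : k) := ge_int p _
  have e2 : Ge p (2 * ord p b) (b ^ 2) := by
    rw [ge_iff p (pow_ne_zero 2 hb), ord_pow]
    push_cast
    exact le_refl _
  have e3 : Ge p 0 (((j : k) + 1)⁻¹) := by
    have hne : ((j : k) + 1) ≠ 0 := by exact_mod_cast Nat.succ_ne_zero j
    rw [ge_iff p (inv_ne_zero hne), ord_inv]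
    have := hu (j + 1) (by omega) h2
    push_cast at this
    rw [this, neg_zero]
  have e4 := ge_mul p (ge_mul p (ge_mul p e1 e2) (ame5_sq p hgi j)) e3
  simpa using e4

end Coeffs

theorem no_rootE {k : Type} [Field k] [NumberField k] {h : ℕ} (hh : 2 ≤ h) {b y : k}
    (hb : b ≠ 0) (hy : y ≠ 0) {g : k[X]} (hg : g.Monic) (hd : g.natDegree = h - 1)
    (p : HeightOneSpectrum (𝓞 k)) (hu : UnitsUpTo p (2 * h + 2)) (hpb : ord p b = 1)
    (hpy : ord p y = 0) (hgi : ∀ i, Ge p 0 (g.coeff i)) (x : k) : (fE h b y g).eval x ≠ 0 := by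
  intro hx
  obtain ⟨⟨nA, oA⟩, nD, oD⟩ := ame5_units hh p hu
  obtain ⟨hdeg, hlc⟩ := fE_natDegree (b := b) (y := y) hh hb hg hd
  have htop : (fE h b y g).coeff (2 * h + 2) = (h : k) * (2 * h + 1) * b ^ 2 := by
    rw [← hdeg]
    exact hlc
  have nD2 : ((dd2 h : ℤ) : k) * y ^ 2 ≠ 0 := mul_ne_zero nD (pow_ne_zero 2 hy)
  have oD2 : ord p (((dd2 h : ℤ) : k) * y ^ 2) = 0 := by
    rw [ord_mul p nD (pow_ne_zero 2 hy), oD, ord_pow, hpy, mul_zero, add_zero]
  have nT : (h : k) * (2 * h + 1) * b ^ 2 ≠ 0 := mul_ne_zero nA (pow_ne_zero 2 hb)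
  have oT : ord p ((h : k) * (2 * h + 1) * b ^ 2) = 2 := by
    rw [ord_mul p nA (pow_ne_zero 2 hb), oA, ord_pow, hpb]
    norm_num
  have hc : ∀ i, 1 ≤ i → i ≤ 2 * h + 2 → Ge p 2 ((fE h b y g).coeff i) := by
    intro i h1 h2
    have := ame5_coeff b y hb p hu hgi h1 h2
    rw [hpb] at this
    simpa using this
  rw [eval_eq_sum_range, hdeg] at hx
  by_cases hx0 : x = 0
  · subst hx0
    rw [Finset.sum_range_succ'] at hx
    simp only [pow_zero, mul_one, fE_coeff_zero] at hx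
    rw [Finset.sum_eq_zero, zero_add, neg_eq_zero] at hx
    · exact nD2 hx
    · intro i _
      rw [zero_pow (Nat.succ_ne_zero i), mul_zero]
  rcases le_or_gt 0 (ord p x) with ht | ht
  · -- the constant term is a unit, the other terms are not
    have hxg : Ge p 0 x := (ge_iff p hx0).mpr ht
    rw [Finset.sum_range_succ'] at hx
    simp only [pow_zero, mul_one, fE_coeff_zero] at hx
    have h1 : ((dd2 h : ℤ) : k) * y ^ 2 =
        ∑ i ∈ Finset.range (2 * h + 2), (fE h b y g).coeff (i + 1) * x ^ (i + 1) := by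
      linear_combination -hx
    refine ord_not_cancel p nD2 h1 ?_
    rw [oD2]
    refine ge_sum p _ _ fun i hi => ?_
    rw [Finset.mem_range] at hi
    have h2 := ge_mul p (hc (i + 1) (by omega) (by omega)) (ge_pow p hxg (i + 1))
    refine ge_mono p ?_ h2
    simp
  · -- the leading term is strictly smallest
    have hxg : Ge p (ord p x) x := (ge_iff p hx0).mpr (le_refl _)
    have nL : (h : k) * (2 * h + 1) * b ^ 2 * x ^ (2 * h + 2) ≠ 0 :=
      mul_ne_zero nT (pow_ne_zero _ hx0)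
    have oL : ord p ((h : k) * (2 * h + 1) * b ^ 2 * x ^ (2 * h + 2)) =
        2 + (2 * (h : ℤ) + 2) * ord p x := by
      rw [ord_mul p nT (pow_ne_zero _ hx0), oT, ord_pow]
      push_cast
      ring
    rw [Finset.sum_range_succ, htop] at hx
    have h1 : (h : k) * (2 * h + 1) * b ^ 2 * x ^ (2 * h + 2) =
        -∑ i ∈ Finset.range (2 * h + 2), (fE h b y g).coeff i * x ^ i := by
      linear_combination hx
    refine ord_not_cancel p nL h1 ?_
    rw [oL]
    refine ge_neg p (ge_sum p _ _ fun i hi => ?_)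
    rw [Finset.mem_range] at hi
    have hh' : (2 : ℤ) ≤ h := by exact_mod_cast hh
    rcases Nat.eq_zero_or_pos i with rfl | hi0
    · rw [pow_zero, mul_one, fE_coeff_zero]
      refine ge_neg p ?_
      rw [ge_iff p nD2, oD2]
      nlinarith
    · have h2 := ge_mul p (hc i hi0 (by omega)) (ge_pow p hxg i)
      refine ge_mono p ?_ h2
      have hi' : (i : ℤ) + 1 ≤ 2 * h + 2 := by exact_mod_cast hi
      nlinarith

theorem dvd_discrE {k K : Type} [Field k] [NumberField k] [Field K] [NumberField K] [Algebra k K]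
    {h : ℕ} (hh : 2 ≤ h) {b y : k} (hb : b ≠ 0) (hy : y ≠ 0) {g : k[X]} (hg : g.Monic)
    (hd : g.natDegree = h - 1) {x : K} (hx : ((fE h b y g).map (algebraMap k K)).eval x = 0)
    (hgen : IntermediateField.adjoin k {x} = ⊤) (hn : Module.finrank k K = 2 * h + 2)
    (p : HeightOneSpectrum (𝓞 k)) (hu : UnitsUpTo p (2 * h + 2)) (hpb : ord p b = 0)
    (hpy : ord p y = 1) (hgi : ∀ i, Ge p 0 (g.coeff i)) {r : ℕ} (hr : r.Prime)
    (hrp : (r : 𝓞 k) ∈ p.asIdeal) : (r : ℤ) ∣ NumberField.discr K := by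
  obtain ⟨⟨nA, oA⟩, nD, oD⟩ := ame5_units hh p hu
  obtain ⟨hdeg, hlc⟩ := fE_natDegree (b := b) (y := y) hh hb hg hd
  have nD2 : ((dd2 h : ℤ) : k) * y ^ 2 ≠ 0 := mul_ne_zero nD (pow_ne_zero 2 hy)
  have oD2 : ord p (((dd2 h : ℤ) : k) * y ^ 2) = 2 := by
    rw [ord_mul p nD (pow_ne_zero 2 hy), oD, ord_pow, hpy]
    norm_num
  have nT : (h : k) * (2 * h + 1) * b ^ 2 ≠ 0 := mul_ne_zero nA (pow_ne_zero 2 hb)
  have oT : ord p ((h : k) * (2 * h + 1) * b ^ 2) = 0 := by
    rw [ord_mul p nA (pow_ne_zero 2 hb), oA, ord_pow, hpb]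
    norm_num
  have hx' : aeval x (fE h b y g) = 0 := by
    rw [← eval_map_algebraMap]
    exact hx
  have hx0 : x ≠ 0 := by
    rintro rfl
    rw [← coeff_zero_eq_aeval_zero', fE_coeff_zero, map_neg, neg_eq_zero] at hx'
    exact nD2 ((map_eq_zero _).mp hx')
  -- the norm
  have hxi : IsIntegral k x := IsIntegral.of_finite k x
  have hmdeg : (minpoly k x).natDegree = 2 * h + 2 := by
    rw [← IntermediateField.adjoin.finrank hxi, hgen, IntermediateField.finrank_top', hn]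
  obtain ⟨q, hq⟩ := minpoly.dvd k x hx'
  have hF0 : fE h b y g ≠ 0 := by
    intro h0
    rw [h0, natDegree_zero] at hdeg
    omega
  have hq0 : q ≠ 0 := by
    rintro rfl
    rw [mul_zero] at hq
    exact hF0 hq
  have hm0 : minpoly k x ≠ 0 := minpoly.ne_zero hxi
  have hqd : q.natDegree = 0 := by
    have h1 := congrArg natDegree hq
    rw [natDegree_mul hm0 hq0, hdeg, hmdeg] at h1
    omega
  obtain ⟨c, hc⟩ : ∃ c : k, q = C c := ⟨q.coeff 0, eq_C_of_natDegree_eq_zero hqd⟩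
  subst hc
  have hc1 : c = (h : k) * (2 * h + 1) * b ^ 2 := by
    have h1 := congrArg leadingCoeff hq
    rw [hlc, leadingCoeff_mul, (minpoly.monic hxi).leadingCoeff, one_mul, leadingCoeff_C] at h1
    exact h1.symm
  have hc0 : (minpoly k x).coeff 0 * c = -(((dd2 h : ℤ) : k) * y ^ 2) := by
    have h1 := congrArg (fun f : k[X] => f.coeff 0) hq
    simp only [fE_coeff_zero, coeff_mul_C] at h1
    exact h1.symm
  have hm : (minpoly k x).coeff 0 ≠ 0 := by
    intro h0
    rw [h0, zero_mul] at hc0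
    exact nD2 (neg_eq_zero.mp hc0.symm)
  have om : ord p ((minpoly k x).coeff 0) = 2 := by
    have h1 := congrArg (ord p) hc0
    rw [hc1, ord_mul p hm nT, oT, ord_neg, oD2] at h1
    linarith
  have hadj : Algebra.adjoin k {x} = ⊤ := by
    rw [← IntermediateField.adjoin_simple_toSubalgebra_of_isAlgebraic hxi.isAlgebraic, hgen,
      IntermediateField.top_toSubalgebra]
  have hnorm : ord p (Algebra.norm k x) = 2 := by
    have h1 := Algebra.PowerBasis.norm_gen_eq_coeff_zero_minpoly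
      (PowerBasis.ofAdjoinEqTop hxi hadj)
    rw [PowerBasis.ofAdjoinEqTop_gen] at h1
    rw [h1, ord_mul p (pow_ne_zero _ (by norm_num)) hm, ord_pow, ord_neg, ord_one, mul_zero,
      zero_add, om]
  obtain ⟨P, hP, hPx⟩ := exists_ord_neg (k := k) (inv_ne_zero hx0) p (by
    have h2 : Algebra.norm k x⁻¹ = (Algebra.norm k x)⁻¹ := by
      apply eq_inv_of_mul_eq_one_left
      rw [← map_mul, inv_mul_cancel₀ hx0, map_one]
    rw [h2, ord_inv, hnorm]
    norm_num)
  rw [ord_inv] at hPx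
  have hox : 0 < ord P x := by omega
  refine dvd_discr_of_erel (k := k) P hr ((mem_below P r).mp (by rw [hP]; exact hrp)) ?_
  by_contra hcon
  have he0 := erel_pos (k := k) P
  have he : erel k P = 1 := by omega
  -- the equation
  rw [aeval_eq_sum_range, hdeg, Finset.sum_range_succ', pow_zero, fE_coeff_zero,
    Algebra.smul_def, mul_one, map_neg] at hx'
  have h1 : algebraMap k K (((dd2 h : ℤ) : k) * y ^ 2) =
      ∑ i ∈ Finset.range (2 * h + 2), (fE h b y g).coeff (i + 1) • x ^ (i + 1) := by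
    linear_combination -hx'
  refine ord_not_cancel P ((_root_.map_ne_zero _).mpr nD2) h1 ?_
  rw [ord_algebraMap, he, hP, oD2]
  refine ge_sum P _ _ fun i hi => ?_
  rw [Finset.mem_range] at hi
  rw [Algebra.smul_def]
  by_cases hi3 : i + 1 ≤ 3
  · rw [fE_coeff_low h b y g (by omega) hi3, map_zero, zero_mul]
    exact ge_zero P _
  · have hc := ame5_coeff b y hb p hu hgi (i := i + 1) (by omega) (by omega)
    rw [hpb, mul_zero, ← hP] at hc
    have hxg : Ge P 1 x := (ge_iff P hx0).mpr (by omega)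
    have h2 := ge_mul P (ge_algebraMap P hc) (ge_pow P hxg (i + 1))
    refine ge_mono P ?_ h2
    push_cast
    have : (3 : ℤ) ≤ i := by exact_mod_cast (by omega : 3 ≤ i)
    linarith

end Pool.Agent.H9.AM
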