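import Pool.Agent.H9.AM.Defs
import Pool.Agent.H35.AN.Param

/-!
# Project AN2 (MP_a3214d), row AM-E8: the choice of the parameters, even family
-/

set_option autoImplicit false
set_option maxHeartbeats 400000

open Polynomial IsDedekindDomain NumberField

namespace Pool.Agent.H9.AM

open Pool.Agent.H35.AN

section

variable {k : Type} [Field k] [NumberField k]

/-- a natural number in a prime has positive order -/
theorem ame8_ord_pos (v : HeightOneSpectrum (𝓞 k)) {m : ℕ} (hm : 0 < m)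
    (h : (m : 𝓞 k) ∈ v.asIdeal) : 1 ≤ ord v (m : k) := by
  have h1 := (mem_iff_ge_one v (m : 𝓞 k)).mp h
  have h2 : (((m : 𝓞 k)) : k) = (m : k) := by simp
  rw [h2] at h1
  exact (ge_iff v (by exact_mod_cast hm.ne')).mp h1

/-- an element congruent to `1` is a unit -/
theorem ame8_one (v : HeightOneSpectrum (𝓞 k)) {a : 𝓞 k} {e : ℕ} (he : e ≠ 0)
    (ha : a - 1 ∈ v.asIdeal ^ e) : a ≠ 0 ∧ ord v (a : k) = 0 := by
  refine an25_ord_zero v (fun h3 => ?_)
  apply v.isPrime.ne_top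
  rw [Ideal.eq_top_iff_one]
  have h4 := v.asIdeal.sub_mem h3 (Ideal.pow_le_self he ha)
  rwa [sub_sub_cancel] at h4

/-- an element congruent to one of exact order `n` has exact order `n` -/
theorem ame8_exact (v : HeightOneSpectrum (𝓞 k)) {a x : 𝓞 k} {n e : ℕ} (hn : n < e)
    (hx1 : x ∈ v.asIdeal ^ n) (hx2 : x ∉ v.asIdeal ^ (n + 1)) (ha : a - x ∈ v.asIdeal ^ e) :
    a ≠ 0 ∧ ord v (a : k) = n := by
  have h2 : a - x ∈ v.asIdeal ^ (n + 1) := Ideal.pow_le_pow_right (by omega) ha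
  refine an25_ord v ?_ ?_
  · have h3 := (v.asIdeal ^ n).add_mem (Ideal.pow_le_pow_right (by omega) ha) hx1
    rwa [sub_add_cancel] at h3
  · intro h3
    apply hx2
    have h4 := (v.asIdeal ^ (n + 1)).sub_mem h3 h2
    rwa [sub_sub_cancel] at h4

/-- there is an element of exact order `n` -/
theorem ame8_exists (v : HeightOneSpectrum (𝓞 k)) (n : ℕ) :
    ∃ x : 𝓞 k, x ∈ v.asIdeal ^ n ∧ x ∉ v.asIdeal ^ (n + 1) := by
  have hlt : v.asIdeal ^ (n + 1) < v.asIdeal ^ n :=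
    Ideal.pow_right_strictAnti v.asIdeal v.ne_bot v.isPrime.ne_top (Nat.lt_succ_self n)
  obtain ⟨x, hx, hx'⟩ := Set.exists_of_ssubset hlt
  exact ⟨x, hx, hx'⟩

omit [NumberField k] in
/-- primes over different rational primes are different -/
theorem ame8_ne {v w : HeightOneSpectrum (𝓞 k)} {r s : ℕ} (hs : s.Prime) (hr : 0 < r)
    (hrs : r < s) (hv : (r : 𝓞 k) ∈ v.asIdeal) (hw : (s : 𝓞 k) ∈ w.asIdeal) : v ≠ w := by
  intro hvw
  have h1 : ¬ (s : ℤ) ∣ (r : ℤ) := by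
    intro hdv
    have h2 := Nat.le_of_dvd hr (by exact_mod_cast hdv)
    omega
  have h2 := an25_int_notMem w hs hw h1
  apply h2
  rw [← hvw]
  simpa using hv

end

theorem exists_paramE (k : Type) [Field k] [NumberField k] {h : ℕ} (hh : 2 ≤ h) (Y : ℕ) :
    ∃ (M : ℕ) (b η : 𝓞 k) (l p q : HeightOneSpectrum (𝓞 k)), 0 < M ∧
      (∀ r : ℕ, r.Prime → r ≤ Y → r ∣ M) ∧ (2 * h + 2).factorial ∣ M ∧ b ≠ 0 ∧ η ≠ 0 ∧
      FixedAt M η ∧
      (∀ r : HeightOneSpectrum (𝓞 k), b ∈ r.asIdeal → (M : 𝓞 k) ∈ r.asIdeal) ∧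
      2 ≤ ord q (M : k) ∧
      ∀ y : 𝓞 k, (M : 𝓞 k) ∣ y - η →
        Cond k h (dd2 h) (y : k) (b : k) l p q ∧
        ord l ((2 * h + 1 : ℕ) : k) + 2 * ord l (y : k) + 1 ≤
          ord l (M : k) - ord l (((2 * h + 2).factorial : ℕ) : k) := by
  classical
  -- the small prime
  obtain ⟨l0, hl0, hl0h⟩ := Nat.exists_prime_and_dvd (n := 2 * h + 1) (by omega)
  obtain ⟨l, hl⟩ := exists_prime_over k hl0
  have hl0le : l0 ≤ 2 * h + 1 := Nat.le_of_dvd (by omega) hl0h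
  have hV : 0 < ord l ((2 * h + 1 : ℕ) : k) := by
    have h1 := ord_int_pos l hl0 hl (m := ((2 * h + 1 : ℕ) : ℤ)) (by omega) (by exact_mod_cast hl0h)
    simpa using h1
  obtain ⟨V, hVV⟩ : ∃ V : ℕ, (V : ℤ) = ord l ((2 * h + 1 : ℕ) : k) :=
    ⟨(ord l ((2 * h + 1 : ℕ) : k)).toNat, Int.toNat_of_nonneg hV.le⟩
  have hVpos : 0 < V := by omega
  obtain ⟨J, hJc, hJlt⟩ := exists_J (N := 2 * h + 1) (by omega) ⟨h, rfl⟩ hVpos
  -- the prime with a triple root
  have hd : dd2 h ≠ 0 := by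
    have h1 : (0 : ℤ) < h := by omega
    have h2 : (0 : ℤ) < h * (2 * h + 1) := by positivity
    exact mul_ne_zero (pow_ne_zero _ (by norm_num)) h2.ne'
  obtain ⟨q, r, βq, hr, hrN, hrq, hβq, hβ1, hβ2⟩ := an25_tri k (dd2 h) hd (2 * h + 2 + Y)
  -- the new prime
  obtain ⟨s, hsN, hs⟩ := Nat.exists_infinite_primes (r + 1)
  obtain ⟨p, hp⟩ := exists_prime_over k hs
  have hlq : l ≠ q := ame8_ne hr hl0.pos (by omega) hl hrq
  have hlp : l ≠ p := ame8_ne hs hl0.pos (by omega) hl hp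
  have hqp : q ≠ p := ame8_ne hs hr.pos (by omega) hrq hp
  -- the parameter `b`
  set m : ℕ := r * s * (2 * h + 2 + Y).factorial with hm
  have hmpos : 0 < m := Nat.mul_pos (Nat.mul_pos hr.pos hs.pos) (Nat.factorial_pos _)
  have hfm : (2 * h + 2 + Y).factorial ∣ m := Dvd.intro_left _ rfl
  have hmem : ∀ (v : HeightOneSpectrum (𝓞 k)) (a c : ℕ), a ∣ c → (a : 𝓞 k) ∈ v.asIdeal →
      (c : 𝓞 k) ∈ v.asIdeal := by
    intro v a c hac ha
    obtain ⟨z, hz⟩ := hac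
    rw [hz, Nat.cast_mul]
    exact v.asIdeal.mul_mem_right _ ha
  have hml : (m : 𝓞 k) ∈ l.asIdeal :=
    hmem l l0 m ((hl0.dvd_factorial.mpr (by omega)).trans hfm) hl
  have hmq : (m : 𝓞 k) ∈ q.asIdeal :=
    hmem q r m (Dvd.dvd.mul_right (Dvd.intro _ rfl) _) hrq
  have hmp : (m : 𝓞 k) ∈ p.asIdeal :=
    hmem p s m (Dvd.dvd.mul_right (Dvd.intro_left _ rfl) _) hp
  obtain ⟨tp, htp1, htp2⟩ := ame8_exists p 1
  obtain ⟨b, hb⟩ := an25_crt k hmpos 2 (fun v => if v = q then βq else if v = p then tp else 1)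
  have hbself : ((m ^ 2 : ℕ) : 𝓞 k) ∣ b - b := by rw [sub_self]; exact dvd_zero _
  have hbq : b - βq ∈ q.asIdeal ^ 2 := by
    have h1 := hb b hbself q hmq
    rwa [if_pos rfl] at h1
  have hbp : b ≠ 0 ∧ ord p (b : k) = (1 : ℕ) := by
    have h1 := hb b hbself p hmp
    rw [if_neg hqp.symm, if_pos rfl] at h1
    exact ame8_exact p (by omega) htp1 htp2 h1
  have hbl : ord l (b : k) = 0 := by
    have h1 := hb b hbself l hml
    rw [if_neg hlq, if_neg hlp] at h1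
    exact (ame8_one l (by norm_num) h1).2
  -- the modulus
  set nb : ℕ := Ideal.absNorm (Ideal.span {b}) with hnb
  have hnbpos : 0 < nb := by
    rw [Nat.pos_iff_ne_zero, hnb, Ne, Ideal.absNorm_eq_zero_iff, Ideal.span_singleton_eq_bot]
    exact hbp.1
  set m2 : ℕ := m * nb with hm2
  have hm2pos : 0 < m2 := Nat.mul_pos hmpos hnbpos
  have hmm2 : m ∣ m2 := Dvd.intro _ rfl
  have hm2l := hmem l m m2 hmm2 hml
  have hm2q := hmem q m m2 hmm2 hmq
  have hm2p := hmem p m m2 hmm2 hmp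
  obtain ⟨F, hF⟩ : ∃ F : ℕ, ord l (((2 * h + 2).factorial : ℕ) : k) ≤ F :=
    ⟨(ord l (((2 * h + 2).factorial : ℕ) : k)).toNat, Int.self_le_toNat _⟩
  set K : ℕ := V + 2 * J + 3 + F with hK
  have hM : ∀ v : HeightOneSpectrum (𝓞 k), (((m2 ^ K : ℕ)) : 𝓞 k) ∈ v.asIdeal →
      (m2 : 𝓞 k) ∈ v.asIdeal := by
    intro v hv
    rw [Nat.cast_pow] at hv
    exact v.isPrime.mem_of_pow_mem _ hv
  have hordM : ∀ v : HeightOneSpectrum (𝓞 k), (m2 : 𝓞 k) ∈ v.asIdeal →
      (K : ℤ) ≤ ord v ((m2 ^ K : ℕ) : k) := by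
    intro v hv
    have h1 := ame8_ord_pos v hm2pos hv
    rw [Nat.cast_pow, ord_pow]
    nlinarith
  -- the class of the visible parameter
  obtain ⟨xl, hxl1, hxl2⟩ := ame8_exists l J
  obtain ⟨η, hη⟩ := an25_crt k hm2pos K (fun v => if v = l then xl else 1)
  have hy_l : ∀ y : 𝓞 k, ((m2 ^ K : ℕ) : 𝓞 k) ∣ y - η → y ≠ 0 ∧ ord l (y : k) = J := by
    intro y hy
    have h1 := hη y hy l hm2l
    rw [if_pos rfl] at h1
    exact ame8_exact l (by omega) hxl1 hxl2 h1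
  have hy_v : ∀ y : 𝓞 k, ((m2 ^ K : ℕ) : 𝓞 k) ∣ y - η → ∀ v : HeightOneSpectrum (𝓞 k),
      (m2 : 𝓞 k) ∈ v.asIdeal → y ≠ 0 ∧ ord v (y : k) = if v = l then (J : ℤ) else 0 := by
    intro y hy v hv
    by_cases hvl : v = l
    · rw [if_pos hvl, hvl]
      exact hy_l y hy
    · rw [if_neg hvl]
      have h1 := hη y hy v hv
      rw [if_neg hvl] at h1
      exact ame8_one v (by omega) h1
  have hηself : ((m2 ^ K : ℕ) : 𝓞 k) ∣ η - η := by rw [sub_self]; exact dvd_zero _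
  have hm2M : m2 ∣ m2 ^ K := dvd_pow_self m2 (by omega)
  refine ⟨m2 ^ K, b, η, l, p, q, pow_pos hm2pos _, fun t ht htY => ?_, ?_, hbp.1,
    (hy_l η hηself).1, fun y hy v hv => ?_, fun v hv => ?_, ?_, fun y hy => ⟨?_, ?_⟩⟩
  · exact (((ht.dvd_factorial.mpr (by omega)).trans hfm).trans hmm2).trans hm2M
  · exact (((Nat.factorial_dvd_factorial (by omega)).trans hfm).trans hmm2).trans hm2M
  · have h1 := hy_v y hy v (hM v hv)
    have h2 := hy_v η hηself v (hM v hv)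
    exact ⟨h1.1, h1.2.trans h2.2.symm⟩
  · have h1 : (nb : 𝓞 k) ∈ v.asIdeal :=
      (Ideal.span_singleton_le_iff_mem _).mpr hv (Ideal.absNorm_mem _)
    exact hmem v nb _ ((Dvd.intro_left m rfl).trans hm2M) h1
  · have h1 := hordM q hm2q
    have h2 : (2 : ℤ) ≤ K := by exact_mod_cast (by omega : 2 ≤ K)
    exact h2.trans h1
  · have hyq : y - 1 ∈ q.asIdeal ^ 2 := by
      have h1 := hη y hy q hm2q
      rw [if_neg hlq.symm] at h1
      exact Ideal.pow_le_pow_right (by omega) h1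
    obtain ⟨-, -, h3, h4, h5⟩ := an25_tri_use (dd2 h) q βq hβq hβ1 hβ2 y b hyq hbq
    have hyl := hy_l y hy
    have hyp := hy_v y hy p hm2p
    rw [if_neg hlp.symm] at hyp
    have hy0 : (y : k) ≠ 0 := by
      rw [Ne, NumberField.RingOfIntegers.coe_eq_zero_iff]
      exact hyl.1
    have hb0 : (b : k) ≠ 0 := by
      rw [Ne, NumberField.RingOfIntegers.coe_eq_zero_iff]
      exact hbp.1
    refine
      { ha := hy0
        hb := hb0
        l_pos := hV
        l_b := hbl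
        l_a := ?_
        l_cop := ?_
        l_lt := ?_
        p_units := unitsUpTo_of_lt p hs hp (by omega)
        p_a := hyp.2
        p_b := ?_
        q_units := unitsUpTo_of_lt q hr hrq (by omega)
        q_a := h3
        q_b := h4
        q_ab := h5 }
    · rw [hyl.2]
      positivity
    · rw [hyl.2, ← hVV]
      have h6 : IsCoprime (((V + 2 * J : ℕ)) : ℤ) (((2 * h + 1 : ℕ)) : ℤ) :=
        Nat.isCoprime_iff_coprime.mpr hJc
      push_cast at h6
      exact h6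
    · rw [hyl.2, ← hVV]
      exact_mod_cast hJlt
    · rw [hbp.2]
      norm_num
  · have h1 := hordM l hm2l
    rw [(hy_l y hy).2, ← hVV]
    have h2 : (K : ℤ) = V + 2 * J + 3 + F := by
      rw [hK]
      push_cast
      ring
    linarith

end Pool.Agent.H9.AM
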