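import Pool.Agent.H9.AM.EvBasic
import Pool.Agent.H35.AN.Disc2

/-!
# AM-E3: the discriminant of the even family is a square (MP_a3214d_nt)
-/

set_option autoImplicit false

open Polynomial IsDedekindDomain NumberField

namespace Pool.Agent.H9.AM

open Pool.Agent.H35.AN

/-- The product of the values of `g` at the roots lies in `k`. -/
theorem amE3_prod_mem {k L : Type*} [Field k] [Field L] [Algebra k L] [IsGalois k L] {n : ℕ}
    {F : k[X]} (R : Roots k L n F) (g : k[X]) :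
    ∃ G : k, algebraMap k L G = ∏ i, (g.map (algebraMap k L)).eval (R.θ i) := by
  have h := (InfiniteGalois.mem_range_algebraMap_iff_fixed (k := k) (K := L)
    (∏ i, (g.map (algebraMap k L)).eval (R.θ i))).2 ?_
  · obtain ⟨G, hG⟩ := h
    exact ⟨G, hG⟩
  · intro σ
    rw [map_prod]
    refine Eq.trans (Finset.prod_congr rfl fun i _ => ?_)
      (Equiv.prod_comp (R.permHom σ) fun i => (g.map (algebraMap k L)).eval (R.θ i))
    rw [← R.permHom_spec, Roots.eval_map_algEquiv]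

/-- The computation in the base field. -/
theorem amE3_square {k : Type*} [Field k] {h : ℕ} {κ c G lc s : k} (hs : s * s = 1)
    (hlc : lc ≠ 0) :
    (κ ^ (h + 1) * c ^ 3 * G / lc ^ (h + 1)) ^ 2 * (lc ^ (2 * h + 2) * -s) =
      κ ^ (2 * h + 2) * (-s * c ^ 2) ^ 3 * G ^ 2 := by
  have h3 : lc ^ (2 * h + 2) = (lc ^ (h + 1)) ^ 2 := by rw [← pow_mul]; congr 1; ring
  have h4 : κ ^ (2 * h + 2) = (κ ^ (h + 1)) ^ 2 := by rw [← pow_mul]; congr 1; ring
  have h6 : lc ^ (h + 1) ≠ 0 := pow_ne_zero _ hlc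
  have h7 : (-s * c ^ 2) ^ 3 = -s * (s * s) * c ^ 6 := by ring
  rw [h3, h4, h7, hs]
  field_simp

theorem disc_sqE {k L : Type} [Field k] [NumberField k] [Field L] [NumberField L] [Algebra k L]
    [IsGalois k L] {h : ℕ} (hh : 2 ≤ h) {b y : k} (hb : b ≠ 0) (hy : y ≠ 0) {g : k[X]}
    (hg : g.Monic) (hd : g.natDegree = h - 1) (R : Roots k L (2 * h + 2) (fE h b y g)) :
    ∃ q : k, (algebraMap k L) (q ^ 2) = ∏ i, ∏ j ∈ Finset.Ioi i, (R.θ j - R.θ i) ^ 2 := by
  set f := algebraMap k L with hf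
  have hlc := (fE_natDegree hh (y := y) hb hg hd).2
  set lc : k := (fE h b y g).leadingCoeff with hlcdef
  have hlc0 : lc ≠ 0 := R.lc_ne
  have hh0 : (h : k) ≠ 0 := Nat.cast_ne_zero.2 (by omega)
  have hh1 : (2 * (h : k) + 1) ≠ 0 := by exact_mod_cast Nat.succ_ne_zero (2 * h)
  obtain ⟨G, hG⟩ := amE3_prod_mem R g
  -- the value at `0`
  have e0 : f lc * ∏ i, R.θ i = f (-((dd2 h : ℤ) : k) * y ^ 2) := by
    have h1 := R.eval_eq 0
    have h2 : ∏ i, (0 - R.θ i) = ∏ i, R.θ i := by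
      rw [Finset.prod_congr rfl (fun i _ => show (0 - R.θ i) = (-1) * R.θ i by ring),
        Finset.prod_mul_distrib, Finset.prod_const, Finset.card_univ, Fintype.card_fin,
        an10_even, one_mul]
    rw [h2, ← hf, ← hlcdef] at h1
    rw [← h1, ← coeff_zero_eq_eval_zero, coeff_map, fE_coeff_zero, neg_mul]
  have e1 : ∏ i, R.θ i = f (-(-1) ^ h * (y / b) ^ 2) := by
    have h1 : f lc ≠ 0 := by rw [Ne, map_eq_zero]; exact hlc0
    apply mul_left_cancel₀ h1
    rw [e0, ← map_mul]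
    congr 1
    rw [hlc, dd2]
    push_cast
    field_simp
  have h7 := prod_deriv R
  have h8 : ∏ i, (((fE h b y g).derivative.map f).eval (R.θ i)) =
      f (((kapE h : k) * b ^ 2) ^ (2 * h + 2) * (-(-1) ^ h * (y / b) ^ 2) ^ 3 * G ^ 2) := by
    have h9 : ∀ i, ((fE h b y g).derivative.map f).eval (R.θ i) =
        f ((kapE h : k) * b ^ 2) * (R.θ i) ^ 3 * ((g.map f).eval (R.θ i)) ^ 2 := by
      intro i
      rw [fE_derivative]
      simp only [Polynomial.map_mul, Polynomial.map_pow, map_C, map_X, eval_mul, eval_pow, eval_C,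
        eval_X]
      ring
    rw [Finset.prod_congr rfl (fun i _ => h9 i), Finset.prod_mul_distrib,
      Finset.prod_mul_distrib, Finset.prod_const, Finset.prod_pow, Finset.prod_pow, e1, ← hG,
      Finset.card_univ, Fintype.card_fin]
    simp only [map_mul, map_pow, hf]
  rw [← hf, ← hlcdef, h8] at h7
  refine ⟨((kapE h : k) * b ^ 2) ^ (h + 1) * (y / b) ^ 3 * G / lc ^ (h + 1), ?_⟩
  have h9 : f (lc ^ (2 * h + 2) * -(-1) ^ h) ≠ 0 := by
    rw [Ne, map_eq_zero]
    exact mul_ne_zero (pow_ne_zero _ hlc0) (neg_ne_zero.2 (pow_ne_zero _ (by norm_num)))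
  apply mul_right_cancel₀ h9
  have hs : ((-1 : k) ^ h) * (-1) ^ h = 1 := by rw [← mul_pow]; norm_num
  rw [← map_mul, amE3_square hs hlc0, h7]
  have h10 : (-1 : L) ^ ((2 * h + 2) * (2 * h + 2 - 1) / 2) = f (-(-1) ^ h) := by
    rw [← an10_sign, map_pow, map_neg, map_one]
  rw [h10, map_mul, map_pow]
  ring

end Pool.Agent.H9.AM
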