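import Pool.Agent.H35.AN.ThreeCycle

/-!
# AM-G1: a prime with a triple root near an arbitrary point gives a three-cycle
-/

set_option autoImplicit false

open Polynomial IsDedekindDomain NumberField

namespace Pool.Agent.H9.AM

open Pool.Agent.H35.AN

section Valuation

variable {L : Type} [Field L] [NumberField L] (P : HeightOneSpectrum (𝓞 L))

/-- the terms of the Newton polygon -/
theorem amg1_three {G : L[X]} {e : ℤ} (hG : ∀ i, Ge P 0 (G.coeff i))
    (h0n : G.coeff 0 ≠ 0) (h0 : ord P (G.coeff 0) = e) (h1 : Ge P e (G.coeff 1))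
    (h2 : Ge P e (G.coeff 2)) (h3n : G.coeff 3 ≠ 0) (h3 : ord P (G.coeff 3) = 0) {y : L}
    (hy0 : y ≠ 0) (hy : G.eval y = 0) (hpos : 0 < ord P y) : 3 * ord P y = e := by
  have hsum : G.coeff 0 + G.coeff 1 * y + G.coeff 2 * y ^ 2 + G.coeff 3 * y ^ 3 +
      ∑ i ∈ Finset.range G.natDegree, G.coeff (i + 4) * y ^ (i + 4) = 0 := by
    have h4 : G.eval y = ∑ i ∈ Finset.range (G.natDegree + 4), G.coeff i * y ^ i :=
      eval_eq_sum_range' (by omega) y
    rw [hy, Finset.sum_range_succ', Finset.sum_range_succ', Finset.sum_range_succ',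
      Finset.sum_range_succ'] at h4
    simp only [zero_add, Nat.reduceAdd, pow_zero, mul_one, pow_one,
      add_assoc] at h4
    linear_combination -h4
  have hbig : Ge P (4 * ord P y)
      (∑ i ∈ Finset.range G.natDegree, G.coeff (i + 4) * y ^ (i + 4)) := by
    refine ge_sum P _ _ fun i _ => ?_
    have h4 := ge_mul P (hG (i + 4)) (ge_pow P ((ge_iff P hy0).mpr le_rfl) (i + 4))
    refine ge_mono P ?_ h4
    push_cast
    have : (0 : ℤ) ≤ i := by positivity
    nlinarith
  have hy1 : Ge P (ord P y) y := (ge_iff P hy0).mpr le_rfl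
  have hc1 : Ge P (e + ord P y) (G.coeff 1 * y) := ge_mul P h1 hy1
  have hc2 : Ge P (e + ord P y) (G.coeff 2 * y ^ 2) := by
    have h4 := ge_mul P h2 (ge_pow P hy1 2)
    refine ge_mono P ?_ h4
    push_cast
    omega
  have hc3 : G.coeff 3 * y ^ 3 ≠ 0 := mul_ne_zero h3n (pow_ne_zero _ hy0)
  have hc3' : ord P (G.coeff 3 * y ^ 3) = 3 * ord P y := by
    rw [ord_mul P h3n (pow_ne_zero _ hy0), ord_pow, h3]
    push_cast
    ring
  rcases lt_trichotomy (3 * ord P y) e with hlt | heq | hgt
  · exfalso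
    have h5 : G.coeff 3 * y ^ 3 = -(G.coeff 0 + G.coeff 1 * y + G.coeff 2 * y ^ 2 +
        ∑ i ∈ Finset.range G.natDegree, G.coeff (i + 4) * y ^ (i + 4)) := by
      linear_combination hsum
    refine ord_not_cancel P hc3 h5 ?_
    rw [hc3']
    refine ge_neg P (ge_add P (ge_add P (ge_add P ?_ (ge_mono P (by omega) hc1))
      (ge_mono P (by omega) hc2)) (ge_mono P (by omega) hbig))
    exact (ge_iff P h0n).mpr (by omega)
  · exact heq
  · exfalso
    have h5 : G.coeff 0 = -(G.coeff 1 * y + G.coeff 2 * y ^ 2 + G.coeff 3 * y ^ 3 +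
        ∑ i ∈ Finset.range G.natDegree, G.coeff (i + 4) * y ^ (i + 4)) := by
      linear_combination hsum
    refine ord_not_cancel P h0n h5 ?_
    rw [h0]
    refine ge_neg P (ge_add P (ge_add P (ge_add P (ge_mono P (by omega) hc1)
      (ge_mono P (by omega) hc2)) ?_) (ge_mono P (by omega) hbig))
    exact (ge_iff P hc3).mpr (by omega)

end Valuation

/-- Taylor coefficients at an integral point are integral -/
theorem amg1_taylor {k : Type} [Field k] [NumberField k] (q : HeightOneSpectrum (𝓞 k)) {F : k[X]}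
    {x0 : k} (hx0 : Ge q 0 x0) (hF : ∀ i, Ge q 0 (F.coeff i)) (j : ℕ) :
    Ge q 0 ((taylor x0 F).coeff j) := by
  rw [taylor_coeff, eval_eq_sum_range]
  refine ge_sum q _ _ fun i _ => ?_
  rw [hasseDeriv_coeff]
  have h1 := ge_mul q (ge_nat q ((i + j).choose j)) (hF (i + j))
  have h2 := ge_mul q h1 (ge_pow q hx0 i)
  simpa using h2

/-! ### the three-cycle -/

theorem exists_three_cycle' {k L : Type} [Field k] [NumberField k] [Field L] [NumberField L]
    [Algebra k L] [IsGalois k L] {n : ℕ} {F : k[X]} (R : Roots k L n F)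
    (hgen : IntermediateField.adjoin k (Set.range R.θ) = ⊤)
    (q : HeightOneSpectrum (𝓞 k)) (x0 : k) (hx0 : Ge q 0 x0) (hF : ∀ i, Ge q 0 (F.coeff i))
    (hlc : ord q F.leadingCoeff = 0) (h0n : (taylor x0 F).coeff 0 ≠ 0)
    (h0 : ord q ((taylor x0 F).coeff 0) = 1) (h1 : Ge q 1 ((taylor x0 F).coeff 1))
    (h2 : Ge q 1 ((taylor x0 F).coeff 2)) (h3n : (taylor x0 F).coeff 3 ≠ 0)
    (h3 : ord q ((taylor x0 F).coeff 3) = 0)
    (hsimple : ∀ P : HeightOneSpectrum (𝓞 L), below k P = q → ∀ i,
      R.θ i ≠ algebraMap k L x0 → ord P (R.θ i - algebraMap k L x0) = 0 →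
        ¬ Ge P 1 ((F.derivative.map (algebraMap k L)).eval (R.θ i))) :
    ∃ σ : L ≃ₐ[k] L, (R.permHom σ).IsThreeCycle := by
  classical
  obtain ⟨P, hP⟩ := exists_above L q
  have hepos : 0 < erel k P := erel_pos P
  set e : ℤ := (erel k P : ℤ) with he
  have he0 : 0 < e := by rw [he]; exact_mod_cast hepos
  set f := algebraMap k L with hf
  set z : L := f x0 with hz
  have hordq : ∀ x : k, ord P (f x) = e * ord q x := by
    intro x
    rw [hf, ord_algebraMap, hP]
  have hgeq : ∀ {m : ℤ} {x : k}, Ge q m x → Ge P (e * m) (f x) := by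
    intro m x hx
    rw [← hP] at hx
    exact ge_algebraMap P hx
  have hz0 : Ge P 0 z := by simpa using hgeq hx0
  have hlcL : ord P (f F.leadingCoeff) = 0 := by rw [hordq, hlc, mul_zero]
  have hlcn : f F.leadingCoeff ≠ 0 := (_root_.map_ne_zero _).mpr R.lc_ne
  -- all roots are integral
  have hint : ∀ i, Ge P 0 (R.θ i) := by
    intro i
    refine an15_integral P (G := F.map f) (fun j => ?_) ?_ ?_ (R.eval_root i)
    · rw [coeff_map]
      simpa using hgeq (hF j)
    · rw [leadingCoeff_map, hlcL]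
    · rw [leadingCoeff_map]
      exact hlcn
  -- the shifted polynomial
  set G : L[X] := (taylor x0 F).map f with hGdef
  have hGc : ∀ j, G.coeff j = f ((taylor x0 F).coeff j) := fun j => by rw [hGdef, coeff_map]
  have hGe : ∀ j, Ge P 0 (G.coeff j) := fun j => by
    rw [hGc]
    simpa using hgeq (amg1_taylor q hx0 hF j)
  have hGev : ∀ y : L, G.eval y = (F.map f).eval (y + z) := by
    intro y
    rw [hGdef, map_taylor, taylor_eval]
  have h0L : G.coeff 0 ≠ 0 := by rw [hGc]; exact (_root_.map_ne_zero _).mpr h0n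
  have h0Lo : ord P (G.coeff 0) = e := by rw [hGc, hordq, h0, mul_one]
  have h1L : Ge P e (G.coeff 1) := by rw [hGc]; simpa using hgeq h1
  have h2L : Ge P e (G.coeff 2) := by rw [hGc]; simpa using hgeq h2
  have h3L : G.coeff 3 ≠ 0 := by rw [hGc]; exact (_root_.map_ne_zero _).mpr h3n
  have h3Lo : ord P (G.coeff 3) = 0 := by rw [hGc, hordq, h3, mul_zero]
  -- value at zero
  have hG0 : G.coeff 0 = f F.leadingCoeff * ∏ i, (z - R.θ i) := by
    rw [coeff_zero_eq_eval_zero, hGev, zero_add, R.eval_eq]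
  have hne1 : ∀ i, R.θ i ≠ z := by
    intro i h
    apply h0L
    rw [hG0, Finset.prod_eq_zero (Finset.mem_univ i) (by rw [h, sub_self]), mul_zero]
  have hy0 : ∀ i, R.θ i - z ≠ 0 := fun i => sub_ne_zero.mpr (hne1 i)
  have hyint : ∀ i, 0 ≤ ord P (R.θ i - z) := by
    intro i
    rw [← ge_iff P (hy0 i)]
    exact ge_sub P (hint i) hz0
  have hroot : ∀ i, G.eval (R.θ i - z) = 0 := by
    intro i
    rw [hGev, sub_add_cancel]
    exact R.eval_root i
  have hthree : ∀ i, 0 < ord P (R.θ i - z) → 3 * ord P (R.θ i - z) = e := fun i hi =>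
    amg1_three P hGe h0L h0Lo h1L h2L h3L h3Lo (hy0 i) (hroot i) hi
  have hsum : ∑ i, ord P (R.θ i - z) = e := by
    have h4 : ord P (G.coeff 0) = ∑ i, ord P (z - R.θ i) := by
      rw [hG0, ord_mul P hlcn (Finset.prod_ne_zero_iff.mpr fun i _ => sub_ne_zero.mpr (hne1 i).symm),
        hlcL, zero_add, ord_prod]
      exact fun i _ => sub_ne_zero.mpr (hne1 i).symm
    rw [← h0Lo, h4]
    refine Finset.sum_congr rfl fun i _ => ?_
    rw [← ord_neg, neg_sub]
  set T : Finset (Fin n) := Finset.univ.filter (fun i => 0 < ord P (R.θ i - z)) with hT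
  have hTsum : ∑ i ∈ T, ord P (R.θ i - z) = e := by
    rw [← hsum, hT, Finset.sum_filter]
    refine Finset.sum_congr rfl fun i _ => ?_
    split_ifs with h
    · rfl
    · have := hyint i
      omega
  have hTcard : T.card = 3 := by
    have h4 : 3 * ∑ i ∈ T, ord P (R.θ i - z) = T.card * e := by
      rw [Finset.mul_sum, Finset.sum_congr rfl fun i hi => hthree i ?_, Finset.sum_const,
        nsmul_eq_mul]
      · exact (Finset.mem_filter.mp hi).2
    rw [hTsum] at h4
    have h5 : ((3 : ℤ) - T.card) * e = 0 := by linear_combination h4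
    rcases mul_eq_zero.mp h5 with h6 | h6
    · omega
    · omega
  have h3e : 3 ∣ erel k P := by
    obtain ⟨i, hi⟩ := Finset.card_pos.mp (by omega : 0 < T.card)
    have := hthree i (Finset.mem_filter.mp hi).2
    have h6 : (3 : ℤ) ∣ e := ⟨_, this.symm⟩
    rw [he] at h6
    exact_mod_cast h6
  obtain ⟨I, hIcard, -, hI⟩ := exists_inertia (k := k) P
  have : Fact (Nat.Prime 3) := ⟨Nat.prime_three⟩
  have : Finite I := Nat.finite_of_card_ne_zero (by omega)
  obtain ⟨s, hs⟩ := exists_prime_orderOf_dvd_card' (G := I) 3 (by rw [hIcard]; exact h3e)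
  refine ⟨s.1, an15_perm (T := T) ?_ ?_ hTcard fun i hi => ?_⟩
  · intro h
    have h7 := an15_faithful R hgen h
    have h8 : s = 1 := Subtype.ext h7
    rw [h8, orderOf_one] at hs
    omega
  · rw [← map_pow]
    have h7 : s ^ 3 = 1 := by rw [← hs]; exact pow_orderOf_eq_one s
    have h8 : (s.1) ^ 3 = 1 := by
      have := congrArg Subtype.val h7
      simpa using this
    rw [h8, map_one]
  · by_contra hne
    have hord : ord P (R.θ i - z) = 0 := by
      have h9 : ¬ 0 < ord P (R.θ i - z) := fun h => hi (Finset.mem_filter.mpr ⟨Finset.mem_univ i, h⟩)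
      have := hyint i
      omega
    refine hsimple P hP i (hne1 i) hord ?_
    have h10 := hI s.1 s.2 (R.θ i) (hint i)
    rw [R.permHom_spec] at h10
    rw [an15_deriv]
    set j := R.permHom s.1 i
    have hj : j ∈ Finset.univ.erase i := Finset.mem_erase.mpr ⟨hne, Finset.mem_univ _⟩
    rw [← Finset.mul_prod_erase _ _ hj]
    have h11 : Ge P 1 (R.θ i - R.θ j) := by
      rw [← neg_sub]
      exact ge_neg P h10
    have h12 : Ge P 0 (∏ x ∈ (Finset.univ.erase i).erase j, (R.θ i - R.θ x)) := by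
      refine Finset.prod_induction _ (Ge P 0) (fun a b ha hb => ?_) ?_ (fun x _ => ?_)
      · simpa using ge_mul P ha hb
      · simpa using ge_nat P 1
      · exact ge_sub P (hint i) (hint x)
    have h13 : Ge P 0 (f F.leadingCoeff) := (ge_iff P hlcn).mpr hlcL.ge
    simpa using ge_mul P h13 (ge_mul P h11 h12)

end Pool.Agent.H9.AM
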