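import Pool.Agent.H35.AN.Tri
import Pool.Agent.H9.AM.EvBasic
import Pool.Agent.H9.AM.ThreeCyc

/-!
# Project AN2 (MP_a3214d), row AM-E4: the three-cycle, even family
-/

set_option autoImplicit false

open Polynomial IsDedekindDomain NumberField

namespace Pool.Agent.H9.AM

open Pool.Agent.H35.AN

section Aux

variable {K : Type*} [Field K] [NumberField K] (P : HeightOneSpectrum (𝓞 K))

theorem ame4_coeff_mul {m n : ℤ} {p r : K[X]} (hp : ∀ i, Ge P m (p.coeff i))
    (hr : ∀ i, Ge P n (r.coeff i)) (i : ℕ) : Ge P (m + n) ((p * r).coeff i) := by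
  rw [coeff_mul]
  exact ge_sum P _ _ fun x _ => ge_mul P (hp _) (hr _)

theorem ame4_eval {m : ℤ} {p : K[X]} (hp : ∀ i, Ge P m (p.coeff i)) {x : K} (hx : Ge P 0 x) :
    Ge P m (p.eval x) := by
  rw [eval_eq_sum_range]
  refine ge_sum P _ _ fun i _ => ?_
  have h1 : Ge P 0 (x ^ i) := by
    have := ge_pow P hx i
    rwa [mul_zero] at this
  have := ge_mul P (hp i) h1
  rwa [add_zero] at this

theorem ame4_taylor {m : ℤ} {F : K[X]} (hF : ∀ i, Ge P m (F.coeff i)) (j : ℕ) :
    Ge P m ((taylor 1 F).coeff j) := by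
  rw [taylor_coeff, eval_eq_sum_range]
  refine ge_sum P _ _ fun i _ => ?_
  rw [one_pow, mul_one, hasseDeriv_coeff]
  have := ge_mul P (ge_nat P ((i + j).choose j)) (hF (i + j))
  rwa [zero_add] at this

theorem ame4_base_coeff (m : ℕ) (i : ℕ) : Ge P 0 ((X ^ m * (X - 1) : K[X]).coeff i) := by
  have e : (X ^ m * (X - 1) : K[X]) =
      ((X ^ m * (X - 1) : (an17_sub P)[X])).map (an17_sub P).subtype := by
    simp
  rw [e, coeff_map]
  exact (((X ^ m * (X - 1) : (an17_sub P)[X])).coeff i).2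

end Aux

section Close

variable {k : Type} [Field k] [NumberField k]

theorem ame4_close {h : ℕ} (hh : 2 ≤ h) {b y : k} {g : k[X]} (hg : g.Monic)
    (hd : g.natDegree = h - 1) (q : HeightOneSpectrum (𝓞 k)) (hu : UnitsUpTo q (2 * h + 2))
    (hqb : ord q b = 0)
    (hcl : ∀ i, Ge q 2 ((g - X ^ (h - 2) * (X - 1)).coeff i)) (i : ℕ) :
    Ge q 2 ((fE h b y g - F2 h y b).coeff i) := by
  rw [← fE_base hh, coeff_sub]
  rcases i with _ | i
  · rw [fE_coeff_zero, fE_coeff_zero, sub_self]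
    exact ge_zero q 2
  rw [fE_coeff_succ, fE_coeff_succ]
  obtain ⟨hm, hn⟩ := ame1_base_monic (k := k) (h - 2)
  have hn' : (X ^ (h - 2) * (X - 1) : k[X]).natDegree = h - 1 := by rw [hn]; omega
  by_cases hi : i + 1 ≤ 2 * h + 2
  · have h1 : (kapE h : k) * b ^ 2 * (X ^ 3 * g ^ 2).coeff i / ((i : k) + 1) -
        (kapE h : k) * b ^ 2 * (X ^ 3 * (X ^ (h - 2) * (X - 1)) ^ 2 : k[X]).coeff i / ((i : k) + 1) =
        (kapE h : k) * b ^ 2 * ((i : k) + 1)⁻¹ *
          (X ^ 3 * ((g - X ^ (h - 2) * (X - 1)) *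
            ((g - X ^ (h - 2) * (X - 1)) + 2 * (X ^ (h - 2) * (X - 1))))).coeff i := by
      have h2 : (X ^ 3 * ((g - X ^ (h - 2) * (X - 1)) *
            ((g - X ^ (h - 2) * (X - 1)) + 2 * (X ^ (h - 2) * (X - 1)))) : k[X]) =
          X ^ 3 * g ^ 2 - X ^ 3 * (X ^ (h - 2) * (X - 1)) ^ 2 := by ring
      rw [h2, coeff_sub]
      ring
    rw [h1]
    have hk : Ge q 0 ((kapE h : k) * b ^ 2 * ((i : k) + 1)⁻¹) := by
      refine an17_mul q (an17_mul q (ge_int q _) ?_) ?_
      · rw [sq]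
        exact an17_mul q (an17_ge_of_ord q hqb) (an17_ge_of_ord q hqb)
      · apply an17_ge_of_ord
        rw [ord_inv]
        have := hu (i + 1) (by omega) hi
        push_cast at this
        rw [this, neg_zero]
    have hX : ∀ j, Ge q 0 ((X ^ 3 : k[X]).coeff j) := by
      intro j
      rw [coeff_X_pow]
      split_ifs
      · exact an17_ge_one q
      · exact ge_zero q 0
    have h2 : ∀ j, Ge q 0 ((g - X ^ (h - 2) * (X - 1) +
        2 * (X ^ (h - 2) * (X - 1))).coeff j) := by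
      intro j
      rw [coeff_add]
      refine ge_add q (ge_mono q (by norm_num) (hcl j)) ?_
      rw [two_mul, coeff_add]
      exact ge_add q (ame4_base_coeff q _ _) (ame4_base_coeff q _ _)
    have h3 := ame4_coeff_mul q hX (ame4_coeff_mul q hcl h2) i
    have h4 := ge_mul q hk h3
    norm_num at h4
    exact h4
  · have h1 : (X ^ 3 * g ^ 2).coeff i = 0 := by
      apply coeff_eq_zero_of_natDegree_lt
      rw [(ame1_sq_monic hh hg hd).2]
      omega
    have h2 : (X ^ 3 * (X ^ (h - 2) * (X - 1)) ^ 2 : k[X]).coeff i = 0 := by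
      apply coeff_eq_zero_of_natDegree_lt
      rw [(ame1_sq_monic hh hm hn').2]
      omega
    rw [h1, h2, mul_zero, zero_div, sub_self]
    exact ge_zero q 2

end Close

section Main

variable {k L : Type} [Field k] [NumberField k] [Field L] [NumberField L]
  [Algebra k L] [IsGalois k L]

omit [IsGalois k L] in
theorem ame4_map_coeff {F : k[X]} {m : ℤ} (hm : 0 ≤ m) (P : HeightOneSpectrum (𝓞 L))
    (hF : ∀ i, Ge (below k P) m (F.coeff i)) (i : ℕ) :
    Ge P m ((F.map (algebraMap k L)).coeff i) := by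
  rw [coeff_map]
  refine ge_mono P ?_ (ge_algebraMap P (hF i))
  have he : (1 : ℤ) ≤ erel k P := by exact_mod_cast erel_pos P
  nlinarith

theorem three_cycleE {h : ℕ} (hh : 2 ≤ h) {b y : k} (hb : b ≠ 0) (hy : y ≠ 0)
    {g : k[X]} (hg : g.Monic) (hd : g.natDegree = h - 1) (R : Roots k L (2 * h + 2) (fE h b y g))
    (hgen : IntermediateField.adjoin k (Set.range R.θ) = ⊤) (q : HeightOneSpectrum (𝓞 k))
    (hu : UnitsUpTo q (2 * h + 2)) (hqy : ord q y = 0) (hqb : ord q b = 0)
    (hab : ord q (b ^ 2 - (dd2 h : k) * y ^ 2) = 1)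
    (hcl : ∀ i, Ge q 2 ((g - X ^ (h - 2) * (X - 1)).coeff i)) :
    ∃ σ : L ≃ₐ[k] L, (R.permHom σ).IsThreeCycle := by
  obtain ⟨c1, c2, c3, c4, c5, c6, d1, d2⟩ := an17_consts q hh hu
  have hclose := ame4_close (y := y) hh hg hd q hu hqb hcl
  obtain ⟨hdeg, hlc⟩ := fE_natDegree (y := y) hh hb hg hd
  obtain ⟨t0, t1, t2, t3⟩ := taylor2 (R := k) hh y b
  have hb2 := an17_upow q ⟨hb, hqb⟩ 2
  have hne : b ^ 2 - (dd2 h : k) * y ^ 2 ≠ 0 := by
    intro h0; rw [h0, ord_zero] at hab; norm_num at hab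
  have hF : ∀ i, Ge q 0 ((fE h b y g).coeff i) := by
    intro i
    have e : (fE h b y g).coeff i = (fE h b y g - F2 h y b).coeff i + (F2 h y b).coeff i := by
      rw [coeff_sub]; ring
    rw [e]
    exact ge_add q (ge_mono q (by norm_num) (hclose i))
      (an17_coeff2 q h (an17_ge_of_ord q hqy) (an17_ge_of_ord q hqb) i)
  have hT : ∀ j, (taylor 1 (fE h b y g)).coeff j =
      (taylor 1 (F2 h y b)).coeff j + (taylor 1 (fE h b y g - F2 h y b)).coeff j := by
    intro j
    rw [map_sub, coeff_sub]; ring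
  have hTc := fun j => ame4_taylor q hclose j
  have h3 : (taylor 1 (F2 h y b)).coeff 3 ≠ 0 ∧ ord q ((taylor 1 (F2 h y b)).coeff 3) = 0 := by
    have hr := an17_umul q hb2 (an17_umul q (an17_umul q (an17_umul q c5 c3) c4) c2)
    rw [← t3] at hr
    have hz : (taylor 1 (F2 h y b)).coeff 3 ≠ 0 := right_ne_zero_of_mul hr.1
    refine ⟨hz, ?_⟩
    have := hr.2
    rw [ord_mul q c6.1 hz, c6.2, zero_add] at this
    exact this
  have T0 := ord_add_eq q (x := (taylor 1 (F2 h y b)).coeff 0)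
    (y := (taylor 1 (fE h b y g - F2 h y b)).coeff 0) (by rw [t0]; exact hne) (by
      rw [t0, hab]; exact ge_mono q (by norm_num) (hTc 0))
  have T3 := ord_add_eq q (x := (taylor 1 (F2 h y b)).coeff 3)
    (y := (taylor 1 (fE h b y g - F2 h y b)).coeff 3) h3.1 (by
      rw [h3.2]; exact ge_mono q (by norm_num) (hTc 3))
  rw [← hT] at T0 T3
  rw [t0, hab] at T0
  rw [h3.2] at T3
  refine exists_three_cycle' R hgen q 1 (an17_ge_one q) hF ?_ T0.1 T0.2 ?_ ?_ T3.1 T3.2 ?_
  · rw [hlc]; exact (an17_umul q (an17_umul q c3 c2) hb2).2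
  · rw [hT, t1, zero_add]; exact ge_mono q (by norm_num) (hTc 1)
  · rw [hT, t2, zero_add]; exact ge_mono q (by norm_num) (hTc 2)
  · intro P hP i hi1 hi2 hge
    rw [map_one] at hi1 hi2
    subst hP
    have hP' : UnitsUpTo P (2 * h + 2) := unitsUpTo_below P hu
    have hA := an17_above (L := L) ⟨hy, hqy⟩ (P := P) rfl
    have hB := an17_above (L := L) ⟨hb, hqb⟩ (P := P) rfl
    obtain ⟨e1, e2, e3, e4, e5, e6, -, e8⟩ := an17_consts P hh hP'
    have hFL := ame4_map_coeff (L := L) le_rfl P hF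
    have hroot := R.eval_root i
    have hlcL : ((fE h b y g).map (algebraMap k L)).leadingCoeff ≠ 0 ∧
        ord P ((fE h b y g).map (algebraMap k L)).leadingCoeff = 0 := by
      rw [leadingCoeff_map]
      refine an17_above (L := L) ?_ (P := P) rfl
      rw [hlc]
      exact an17_umul _ (an17_umul _ c3 c2) hb2
    have hθ := an15_integral P hFL hlcL.2 hlcL.1 hroot
    -- the constant coefficient
    have hc0 : ((fE h b y g).map (algebraMap k L)).coeff 0 ≠ 0 ∧
        ord P (((fE h b y g).map (algebraMap k L)).coeff 0) = 0 := by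
      rw [coeff_map]
      refine an17_above (L := L) ?_ (P := P) rfl
      rw [fE_coeff_zero]
      exact an17_uneg _ (an17_umul _ d2 (an17_upow _ ⟨hy, hqy⟩ 2))
    have hdiv : ((fE h b y g).map (algebraMap k L)).coeff 0 =
        -((((fE h b y g).map (algebraMap k L)).divX).eval (R.θ i) * R.θ i) := by
      have h1 := congrArg (eval (R.θ i)) (divX_mul_X_add ((fE h b y g).map (algebraMap k L)))
      rw [eval_add, eval_mul, eval_X, eval_C, hroot] at h1
      linear_combination h1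
    have hθ0 : R.θ i ≠ 0 := by
      intro h0
      rw [h0, mul_zero, neg_zero] at hdiv
      exact hc0.1 hdiv
    have hθu : ord P (R.θ i) = 0 := by
      have h1 := (ge_iff P hθ0).1 hθ
      by_contra h2
      have h3 : Ge P 1 (R.θ i) := (ge_iff P hθ0).2 (by omega)
      have h4 : Ge P 0 ((((fE h b y g).map (algebraMap k L)).divX).eval (R.θ i)) := by
        refine ame4_eval P (fun j => ?_) hθ
        rw [coeff_divX]
        exact hFL _
      have h5 := ge_neg P (ge_mul P h4 h3)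
      rw [← hdiv, zero_add] at h5
      exact an17_not_ge P hc0 h5
    have hx1 : (R.θ i - 1) ≠ 0 ∧ ord P (R.θ i - 1) = 0 := ⟨sub_ne_zero.2 hi1, hi2⟩
    have hg1 : (g.map (algebraMap k L)).eval (R.θ i) =
        R.θ i ^ (h - 2) * (R.θ i - 1) +
          ((g - X ^ (h - 2) * (X - 1)).map (algebraMap k L)).eval (R.θ i) := by
      simp
    have hg2 : Ge P 2 (((g - X ^ (h - 2) * (X - 1)).map (algebraMap k L)).eval (R.θ i)) :=
      ame4_eval P (ame4_map_coeff (L := L) (by norm_num) P hcl) hθ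
    have hg3 := an17_umul P (an17_upow P ⟨hθ0, hθu⟩ (h - 2)) hx1
    have hg4 := ord_add_eq P (x := R.θ i ^ (h - 2) * (R.θ i - 1))
      (y := ((g - X ^ (h - 2) * (X - 1)).map (algebraMap k L)).eval (R.θ i)) hg3.1 (by
        rw [hg3.2]; exact ge_mono P (by norm_num) hg2)
    rw [← hg1, hg3.2] at hg4
    have hk : ((kapE h : ℤ) : L) ≠ 0 ∧ ord P ((kapE h : ℤ) : L) = 0 := by
      have e : ((kapE h : ℤ) : L) = 2 * h * (h + 1) * (2 * h + 1) := by
        rw [kapE]; push_cast; ring
      rw [e]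
      exact an17_umul P (an17_umul P (an17_umul P e5 e3) e4) e2
    have hW := an17_umul P (an17_umul P hk (an17_upow P hB 2))
      (an17_umul P (an17_upow P ⟨hθ0, hθu⟩ 3) (an17_upow P hg4 2))
    have hder : ((derivative (fE h b y g)).map (algebraMap k L)).eval (R.θ i) =
        (kapE h : L) * algebraMap k L b ^ 2 *
          (R.θ i ^ 3 * (g.map (algebraMap k L)).eval (R.θ i) ^ 2) := by
      rw [fE_derivative]
      simp
    rw [hder] at hge
    exact an17_not_ge P hW hge

end Main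

end Pool.Agent.H9.AM
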