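import Pool.Agent.H9.AM.Defs
import Pool.Agent.H35.AN.Val
import Pool.Agent.H35.AN.Tower
import Pool.Agent.H35.AN.Decomp
import Pool.Agent.H35.AN.Basic

/-!
# Project AN2, row AM-G2: the Newton polygon `NPs`

One root of valuation `-V`, `N` roots of valuation `U / N`; if `U` is prime to `N` then the roots
in an algebraic closure are distinct.
-/

set_option autoImplicit false

open Polynomial IsDedekindDomain NumberField

namespace Pool.Agent.H9.AM

open Pool.Agent.H35.AN

section NP

section aux

variable {K : Type*} [Field K] [NumberField K] (P : HeightOneSpectrum (𝓞 K))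

/-- one term of a vanishing sum cannot be alone minimal -/
theorem amg2_min {n j : ℕ} (hj : j ≤ n) {f : ℕ → K} (hs : ∑ i ∈ Finset.range (n + 1), f i = 0)
    (h0 : f j ≠ 0) (hf : ∀ i, i ≤ n → i ≠ j → Ge P (ord P (f j) + 1) (f i)) : False := by
  classical
  have hmem : j ∈ Finset.range (n + 1) := Finset.mem_range.2 (by omega)
  rw [← Finset.add_sum_erase _ _ hmem] at hs
  have h1 : f j = -∑ i ∈ (Finset.range (n + 1)).erase j, f i := by linear_combination hs
  refine ord_not_cancel P h0 h1 (ge_neg P (ge_sum P _ _ ?_))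
  intro i hi
  rw [Finset.mem_erase, Finset.mem_range] at hi
  exact hf i (by omega) hi.1

theorem amg2_mul_pow {c x : K} {m t : ℤ} (hc : Ge P m c) (ht : ord P x = t) (i : ℕ) {s : ℤ}
    (hs : s ≤ m + i * t) : Ge P s (c * x ^ i) := by
  refine ge_mono P hs (ge_mul P hc (ge_pow P ?_ i))
  by_cases hx : x = 0
  · rw [hx]; exact ge_zero P _
  · exact (ge_iff P hx).2 ht.ge

theorem amg2_self {x : K} {m : ℤ} (h : ord P x = m) : Ge P m x := by
  by_cases hx : x = 0
  · rw [hx]; exact ge_zero P _
  · exact (ge_iff P hx).2 h.ge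

end aux

theorem nps_root {K : Type*} [Field K] [NumberField K] {P : HeightOneSpectrum (𝓞 K)} {N : ℕ}
    {V U : ℤ} {G : K[X]} (h : NPs P N V U G) {x : K} (hx : G.eval x = 0) :
    x ≠ 0 ∧ (ord P x = -V ∨ (0 < ord P x ∧ (N : ℤ) * ord P x = U)) := by
  have hN := h.three_le
  have hV := h.V_pos
  have hU := h.U_pos
  have hlt := h.lt
  have hN' : (3 : ℤ) ≤ N := by exact_mod_cast hN
  have x0 : x ≠ 0 := by
    rintro rfl
    apply h.zne
    rw [coeff_zero_eq_eval_zero, hx]
  refine ⟨x0, ?_⟩
  obtain ⟨t, ht⟩ : ∃ t, ord P x = t := ⟨_, rfl⟩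
  rw [ht]
  have htop0 : G.coeff (N + 1) ≠ 0 := by
    intro h0
    have h1 := h.top
    rw [h0, ord_zero] at h1
    omega
  have hsum : ∑ i ∈ Finset.range (N + 1 + 1), G.coeff i * x ^ i = 0 := by
    rw [← hx, eval_eq_sum_range, h.deg]
  -- valuations of the terms
  have kn : G.coeff N * x ^ N ≠ 0 := mul_ne_zero h.ne (pow_ne_zero _ x0)
  have kt : G.coeff (N + 1) * x ^ (N + 1) ≠ 0 := mul_ne_zero htop0 (pow_ne_zero _ x0)
  have kz : G.coeff 0 * x ^ 0 ≠ 0 := mul_ne_zero h.zne (pow_ne_zero _ x0)
  have on : ord P (G.coeff N * x ^ N) = N * t := by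
    rw [ord_mul P h.ne (pow_ne_zero _ x0), ord_pow, h.unit, ht, zero_add]
  have ot : ord P (G.coeff (N + 1) * x ^ (N + 1)) = V + ((N : ℤ) + 1) * t := by
    rw [ord_mul P htop0 (pow_ne_zero _ x0), ord_pow, h.top, ht]
    push_cast
    ring
  have oz : ord P (G.coeff 0 * x ^ 0) = U := by
    rw [pow_zero, mul_one, h.zero]
  -- the generic comparison
  have key : ∀ j s, j ≤ N + 1 → G.coeff j * x ^ j ≠ 0 → ord P (G.coeff j * x ^ j) + 1 = s →
      (j ≠ N + 1 → s ≤ V + ((N : ℤ) + 1) * t) → (j ≠ N → s ≤ (N : ℤ) * t) →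
      (s ≤ V + ((N : ℤ) - 1) * t) → (∀ i : ℕ, 1 ≤ i → i + 2 ≤ N → s ≤ U + i * t) →
      (j ≠ 0 → s ≤ U) → j = 0 ∨ j = N ∨ j = N + 1 → False := by
    intro j s hj hj0 hjs h1 h2 h3 h4 h5 hj'
    refine amg2_min P hj hsum hj0 ?_
    intro i hi hij
    rw [hjs]
    rcases Nat.lt_or_ge N i with hc | hc
    · have e : i = N + 1 := by omega
      subst e
      exact amg2_mul_pow P (amg2_self P h.top) ht _ (by have := h1 (Ne.symm hij); push_cast; linarith)
    rcases Nat.lt_or_ge i N with hc' | hc'
    swap
    · have e : i = N := by omega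
      subst e
      exact amg2_mul_pow P (amg2_self P h.unit) ht _ (by have := h2 (Ne.symm hij); linarith)
    rcases Nat.lt_or_ge i (N - 1) with hc'' | hc''
    swap
    · have e : i = N - 1 := by omega
      subst e
      exact amg2_mul_pow P h.sub ht _ (by rw [Nat.cast_sub (by omega)]; push_cast; linarith)
    rcases Nat.eq_zero_or_pos i with e | hc3
    · subst e
      exact amg2_mul_pow P (amg2_self P h.zero) ht _ (by
        have := h5 (Ne.symm hij)
        push_cast
        linarith)
    · exact amg2_mul_pow P (h.mid i hc3 (by omega)) ht _ (h4 i hc3 (by omega))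
  rcases lt_trichotomy t 0 with h0 | h0 | h0
  · left
    have q1 : ∀ i : ℕ, i + 2 ≤ N → (N : ℤ) * t ≤ i * t := by
      intro i hi
      exact mul_le_mul_of_nonpos_right (by exact_mod_cast (by omega : i ≤ N)) h0.le
    by_contra hne
    rcases lt_or_gt_of_ne hne with h1 | h1
    · refine key (N + 1) _ le_rfl kt rfl (fun h => absurd rfl h) (fun _ => ?_) ?_ ?_ (fun _ => ?_)
        (Or.inr (Or.inr rfl))
      · rw [ot]; linarith
      · rw [ot]; linarith
      · intro i _ hi
        have := q1 i hi
        rw [ot]; linarith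
      · have q2 : (N : ℤ) * t ≤ 0 := mul_nonpos_of_nonneg_of_nonpos (by linarith) h0.le
        rw [ot]; linarith
    · refine key N _ (by omega) kn rfl (fun _ => ?_) (fun h => absurd rfl h) ?_ ?_ (fun _ => ?_)
        (Or.inr (Or.inl rfl))
      · rw [on]; linarith
      · rw [on]; linarith
      · intro i _ hi
        have := q1 i hi
        rw [on]; linarith
      · have q2 : (N : ℤ) * t ≤ 0 := mul_nonpos_of_nonneg_of_nonpos (by linarith) h0.le
        rw [on]; linarith
  · exfalso
    subst h0
    refine key N _ (by omega) kn rfl (fun _ => ?_) (fun h => absurd rfl h) ?_ ?_ (fun _ => ?_)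
        (Or.inr (Or.inl rfl))
    · rw [on]; linarith
    · rw [on]; linarith
    · intro i _ hi
      rw [on]; linarith
    · rw [on]; linarith
  · right
    refine ⟨h0, ?_⟩
    by_contra hne
    have q0 : ∀ i : ℕ, 1 ≤ i → t ≤ i * t := by
      intro i hi
      have : (1 : ℤ) * t ≤ i * t := mul_le_mul_of_nonneg_right (by exact_mod_cast hi) h0.le
      linarith
    rcases lt_or_gt_of_ne hne with h2 | h2
    · have h3 : t < V := by
        by_contra hc
        have : (N : ℤ) * V ≤ N * t := mul_le_mul_of_nonneg_left (not_lt.1 hc) (by linarith)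
        linarith
      refine key N _ (by omega) kn rfl (fun _ => ?_) (fun h => absurd rfl h) ?_ ?_ (fun _ => ?_)
        (Or.inr (Or.inl rfl))
      · rw [on]; linarith
      · rw [on]; linarith
      · intro i hi _
        have := q0 i hi
        rw [on]; linarith
      · rw [on]; linarith
    · refine key 0 _ (by omega) kz rfl (fun _ => ?_) (fun _ => ?_) ?_ ?_ (fun h => absurd rfl h)
        (Or.inl rfl)
      · rw [oz]; linarith
      · rw [oz]; linarith
      · rw [oz]
        rcases le_or_gt t V with h3 | h3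
        · linarith
        · have : ((N : ℤ) - 1) * V ≤ ((N : ℤ) - 1) * t :=
            mul_le_mul_of_nonneg_left h3.le (by linarith)
          linarith
      · intro i hi _
        have := q0 i hi
        rw [oz]; linarith

theorem nps_map {k K : Type} [Field k] [NumberField k] [Field K] [NumberField K] [Algebra k K]
    (P : HeightOneSpectrum (𝓞 K)) {N : ℕ} {V U : ℤ} {F : k[X]} (h : NPs (below k P) N V U F) :
    NPs P N (erel k P * V) (erel k P * U) (F.map (algebraMap k K)) := by
  have he : (0 : ℤ) < erel k P := by exact_mod_cast erel_pos P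
  refine ⟨h.three_le, ?_, mul_pos he h.V_pos, mul_pos he h.U_pos, ?_, ?_, ?_, ?_, ?_, ?_, ?_, ?_⟩
  · rw [natDegree_map, h.deg]
  · have := mul_lt_mul_of_pos_left h.lt he
    linarith
  · rw [coeff_map, ord_algebraMap P, h.top]
  · rw [coeff_map]; exact (_root_.map_ne_zero _).2 h.ne
  · rw [coeff_map, ord_algebraMap P, h.unit, mul_zero]
  · rw [coeff_map]; exact ge_algebraMap P h.sub
  · intro i h1 h2
    rw [coeff_map]; exact ge_algebraMap P (h.mid i h1 h2)
  · rw [coeff_map]; exact (_root_.map_ne_zero _).2 h.zne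
  · rw [coeff_map, ord_algebraMap P, h.zero]

section aux2

variable {K : Type*} [Field K] [NumberField K] (P : HeightOneSpectrum (𝓞 K))

open scoped Classical in
/-- `N` times the valuation of a product of roots -/
theorem amg2_prod {N : ℕ} {V U : ℤ} (m : Multiset K)
    (hm : ∀ x ∈ m, x ≠ 0 ∧ (ord P x = -V ∨ (0 < ord P x ∧ (N : ℤ) * ord P x = U))) (hV : 0 < V) :
    m.prod ≠ 0 ∧ (N : ℤ) * ord P m.prod =
      ((m.card : ℤ) - (m.filter (fun x => ord P x < 0)).card) * U -
        (m.filter (fun x => ord P x < 0)).card * (N * V) := by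
  induction m using Multiset.induction_on with
  | empty => simp [ord_one]
  | cons a m ih =>
    obtain ⟨i1, i2⟩ := ih (fun x hx => hm x (Multiset.mem_cons_of_mem hx))
    obtain ⟨a0, ha⟩ := hm a (Multiset.mem_cons_self a m)
    rw [Multiset.prod_cons]
    refine ⟨mul_ne_zero a0 i1, ?_⟩
    rw [ord_mul P a0 i1, mul_add, i2, Multiset.card_cons]
    rcases ha with ha | ⟨ha, ha'⟩
    · rw [Multiset.filter_cons_of_pos _ (by rw [ha]; omega), Multiset.card_cons, ha]
      push_cast
      ring
    · rw [Multiset.filter_cons_of_neg _ (by omega), ha']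
      push_cast
      ring

open scoped Classical in
/-- a multiset of roots has exactly one element of negative valuation -/
theorem amg2_one {N : ℕ} {V U : ℤ} {G : K[X]} (h : NPs P N V U G) (m : Multiset K)
    (hc : m.card = N + 1) (hG : G = C G.leadingCoeff * (m.map fun a => X - C a).prod) :
    (m.filter (fun x => ord P x < 0)).card = 1 := by
  have hV := h.V_pos
  have hU := h.U_pos
  have hN := h.three_le
  have hroot : ∀ x ∈ m, G.eval x = 0 := by
    intro x hx
    rw [hG, eval_mul, eval_multiset_prod, Multiset.map_map]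
    refine mul_eq_zero_of_right _ (Multiset.prod_eq_zero ?_)
    rw [Multiset.mem_map]
    exact ⟨x, hx, by simp⟩
  have hlc : G.leadingCoeff = G.coeff (N + 1) := by rw [leadingCoeff, h.deg]
  have htop0 : G.coeff (N + 1) ≠ 0 := by
    intro h0
    have h1 := h.top
    rw [h0, ord_zero] at h1
    omega
  obtain ⟨p0, hp⟩ := amg2_prod P (N := N) (V := V) (U := U) m (fun x hx => nps_root h (hroot x hx)) hV
  have h0 : G.coeff 0 = G.coeff (N + 1) * ((-1) ^ (N + 1) * m.prod) := by
    have h1 : G.coeff 0 = (C G.leadingCoeff * (m.map fun a => X - C a).prod).coeff 0 := by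
      rw [← hG]
    rw [h1, coeff_zero_eq_eval_zero, eval_mul, eval_C, eval_multiset_prod, Multiset.map_map, hlc]
    congr 1
    have h2 : (m.map (eval 0 ∘ fun a => X - C a)) = m.map (fun a => (-1) * a) := by
      refine Multiset.map_congr rfl fun a _ => ?_
      simp
    rw [h2, Multiset.prod_map_mul, Multiset.map_const', Multiset.prod_replicate, hc,
      Multiset.map_id']
  have h1 : ord P (G.coeff 0) = ord P (G.coeff (N + 1)) + ord P m.prod := by
    rw [h0, ord_mul P htop0 (mul_ne_zero (pow_ne_zero _ (by norm_num)) p0),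
      ord_mul P (pow_ne_zero _ (by norm_num)) p0, ord_pow, ord_neg, ord_one, mul_zero, zero_add]
  rw [h.zero, h.top] at h1
  have h2 : ord P m.prod = U - V := by linarith
  rw [h2, hc] at hp
  set s := (m.filter (fun x => ord P x < 0)).card with hs
  have h3 : (s : ℤ) * (U + N * V) = 1 * (U + N * V) := by
    push_cast at hp
    linarith
  have h4 : U + N * V ≠ 0 := by
    have : 0 ≤ (N : ℤ) * V := mul_nonneg (by positivity) hV.le
    omega
  exact_mod_cast mul_right_cancel₀ h4 h3

end aux2

/-- exactly one root has negative valuation -/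
theorem nps_one {k K : Type} [Field k] [NumberField k] [Field K] [NumberField K] [Algebra k K]
    (P : HeightOneSpectrum (𝓞 K)) {N : ℕ} {V U : ℤ} {F : k[X]} (h : NPs (below k P) N V U F)
    (R : Roots k K (N + 1) F) :
    ∃ r, ord P (R.θ r) = -(erel k P * V) ∧
      ∀ i, i ≠ r → 0 < ord P (R.θ i) ∧ (N : ℤ) * ord P (R.θ i) = erel k P * U := by
  classical
  have h' := nps_map P h
  have hfac : F.map (algebraMap k K) = C (F.map (algebraMap k K)).leadingCoeff *
      ((Finset.univ.val.map R.θ).map fun a => X - C a).prod := by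
    rw [leadingCoeff_map, R.fac, Multiset.map_map]
    rfl
  have h1 := amg2_one P h' (Finset.univ.val.map R.θ) (by simp) hfac
  rw [Multiset.filter_map, Multiset.card_map] at h1
  obtain ⟨r, hr⟩ := Multiset.card_eq_one.1 h1
  have hroot : ∀ i, R.θ i ≠ 0 ∧ (ord P (R.θ i) = -(erel k P * V) ∨
      (0 < ord P (R.θ i) ∧ (N : ℤ) * ord P (R.θ i) = erel k P * U)) := fun i =>
    nps_root h' (R.eval_root i)
  have hmem : ∀ i, ord P (R.θ i) < 0 ↔ i = r := by
    intro i
    rw [← Multiset.mem_singleton, ← hr, Multiset.mem_filter]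
    simp
  have hV := h'.V_pos
  refine ⟨r, ?_, ?_⟩
  · rcases (hroot r).2 with h2 | h2
    · exact h2
    · exact absurd ((hmem r).2 rfl) (by omega)
  · intro i hi
    rcases (hroot i).2 with h2 | h2
    · exact absurd ((hmem i).1 (by omega)) hi
    · exact h2

/-- the roots in an algebraic closure are distinct -/
theorem roots_of_nps {k : Type} [Field k] [NumberField k] {l : HeightOneSpectrum (𝓞 k)} {N : ℕ}
    {V U : ℤ} {F : k[X]} (h : NPs l N V U F) (hcop : IsCoprime U (N : ℤ)) :
    Nonempty (Roots k (AlgebraicClosure k) (N + 1) F) := by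
  classical
  have hF0 : F ≠ 0 := by
    rintro rfl
    exact h.ne (by simp)
  let L := F.SplittingField
  have : NumberField L := NumberField.of_module_finite k L
  have : IsGalois k L := ⟨⟩
  obtain ⟨P, hP⟩ := exists_above L l
  subst hP
  have h' := nps_map P h
  set G := F.map (algebraMap k L) with hG
  have hsp : G.Splits := SplittingField.splits F
  have hcard : G.roots.card = G.natDegree := (splits_iff_card_roots).1 hsp
  have hc : G.roots.card = N + 1 := by rw [hcard, h'.deg]
  have hG0 : G ≠ 0 := (Polynomial.map_ne_zero_iff (algebraMap k L).injective).2 hF0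
  have hone := amg2_one P h' G.roots hc (C_leadingCoeff_mul_prod_multiset_X_sub_C hcard).symm
  have he : (0 : ℤ) < erel k P := by exact_mod_cast erel_pos P
  obtain ⟨D, hD1, hD2⟩ := exists_decomp (k := k) P
  -- roots of positive valuation
  set S := G.roots.toFinset.filter (fun x => 0 < ord P x) with hS
  set T := G.roots.toFinset.filter (fun x => ord P x < 0) with hT
  have hroot : ∀ x ∈ G.roots, x ≠ 0 ∧ (ord P x = -(erel k P * V) ∨
      (0 < ord P x ∧ (N : ℤ) * ord P x = erel k P * U)) := fun x hx =>
    nps_root h' (mem_roots'.1 hx).2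
  have hV := h'.V_pos
  have hN := h.three_le
  obtain ⟨r, hr⟩ := Multiset.card_eq_one.1 hone
  have hrm : r ∈ G.roots.filter (fun x => ord P x < 0) := by rw [hr]; simp
  have hrT : r ∈ T := by
    rw [hT, Finset.mem_filter, Multiset.mem_toFinset]
    exact Multiset.mem_filter.1 hrm
  -- there is a root of positive valuation
  have hSne : S.Nonempty := by
    by_contra hne
    rw [Finset.not_nonempty_iff_eq_empty] at hne
    have h2 : G.roots.filter (fun x => ord P x < 0) = G.roots := by
      rw [Multiset.filter_eq_self]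
      intro x hx
      rcases (hroot x hx).2 with h3 | h3
      · omega
      · exfalso
        have : x ∈ S := by
          rw [hS, Finset.mem_filter, Multiset.mem_toFinset]
          exact ⟨hx, h3.1⟩
        rw [hne] at this
        simp at this
    rw [h2, hc] at hone
    omega
  obtain ⟨x1, hx1⟩ := hSne
  have hmS : ∀ x ∈ S, x ∈ G.roots ∧ 0 < ord P x := by
    intro x hx
    rw [hS, Finset.mem_filter, Multiset.mem_toFinset] at hx
    exact hx
  have hNt : ∀ x ∈ S, (N : ℤ) * ord P x = erel k P * U := by
    intro x hx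
    obtain ⟨h2, h3⟩ := hmS x hx
    rcases (hroot x h2).2 with h4 | h4
    · omega
    · exact h4.2
  have hN0 : (N : ℤ) ≠ 0 := by exact_mod_cast (by omega : N ≠ 0)
  have hdvd := hD2 S (by
    intro σ hσ x hx
    obtain ⟨h2, h3⟩ := hmS x hx
    rw [hS, Finset.mem_filter, Multiset.mem_toFinset, hD1 σ hσ]
    refine ⟨mem_roots'.2 ⟨hG0, ?_⟩, h3⟩
    have h4 : eval x G = 0 := (mem_roots'.1 h2).2
    change eval (σ x) G = 0
    rw [hG, eval_map_algebraMap] at h4 ⊢
    have h5 : (aeval (σ x)) F = σ ((aeval x) F) := aeval_algHom_apply σ.toAlgHom x F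
    rw [h5, h4, map_zero]) (fun x hx => (hroot x (hmS x hx).1).1) (ord P x1) (by
    intro x hx
    exact mul_left_cancel₀ hN0 ((hNt x hx).trans (hNt x1 hx1).symm))
  have hNS : (N : ℤ) ∣ S.card := by
    obtain ⟨c, hc'⟩ := hdvd
    have h2 : (erel k P : ℤ) * ((S.card : ℤ) * U) = erel k P * (N * c) := by
      have h3 : (N : ℤ) * (S.card * ord P x1) = N * (erel k P * c) := by rw [hc']
      have h4 := hNt x1 hx1
      calc (erel k P : ℤ) * ((S.card : ℤ) * U) = S.card * (erel k P * U) := by ring
        _ = S.card * (N * ord P x1) := by rw [h4]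
        _ = N * (S.card * ord P x1) := by ring
        _ = N * (erel k P * c) := h3
        _ = erel k P * (N * c) := by ring
    have h3 : (S.card : ℤ) * U = N * c := mul_left_cancel₀ he.ne' h2
    exact hcop.symm.dvd_of_dvd_mul_right ⟨c, h3⟩
  have hSN : N ≤ S.card := by
    refine Nat.le_of_dvd (Finset.card_pos.2 ⟨x1, hx1⟩) ?_
    exact_mod_cast hNS
  have hdis : Disjoint S T := by
    rw [Finset.disjoint_left]
    intro x hx hx'
    rw [hT, Finset.mem_filter] at hx'
    have := (hmS x hx).2
    omega
  have hle : N + 1 ≤ G.roots.toFinset.card := by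
    have h2 : (S ∪ T).card = S.card + T.card := Finset.card_union_of_disjoint hdis
    have h3 : (S ∪ T).card ≤ G.roots.toFinset.card := by
      refine Finset.card_le_card (Finset.union_subset ?_ ?_)
      · exact Finset.filter_subset _ _
      · exact Finset.filter_subset _ _
    have h4 : 1 ≤ T.card := Finset.card_pos.2 ⟨r, hrT⟩
    omega
  have hnd : G.roots.Nodup := by
    rw [← Multiset.toFinset_card_eq_card_iff_nodup]
    have := Multiset.toFinset_card_le G.roots
    omega
  have hsep : F.Separable := (nodup_aroots_iff_of_splits hF0 hsp).1 hnd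
  refine an8_roots h.deg (leadingCoeff_ne_zero.2 hF0) ?_
  intro x hx hx'
  rw [eval_map_algebraMap] at hx hx'
  exact hsep.aeval_derivative_ne_zero hx hx'

end NP

end Pool.Agent.H9.AM
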