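import Pool.Agent.H9.AM.Defs
import Pool.Agent.H9.AM.NP
import Pool.Agent.H35.AN.Val
import Pool.Agent.H35.AN.Tower
import Pool.Agent.H35.AN.Decomp
import Pool.Agent.H35.AN.Prim
import Pool.Agent.H35.AN.Even
import Pool.Agent.H35.AN.Gal1

/-!
# Project AN2, row G3: the Galois group in even degree, from the local data
-/

set_option autoImplicit false

open Polynomial IsDedekindDomain NumberField

namespace Pool.Agent.H9.AM

open Pool.Agent.H35.AN

section GalCore

variable {k L : Type} [Field k] [NumberField k] [Field L] [NumberField L] [Algebra k L]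
  [IsGalois k L]

/-- A polynomial without roots in `k`: the Galois group fixes no index. -/
theorem amg3_not_fixed {n : ℕ} {F : k[X]} (R : Roots k L n F) (hnr : ∀ x : k, F.eval x ≠ 0)
    (r : Fin n) : ¬ ∀ σ ∈ R.permHom.range, σ r = r := by
  intro hfix
  have h1 : ∀ σ : L ≃ₐ[k] L, σ (R.θ r) = R.θ r := by
    intro σ
    rw [R.permHom_spec, hfix _ ⟨σ, rfl⟩]
  haveI : FiniteDimensional k L := Module.Finite.of_restrictScalars_finite ℚ k L
  obtain ⟨x, hx⟩ := (IsGalois.mem_range_algebraMap_iff_fixed (R.θ r)).mpr h1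
  have h2 := R.eval_root r
  rw [← hx, eval_map_algebraMap, aeval_algebraMap_apply, map_eq_zero, coe_aeval_eq_eval] at h2
  exact hnr x h2

theorem gal_even_core {N : ℕ} {F : k[X]} (R : Roots k L (N + 1) F)
    (hgen : IntermediateField.adjoin k (Set.range R.θ) = ⊤) {l : HeightOneSpectrum (𝓞 k)}
    {V U : ℤ} (h : NPs l N V U F) (hcop : IsCoprime U (N : ℤ)) (hnr : ∀ x : k, F.eval x ≠ 0)
    (h3 : ∃ σ : L ≃ₐ[k] L, (R.permHom σ).IsThreeCycle)
    (hsq : ∃ q : k, (algebraMap k L) (q ^ 2) = ∏ i, ∏ j ∈ Finset.Ioi i, (R.θ j - R.θ i) ^ 2) :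
    R.permHom.range = alternatingGroup (Fin (N + 1)) := by
  have hN := h.three_le
  have hN0 : (N : ℤ) ≠ 0 := by exact_mod_cast (by omega : N ≠ 0)
  -- primitivity
  have hpr : MulAction.IsPreprimitive R.permHom.range (Fin (N + 1)) := by
    obtain ⟨P, hP⟩ := exists_above L l
    obtain ⟨D, hD, hD2⟩ := an18_orbit R P
    have he : (0 : ℤ) < erel k P := by exact_mod_cast erel_pos P
    obtain ⟨r, hr0, hr1⟩ := nps_one P (hP.symm ▸ h) R
    have hneg : ord P (R.θ r) < 0 := by
      rw [hr0]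
      have := mul_pos he h.V_pos
      linarith
    have hDG : D.map R.permHom ≤ R.permHom.range := by
      rintro _ ⟨σ, -, rfl⟩
      exact ⟨σ, rfl⟩
    have hDr : ∀ σ ∈ D.map R.permHom, σ r = r := by
      rintro _ ⟨σ, hσ, rfl⟩
      by_contra hne'
      have h1 := (hr1 _ hne').1
      have h2 : ord P (R.θ (R.permHom σ r)) = ord P (R.θ r) := by
        rw [← R.permHom_spec, hD σ hσ]
      change 0 < ord P (R.θ (R.permHom σ r)) at h1
      rw [h2] at h1
      linarith
    have hor : ∀ S : Finset (Fin (N + 1)),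
        (∀ σ ∈ D.map R.permHom, ∀ x ∈ S, σ x ∈ S) → r ∉ S → N ∣ S.card := by
      intro S hS hrS
      rcases S.eq_empty_or_nonempty with rfl | ⟨i0, hi0⟩
      · simp
      have hmem : ∀ i ∈ S, i ≠ r := fun i hi h' => hrS (h' ▸ hi)
      refine an18_dvd (m := (N : ℤ)) rfl he.ne' hcop (hr1 i0 (hmem i0 hi0)).2
        (hD2 S (fun σ hσ x hx => hS _ ⟨σ, hσ, rfl⟩ x hx) ?_ _ ?_)
      · intro i hi h0
        exact (hr1 i (hmem i hi)).1.ne' (by rw [h0, ord_zero])
      · intro i hi
        have h1 := (hr1 i (hmem i hi)).2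
        rw [← (hr1 i0 (hmem i0 hi0)).2] at h1
        exact mul_left_cancel₀ hN0 h1
    have htr : MulAction.IsPretransitive R.permHom.range (Fin (N + 1)) :=
      isPretransitive_of_orbits (m := N) R.permHom.range (D.map R.permHom) hDG r hDr hor
        (amg3_not_fixed R hnr r)
    refine isPreprimitive_of_orbits (m := N) R.permHom.range (D.map R.permHom) htr hDG r
      hDr hor ?_
    intro j hj
    have hle : j * N + 1 ≤ N + 1 := Nat.le_of_dvd (by omega) hj
    have hj2 : j ≤ 1 := by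
      by_contra hc
      have : 2 * N ≤ j * N := Nat.mul_le_mul_right _ (by omega)
      omega
    interval_cases j
    · left; simp
    · right; ring
  obtain ⟨σ, hσ⟩ := h3
  obtain ⟨d, hd⟩ := hsq
  exact eq_alternating _ hpr ⟨_, ⟨σ, rfl⟩, hσ⟩ (even_of_sq R d hd)

end GalCore

end Pool.Agent.H9.AM
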