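import Pool.Agent.H35.AN.Val
import Pool.Agent.H35.AN.Transport
import Pool.Agent.H9.AM.Defs
import Pool.Agent.H9.AM.NP
import Pool.Agent.H9.AM.GalCore
import Pool.Agent.H9.AM.EvBasic
import Pool.Agent.H9.AM.EvClose
import Pool.Agent.H9.AM.EvSq
import Pool.Agent.H9.AM.EvTri
import Pool.Agent.H9.AM.EvLoc
import Pool.Agent.H9.AM.EvSize
import Pool.Agent.H9.AM.EvDisc
import Pool.Agent.H9.AM.EvParam

/-!
# Project AN2 (MP_a3214d), row AM-E9: the key statement, even degree

Assembly. For the even family `fE` the field `K = k(θ)` of one root is an `A_n` field; the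
generator is `α = λ θ`, where `λ = h (2h+1) b²` is the leading coefficient, its minimal polynomial
is `integralNormalization` of the member of the family and its norm is `-λ^(2h+1) d y²`.
-/

set_option autoImplicit false

open Polynomial IsDedekindDomain NumberField

namespace Pool.Agent.H9.AM

open Pool.Agent.H35.AN

/-! ### The generator `λ x` -/

/-- The minimal polynomial and the norm of `λ x`, where `x` is a root of `F` with leading
coefficient `λ`. -/
theorem ame9_gen {k K : Type} [Field k] [Field K] [Algebra k K] [FiniteDimensional k K]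
    {n : ℕ} (hn : 0 < n) {F : k[X]} (hdeg : F.natDegree = n) {x : K}
    (hx : (F.map (algebraMap k K)).eval x = 0) (hgen : IntermediateField.adjoin k {x} = ⊤)
    (hfr : Module.finrank k K = n) :
    minpoly k (algebraMap k K F.leadingCoeff * x) = integralNormalization F ∧
      Algebra.norm k (algebraMap k K F.leadingCoeff * x) =
        (-1) ^ n * (F.coeff 0 * F.leadingCoeff ^ (n - 1)) := by
  have hF0 : F ≠ 0 := by
    rintro rfl
    rw [natDegree_zero] at hdeg
    omega
  have hlc : F.leadingCoeff ≠ 0 := leadingCoeff_ne_zero.mpr hF0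
  set z : K := algebraMap k K F.leadingCoeff * x with hz
  have hlcK : algebraMap k K F.leadingCoeff ≠ 0 := by simpa using hlc
  have hroot : aeval z (integralNormalization F) = 0 := by
    apply integralNormalization_aeval_eq_zero
    · rw [← eval_map_algebraMap]
      exact hx
    · intro c hc
      exact (map_eq_zero _).mp hc
  have hzgen : IntermediateField.adjoin k {z} = ⊤ := by
    rw [eq_top_iff, ← hgen, IntermediateField.adjoin_simple_le_iff]
    have h1 : x = (algebraMap k K F.leadingCoeff)⁻¹ * z := by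
      rw [hz, inv_mul_cancel_left₀ hlcK]
    rw [h1]
    apply mul_mem
    · exact inv_mem (IntermediateField.algebraMap_mem _ _)
    · exact IntermediateField.mem_adjoin_simple_self k z
  have hzint : IsIntegral k z := IsIntegral.of_finite k z
  have hdz : (minpoly k z).natDegree = n := by
    rw [← hfr]
    exact (Field.primitive_element_iff_minpoly_natDegree_eq k z).mp hzgen
  have hmin : minpoly k z = integralNormalization F := by
    symm
    apply eq_of_monic_of_dvd_of_natDegree_le (minpoly.monic hzint)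
      (monic_integralNormalization hF0) (minpoly.dvd k z hroot)
    rw [natDegree_integralNormalization, hdeg, hdz]
  refine ⟨hmin, ?_⟩
  have htop : Algebra.adjoin k {z} = ⊤ := by
    have h1 := IntermediateField.adjoin_simple_toSubalgebra_of_isAlgebraic
      (IsAlgebraic.of_finite k z)
    rw [← h1, hzgen]
    rfl
  have h2 := Algebra.PowerBasis.norm_gen_eq_coeff_zero_minpoly
    (PowerBasis.ofAdjoinEqTop hzint htop)
  rw [PowerBasis.ofAdjoinEqTop_gen, PowerBasis.ofAdjoinEqTop_dim, hdz, hmin] at h2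
  rw [h2, integralNormalization_coeff_ne_natDegree (by omega), hdeg, Nat.sub_zero]

/-- The normalised polynomial determines the polynomial, for given degree and leading
coefficient. -/
theorem ame9_norm_inj {k : Type} [Field k] {F G : k[X]} (hF : F ≠ 0)
    (hdeg : F.natDegree = G.natDegree) (hlc : F.leadingCoeff = G.leadingCoeff)
    (he : integralNormalization F = integralNormalization G) : F = G := by
  have hl : F.leadingCoeff ≠ 0 := leadingCoeff_ne_zero.mpr hF
  ext i
  by_cases hi : i = F.natDegree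
  · rw [hi]
    conv_rhs => rw [hdeg]
    exact hlc
  · have h1 := congrArg (fun p => p.coeff i) he
    rw [integralNormalization_coeff_ne_natDegree hi,
      integralNormalization_coeff_ne_natDegree (hdeg ▸ hi), ← hdeg, ← hlc] at h1
    exact mul_right_cancel₀ (pow_ne_zero _ hl) h1

/-- `λ x` is integral when all coefficients of `F` are. -/
theorem ame9_integral {k K : Type} [Field k] [NumberField k] [Field K] [NumberField K]
    [Algebra k K] {F : k[X]} (hF : ∀ i, IsIntegral ℤ (F.coeff i)) {x : K}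
    (hx : (F.map (algebraMap k K)).eval x = 0) :
    IsIntegral ℤ (algebraMap k K F.leadingCoeff * x) := by
  have hl : F ∈ lifts (algebraMap (𝓞 k) k) := by
    rw [lifts_iff_coeff_lifts]
    intro i
    exact ⟨⟨F.coeff i, hF i⟩, rfl⟩
  obtain ⟨G, hG⟩ := (mem_lifts F).mp hl
  have hinj : Function.Injective (algebraMap (𝓞 k) k) := RingOfIntegers.coe_injective
  have hlc : algebraMap (𝓞 k) k G.leadingCoeff = F.leadingCoeff := by
    rw [← hG, leadingCoeff_map_of_injective hinj]
  have h1 : aeval x G = 0 := by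
    rw [← hG, Polynomial.map_map, ← IsScalarTower.algebraMap_eq, eval_map_algebraMap] at hx
    exact hx
  have h2 : IsIntegral (𝓞 k) (G.leadingCoeff • x) := isIntegral_leadingCoeff_smul G x h1
  have h3 : G.leadingCoeff • x = algebraMap k K F.leadingCoeff * x := by
    rw [Algebra.smul_def, ← hlc, ← IsScalarTower.algebraMap_apply]
  rw [← h3]
  exact isIntegral_trans (R := ℤ) (A := 𝓞 k) _ h2

/-! ### Local and archimedean properties of the parameters -/

/-- primes outside `M` have large residue characteristic -/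
theorem ame9_units {k : Type} [Field k] [NumberField k] {M N : ℕ} (hM : N.factorial ∣ M)
    (p : HeightOneSpectrum (𝓞 k)) (hp : (M : 𝓞 k) ∉ p.asIdeal) : UnitsUpTo p N := by
  intro m hm0 hmN
  have h1 : ((m : ℕ) : 𝓞 k) ∉ p.asIdeal := by
    intro hm
    obtain ⟨c, hc⟩ := (Nat.dvd_factorial hm0 hmN).trans hM
    apply hp
    rw [hc]
    push_cast
    exact Ideal.mul_mem_right _ _ hm
  have h2 := an1_ord_coe_eq_zero p h1
  simpa using h2

theorem ame9_ord_one {k : Type} [Field k] [NumberField k] {M : ℕ} {a : 𝓞 k}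
    (ha : a ≠ 0) (hs : SqfreeOff M a) (p : HeightOneSpectrum (𝓞 k))
    (hp : (M : 𝓞 k) ∉ p.asIdeal) (hap : a ∈ p.asIdeal) : ord p (a : k) = 1 := by
  have hak : (a : k) ≠ 0 := by simpa using ha
  have h1 := hs p hp
  rw [mem_pow_iff, ge_iff p hak] at h1
  rw [mem_iff_ge_one, ge_iff p hak] at hap
  push_cast at h1
  omega

/-- Bounds for the conjugates of a nonzero element. -/
theorem ame9_conj (k : Type) [Field k] [NumberField k] {x : k} (hx : x ≠ 0) :
    ∃ B : ℝ, 1 ≤ B ∧ ∀ φ : k →+* ℂ, 1 ≤ B * ‖φ x‖ ∧ ‖φ x‖ ≤ B := by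
  classical
  have hpos : ∀ φ : k →+* ℂ, 0 < ‖φ x‖ := fun φ =>
    norm_pos_iff.mpr ((map_ne_zero φ).mpr hx)
  refine ⟨1 + ∑ φ : k →+* ℂ, (‖φ x‖ + ‖φ x‖⁻¹), ?_, ?_⟩
  · have h1 : 0 ≤ ∑ φ : k →+* ℂ, (‖φ x‖ + ‖φ x‖⁻¹) :=
      Finset.sum_nonneg fun φ _ => by positivity
    linarith
  · intro φ
    have h1 : ‖φ x‖ + ‖φ x‖⁻¹ ≤ ∑ φ : k →+* ℂ, (‖φ x‖ + ‖φ x‖⁻¹) :=
      Finset.single_le_sum (f := fun φ : k →+* ℂ => ‖φ x‖ + ‖φ x‖⁻¹)
        (fun φ _ => by positivity) (Finset.mem_univ φ)
    have h2 := hpos φ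
    have h3 : 0 < ‖φ x‖⁻¹ := inv_pos.mpr h2
    constructor
    · have h4 : ‖φ x‖⁻¹ ≤ 1 + ∑ φ : k →+* ℂ, (‖φ x‖ + ‖φ x‖⁻¹) := by linarith
      calc (1 : ℝ) = ‖φ x‖⁻¹ * ‖φ x‖ := (inv_mul_cancel₀ h2.ne').symm
        _ ≤ _ := mul_le_mul_of_nonneg_right h4 h2.le
    · linarith

/-- The coefficients of `spoly`. -/
theorem ame9_spoly_ge {k : Type} [Field k] [NumberField k] {r : ℕ}
    (P : HeightOneSpectrum (𝓞 k)) (δ : Fin r → 𝓞 k) (i : ℕ) :
    Ge P 0 ((spoly (fun j => (δ j : k))).coeff i) := by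
  rw [spoly_coeff]
  split_ifs with hi
  · exact an1_ge_coe P _
  · exact ge_zero P 0

/-- `gE` is close to the base member at primes dividing `M`. -/
theorem ame9_gE_close {k : Type} [Field k] [NumberField k] {h M : ℕ}
    (P : HeightOneSpectrum (𝓞 k)) {m : ℤ} (hM : Ge P m (M : k)) (δ : Fin (h - 1) → 𝓞 k) (i : ℕ) :
    Ge P m ((gE h (M : k) (fun j => (δ j : k)) - X ^ (h - 2) * (X - 1)).coeff i) := by
  have h1 : gE h (M : k) (fun j => (δ j : k)) - X ^ (h - 2) * (X - 1) =
      C (M : k) * spoly (fun j => (δ j : k)) := by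
    unfold gE
    ring
  rw [h1, coeff_C_mul]
  have := ge_mul P hM (ame9_spoly_ge P δ i)
  rwa [add_zero] at this

theorem ame9_gE_integral {k : Type} [Field k] [NumberField k] {h M : ℕ}
    (P : HeightOneSpectrum (𝓞 k)) (δ : Fin (h - 1) → 𝓞 k) (i : ℕ) :
    Ge P 0 ((gE h (M : k) (fun j => (δ j : k))).coeff i) := by
  have h1 : gE h (M : k) (fun j => (δ j : k)) = X ^ (h - 2) * (X - 1) +
      (gE h (M : k) (fun j => (δ j : k)) - X ^ (h - 2) * (X - 1)) := by ring
  rw [h1, coeff_add]
  apply ge_add P _ (ame9_gE_close P (ge_nat P M) δ i)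
  have h2 : (X ^ (h - 2) * (X - 1) : k[X]) =
      ((X ^ (h - 2) * (X - 1) : ℤ[X])).map (Int.castRingHom k) := by simp
  rw [h2, coeff_map]
  exact ge_int P _

/-! ### The key statement -/

theorem key_even (k : Type) [Field k] [NumberField k] {h : ℕ} (hh : 2 ≤ h) :
    KeyW k (2 * h + 2) (h - 1) (fun i => h - 1 - (i : ℕ)) (h + 1) 2
      ((2 * h + 2) * (2 * h - 1)) := by
  intro Y
  obtain ⟨M, b, η, l, p, q, hM, hMY, hfac, hb, hη, hfix, hbM, hMq, hcond⟩ :=
    exists_paramE k hh Y
  have hbk : (b : k) ≠ 0 := by simpa using hb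
  have hMk : (M : k) ≠ 0 := by exact_mod_cast hM.ne'
  have hh0 : (h : k) * (2 * h + 1) ≠ 0 := by
    have h1 : ((h * (2 * h + 1) : ℕ) : k) ≠ 0 := by
      rw [Nat.cast_ne_zero]
      exact Nat.mul_ne_zero (by omega) (by omega)
    push_cast at h1
    exact h1
  have hlam0 : (h : k) * (2 * h + 1) * (b : k) ^ 2 ≠ 0 := mul_ne_zero hh0 (pow_ne_zero _ hbk)
  have hdd : (dd2 h : k) ≠ 0 := by
    rw [Int.cast_ne_zero]
    unfold dd2
    have h1 : (0 : ℤ) < h * (2 * h + 1) := by
      have : (2 : ℤ) ≤ h := by exact_mod_cast hh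
      nlinarith
    exact mul_ne_zero (pow_ne_zero _ (by norm_num)) h1.ne'
  obtain ⟨c, hck⟩ : ∃ c : 𝓞 k,
      (c : k) = -(((h : k) * (2 * h + 1) * (b : k) ^ 2) ^ (2 * h + 1) * (dd2 h : k)) := by
    refine ⟨-((((h * (2 * h + 1) : ℕ) : 𝓞 k) * b ^ 2) ^ (2 * h + 1) * (dd2 h : 𝓞 k)), ?_⟩
    change algebraMap (𝓞 k) k _ = _
    rw [map_neg, map_mul, map_pow, map_mul, map_pow, map_natCast, map_intCast]
    push_cast
    ring
  have hc0 : c ≠ 0 := by
    rintro rfl
    change algebraMap (𝓞 k) k 0 = _ at hck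
    rw [map_zero, eq_comm, neg_eq_zero] at hck
    exact mul_ne_zero (pow_ne_zero _ hlam0) hdd hck
  refine ⟨M, η, c,
    fun δ y => integralNormalization (fE h (b : k) (y : k) (gE h (M : k) (fun j => (δ j : k)))),
    hM, hMY, hη, hc0, ?_, hfix, ?_⟩
  · intro y δ δ' he
    have h1 := gE_monic hh (M : k) (fun j => (δ j : k))
    have h2 := gE_monic hh (M : k) (fun j => (δ' j : k))
    have h3 := fE_natDegree hh (y := (y : k)) hbk h1.1 h1.2
    have h4 := fE_natDegree hh (y := (y : k)) hbk h2.1 h2.2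
    have h5 : fE h (b : k) (y : k) (gE h (M : k) (fun j => (δ j : k))) ≠ 0 := by
      intro h0
      rw [h0, natDegree_zero] at h3
      omega
    have h6 := ame9_norm_inj h5 (h3.1.trans h4.1.symm) (h3.2.trans h4.2.symm) he
    have h7 := fE_inj hh hbk h1.1 h2.1 h6
    have h8 := gE_inj hh hMk h7
    funext i
    exact RingOfIntegers.coe_injective (congrFun h8 i)
  intro lam hlam
  obtain ⟨C, hC, hdisc⟩ := discr_leE k hh b hb hM hfac lam hlam
  obtain ⟨mu, hmu, hconj⟩ := conjE k hh b hb M lam hlam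
  obtain ⟨B, hB, hBφ⟩ := ame9_conj k hlam0
  refine ⟨C, mu * B, 1, hC, by nlinarith, ?_⟩
  intro H hH δ y hδ hy hbal hsq
  have hH1 : (1 : ℝ) ≤ H := by exact_mod_cast hH
  obtain ⟨hc, hlM⟩ := hcond y hy
  have hyk : (y : k) ≠ 0 := hc.ha
  have hy0 : y ≠ 0 := by simpa using hyk
  obtain ⟨hgm, hgd⟩ := gE_monic hh (M : k) (fun j => (δ j : k))
  have hgi : ∀ (P : HeightOneSpectrum (𝓞 k)) (i : ℕ),
      Ge P 0 ((gE h (M : k) (fun j => (δ j : k))).coeff i) := fun P i => ame9_gE_integral P δ i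
  have hnps := fE_nps hh l b y hM δ hb hy0 hc.l_pos hc.l_b hc.l_a hc.l_lt hlM
  have hcl := fun i => ame9_gE_close (h := h) q ((ge_iff q hMk).mpr hMq) δ i
  have hint := fun i => fE_integral hh b y hM hfac δ i
  have hFd := fE_natDegree hh (y := (y : k)) hbk hgm hgd
  have hF0 := fE_coeff_zero h (b : k) (y : k) (gE h (M : k) (fun j => (δ j : k)))
  set g : k[X] := gE h (M : k) (fun j => (δ j : k)) with hg
  have hdisc' := hdisc (H : ℝ) hH1 δ y hδ hbal
  have hconj' := hconj (H : ℝ) hH1 δ y hδ hbal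
  rw [← hg] at hdisc' hconj'
  set F : k[X] := fE h (b : k) (y : k) g with hF
  have hcop : IsCoprime (ord l ((2 * h + 1 : ℕ) : k) + 2 * ord l (y : k)) ((2 * h + 1 : ℕ) : ℤ) := by
    have := hc.l_cop
    push_cast at this ⊢
    exact this
  obtain ⟨R⟩ : Nonempty (Roots k (AlgebraicClosure k) (2 * h + 2) F) := roots_of_nps hnps hcop
  have i0 : Fin (2 * h + 2) := ⟨0, by omega⟩
  have halt : IsAltField k (2 * h + 2) (IntermediateField.adjoin k {R.θ i0}) := by
    apply transport k (by omega) R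
    intro L _ _ _ _ R' hR'
    exact gal_even_core (N := 2 * h + 1) R' hR' hnps hcop
      (fun x => no_rootE hh hbk hyk hgm hgd p hc.p_units hc.p_b hc.p_a (hgi p) x)
      (three_cycleE hh hbk hyk hgm hgd R' hR' q hc.q_units hc.q_a hc.q_b hc.q_ab hcl)
      (disc_sqE hh hbk hyk hgm hgd R')
  have hfr : Module.finrank k (IntermediateField.adjoin k {R.θ i0}) = 2 * h + 2 := halt.1
  have : FiniteDimensional k (IntermediateField.adjoin k {R.θ i0}) :=
    Module.finite_of_finrank_pos (by omega)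
  have hNF : NumberField (IntermediateField.adjoin k {R.θ i0}) := NumberField.of_module_finite k _
  have hgen : IntermediateField.adjoin k
      {(IntermediateField.AdjoinSimple.gen k (R.θ i0) : IntermediateField.adjoin k {R.θ i0})} = ⊤ := by
    apply IntermediateField.lift_injective
    rw [IntermediateField.lift_adjoin_simple, IntermediateField.lift_top,
      IntermediateField.AdjoinSimple.coe_gen]
  have hroot : (F.map (algebraMap k (IntermediateField.adjoin k {R.θ i0}))).eval
      (IntermediateField.AdjoinSimple.gen k (R.θ i0)) = 0 := by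
    have h1 := R.eval_root i0
    rw [eval_map_algebraMap] at h1 ⊢
    apply Subtype.ext
    have h2 : aeval (algebraMap (IntermediateField.adjoin k {R.θ i0}) (AlgebraicClosure k)
        (IntermediateField.AdjoinSimple.gen k (R.θ i0))) F =
        algebraMap (IntermediateField.adjoin k {R.θ i0}) (AlgebraicClosure k)
          (aeval (IntermediateField.AdjoinSimple.gen k (R.θ i0)) F) :=
      aeval_algebraMap_apply _ _ _
    rw [IntermediateField.AdjoinSimple.algebraMap_gen, h1] at h2
    exact h2.symm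
  generalize IntermediateField.AdjoinSimple.gen k (R.θ i0) = x at hgen hroot
  obtain ⟨hmin, hnorm⟩ := ame9_gen (by omega) hFd.1 hroot hgen hfr
  refine ⟨IntermediateField.adjoin k {R.θ i0}, hNF,
    ⟨algebraMap k _ F.leadingCoeff * x, ame9_integral hint hroot⟩, halt, hmin, ?_, ?_, ?_, ?_⟩
  · refine hnorm.trans ?_
    rw [hFd.2, hF0, Even.neg_one_pow ⟨h + 1, by ring⟩, hck]
    rw [show 2 * h + 2 - 1 = 2 * h + 1 by omega]
    ring
  · intro φ
    right
    have h1 := hconj' (IntermediateField.adjoin k {R.θ i0}) x hroot φ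
    have h2 := hBφ (φ.comp (algebraMap k _))
    have h3 : ‖φ (algebraMap k (IntermediateField.adjoin k {R.θ i0}) F.leadingCoeff * x)‖ =
        ‖(φ.comp (algebraMap k _)) ((h : k) * (2 * h + 1) * (b : k) ^ 2)‖ * ‖φ x‖ := by
      rw [map_mul, norm_mul, hFd.2]
      rfl
    have h4 : 0 ≤ ‖φ x‖ := norm_nonneg _
    have h5 : 0 ≤ ‖(φ.comp (algebraMap k (IntermediateField.adjoin k {R.θ i0})))
      ((h : k) * (2 * h + 1) * (b : k) ^ 2)‖ := norm_nonneg _
    change (H : ℝ) ≤ mu * B *
      ‖φ (algebraMap k (IntermediateField.adjoin k {R.θ i0}) F.leadingCoeff * x)‖ ∧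
      ‖φ (algebraMap k (IntermediateField.adjoin k {R.θ i0}) F.leadingCoeff * x)‖ ≤ mu * B * H
    rw [h3]
    set A : ℝ := ‖(φ.comp (algebraMap k (IntermediateField.adjoin k {R.θ i0})))
      ((h : k) * (2 * h + 1) * (b : k) ^ 2)‖ with hA
    constructor
    · calc (H : ℝ) ≤ mu * ‖φ x‖ := h1.1
        _ = 1 * (mu * ‖φ x‖) := by ring
        _ ≤ (B * A) * (mu * ‖φ x‖) :=
          mul_le_mul_of_nonneg_right h2.1 (by positivity)
        _ = mu * B * (A * ‖φ x‖) := by ring
    · calc A * ‖φ x‖ ≤ B * (mu * H) :=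
          mul_le_mul h2.2 h1.2 h4 (by linarith)
        _ = mu * B * H := by ring
  · exact hdisc' _ x hfr hgen hroot
  · intro r hr p' hrp' hMp' hyp'
    exact dvd_discrE hh hbk hyk hgm hgd hroot hgen hfr p' (ame9_units hfac p' hMp')
      (an1_ord_coe_eq_zero p' (fun hbp => hMp' (hbM p' hbp)))
      (ame9_ord_one hy0 hsq p' hMp' hyp') (hgi p') hr hrp'

end Pool.Agent.H9.AM
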