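import Pool.Agent.H9.AM.DefsOdd
import Pool.Agent.H9.AM.EvBasic

/-!
# Project AN2 (MP_a3214d), row AM-O1: the members of the odd family
-/

set_option autoImplicit false

open Polynomial IsDedekindDomain NumberField

namespace Pool.Agent.H9.AM

open Pool.Agent.H35.AN

section Ident

variable {k : Type*} [Field k] [CharZero k]

omit [CharZero k] in
/-- the coefficients of a sum of monomials over the support of `R` -/
theorem amO1_sum_coeff (R : k[X]) (a : ℕ → k) (s j : ℕ) (ha : ∀ i, R.natDegree < i → a i = 0) :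
    (∑ i ∈ Finset.range (R.natDegree + 1), C (a i) * X ^ (i + s)).coeff j =
      if s ≤ j then a (j - s) else 0 := by
  rw [finsetSum_coeff]
  simp only [coeff_C_mul, coeff_X_pow]
  by_cases hs : s ≤ j
  · rw [if_pos hs]
    by_cases hj : j - s ∈ Finset.range (R.natDegree + 1)
    · rw [Finset.sum_eq_single (j - s)]
      · rw [if_pos (by omega), mul_one]
      · intro b _ hb
        rw [if_neg (by omega), mul_zero]
      · intro h
        exact absurd hj h
    · rw [Finset.mem_range] at hj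
      rw [ha (j - s) (by omega)]
      refine Finset.sum_eq_zero fun i hi => ?_
      rw [Finset.mem_range] at hi
      rw [if_neg (by omega), mul_zero]
  · rw [if_neg hs]
    refine Finset.sum_eq_zero fun i _ => ?_
    rw [if_neg (by omega), mul_zero]

theorem amO1_ne (i : ℕ) : (2 * (i : k) + 1) ≠ 0 := by
  exact_mod_cast (by omega : 2 * i + 1 ≠ 0)

theorem hO_coeff (e : k) (R : k[X]) (i : ℕ) :
    (2 * (i : k) + 1) * (hO e R).coeff i = (R * X ^ 2).coeff i - e * R.coeff i := by
  have h0 : ∀ i, R.natDegree < i → R.coeff i = 0 := fun i hi => coeff_eq_zero_of_natDegree_lt hi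
  have h1 := amO1_sum_coeff R (fun i => R.coeff i / (2 * (i : k) + 5)) 2 i
    (fun i hi => by rw [h0 i hi, zero_div])
  have h2 := amO1_sum_coeff R (fun i => e * R.coeff i / (2 * (i : k) + 1)) 0 i
    (fun i hi => by rw [h0 i hi, mul_zero, zero_div])
  simp only [add_zero, Nat.zero_le, if_true, Nat.sub_zero] at h2
  unfold hO
  rw [Finset.sum_sub_distrib, coeff_sub, h1, h2, coeff_mul_X_pow', mul_sub]
  congr 1
  · by_cases hi : 2 ≤ i
    · rw [if_pos hi, if_pos hi]
      have h3 : (2 * ((i - 2 : ℕ) : k) + 5) = 2 * (i : k) + 1 := by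
        rw [Nat.cast_sub hi]
        push_cast
        ring
      rw [h3, mul_div_cancel₀ _ (amO1_ne i)]
    · rw [if_neg hi, if_neg hi, mul_zero]
  · rw [mul_div_cancel₀ _ (amO1_ne i)]

/-- `H + 2 x H' = (x² - e) R` -/
theorem hO_spec (e : k) (R : k[X]) :
    hO e R + C 2 * X * derivative (hO e R) = (X ^ 2 - C e) * R := by
  ext i
  have h1 : (X * derivative (hO e R)).coeff i = (i : k) * (hO e R).coeff i := by
    cases i with
    | zero => simp
    | succ j =>
      rw [coeff_X_mul, coeff_derivative]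
      push_cast
      ring
  have h2 := hO_coeff e R i
  rw [coeff_add, mul_assoc, coeff_C_mul, h1, sub_mul, coeff_sub, coeff_C_mul, mul_comm (X ^ 2) R,
    ← h2]
  ring

/-- the derivative of a member of the odd family -/
theorem amO1_deriv (κ e w : k) (R : k[X]) :
    derivative (fO κ e w R) = C κ * (X * integ (hO e R * R)) - C (2 * w) * X := by
  have h1 := hO_spec e R
  have h2 : (C (κ / 2) : k[X]) * C 2 = C κ := by
    rw [← C_mul]
    congr 1
    field_simp
  have h3 : (C 2 : k[X]) = 2 := rfl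
  unfold fO
  rw [derivative_sub, derivative_C_mul, derivative_sub, derivative_mul, derivative_integ,
    derivative_mul, derivative_C_mul, derivative_sub, derivative_X_sq, derivative_C, derivative_X,
    derivative_pow, C_mul]
  rw [h3] at h1 h2
  push_cast
  rw [h3]
  linear_combination (C (κ / 2) * hO e R) * (-h1) + (X * integ (hO e R * R)) * h2

/-- the coefficients of `f` beyond `x²` -/
theorem fO_coeff (κ e w : k) (R : k[X]) (j : ℕ) :
    ((j : k) + 1) * ((j : k) + 3) * (fO κ e w R).coeff (j + 3) = κ * (hO e R * R).coeff j := by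
  have h1 := congrArg (fun q : k[X] => q.coeff (j + 2)) (amO1_deriv κ e w R)
  simp only [coeff_derivative, coeff_sub, coeff_C_mul] at h1
  rw [coeff_X_mul, integ_coeff_succ, coeff_X_of_ne_one (by omega), mul_zero, sub_zero] at h1
  have h2 : ((j : k) + 1) ≠ 0 := by exact_mod_cast Nat.succ_ne_zero j
  have h3 : κ * ((hO e R * R).coeff j / ((j : k) + 1)) * ((j : k) + 1) =
      κ * (hO e R * R).coeff j := by
    field_simp
  rw [← h3, ← h1]
  push_cast
  ring

theorem fO_coeff_low (κ e w : k) (R : k[X]) :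
    (fO κ e w R).coeff 0 = w * e ∧ (fO κ e w R).coeff 1 = 0 ∧ (fO κ e w R).coeff 2 = -w := by
  have h1 := congrArg (fun q : k[X] => q.coeff 0) (amO1_deriv κ e w R)
  have h2 := congrArg (fun q : k[X] => q.coeff 1) (amO1_deriv κ e w R)
  simp only [coeff_derivative, coeff_sub, coeff_C_mul] at h1 h2
  rw [coeff_X_mul_zero, coeff_X_zero] at h1
  rw [coeff_X_mul, integ_coeff_zero, coeff_X_one] at h2
  refine ⟨?_, ?_, ?_⟩
  · unfold fO
    rw [coeff_sub, coeff_C_mul, coeff_sub, mul_coeff_zero, integ_coeff_zero, coeff_X_mul_zero,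
      coeff_C_mul, coeff_sub, coeff_X_pow, coeff_C_zero]
    norm_num
  · simpa using h1
  · have h3 : (fO κ e w R).coeff 2 * 2 = -w * 2 := by
      norm_num at h2
      rw [h2]
      ring
    exact mul_right_cancel₀ two_ne_zero h3

theorem amO1_rO_coeff (h : ℕ) (M : k) (δ : Fin (h - 2) → k) {i : ℕ} (hi : h - 2 ≤ i) :
    (rO h M δ).coeff i = if i = h - 2 then 2 * (h : k) + 1 else 0 := by
  unfold rO
  rw [coeff_add, coeff_C_mul, coeff_C_mul, coeff_X_pow, spoly_coeff, dif_neg (by omega), mul_zero,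
    add_zero]
  by_cases h1 : i = h - 2
  · rw [if_pos h1, if_pos h1, mul_one]
  · rw [if_neg h1, if_neg h1, mul_zero]

theorem rO_deg {h : ℕ} (hh : 2 ≤ h) (M : k) (δ : Fin (h - 2) → k) :
    (rO h M δ).natDegree = h - 2 ∧ (rO h M δ).leadingCoeff = 2 * (h : k) + 1 := by
  have h1 : (rO h M δ).coeff (h - 2) = 2 * (h : k) + 1 := by
    rw [amO1_rO_coeff h M δ le_rfl, if_pos rfl]
  have h2 : (rO h M δ).natDegree = h - 2 := by
    apply le_antisymm
    · rw [natDegree_le_iff_coeff_eq_zero]
      intro N hN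
      rw [amO1_rO_coeff h M δ hN.le, if_neg (by omega)]
    · apply le_natDegree_of_ne_zero
      rw [h1]
      exact amO1_ne h
  refine ⟨h2, ?_⟩
  rw [leadingCoeff, h2, h1]

theorem amO1_g {h : ℕ} (hh : 2 ≤ h) (M : k) (δ : Fin (h - 2) → k) (e : k) :
    (hO e (rO h M δ)).natDegree = h ∧ (hO e (rO h M δ)).Monic := by
  obtain ⟨h1, h2⟩ := rO_deg hh M δ
  have h3 : (hO e (rO h M δ)).coeff h = 1 := by
    have h4 := hO_coeff e (rO h M δ) h
    rw [coeff_mul_X_pow', if_pos hh,
      coeff_eq_zero_of_natDegree_lt (p := rO h M δ) (n := h) (by omega), mul_zero, sub_zero] at h4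
    have h5 : (rO h M δ).coeff (h - 2) = 2 * (h : k) + 1 := by rw [← h2, leadingCoeff, h1]
    rw [h5] at h4
    exact mul_left_cancel₀ (amO1_ne (k := k) h) (by rw [h4, mul_one])
  have h4 : (hO e (rO h M δ)).natDegree = h := by
    apply le_antisymm
    · rw [natDegree_le_iff_coeff_eq_zero]
      intro N hN
      have h5 := hO_coeff e (rO h M δ) N
      rw [coeff_mul_X_pow', if_pos (by omega),
        coeff_eq_zero_of_natDegree_lt (p := rO h M δ) (n := N) (by omega),
        coeff_eq_zero_of_natDegree_lt (p := rO h M δ) (n := N - 2) (by omega), mul_zero,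
        sub_zero] at h5
      exact (mul_eq_zero.mp h5).resolve_left (amO1_ne N)
    · apply le_natDegree_of_ne_zero
      rw [h3]
      exact one_ne_zero
  refine ⟨h4, ?_⟩
  rw [Monic, leadingCoeff, h4, h3]

theorem oddMem_fT {h : ℕ} (hh : 2 ≤ h) (M : k) (δ : Fin (h - 2) → k) (w : k) :
    OddMem h w (gT h M δ) (fT h M δ w) := by
  obtain ⟨h1, h2⟩ := rO_deg hh M δ
  obtain ⟨h3, h4⟩ := amO1_g hh M δ (eO h : k)
  obtain ⟨h5, h6, h7⟩ := fO_coeff_low (2 * (h : k) - 1) (eO h : k) w (rO h M δ)
  have hlead : (hO (eO h : k) (rO h M δ) * rO h M δ).coeff (2 * h - 2) = 2 * (h : k) + 1 := by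
    have h8 : (hO (eO h : k) (rO h M δ) * rO h M δ).natDegree = 2 * h - 2 := by
      rw [h4.natDegree_mul' (by
        intro h0
        rw [h0, leadingCoeff_zero] at h2
        exact amO1_ne (k := k) h h2.symm), h3, h1]
      omega
    rw [← h8, ← leadingCoeff, leadingCoeff_mul, h4.leadingCoeff, h2, one_mul]
  have hdle : (hO (eO h : k) (rO h M δ) * rO h M δ).natDegree ≤ 2 * h - 2 := by
    refine natDegree_mul_le.trans ?_
    rw [h3, h1]
    omega
  have hcast : ((2 * h - 2 : ℕ) : k) = 2 * (h : k) - 2 := by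
    rw [Nat.cast_sub (by omega)]
    push_cast
    ring
  have hn1 : (2 * (h : k) - 1) ≠ 0 := by
    have h9 : (2 * (h : k) - 1) = ((2 * h - 1 : ℕ) : k) := by
      rw [Nat.cast_sub (by omega)]
      push_cast
      ring
    rw [h9]
    exact_mod_cast (by omega : 2 * h - 1 ≠ 0)
  have htop : (fT h M δ w).coeff (2 * h + 1) = 1 := by
    have h9 := fO_coeff (2 * (h : k) - 1) (eO h : k) w (rO h M δ) (2 * h - 2)
    rw [hlead, hcast, show 2 * h - 2 + 3 = 2 * h + 1 by omega] at h9
    have h10 : (2 * (h : k) - 1) * (2 * (h : k) + 1) ≠ 0 := mul_ne_zero hn1 (amO1_ne h)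
    refine mul_left_cancel₀ h10 ?_
    unfold fT
    rw [mul_one]
    refine Eq.trans ?_ h9
    ring
  have hdeg : (fT h M δ w).natDegree = 2 * h + 1 := by
    apply le_antisymm
    · rw [natDegree_le_iff_coeff_eq_zero]
      intro N hN
      obtain ⟨j, rfl⟩ : ∃ j, N = j + 3 := ⟨N - 3, by omega⟩
      have h9 := fO_coeff (2 * (h : k) - 1) (eO h : k) w (rO h M δ) j
      rw [coeff_eq_zero_of_natDegree_lt (n := j) (lt_of_le_of_lt hdle (by omega)), mul_zero] at h9
      have h10 : ((j : k) + 1) * ((j : k) + 3) ≠ 0 :=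
        mul_ne_zero (by exact_mod_cast Nat.succ_ne_zero j) (by exact_mod_cast (by omega : j + 3 ≠ 0))
      exact (mul_eq_zero.mp h9).resolve_left h10
    · apply le_natDegree_of_ne_zero
      rw [htop]
      exact one_ne_zero
  refine ⟨hdeg, ?_, h3, h4, h5, h6, h7, ?_⟩
  · rw [Monic, leadingCoeff, hdeg, htop]
  · unfold fT gT
    rw [amO1_deriv]
    have h9 : (C ((2 * (h : k) - 1) / 2) : k[X]) * C 2 = C (2 * (h : k) - 1) := by
      rw [← C_mul]
      congr 1
      field_simp
    unfold fO
    rw [C_mul]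
    linear_combination (-(X * ((X ^ 2 - C (eO h : k)) * integ (hO (eO h : k) (rO h M δ) *
      rO h M δ) - X * hO (eO h : k) (rO h M δ) ^ 2))) * h9

end Ident

end Pool.Agent.H9.AM
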