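import Pool.Agent.H9.AM.DefsOdd
import Pool.Agent.H9.AM.EvBasic
import Pool.Agent.H9.AM.OddIdent

/-!
# Project AN2 (MP_a3214d), AM-O2: the base member of the odd family, maps, uniqueness
-/

set_option autoImplicit false

open Polynomial IsDedekindDomain NumberField

namespace Pool.Agent.H9.AM

open Pool.Agent.H35.AN

section Base

variable {k : Type*} [Field k]

theorem amO2_hO_monomial [CharZero k] (e c : k) (m : ℕ) (hc : c ≠ 0) :
    hO e (C c * X ^ m) =
      C (c / (2 * (m : k) + 5)) * X ^ (m + 2) - C (e * c / (2 * (m : k) + 1)) * X ^ m := by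
  unfold hO
  rw [natDegree_C_mul_X_pow m c hc, Finset.sum_eq_single m]
  · rw [coeff_C_mul, coeff_X_pow, if_pos rfl, mul_one]
  · intro i _ hi
    rw [coeff_C_mul, coeff_X_pow, if_neg hi, mul_zero]
    simp
  · intro h
    exact absurd (Finset.mem_range.mpr (Nat.lt_succ_self m)) h

theorem amO2_integ_eq [CharZero k] {p q : k[X]} (h1 : derivative q = p) (h2 : q.coeff 0 = 0) :
    integ p = q := by
  ext i
  rcases Nat.eq_zero_or_pos i with rfl | hi
  · rw [integ_coeff_zero, h2]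
  · obtain ⟨j, rfl⟩ : ∃ j, i = j + 1 := ⟨i - 1, by omega⟩
    rw [integ_coeff_succ, ← h1, coeff_derivative, mul_div_assoc, div_self, mul_one]
    exact_mod_cast Nat.succ_ne_zero j

theorem amO2_rO_zero (h : ℕ) :
    (rO h 0 (fun _ => 0) : k[X]) = C (2 * (h : k) + 1) * X ^ (h - 2) := by
  unfold rO
  rw [C_0, zero_mul, add_zero]

theorem gT_zero [CharZero k] {h : ℕ} (hh : 2 ≤ h) : (gT h 0 (fun _ => 0) : k[X]) = gB h := by
  obtain ⟨m, rfl⟩ : ∃ m, h = m + 2 := ⟨h - 2, by omega⟩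
  have hm : m + 2 - 2 = m := by omega
  have n5 : (2 * ((m + 2 : ℕ) : k) + 1) ≠ 0 := by exact_mod_cast Nat.succ_ne_zero (2 * (m + 2))
  have n1 : (2 * (m : k) + 1) ≠ 0 := by exact_mod_cast Nat.succ_ne_zero (2 * m)
  unfold gT gB
  rw [amO2_rO_zero, hm, amO2_hO_monomial _ _ _ n5]
  have e1 : (2 * ((m + 2 : ℕ) : k) + 1) / (2 * (m : k) + 5) = 1 := by
    have h5 : (2 * ((m + 2 : ℕ) : k) + 1) = 2 * (m : k) + 5 := by
      push_cast
      ring
    rw [h5] at n5 ⊢
    exact div_self n5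
  have e2 : (eO (m + 2) : k) * (2 * ((m + 2 : ℕ) : k) + 1) / (2 * (m : k) + 1) =
      (muO (m + 2) : k) := by
    rw [div_eq_iff n1]
    unfold eO muO
    push_cast
    ring
  rw [e1, e2, C_1]
  ring

theorem fT_zero [CharZero k] {h : ℕ} (hh : 2 ≤ h) (w : k) :
    (fT h 0 (fun _ => 0) w : k[X]) = fB h w := by
  have hg := gT_zero (k := k) hh
  obtain ⟨m, rfl⟩ : ∃ m, h = m + 2 := ⟨h - 2, by omega⟩
  have hm : m + 2 - 2 = m := by omega
  have n1 : (2 * (m : k) + 1) ≠ 0 := by exact_mod_cast Nat.succ_ne_zero (2 * m)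
  have n3 : (2 * (m : k) + 3) ≠ 0 := by exact_mod_cast Nat.succ_ne_zero (2 * m + 2)
  have n2 : (2 : k) ≠ 0 := two_ne_zero
  unfold gT at hg
  unfold fT fO
  rw [hg, amO2_rO_zero, hm]
  have hint : integ (gB (m + 2) * (C (2 * ((m + 2 : ℕ) : k) + 1) * X ^ m)) =
      C (2 * ((m + 2 : ℕ) : k) + 1) * (C (1 / (2 * (m : k) + 3)) * X ^ (2 * m + 3) -
        C ((muO (m + 2) : k) / (2 * (m : k) + 1)) * X ^ (2 * m + 1)) := by
    apply amO2_integ_eq
    · rw [derivative_C_mul, derivative_sub, derivative_C_mul_X_pow, derivative_C_mul_X_pow]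
      have e1 : 1 / (2 * (m : k) + 3) * ((2 * m + 3 : ℕ) : k) = 1 := by
        push_cast
        field_simp
      have e2 : (muO (m + 2) : k) / (2 * (m : k) + 1) * ((2 * m + 1 : ℕ) : k) =
          (muO (m + 2) : k) := by
        push_cast
        field_simp
      rw [e1, e2]
      unfold gB
      rw [hm, show 2 * m + 3 - 1 = 2 * m + 2 by omega, show 2 * m + 1 - 1 = 2 * m by omega, C_1]
      ring
    · rw [coeff_C_mul, coeff_sub, coeff_C_mul, coeff_C_mul, coeff_X_pow, coeff_X_pow,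
        if_neg (by omega), if_neg (by omega)]
      ring
  rw [hint]
  unfold fB gB
  rw [hm, show 2 * (m + 2) - 1 = 2 * m + 3 by omega]
  have h1 : (2 * ((m + 2 : ℕ) : k) - 1) / 2 *
      ((2 * ((m + 2 : ℕ) : k) + 1) * (1 / (2 * (m : k) + 3)) - 1) - 1 = 0 := by
    push_cast
    field_simp
    ring
  have h2 : (2 * ((m + 2 : ℕ) : k) - 1) / 2 *
      (-((eO (m + 2) : k) * ((2 * ((m + 2 : ℕ) : k) + 1) * (1 / (2 * (m : k) + 3)))) -
        (2 * ((m + 2 : ℕ) : k) + 1) * ((muO (m + 2) : k) / (2 * (m : k) + 1)) +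
        2 * (muO (m + 2) : k)) + (alO (m + 2) : k) = 0 := by
    unfold eO muO alO
    push_cast
    field_simp
    ring
  have h3 : (2 * ((m + 2 : ℕ) : k) - 1) / 2 *
      ((eO (m + 2) : k) * ((2 * ((m + 2 : ℕ) : k) + 1) * ((muO (m + 2) : k) / (2 * (m : k) + 1))) -
        (muO (m + 2) : k) * (muO (m + 2) : k)) = 0 := by
    unfold eO muO
    push_cast
    field_simp
    ring
  have h1' := congrArg (C : k → k[X]) h1
  have h2' := congrArg (C : k → k[X]) h2
  have h3' := congrArg (C : k → k[X]) h3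
  simp only [map_mul, map_sub, map_add, map_neg, map_one, map_zero] at h1' h2' h3'
  have hC2 : (C (2 : k) : k[X]) = 2 := rfl
  simp only [map_mul, map_add, map_one, hC2] at h1' h2' h3' ⊢
  linear_combination X ^ (2 * m + 5) * h1' + X ^ (2 * m + 3) * h2' + X ^ (2 * m + 1) * h3'

theorem OddMem.map {F : Type*} [Field F] (φ : k →+* F) {h : ℕ} {w : k} {g f : k[X]}
    (H : OddMem h w g f) : OddMem h (φ w) (g.map φ) (f.map φ) where
  deg := by rw [natDegree_map, H.deg]
  monic := H.monic.map φ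
  gdeg := by rw [natDegree_map, H.gdeg]
  gmonic := H.gmonic.map φ
  c0 := by rw [coeff_map, H.c0, map_mul, map_intCast]
  c1 := by rw [coeff_map, H.c1, map_zero]
  c2 := by rw [coeff_map, H.c2, map_neg]
  ident := by
    have h1 := congrArg (Polynomial.map φ) H.ident
    rw [Polynomial.map_mul, Polynomial.map_add, Polynomial.map_sub, Polynomial.map_mul,
      Polynomial.map_mul, Polynomial.map_mul, Polynomial.map_mul, Polynomial.map_pow,
      Polynomial.map_pow, Polynomial.map_X, Polynomial.map_C, Polynomial.map_C, Polynomial.map_C,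
      ← derivative_map] at h1
    have e1 : φ (eO h : k) = (eO h : F) := map_intCast φ _
    have e2 : φ 2 = 2 := map_ofNat φ 2
    have e3 : φ (2 * (h : k) - 1) = 2 * (h : F) - 1 := by
      rw [map_sub, map_mul, map_natCast, map_one, e2]
    rw [e1, e2, e3] at h1
    exact h1

theorem amO2_ne [CharZero k] {h : ℕ} (hh : 2 ≤ h) : (2 * (h : k) - 1) ≠ 0 := by
  have h1 : (2 * (h : ℤ) - 1) ≠ 0 := by omega
  have h2 : (((2 * (h : ℤ) - 1 : ℤ)) : k) ≠ 0 := by exact_mod_cast h1
  push_cast at h2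
  exact h2

theorem OddMem.g_unique [CharZero k] {h : ℕ} (hh : 2 ≤ h) {w w' : k} {g g' f : k[X]}
    (H : OddMem h w g f) (H' : OddMem h w' g' f) : g = g' := by
  have h1 := H.ident
  rw [H'.ident] at h1
  have h2 : C (2 * (h : k) - 1) * X ^ 2 * g ^ 2 = C (2 * (h : k) - 1) * X ^ 2 * g' ^ 2 := by
    linear_combination -h1
  have h3 : (C (2 * (h : k) - 1) * X ^ 2 : k[X]) ≠ 0 :=
    mul_ne_zero (C_ne_zero.mpr (amO2_ne hh)) (pow_ne_zero 2 X_ne_zero)
  have h4 : g ^ 2 = g' ^ 2 := mul_left_cancel₀ h3 h2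
  rcases sq_eq_sq_iff_eq_or_eq_neg.mp h4 with h5 | h5
  · exact h5
  · exfalso
    have h6 := congrArg leadingCoeff h5
    rw [leadingCoeff_neg, H.gmonic.leadingCoeff, H'.gmonic.leadingCoeff] at h6
    have : (2 : k) = 0 := by linear_combination h6
    exact two_ne_zero this

theorem fT_inj [CharZero k] {h : ℕ} (hh : 2 ≤ h) {M : k} (hM : M ≠ 0) (w : k)
    {δ δ' : Fin (h - 2) → k} (he : fT h M δ w = fT h M δ' w) : δ = δ' := by
  have h1 := oddMem_fT hh M δ w
  have h2 := oddMem_fT hh M δ' w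
  rw [he] at h1
  have h3 : gT h M δ = gT h M δ' := OddMem.g_unique hh h1 h2
  unfold gT at h3
  have h4 := hO_spec (eO h : k) (rO h M δ)
  rw [h3, hO_spec] at h4
  have h5 : (X ^ 2 - C (eO h : k) : k[X]) ≠ 0 := X_pow_sub_C_ne_zero (by norm_num) _
  have h6 : rO h M δ' = rO h M δ := mul_left_cancel₀ h5 h4
  unfold rO at h6
  have h7 : C M * spoly δ' = C M * spoly δ := add_left_cancel h6
  have h8 : spoly δ' = spoly δ := mul_left_cancel₀ (C_ne_zero.mpr hM) h7
  funext i
  have h9 := congrArg (fun q : k[X] => q.coeff (i : ℕ)) h8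
  simp only [spoly_coeff, dif_pos i.2] at h9
  exact h9.symm

end Base

end Pool.Agent.H9.AM
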