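import Pool.Agent.H9.AM.DefsOdd
import Pool.Agent.H35.AN.Val
import Pool.Agent.H9.AM.OddIdent
import Pool.Agent.H9.AM.OddBase

/-!
# Project AN2 (MP_a3214d), row AM-O3: closeness to the base member, integrality
-/

set_option autoImplicit false

open Polynomial IsDedekindDomain NumberField

namespace Pool.Agent.H9.AM

open Pool.Agent.H35.AN

section Close

variable {k : Type*} [Field k] [NumberField k] {h : ℕ} (hh : 2 ≤ h)

/-- multiples of `c` in the ring of integers -/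
def amO3_D (c : ℕ) (x : k) : Prop := ∃ z : 𝓞 k, x = (c : k) * (z : k)

theorem amO3_D_zero (c : ℕ) : amO3_D c (0 : k) := ⟨0, by simp⟩

theorem amO3_D_add {c : ℕ} {x y : k} (hx : amO3_D c x) (hy : amO3_D c y) : amO3_D c (x + y) := by
  obtain ⟨a, rfl⟩ := hx
  obtain ⟨b, rfl⟩ := hy
  exact ⟨a + b, by push_cast; ring⟩

theorem amO3_D_sub {c : ℕ} {x y : k} (hx : amO3_D c x) (hy : amO3_D c y) : amO3_D c (x - y) := by
  obtain ⟨a, rfl⟩ := hx
  obtain ⟨b, rfl⟩ := hy
  exact ⟨a - b, by push_cast; ring⟩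

theorem amO3_D_mul {c d : ℕ} {x y : k} (hx : amO3_D c x) (hy : amO3_D d y) :
    amO3_D (c * d) (x * y) := by
  obtain ⟨a, rfl⟩ := hx
  obtain ⟨b, rfl⟩ := hy
  exact ⟨a * b, by push_cast; ring⟩

theorem amO3_D_one (z : 𝓞 k) : amO3_D 1 (z : k) := ⟨z, by simp⟩

theorem amO3_D_int (z : ℤ) : amO3_D 1 (z : k) := ⟨(z : 𝓞 k), by simp⟩

theorem amO3_D_nat (z : ℕ) : amO3_D z (z : k) := ⟨1, by simp⟩

theorem amO3_D_dvd {c d : ℕ} (hcd : c ∣ d) {x : k} (hx : amO3_D d x) : amO3_D c x := by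
  obtain ⟨a, rfl⟩ := hx
  obtain ⟨e, rfl⟩ := hcd
  exact ⟨e * a, by push_cast; ring⟩

theorem amO3_D_cancel {a c : ℕ} (ha : a ≠ 0) {x : k} (hx : amO3_D (a * c) ((a : k) * x)) :
    amO3_D c x := by
  obtain ⟨z, hz⟩ := hx
  refine ⟨z, mul_left_cancel₀ (Nat.cast_ne_zero.mpr ha) ?_⟩
  rw [hz]
  push_cast
  ring

theorem amO3_D_isIntegral {c : ℕ} {x : k} (hx : amO3_D c x) : IsIntegral ℤ x := by
  obtain ⟨z, rfl⟩ := hx
  have h1 : ((c : k) * (z : k)) = (((c : 𝓞 k) * z : 𝓞 k) : k) := by push_cast; ring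
  rw [h1]
  exact RingOfIntegers.isIntegral_coe _

/-- polynomials with coefficients multiples of `c` -/
def amO3_DP (c : ℕ) (p : k[X]) : Prop := ∀ j, amO3_D c (p.coeff j)

theorem amO3_DP_add {c : ℕ} {p q : k[X]} (hp : amO3_DP c p) (hq : amO3_DP c q) :
    amO3_DP c (p + q) := fun j => by
  rw [coeff_add]
  exact amO3_D_add (hp j) (hq j)

theorem amO3_DP_sub {c : ℕ} {p q : k[X]} (hp : amO3_DP c p) (hq : amO3_DP c q) :
    amO3_DP c (p - q) := fun j => by
  rw [coeff_sub]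
  exact amO3_D_sub (hp j) (hq j)

theorem amO3_D_sum {c : ℕ} {ι : Type*} (s : Finset ι) (f : ι → k)
    (hf : ∀ i ∈ s, amO3_D c (f i)) : amO3_D c (∑ i ∈ s, f i) := by
  classical
  induction s using Finset.induction_on with
  | empty => rw [Finset.sum_empty]; exact amO3_D_zero c
  | insert a s ha ih =>
    rw [Finset.sum_insert ha]
    exact amO3_D_add (hf a (Finset.mem_insert_self a s))
      (ih fun i hi => hf i (Finset.mem_insert_of_mem hi))

theorem amO3_DP_mul {c d : ℕ} {p q : k[X]} (hp : amO3_DP c p) (hq : amO3_DP d q) :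
    amO3_DP (c * d) (p * q) := fun j => by
  rw [coeff_mul]
  exact amO3_D_sum _ _ fun x _ => amO3_D_mul (hp x.1) (hq x.2)

theorem amO3_DP_C {c : ℕ} {x : k} (hx : amO3_D c x) : amO3_DP c (C x) := fun j => by
  rw [coeff_C]
  split_ifs
  · exact hx
  · exact amO3_D_zero c

theorem amO3_DP_X_pow (n : ℕ) : amO3_DP 1 (X ^ n : k[X]) := fun j => by
  rw [coeff_X_pow]
  split_ifs
  · exact ⟨1, by simp⟩
  · exact amO3_D_zero 1

theorem amO3_gB (h : ℕ) : amO3_DP 1 (gB h : k[X]) := by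
  unfold gB
  exact amO3_DP_mul (c := 1) (d := 1) (amO3_DP_X_pow _)
    (amO3_DP_sub (amO3_DP_X_pow _) (amO3_DP_C (amO3_D_int _)))

theorem amO3_fB (h : ℕ) (w : 𝓞 k) : amO3_DP 1 (fB h (w : k)) := by
  unfold fB
  exact amO3_DP_sub (amO3_DP_mul (c := 1) (d := 1) (amO3_DP_X_pow _)
    (amO3_DP_sub (amO3_DP_X_pow _) (amO3_DP_C (amO3_D_int _))))
    (amO3_DP_mul (c := 1) (d := 1) (amO3_DP_C (amO3_D_one w))
    (amO3_DP_sub (amO3_DP_X_pow _) (amO3_DP_C (amO3_D_int _))))

theorem gB_int (h j : ℕ) : IsIntegral ℤ ((gB h : k[X]).coeff j) :=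
  amO3_D_isIntegral (amO3_gB h j)

theorem fB_int (h : ℕ) (w : 𝓞 k) (j : ℕ) : IsIntegral ℤ ((fB h (w : k)).coeff j) :=
  amO3_D_isIntegral (amO3_fB h w j)

theorem amO3_spoly {r : ℕ} (δ : Fin r → 𝓞 k) : amO3_DP 1 (spoly (fun i => (δ i : k))) := by
  intro j
  rw [spoly_coeff]
  split_ifs
  · exact amO3_D_one _
  · exact amO3_D_zero 1

theorem amO3_spoly_zero {r : ℕ} (δ : Fin r → k) {j : ℕ} (hj : r ≤ j) : (spoly δ).coeff j = 0 := by
  rw [spoly_coeff, dif_neg (by omega)]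

theorem amO3_rO_sub (M : k) (δ : Fin (h - 2) → k) :
    rO h M δ - rO h 0 (fun _ => 0) = C M * spoly δ := by
  unfold rO
  rw [C_0, zero_mul]
  ring

include hh in
theorem amO3_g (N : ℕ) (δ : Fin (h - 2) → 𝓞 k) :
    amO3_DP ((2 * h + 1).factorial ^ 2 * N)
      (gT h (((2 * h + 1).factorial ^ 3 * N : ℕ) : k) (fun i => (δ i : k)) - gB h) := by
  intro i
  have h1 := hO_coeff (eO h : k)
    (rO h (((2 * h + 1).factorial ^ 3 * N : ℕ) : k) (fun i => (δ i : k))) i
  have h2 := hO_coeff (eO h : k) (rO h (0 : k) (fun _ => 0)) i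
  rw [← gT_zero hh]
  have h3 : (2 * (i : k) + 1) * ((gT h (((2 * h + 1).factorial ^ 3 * N : ℕ) : k)
      (fun i => (δ i : k)) - gT h 0 (fun _ => 0)).coeff i) =
      ((C (((2 * h + 1).factorial ^ 3 * N : ℕ) : k) * spoly (fun i => (δ i : k))) * X ^ 2).coeff i -
      (eO h : k) *
        (C (((2 * h + 1).factorial ^ 3 * N : ℕ) : k) * spoly (fun i => (δ i : k))).coeff i := by
    rw [← amO3_rO_sub, sub_mul, coeff_sub, coeff_sub, coeff_sub]
    unfold gT
    linear_combination h1 - h2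
  have hDP : amO3_DP ((2 * h + 1).factorial ^ 3 * N)
      (C (((2 * h + 1).factorial ^ 3 * N : ℕ) : k) * spoly (fun i => (δ i : k))) := by
    have := amO3_DP_mul (amO3_DP_C (amO3_D_nat (k := k) ((2 * h + 1).factorial ^ 3 * N)))
      (amO3_spoly δ)
    rwa [mul_one] at this
  by_cases hi : i ≤ h
  · have h4 : amO3_D ((2 * h + 1).factorial ^ 3 * N) ((2 * (i : k) + 1) *
        ((gT h (((2 * h + 1).factorial ^ 3 * N : ℕ) : k)
        (fun i => (δ i : k)) - gT h 0 (fun _ => 0)).coeff i)) := by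
      rw [h3]
      refine amO3_D_sub ?_ ?_
      · have := amO3_DP_mul hDP (amO3_DP_X_pow (k := k) 2) i
        rwa [mul_one] at this
      · have := amO3_D_mul (amO3_D_int (k := k) (eO h)) (hDP i)
        rwa [one_mul] at this
    obtain ⟨c, hc⟩ : (2 * i + 1) ∣ (2 * h + 1).factorial :=
      Nat.dvd_factorial (by omega) (by omega)
    have h5 : (2 * i + 1) * ((2 * h + 1).factorial ^ 2 * N) ∣ (2 * h + 1).factorial ^ 3 * N :=
      ⟨c, by
        calc (2 * h + 1).factorial ^ 3 * N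
            = (2 * h + 1).factorial ^ 2 * N * (2 * h + 1).factorial := by ring
          _ = (2 * h + 1).factorial ^ 2 * N * ((2 * i + 1) * c) := by rw [← hc]
          _ = _ := by ring⟩
    have h6 : (2 * (i : k) + 1) = ((2 * i + 1 : ℕ) : k) := by push_cast; ring
    rw [h6] at h4
    exact amO3_D_cancel (by omega) (amO3_D_dvd h5 h4)
  · have h7 : (gT h (((2 * h + 1).factorial ^ 3 * N : ℕ) : k)
        (fun i => (δ i : k)) - gT h 0 (fun _ => 0)).coeff i = 0 := by
      rw [coeff_mul_X_pow', if_pos (by omega), coeff_C_mul, coeff_C_mul,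
        amO3_spoly_zero _ (by omega), amO3_spoly_zero _ (by omega)] at h3
      simp only [mul_zero, sub_zero] at h3
      exact (mul_eq_zero.mp h3).resolve_left (amO1_ne i)
    rw [h7]
    exact amO3_D_zero _

include hh in
theorem gT_close (N : ℕ) (δ : Fin (h - 2) → 𝓞 k) :
    CloseTo N (gT h (((2 * h + 1).factorial ^ 3 * N : ℕ) : k) (fun i => (δ i : k))) (gB h) := by
  intro j
  have h1 := amO3_D_dvd (c := N) ⟨(2 * h + 1).factorial ^ 2, by ring⟩ (amO3_g hh N δ j)
  rwa [coeff_sub] at h1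

theorem amO3_rO (M : ℕ) (δ : Fin (h - 2) → 𝓞 k) :
    amO3_DP 1 (rO h (M : k) (fun i => (δ i : k))) := by
  unfold rO
  refine amO3_DP_add (amO3_DP_mul (c := 1) (d := 1) (amO3_DP_C ?_) (amO3_DP_X_pow _))
    (amO3_DP_mul (c := 1) (d := 1) (amO3_DP_C (amO3_D_dvd (one_dvd M) (amO3_D_nat M)))
      (amO3_spoly δ))
  have := amO3_D_int (k := k) (2 * h + 1)
  push_cast at this
  exact this

include hh in
theorem amO3_prod_deg (M : k) (δ : Fin (h - 2) → k) {j : ℕ} (hj : 2 * h - 2 < j) :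
    (hO (eO h : k) (rO h M δ) * rO h M δ).coeff j = 0 := by
  obtain ⟨h1, -⟩ := rO_deg hh M δ
  obtain ⟨h3, -⟩ := amO1_g hh M δ (eO h : k)
  apply coeff_eq_zero_of_natDegree_lt
  refine lt_of_le_of_lt natDegree_mul_le ?_
  omega

include hh in
theorem fT_close (N : ℕ) (δ : Fin (h - 2) → 𝓞 k) (w : 𝓞 k) :
    CloseTo N (fT h (((2 * h + 1).factorial ^ 3 * N : ℕ) : k) (fun i => (δ i : k)) (w : k))
      (fB h (w : k)) := by
  intro j
  change amO3_D N _
  rw [← fT_zero hh]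
  obtain ⟨a0, a1, a2⟩ := fO_coeff_low (2 * (h : k) - 1) (eO h : k) (w : k)
    (rO h (((2 * h + 1).factorial ^ 3 * N : ℕ) : k) (fun i => (δ i : k)))
  obtain ⟨b0, b1, b2⟩ := fO_coeff_low (2 * (h : k) - 1) (eO h : k) (w : k)
    (rO h (0 : k) (fun _ => 0))
  match j with
  | 0 =>
    have : (fT h (((2 * h + 1).factorial ^ 3 * N : ℕ) : k) (fun i => (δ i : k)) (w : k)).coeff 0 -
        (fT h 0 (fun _ => 0) (w : k)).coeff 0 = 0 := by
      unfold fT
      rw [a0, b0, sub_self]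
    rw [this]
    exact amO3_D_zero N
  | 1 =>
    have : (fT h (((2 * h + 1).factorial ^ 3 * N : ℕ) : k) (fun i => (δ i : k)) (w : k)).coeff 1 -
        (fT h 0 (fun _ => 0) (w : k)).coeff 1 = 0 := by
      unfold fT
      rw [a1, b1, sub_self]
    rw [this]
    exact amO3_D_zero N
  | 2 =>
    have : (fT h (((2 * h + 1).factorial ^ 3 * N : ℕ) : k) (fun i => (δ i : k)) (w : k)).coeff 2 -
        (fT h 0 (fun _ => 0) (w : k)).coeff 2 = 0 := by
      unfold fT
      rw [a2, b2, sub_self]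
    rw [this]
    exact amO3_D_zero N
  | i + 3 =>
    have h1 := fO_coeff (2 * (h : k) - 1) (eO h : k) (w : k)
      (rO h (((2 * h + 1).factorial ^ 3 * N : ℕ) : k) (fun i => (δ i : k))) i
    have h2 := fO_coeff (2 * (h : k) - 1) (eO h : k) (w : k) (rO h (0 : k) (fun _ => 0)) i
    have h3 : ((i : k) + 1) * ((i : k) + 3) *
        ((fT h (((2 * h + 1).factorial ^ 3 * N : ℕ) : k) (fun i => (δ i : k)) (w : k)).coeff
          (i + 3) - (fT h 0 (fun _ => 0) (w : k)).coeff (i + 3)) =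
        (2 * (h : k) - 1) * ((hO (eO h : k) (rO h (((2 * h + 1).factorial ^ 3 * N : ℕ) : k)
          (fun i => (δ i : k))) * rO h (((2 * h + 1).factorial ^ 3 * N : ℕ) : k)
          (fun i => (δ i : k))).coeff i -
          (hO (eO h : k) (rO h (0 : k) (fun _ => 0)) * rO h (0 : k) (fun _ => 0)).coeff i) := by
      unfold fT
      linear_combination h1 - h2
    have hne : ((i : k) + 1) * ((i : k) + 3) = (((i + 1) * (i + 3) : ℕ) : k) := by
      push_cast; ring
    by_cases hi : 2 * h - 2 < i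
    · rw [amO3_prod_deg hh _ _ hi, amO3_prod_deg hh _ _ hi, sub_self, mul_zero, hne] at h3
      have h4 := (mul_eq_zero.mp h3).resolve_left
        (Nat.cast_ne_zero.mpr (Nat.mul_ne_zero (by omega) (by omega)))
      rw [h4]
      exact amO3_D_zero N
    · have h5 : amO3_DP ((2 * h + 1).factorial ^ 2 * N)
          (gT h (((2 * h + 1).factorial ^ 3 * N : ℕ) : k) (fun i => (δ i : k)) *
            rO h (((2 * h + 1).factorial ^ 3 * N : ℕ) : k) (fun i => (δ i : k)) -
            gT h 0 (fun _ => 0) * rO h 0 (fun _ => 0)) := by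
        have e1 : gT h (((2 * h + 1).factorial ^ 3 * N : ℕ) : k) (fun i => (δ i : k)) *
            rO h (((2 * h + 1).factorial ^ 3 * N : ℕ) : k) (fun i => (δ i : k)) -
            gT h 0 (fun _ => 0) * rO h 0 (fun _ => 0) =
            (gT h (((2 * h + 1).factorial ^ 3 * N : ℕ) : k) (fun i => (δ i : k)) -
              gB h) * rO h (((2 * h + 1).factorial ^ 3 * N : ℕ) : k) (fun i => (δ i : k)) +
            gB h * (C (((2 * h + 1).factorial ^ 3 * N : ℕ) : k) * spoly (fun i => (δ i : k))) := by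
          rw [← amO3_rO_sub, ← gT_zero hh]
          ring
        rw [e1]
        refine amO3_DP_add ?_ ?_
        · have := amO3_DP_mul (amO3_g hh N δ) (amO3_rO (k := k) ((2 * h + 1).factorial ^ 3 * N) δ)
          rwa [mul_one] at this
        · have h6 := amO3_DP_mul (amO3_gB (k := k) h) (amO3_DP_mul
            (amO3_DP_C (amO3_D_nat (k := k) ((2 * h + 1).factorial ^ 3 * N))) (amO3_spoly δ))
          intro j
          exact amO3_D_dvd ⟨(2 * h + 1).factorial, by ring⟩ (h6 j)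
      have h7 := amO3_D_mul (amO3_D_int (k := k) (2 * h - 1)) (h5 i)
      rw [coeff_sub, one_mul] at h7
      have h8 : (((2 * h - 1 : ℤ)) : k) = 2 * (h : k) - 1 := by push_cast; ring
      rw [h8] at h7
      unfold gT at h7
      rw [← h3, hne] at h7
      have h9 : (i + 1) * (i + 3) * N ∣ (2 * h + 1).factorial ^ 2 * N := by
        rw [pow_two]
        exact Nat.mul_dvd_mul_right (Nat.mul_dvd_mul (Nat.dvd_factorial (by omega) (by omega))
          (Nat.dvd_factorial (by omega) (by omega))) N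
      exact amO3_D_cancel (Nat.mul_ne_zero (by omega) (by omega)) (amO3_D_dvd h9 h7)

include hh in
theorem fT_int (N : ℕ) (δ : Fin (h - 2) → 𝓞 k) (w : 𝓞 k) (j : ℕ) :
    IsIntegral ℤ ((fT h (((2 * h + 1).factorial ^ 3 * N : ℕ) : k) (fun i => (δ i : k))
      (w : k)).coeff j) := by
  obtain ⟨z, hz⟩ := fT_close hh N δ w j
  have h1 := amO3_D_isIntegral (c := N) ⟨z, hz⟩
  have h2 := h1.add (fB_int (k := k) h w j)
  rwa [sub_add_cancel] at h2

/-- closeness gives valuations -/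
theorem CloseTo.ge {N : ℕ} {f f0 : k[X]} (hc : CloseTo N f f0) (P : HeightOneSpectrum (𝓞 k))
    {m : ℕ} (hN : (N : 𝓞 k) ∈ P.asIdeal ^ m) (j : ℕ) : Ge P m (f.coeff j - f0.coeff j) := by
  obtain ⟨z, hz⟩ := hc j
  rw [hz]
  have h1 : Ge P m ((N : 𝓞 k) : k) := (mem_pow_iff P (N : 𝓞 k) m).mp hN
  have h2 := ge_mul P h1 (an1_ge_coe P z)
  rw [add_zero] at h2
  have h3 : (((N : 𝓞 k)) : k) = (N : k) := by simp
  rwa [h3] at h2

end Close

end Pool.Agent.H9.AM
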