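import Pool.Agent.H9.AM.DefsOdd
import Pool.Agent.H35.AN.Val
import Pool.Agent.H35.AN.Tower
import Pool.Agent.H35.AN.ThreeCycle

/-!
# AM-O6: exactly two roots of a member of the odd family are units at `p` (MP_a3214d_nt)
-/

set_option autoImplicit false

open Polynomial IsDedekindDomain NumberField

namespace Pool.Agent.H9.AM

open Pool.Agent.H35.AN

section O6

variable {k L : Type} [Field k] [NumberField k] [Field L] [NumberField L] [Algebra k L]

theorem amO6_ge_eval (P : HeightOneSpectrum (𝓞 L)) {m : ℤ} {D : k[X]}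
    (hD : ∀ j, Ge (below k P) m (D.coeff j)) {x : L} (hx : Ge P 0 x) :
    Ge P (erel k P * m) ((D.map (algebraMap k L)).eval x) := by
  rw [eval_eq_sum_range]
  refine ge_sum P _ _ fun j _ => ?_
  rw [coeff_map]
  have h := ge_mul P (ge_algebraMap P (hD j)) (ge_pow P hx j)
  simpa using h

omit [NumberField k] [NumberField L] in
theorem amO6_fB_eval (h : ℕ) (w : k) (x : L) :
    ((fB h w).map (algebraMap k L)).eval x =
      x ^ (2 * h - 1) * (x ^ 2 - (alO h : L)) - algebraMap k L w * (x ^ 2 - (eO h : L)) := by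
  unfold fB
  simp

theorem amO6_unit (P : HeightOneSpectrum (𝓞 k)) {h : ℕ} (hh : 2 ≤ h)
    (hu : UnitsUpTo P (2 * h + 1)) :
    (eO h : k) ≠ 0 ∧ ord P (eO h : k) = 0 ∧ (alO h : k) ≠ 0 ∧ ord P (alO h : k) = 0 := by
  obtain ⟨m, rfl⟩ : ∃ m, h = m + 2 := ⟨h - 2, by omega⟩
  have h1 : ord P ((2 * m + 1 : ℕ) : k) = 0 := hu _ (by omega) (by omega)
  have h2 : ord P ((2 * m + 3 : ℕ) : k) = 0 := hu _ (by omega) (by omega)
  have h3 : ord P ((2 * m + 5 : ℕ) : k) = 0 := hu _ (by omega) (by omega)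
  have n1 : ((2 * m + 1 : ℕ) : k) ≠ 0 := Nat.cast_ne_zero.2 (by omega)
  have n2 : ((2 * m + 3 : ℕ) : k) ≠ 0 := Nat.cast_ne_zero.2 (by omega)
  have n3 : ((2 * m + 5 : ℕ) : k) ≠ 0 := Nat.cast_ne_zero.2 (by omega)
  have ns : ((-1 : k) ^ (m + 2 + 1)) ≠ 0 := pow_ne_zero _ (by norm_num)
  have hs : ord P ((-1 : k) ^ (m + 2 + 1)) = 0 := by
    rw [ord_pow, ord_neg, ord_one, mul_zero]
  have e1 : (eO (m + 2) : k) =
      ((2 * m + 1 : ℕ) : k) ^ 2 * ((-1) ^ (m + 2 + 1) * ((2 * m + 3 : ℕ) : k)) := by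
    unfold eO mO
    push_cast
    ring
  have e2 : (alO (m + 2) : k) =
      ((2 * m + 5 : ℕ) : k) ^ 2 * ((-1) ^ (m + 2 + 1) * ((2 * m + 3 : ℕ) : k)) := by
    unfold alO mO
    push_cast
    ring
  refine ⟨?_, ?_, ?_, ?_⟩
  · rw [e1]
    exact mul_ne_zero (pow_ne_zero _ n1) (mul_ne_zero ns n2)
  · rw [e1, ord_mul P (pow_ne_zero _ n1) (mul_ne_zero ns n2), ord_mul P ns n2, ord_pow, h1, hs, h2]
    simp
  · rw [e2]
    exact mul_ne_zero (pow_ne_zero _ n3) (mul_ne_zero ns n2)
  · rw [e2, ord_mul P (pow_ne_zero _ n3) (mul_ne_zero ns n2), ord_mul P ns n2, ord_pow, h3, hs, h2]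
    simp

/-- A root of positive valuation `t` satisfies `(2h-1) t = E`. -/
theorem amO6_root (P : HeightOneSpectrum (𝓞 L)) {h : ℕ} (hh : 2 ≤ h) {E : ℤ} (hE : 0 < E)
    {w al e ε x : L} (hw0 : w ≠ 0) (hw : ord P w = E) (hal0 : al ≠ 0) (hal : ord P al = 0)
    (he0 : e ≠ 0) (he : ord P e = 0) (hε : Ge P (2 * E) ε) (hx0 : x ≠ 0) (hx : 0 < ord P x)
    (heq : x ^ (2 * h - 1) * (x ^ 2 - al) - w * (x ^ 2 - e) + ε = 0) :
    (2 * (h : ℤ) - 1) * ord P x = E := by
  set t := ord P x with ht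
  have hcast : ((2 * h - 1 : ℕ) : ℤ) = 2 * (h : ℤ) - 1 := by omega
  have gx : Ge P t x := (ge_iff P hx0).2 le_rfl
  have gw : Ge P E w := (ge_iff P hw0).2 hw.ge
  have gal : Ge P 0 al := (ge_iff P hal0).2 hal.ge
  have ge : Ge P 0 e := (ge_iff P he0).2 he.ge
  have g1 : Ge P ((2 * (h : ℤ) - 1) * t) (x ^ (2 * h - 1)) := by
    have := ge_pow P gx (2 * h - 1)
    rwa [hcast] at this
  have g2 : Ge P (2 * t) (x ^ 2) := by
    have := ge_pow P gx 2
    simpa using this
  have a1 : Ge P ((2 * (h : ℤ) - 1) * t + 2 * t) (x ^ (2 * h - 1) * x ^ 2) := ge_mul P g1 g2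
  have a2 : Ge P (E + 2 * t) (w * x ^ 2) := ge_mul P gw g2
  have a3 : Ge P (E + 0) (w * e) := ge_mul P gw ge
  have a4 : Ge P ((2 * (h : ℤ) - 1) * t + 0) (x ^ (2 * h - 1) * al) := ge_mul P g1 gal
  have o1 : ord P (w * e) = E := by rw [ord_mul P hw0 he0, hw, he, add_zero]
  have o2 : ord P (x ^ (2 * h - 1) * al) = (2 * (h : ℤ) - 1) * t := by
    rw [ord_mul P (pow_ne_zero _ hx0) hal0, ord_pow, hcast, hal, add_zero]
  have hpos : 0 < (2 * (h : ℤ) - 1) := by omega
  rcases lt_trichotomy ((2 * (h : ℤ) - 1) * t) E with hlt | heq' | hgt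
  · exfalso
    have e1 : x ^ (2 * h - 1) * al = x ^ (2 * h - 1) * x ^ 2 - w * x ^ 2 + w * e + ε := by
      linear_combination -heq
    refine ord_not_cancel P (mul_ne_zero (pow_ne_zero _ hx0) hal0) e1 ?_
    rw [o2]
    refine ge_add P (ge_add P (ge_sub P (ge_mono P ?_ a1) (ge_mono P ?_ a2)) (ge_mono P ?_ a3))
      (ge_mono P ?_ hε) <;> linarith
  · exact heq'
  · exfalso
    have e1 : w * e = x ^ (2 * h - 1) * al - x ^ (2 * h - 1) * x ^ 2 + w * x ^ 2 - ε := by
      linear_combination heq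
    refine ord_not_cancel P (mul_ne_zero hw0 he0) e1 ?_
    rw [o1]
    refine ge_sub P (ge_add P (ge_sub P (ge_mono P ?_ a4) (ge_mono P ?_ a1)) (ge_mono P ?_ a2))
      (ge_mono P ?_ hε) <;> linarith

theorem pairO {k L : Type} [Field k] [NumberField k] [Field L] [NumberField L] [Algebra k L]
    {h : ℕ} (hh : 2 ≤ h) {w : k} {g f : k[X]} {l p q : HeightOneSpectrum (𝓞 k)} {x0 : ℤ}
    (H : CondO k h w g f l p q x0) (R : Roots k L (2 * h + 1) f) (P : HeightOneSpectrum (𝓞 L))
    (hP : below k P = p) :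
    ∃ r s : Fin (2 * h + 1), r ≠ s ∧ ord P (R.θ r) = 0 ∧ ord P (R.θ s) = 0 ∧
      ∀ i, i ≠ r → i ≠ s → R.θ i ≠ 0 ∧ (2 * (h : ℤ) - 1) * ord P (R.θ i) = erel k P := by
  classical
  subst hP
  set E : ℤ := ((erel k P : ℕ) : ℤ) with hE
  have hEpos : 0 < E := by
    rw [hE]
    exact_mod_cast erel_pos (k := k) P
  obtain ⟨he0, heo, hal0, halo⟩ := amO6_unit (below k P) hh H.p_units
  have hw0 : w ≠ 0 := by
    rintro rfl
    have := H.p_ord
    rw [ord_zero] at this
    exact zero_ne_one this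
  have hwL : ord P (algebraMap k L w) = E := by
    rw [ord_algebraMap, H.p_ord, mul_one]
  have hw0L : algebraMap k L w ≠ 0 := (_root_.map_ne_zero _).2 hw0
  have heL : ord P (eO h : L) = 0 := by
    have := ord_algebraMap (k := k) P (eO h : k)
    rw [map_intCast, heo, mul_zero] at this
    exact this
  have halL : ord P (alO h : L) = 0 := by
    have := ord_algebraMap (k := k) P (alO h : k)
    rw [map_intCast, halo, mul_zero] at this
    exact this
  have he0L : (eO h : L) ≠ 0 := by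
    rw [← map_intCast (algebraMap k L)]
    exact (_root_.map_ne_zero _).2 he0
  have hal0L : (alO h : L) ≠ 0 := by
    rw [← map_intCast (algebraMap k L)]
    exact (_root_.map_ne_zero _).2 hal0
  -- the roots are integral at `P`
  have hint : ∀ i, Ge P 0 (R.θ i) := by
    intro i
    refine an15_integral P (G := f.map (algebraMap k L)) (fun j => ?_) ?_ ?_ (R.eval_root i)
    · rw [coeff_map]
      have := ge_algebraMap P (ge_of_isIntegral (below k P) (H.int j))
      simpa using this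
    · rw [leadingCoeff_map, H.mem.monic.leadingCoeff, map_one, ord_one]
    · rw [leadingCoeff_map, H.mem.monic.leadingCoeff, map_one]
      exact one_ne_zero
  -- the product of the roots
  have hprod : algebraMap k L w * (eO h : L) = -∏ i, R.θ i := by
    have h1 := R.eval_eq 0
    rw [← coeff_zero_eq_eval_zero, coeff_map, H.mem.c0, H.mem.monic.leadingCoeff, map_one, one_mul,
      map_mul, map_intCast] at h1
    rw [h1]
    have h2 : ∀ i, (0 - R.θ i) = (-1) * R.θ i := fun i => by ring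
    rw [Finset.prod_congr rfl fun i _ => h2 i, Finset.prod_mul_distrib, Finset.prod_const,
      Finset.card_univ, Fintype.card_fin, pow_succ, pow_mul, neg_one_sq, one_pow]
    ring
  have hne : ∀ i, R.θ i ≠ 0 := by
    intro i hi
    rw [Finset.prod_eq_zero (Finset.mem_univ i) hi, neg_zero] at hprod
    exact mul_ne_zero hw0L he0L hprod
  have hnn : ∀ i, 0 ≤ ord P (R.θ i) := fun i => (ge_iff P (hne i)).1 (hint i)
  have hsum : ∑ i, ord P (R.θ i) = E := by
    rw [← ord_prod P Finset.univ R.θ (fun i _ => hne i), ← ord_neg, ← hprod,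
      ord_mul P hw0L he0L, hwL, heL, add_zero]
  -- the roots of positive valuation
  have hroot : ∀ i, 0 < ord P (R.θ i) → (2 * (h : ℤ) - 1) * ord P (R.θ i) = E := by
    intro i hi
    have hev : (f.map (algebraMap k L)).eval (R.θ i) =
        ((fB h w).map (algebraMap k L)).eval (R.θ i) +
          ((f - fB h w).map (algebraMap k L)).eval (R.θ i) := by
      rw [← eval_add, ← Polynomial.map_add, add_sub_cancel]
    rw [R.eval_root i, amO6_fB_eval] at hev
    refine amO6_root P hh hEpos hw0L hwL hal0L halL he0L heL ?_ (hne i) hi hev.symm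
    have := amO6_ge_eval (k := k) P (D := f - fB h w) (m := 2)
      (fun j => by rw [coeff_sub]; exact H.p_close j) (hint i)
    rwa [mul_comm] at this
  set S : Finset (Fin (2 * h + 1)) := Finset.univ.filter fun i => ord P (R.θ i) = 0 with hS
  have hcard : S.card = 2 := by
    have h1 : ∀ i, (2 * (h : ℤ) - 1) * ord P (R.θ i) = if i ∈ S then 0 else E := by
      intro i
      split_ifs with hi
      · rw [hS, Finset.mem_filter] at hi
        rw [hi.2, mul_zero]
      · refine hroot i (lt_of_le_of_ne (hnn i) fun h0 => hi ?_)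
        rw [hS, Finset.mem_filter]
        exact ⟨Finset.mem_univ i, h0.symm⟩
    have h2 : (2 * (h : ℤ) - 1) * E = ((Finset.univ.filter fun i => i ∉ S).card : ℤ) * E := by
      conv_lhs => rw [← hsum, Finset.mul_sum, Finset.sum_congr rfl fun i _ => h1 i]
      rw [Finset.sum_ite, Finset.sum_const_zero, zero_add, Finset.sum_const, nsmul_eq_mul]
    have h3 : (2 * (h : ℤ) - 1) = ((Finset.univ.filter fun i => i ∉ S).card : ℤ) :=
      mul_right_cancel₀ hEpos.ne' h2
    have h4 : S.card + (Finset.univ.filter fun i => i ∉ S).card = 2 * h + 1 := by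
      have h5 := Finset.card_filter_add_card_filter_not (s := (Finset.univ : Finset (Fin (2 * h + 1))))
        (fun i => i ∈ S)
      rw [Finset.card_univ, Fintype.card_fin] at h5
      have h6 : (Finset.univ.filter fun i => i ∈ S) = S := by
        ext i
        simp
      rw [h6] at h5
      exact h5
    omega
  obtain ⟨r, s, hrs, hSrs⟩ := Finset.card_eq_two.1 hcard
  have hr : r ∈ S := by rw [hSrs]; simp
  have hs : s ∈ S := by rw [hSrs]; simp
  refine ⟨r, s, hrs, (Finset.mem_filter.1 hr).2, (Finset.mem_filter.1 hs).2, fun i hir his =>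
    ⟨hne i, hroot i (lt_of_le_of_ne (hnn i) fun h0 => ?_)⟩⟩
  have hi : i ∈ S := by
    rw [hS, Finset.mem_filter]
    exact ⟨Finset.mem_univ i, h0.symm⟩
  rw [hSrs, Finset.mem_insert, Finset.mem_singleton] at hi
  rcases hi with hi | hi
  · exact hir hi
  · exact his hi

end O6

end Pool.Agent.H9.AM
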