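import Pool.Agent.H9.AM.DefsOdd
import Pool.Agent.H35.AN.Even

/-!
# AM-O8: the discriminant of the odd family is a square (MP_a3214d_nt)
-/

set_option autoImplicit false

open Polynomial IsDedekindDomain NumberField

namespace Pool.Agent.H9.AM

open Pool.Agent.H35.AN

section DiscSq

/-- the product of the values of a polynomial at the roots lies in the base field -/
theorem prod_eval_mem {k L : Type*} [Field k] [Field L] [Algebra k L] [FiniteDimensional k L]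
    [IsGalois k L] {n : ℕ} {F : k[X]} (R : Roots k L n F) (g : k[X]) :
    ∃ q : k, algebraMap k L q = ∏ i, (g.map (algebraMap k L)).eval (R.θ i) := by
  have h := (InfiniteGalois.mem_range_algebraMap_iff_fixed (k := k) (K := L)
    (∏ i, (g.map (algebraMap k L)).eval (R.θ i))).2 ?_
  · obtain ⟨G, hG⟩ := h
    exact ⟨G, hG⟩
  · intro σ
    rw [map_prod]
    refine Eq.trans (Finset.prod_congr rfl fun i _ => ?_)
      (Equiv.prod_comp (R.permHom σ) fun i => (g.map (algebraMap k L)).eval (R.θ i))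
    rw [← R.permHom_spec, Roots.eval_map_algEquiv]

theorem amO8_eO_ne (h : ℕ) : eO h ≠ 0 := by
  have h1 : (2 * (h : ℤ) - 3) ≠ 0 := by omega
  have h2 : (2 * (h : ℤ) - 1) ≠ 0 := by omega
  exact mul_ne_zero (pow_ne_zero _ h1) (mul_ne_zero (pow_ne_zero _ (by norm_num)) h2)

/-- division with remainder by `X² - E` -/
theorem amO8_rem {k : Type*} [Field k] (g : k[X]) (E : k) :
    ∃ (q : k[X]) (a b : k), g = (X ^ 2 - C E) * q + (C b * X + C a) := by
  have hm : (X ^ 2 - C E : k[X]).Monic := monic_X_pow_sub_C E (by norm_num)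
  refine ⟨g /ₘ (X ^ 2 - C E), (g %ₘ (X ^ 2 - C E)).coeff 0, (g %ₘ (X ^ 2 - C E)).coeff 1, ?_⟩
  have h1 := modByMonic_add_div g (X ^ 2 - C E)
  have h2 : (g %ₘ (X ^ 2 - C E)).degree ≤ 1 := by
    have h4 := degree_modByMonic_lt g hm
    rw [degree_X_pow_sub_C (by norm_num)] at h4
    exact Order.le_of_lt_succ h4
  have h3 := eq_X_add_C_of_degree_le_one h2
  rw [← h3, add_comm]
  exact h1.symm

/-- the identity at a point `x` with `x² = E` -/
theorem amO8_ident {k Ω : Type*} [Field k] [Field Ω] (φ : k →+* Ω) (E κ : k) (f' f g : k[X])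
    (hid : f' * (X ^ 2 - C E) = C 2 * X * f + C κ * X ^ 2 * g ^ 2) (x : Ω) (hx : x ^ 2 = φ E)
    (hx0 : x ≠ 0) : 2 * f.eval₂ φ x = -φ κ * x * (g.eval₂ φ x) ^ 2 := by
  have h1 := congrArg (eval₂ φ x) hid
  rw [eval₂_mul, eval₂_sub, eval₂_pow, eval₂_X, eval₂_C, hx, sub_self, mul_zero, eval₂_add,
    eval₂_mul, eval₂_mul, eval₂_C, eval₂_X, eval₂_mul, eval₂_mul, eval₂_C, eval₂_pow, eval₂_X,
    eval₂_pow, map_ofNat] at h1
  apply mul_left_cancel₀ hx0
  linear_combination -h1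

theorem amO8_val {k Ω : Type*} [Field k] [Field Ω] (φ : k →+* Ω) (E a b : k) (q : k[X]) (x : Ω)
    (hx : x ^ 2 = φ E) :
    ((X ^ 2 - C E) * q + (C b * X + C a)).eval₂ φ x = φ b * x + φ a := by
  rw [eval₂_add, eval₂_mul, eval₂_sub, eval₂_pow, eval₂_X, eval₂_C, hx, sub_self, zero_mul,
    zero_add, eval₂_add, eval₂_mul, eval₂_C, eval₂_X, eval₂_C]

/-- the product of `θ² - e` -/
theorem prod_sq_sub {k L : Type*} [Field k] [CharZero k] [Field L] [Algebra k L] {h : ℕ} {w : k}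
    {g f : k[X]} (H : OddMem h w g f) (R : Roots k L (2 * h + 1) f) :
    ∃ G : k, 4 * ∏ i, ((R.θ i) ^ 2 - (eO h : L)) =
      -(2 * (h : L) - 1) ^ 2 * (eO h : L) * (algebraMap k L G) ^ 2 := by
  obtain ⟨q, a, b, hg⟩ := amO8_rem g (eO h : k)
  refine ⟨a ^ 2 - (eO h : k) * b ^ 2, ?_⟩
  have hcL : CharZero L := charZero_of_injective_algebraMap (algebraMap k L).injective
  set ι : L →+* AlgebraicClosure L := algebraMap L (AlgebraicClosure L) with hι
  have hcΩ : CharZero (AlgebraicClosure L) := charZero_of_injective_algebraMap ι.injective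
  set φ : k →+* AlgebraicClosure L := ι.comp (algebraMap k L) with hφ
  obtain ⟨z, hz⟩ : ∃ z : AlgebraicClosure L, z ^ 2 = ((eO h : ℤ) : AlgebraicClosure L) :=
    IsAlgClosed.exists_pow_nat_eq _ (by norm_num)
  have hz0 : z ≠ 0 := by
    rintro rfl
    rw [zero_pow two_ne_zero] at hz
    exact amO8_eO_ne h (by exact_mod_cast hz.symm)
  apply ι.injective
  -- values of `f` as products
  have hfac : ∀ x : AlgebraicClosure L, f.eval₂ φ x = ∏ i, (x - ι (R.θ i)) := by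
    intro x
    rw [hφ, ← eval₂_map, R.fac, H.monic.leadingCoeff, map_one, map_one, one_mul, eval₂_finset_prod]
    simp
  have hneg : ∀ x : AlgebraicClosure L, ∏ i, (ι (R.θ i) - x) = - f.eval₂ φ x := by
    intro x
    have h1 : ∀ i, ι (R.θ i) - x = -1 * (x - ι (R.θ i)) := fun i => by ring
    rw [Finset.prod_congr rfl fun i _ => h1 i, Finset.prod_mul_distrib, Finset.prod_const,
      Finset.card_univ, Fintype.card_fin, ← hfac, pow_succ, pow_mul]
    simp
  have hprod : ι (∏ i, ((R.θ i) ^ 2 - (eO h : L))) = f.eval₂ φ z * f.eval₂ φ (-z) := by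
    rw [map_prod]
    have h1 : ∀ i, ι ((R.θ i) ^ 2 - (eO h : L)) = (ι (R.θ i) - z) * (ι (R.θ i) - (-z)) := by
      intro i
      rw [map_sub, map_pow, map_intCast, ← hz]
      ring
    rw [Finset.prod_congr rfl fun i _ => h1 i, Finset.prod_mul_distrib, hneg, hneg]
    ring
  have hφE : φ (eO h : k) = ((eO h : ℤ) : AlgebraicClosure L) := map_intCast φ _
  have hφκ : φ (2 * (h : k) - 1) = 2 * (h : AlgebraicClosure L) - 1 := by
    rw [map_sub, map_mul, map_ofNat, map_natCast, map_one]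
  have hz' : (-z) ^ 2 = ((eO h : ℤ) : AlgebraicClosure L) := by rw [neg_sq, hz]
  have e1 := amO8_ident φ _ _ _ _ _ H.ident z (hz.trans hφE.symm) hz0
  have e2 := amO8_ident φ _ _ _ _ _ H.ident (-z) (hz'.trans hφE.symm) (neg_ne_zero.2 hz0)
  have e3 : g.eval₂ φ z = φ b * z + φ a := by
    rw [hg]
    exact amO8_val φ _ a b q z (hz.trans hφE.symm)
  have e4 : g.eval₂ φ (-z) = φ b * (-z) + φ a := by
    rw [hg]
    exact amO8_val φ _ a b q (-z) (hz'.trans hφE.symm)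
  rw [e3, hφκ] at e1
  rw [e4, hφκ] at e2
  have hG : ι (algebraMap k L (a ^ 2 - (eO h : k) * b ^ 2)) = φ a ^ 2 - z ^ 2 * φ b ^ 2 := by
    have h1 : ι (algebraMap k L (a ^ 2 - (eO h : k) * b ^ 2)) = φ (a ^ 2 - (eO h : k) * b ^ 2) :=
      rfl
    rw [h1, map_sub, map_mul, map_pow, map_pow, hφE, hz]
  have h5 : ι (4 * ∏ i, ((R.θ i) ^ 2 - (eO h : L))) =
      4 * (f.eval₂ φ z * f.eval₂ φ (-z)) := by
    rw [map_mul, hprod, map_ofNat]
  have h6 : ι (-(2 * (h : L) - 1) ^ 2 * (eO h : L) *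
      (algebraMap k L (a ^ 2 - (eO h : k) * b ^ 2)) ^ 2) =
      -(2 * (h : AlgebraicClosure L) - 1) ^ 2 * z ^ 2 * (φ a ^ 2 - z ^ 2 * φ b ^ 2) ^ 2 := by
    rw [map_mul, map_pow, hG, map_mul, map_neg, map_pow, map_sub, map_mul, map_ofNat, map_natCast,
      map_one, map_intCast, hz]
  rw [h5, h6]
  calc 4 * (f.eval₂ φ z * f.eval₂ φ (-z)) = (2 * f.eval₂ φ z) * (2 * f.eval₂ φ (-z)) := by ring
    _ = _ := by rw [e1, e2]; ring

/-- the sign -/
theorem amO8_sign (h : ℕ) : (2 * h + 1) * (2 * h + 1 - 1) / 2 = h + 2 * (h * h) := by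
  rw [Nat.add_sub_cancel]
  rw [show (2 * h + 1) * (2 * h) = 2 * (h + 2 * (h * h)) by ring]
  exact Nat.mul_div_cancel_left _ two_pos

theorem disc_sqO {k L : Type*} [Field k] [CharZero k] [Field L] [Algebra k L]
    [FiniteDimensional k L] [IsGalois k L] {h : ℕ} (hh : 2 ≤ h) {w : k} {g f : k[X]}
    (H : OddMem h w g f) (R : Roots k L (2 * h + 1) f) (hne : ∀ i, (R.θ i) ^ 2 ≠ (eO h : L)) :
    ∃ q : k, (algebraMap k L) (q ^ 2) = ∏ i, ∏ j ∈ Finset.Ioi i, (R.θ j - R.θ i) ^ 2 := by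
  have hcL : CharZero L := charZero_of_injective_algebraMap (algebraMap k L).injective
  obtain ⟨Γ, hΓ⟩ := prod_eval_mem R g
  obtain ⟨Θ, hΘ⟩ := prod_eval_mem R X
  obtain ⟨G, hG⟩ := prod_sq_sub H R
  have h7 := prod_deriv R
  rw [H.monic.leadingCoeff, map_one, one_pow, one_mul, amO8_sign] at h7
  set D : L := ∏ i, ∏ j ∈ Finset.Ioi i, (R.θ j - R.θ i) ^ 2 with hD
  have hsgn : (-1 : L) ^ (h + 2 * (h * h)) = (-1) ^ h := by
    rw [pow_add, pow_mul]
    simp
  rw [hsgn] at h7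
  -- the derivative at the roots
  have h8 : ∀ i, (f.derivative.map (algebraMap k L)).eval (R.θ i) * ((R.θ i) ^ 2 - (eO h : L)) =
      (2 * (h : L) - 1) * (((X : k[X]).map (algebraMap k L)).eval (R.θ i)) ^ 2 *
        ((g.map (algebraMap k L)).eval (R.θ i)) ^ 2 := by
    intro i
    have h9 := congrArg (fun p : k[X] => (p.map (algebraMap k L)).eval (R.θ i)) H.ident
    have h10 := R.eval_root i
    simp only [Polynomial.map_mul, Polynomial.map_add, Polynomial.map_sub, Polynomial.map_pow,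
      map_C, map_X, eval_mul, eval_add, eval_sub, eval_pow, eval_C, eval_X, h10, mul_zero,
      zero_add] at h9 ⊢
    have h11 : algebraMap k L ((eO h : ℤ) : k) = ((eO h : ℤ) : L) := map_intCast _ _
    have h12 : algebraMap k L (2 * (h : k) - 1) = 2 * (h : L) - 1 := by
      rw [map_sub, map_mul, map_ofNat, map_natCast, map_one]
    rw [← h11, ← h12]
    exact h9
  have h9 : (∏ i, (f.derivative.map (algebraMap k L)).eval (R.θ i)) *
      ∏ i, ((R.θ i) ^ 2 - (eO h : L)) =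
      (2 * (h : L) - 1) ^ (2 * h + 1) * (algebraMap k L Θ) ^ 2 * (algebraMap k L Γ) ^ 2 := by
    rw [← Finset.prod_mul_distrib, Finset.prod_congr rfl fun i _ => h8 i,
      Finset.prod_mul_distrib, Finset.prod_mul_distrib, Finset.prod_const, Finset.prod_pow,
      Finset.prod_pow, ← hΘ, ← hΓ, Finset.card_univ, Fintype.card_fin]
  rw [h7] at h9
  have hP : ∏ i, ((R.θ i) ^ 2 - (eO h : L)) ≠ 0 :=
    Finset.prod_ne_zero_iff.2 fun i _ => sub_ne_zero.2 (hne i)
  set P : L := ∏ i, ((R.θ i) ^ 2 - (eO h : L)) with hPdef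
  have hE0 : ((eO h : ℤ) : L) ≠ 0 := by exact_mod_cast amO8_eO_ne h
  have hκ0 : (2 * (h : L) - 1) ≠ 0 := by
    have h1 : ((2 * (h : ℤ) - 1 : ℤ) : L) ≠ 0 := by
      exact_mod_cast (by omega : (2 * (h : ℤ) - 1) ≠ 0)
    simpa using h1
  have hτ0 : (2 * (h : L) - 3) ≠ 0 := by
    have h1 : ((2 * (h : ℤ) - 3 : ℤ) : L) ≠ 0 := by
      exact_mod_cast (by omega : (2 * (h : ℤ) - 3) ≠ 0)
    simpa using h1
  have h4 : (4 : L) ≠ 0 := by norm_num
  have hGne : algebraMap k L G ≠ 0 := by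
    intro h0
    rw [h0, zero_pow two_ne_zero, mul_zero] at hG
    exact mul_ne_zero h4 hP hG
  have hEval : ((eO h : ℤ) : L) = (2 * (h : L) - 3) ^ 2 * ((-1) ^ (h + 1) * (2 * (h : L) - 1)) := by
    unfold eO mO
    push_cast
    ring
  refine ⟨2 * (2 * (h : k) - 1) ^ (h - 1) * Θ * Γ / ((2 * (h : k) - 3) * G), ?_⟩
  have hmap : (algebraMap k L) ((2 * (2 * (h : k) - 1) ^ (h - 1) * Θ * Γ /
      ((2 * (h : k) - 3) * G)) ^ 2) =
      (2 * (2 * (h : L) - 1) ^ (h - 1) * algebraMap k L Θ * algebraMap k L Γ /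
      ((2 * (h : L) - 3) * algebraMap k L G)) ^ 2 := by
    simp only [map_pow, map_div₀, map_mul, map_sub, map_ofNat, map_natCast, map_one]
  rw [hmap]
  set θ' := algebraMap k L Θ
  set γ := algebraMap k L Γ
  set G' := algebraMap k L G
  set κ : L := 2 * (h : L) - 1 with hκ
  set τ : L := 2 * (h : L) - 3 with hτ
  set s : L := (-1) ^ h with hs
  have hs2 : s * s = 1 := by rw [hs, ← mul_pow]; simp
  have hE' : ((eO h : ℤ) : L) = -(τ ^ 2 * s * κ) := by
    rw [hEval, pow_succ (-1 : L) h, ← hs]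
    ring
  -- `4 P = κ³ τ² s G²`
  have hP4 : 4 * P = κ ^ 3 * τ ^ 2 * s * G' ^ 2 := by
    rw [hG, hE']
    ring
  -- `s D P = κ^(2h+1) θ² γ²`
  have h10 : D * (κ ^ 3 * τ ^ 2 * G' ^ 2) = 4 * κ ^ (2 * h + 1) * θ' ^ 2 * γ ^ 2 := by
    have e : s * D * (4 * P) = 4 * (κ ^ (2 * h + 1) * θ' ^ 2 * γ ^ 2) := by
      rw [← h9]
      ring
    rw [hP4] at e
    linear_combination e - (D * (κ ^ 3 * τ ^ 2 * G' ^ 2)) * hs2
  obtain ⟨m, rfl⟩ : ∃ m, h = m + 1 := ⟨h - 1, by omega⟩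
  have hden : κ ^ 3 * τ ^ 2 * G' ^ 2 ≠ 0 :=
    mul_ne_zero (mul_ne_zero (pow_ne_zero _ hκ0) (pow_ne_zero _ hτ0)) (pow_ne_zero _ hGne)
  apply mul_right_cancel₀ hden
  rw [h10, Nat.add_sub_cancel, div_pow, div_mul_eq_mul_div, div_eq_iff
    (pow_ne_zero _ (mul_ne_zero hτ0 hGne))]
  ring

end DiscSq

end Pool.Agent.H9.AM
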