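import Pool.Agent.H9.AM.DefsOdd
import Pool.Agent.H35.AN.Val
import Pool.Agent.H35.AN.Tower
import Pool.Agent.H35.AN.Tri
import Pool.Agent.H9.AM.ThreeCyc

/-!
# Project AN2 (MP_a3214d), row AM-O9: the three-cycle at `q`, odd family
-/

set_option autoImplicit false

open Polynomial IsDedekindDomain NumberField

namespace Pool.Agent.H9.AM

open Pool.Agent.H35.AN

section Alg

theorem amO9_ident {R : Type*} [CommRing R] {f g : R[X]} {e c : R} (x : R)
    (hid : derivative f * (X ^ 2 - C e) = C 2 * X * f + C c * X ^ 2 * g ^ 2) :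
    (taylor x f).coeff 1 * (x ^ 2 - e) =
      2 * x * (taylor x f).coeff 0 + c * x ^ 2 * (taylor x g).coeff 0 ^ 2 ∧
    2 * (taylor x f).coeff 2 * (x ^ 2 - e) = 2 * (taylor x f).coeff 0 +
      c * (2 * x ^ 2 * (taylor x g).coeff 0 * (taylor x g).coeff 1 +
        2 * x * (taylor x g).coeff 0 ^ 2) ∧
    3 * (taylor x f).coeff 3 * (x ^ 2 - e) + 2 * x * (taylor x f).coeff 2 =
      (taylor x f).coeff 1 +
      c * (x ^ 2 * (2 * (taylor x g).coeff 0 * (taylor x g).coeff 2 + (taylor x g).coeff 1 ^ 2) +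
        4 * x * (taylor x g).coeff 0 * (taylor x g).coeff 1 + (taylor x g).coeff 0 ^ 2) := by
  have hd : taylor x (derivative f) = derivative (taylor x f) := by
    rw [taylor_apply, taylor_apply, derivative_comp]
    simp
  have H := congrArg (taylor x) hid
  rw [taylor_mul, hd] at H
  simp only [map_sub, map_add, taylor_mul, taylor_C, taylor_X, taylor_pow] at H
  set F := taylor x f with hF
  set G := taylor x g with hG
  have H' : derivative F * X ^ 2 + C (2 * x) * (derivative F * X ^ 1) +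
      C (x ^ 2 - e) * derivative F =
      C 2 * (F * X ^ 1) + C (2 * x) * F + C c * (G ^ 2 * X ^ 2) + C (2 * c * x) * (G ^ 2 * X ^ 1) +
      C (c * x ^ 2) * G ^ 2 := by
    simp only [map_mul, map_sub, map_pow]
    have h2 : (C (2 : R) : R[X]) = 2 := rfl
    rw [h2] at H ⊢
    linear_combination H
  have g0 : (G ^ 2).coeff 0 = G.coeff 0 ^ 2 := by rw [sq, mul_coeff_zero, sq]
  have g1 : (G ^ 2).coeff 1 = 2 * G.coeff 0 * G.coeff 1 := by
    rw [sq, mul_coeff_one]; ring
  have g2 : (G ^ 2).coeff 2 = 2 * G.coeff 0 * G.coeff 2 + G.coeff 1 ^ 2 := by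
    rw [sq, coeff_mul, Finset.Nat.antidiagonal_succ, Finset.sum_cons, Finset.sum_map,
      Finset.Nat.antidiagonal_succ, Finset.sum_cons, Finset.sum_map, Finset.Nat.antidiagonal_zero,
      Finset.sum_singleton]
    simp
    ring
  have a0 := congrArg (fun p : R[X] => p.coeff 0) H'
  have a1 := congrArg (fun p : R[X] => p.coeff 1) H'
  have a2 := congrArg (fun p : R[X] => p.coeff 2) H'
  simp only [coeff_add, coeff_C_mul, coeff_mul_X_pow', coeff_derivative, g0, g1, g2] at a0 a1 a2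
  norm_num at a0 a1 a2
  refine ⟨by linear_combination a0, by linear_combination a1, by linear_combination a2⟩

end Alg

section Loc

variable {K : Type*} [Field K] [NumberField K] (P : HeightOneSpectrum (𝓞 K))

theorem amO9_eval_ge {m : ℤ} {p : K[X]} (hp : ∀ j, Ge P m (p.coeff j)) {x : K} (hx : Ge P 0 x) :
    Ge P m (p.eval x) := by
  rw [eval_eq_sum_range]
  refine ge_sum P _ _ fun i _ => ?_
  have := ge_mul P (hp i) (ge_pow P hx i)
  simpa using this

theorem amO9_taylor_ge {m : ℤ} {p : K[X]} (hp : ∀ j, Ge P m (p.coeff j)) {x : K} (hx : Ge P 0 x)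
    (i : ℕ) : Ge P m ((taylor x p).coeff i) := by
  rw [taylor_coeff]
  refine amO9_eval_ge P (fun j => ?_) hx
  rw [hasseDeriv_coeff]
  have := ge_mul P (ge_nat P ((j + i).choose i)) (hp (j + i))
  simpa using this

/-- closeness of the Taylor coefficients -/
theorem amO9_taylor_close {m : ℤ} {f f0 : K[X]} (hp : ∀ j, Ge P m (f.coeff j - f0.coeff j))
    {x : K} (hx : Ge P 0 x) (i : ℕ) :
    Ge P m ((taylor x f).coeff i - (taylor x f0).coeff i) := by
  have h1 := amO9_taylor_ge P (p := f - f0) (fun j => by rw [coeff_sub]; exact hp j) hx i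
  rwa [map_sub, coeff_sub] at h1

theorem amO9_eval_close {m : ℤ} {f f0 : K[X]} (hp : ∀ j, Ge P m (f.coeff j - f0.coeff j))
    {x : K} (hx : Ge P 0 x) : Ge P m (f.eval x - f0.eval x) := by
  rw [← eval_sub]
  exact amO9_eval_ge P (fun j => by rw [coeff_sub]; exact hp j) hx

theorem amO9_not_one : ¬ Ge P 1 (1 : K) :=
  an17_not_ge P ⟨one_ne_zero, ord_one P⟩

theorem amO9_unit_of_ge {x : K} (h0 : Ge P 0 x) (h1 : ¬ Ge P 1 x) : x ≠ 0 ∧ ord P x = 0 := by
  have hx : x ≠ 0 := by
    rintro rfl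
    exact h1 (ge_zero P 1)
  refine ⟨hx, ?_⟩
  rw [ge_iff P hx] at h0 h1
  omega

theorem amO9_mul_ge {x y : K} (hx : Ge P 0 x) (hy : Ge P 0 y) (h : Ge P 1 (x * y)) :
    Ge P 1 x ∨ Ge P 1 y := by
  by_contra hne
  rw [not_or] at hne
  exact an17_not_ge P (an17_umul P (amO9_unit_of_ge P hx hne.1) (amO9_unit_of_ge P hy hne.2)) h

/-- the maximal ideal of the local ring at `P` -/
def amO9_ideal : Ideal (an17_sub P) where
  carrier := {x | Ge P 1 (x : K)}
  add_mem' := fun {_ _} hx hy => ge_add P hx hy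
  zero_mem' := ge_zero P 1
  smul_mem' := fun c {x} hx => by
    have := ge_mul P (an17_mem P |>.mp c.2) hx
    simpa using this

theorem amO9_mem {x : an17_sub P} : x ∈ amO9_ideal P ↔ Ge P 1 (x : K) := Iff.rfl

instance amO9_prime : (amO9_ideal P).IsPrime where
  ne_top' := by
    rw [Ideal.ne_top_iff_one, amO9_mem]
    exact amO9_not_one P
  mem_or_mem' := fun {x y} h => amO9_mul_ge P x.2 y.2 h

/-- the residue ring -/
abbrev amO9_F := an17_sub P ⧸ amO9_ideal P

/-- reduction -/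
def amO9_r : an17_sub P →+* amO9_F P := Ideal.Quotient.mk (amO9_ideal P)

theorem amO9_r_eq_zero {x : an17_sub P} : amO9_r P x = 0 ↔ Ge P 1 (x : K) := by
  rw [amO9_r, Ideal.Quotient.eq_zero_iff_mem, amO9_mem]

theorem amO9_nat_ne {N m : ℕ} (hu : UnitsUpTo P N) (h0 : 0 < m) (hm : m ≤ N) :
    (m : amO9_F P) ≠ 0 := by
  have h1 : (m : amO9_F P) = amO9_r P (m : an17_sub P) := (map_natCast _ m).symm
  rw [h1, Ne, amO9_r_eq_zero]
  have h2 := an17_not_ge P (an17_unit P hu h0 hm)
  simpa using h2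

end Loc

section Consts

theorem amO9_consts {F : Type*} [CommRing F] [IsDomain F] {h : ℕ} (hh : 2 ≤ h)
    (hu : ∀ m : ℕ, 0 < m → m ≤ 2 * h + 1 → (m : F) ≠ 0) :
    (2 : F) ≠ 0 ∧ (3 : F) ≠ 0 ∧ (2 * (h : F) - 1) ≠ 0 ∧ ((muO h : ℤ) : F) ≠ 0 ∧
      ((eO h : ℤ) : F) ≠ 0 ∧ ((muO h : ℤ) : F) - ((eO h : ℤ) : F) ≠ 0 := by
  have h2 : (2 : F) ≠ 0 := by
    have := hu 2 (by omega) (by omega)
    exact_mod_cast this
  have h3 : (3 : F) ≠ 0 := by
    have := hu 3 (by omega) (by omega)
    exact_mod_cast this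
  have h1 : (2 * (h : F) - 1) ≠ 0 := by
    have := hu (2 * h - 1) (by omega) (by omega)
    rw [Nat.cast_sub (by omega)] at this
    push_cast at this
    exact this
  have hn : (2 * (h : F) + 1) ≠ 0 := by
    have := hu (2 * h + 1) (by omega) (by omega)
    push_cast at this
    exact this
  have hc : (2 * (h : F) - 3) ≠ 0 := by
    have := hu (2 * h - 3) (by omega) (by omega)
    rw [Nat.cast_sub (by omega)] at this
    push_cast at this
    exact this
  have hm : ((mO h : ℤ) : F) ≠ 0 := by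
    have : ((mO h : ℤ) : F) = (-1) ^ (h + 1) * (2 * (h : F) - 1) := by
      rw [mO]; push_cast; ring
    rw [this]
    exact mul_ne_zero (pow_ne_zero _ (neg_ne_zero.mpr one_ne_zero)) h1
  have em : ((muO h : ℤ) : F) = (2 * (h : F) - 3) * (2 * (h : F) + 1) * (mO h : ℤ) := by
    rw [muO]; push_cast; ring
  have ee : ((eO h : ℤ) : F) = (2 * (h : F) - 3) ^ 2 * (mO h : ℤ) := by
    rw [eO]; push_cast; ring
  refine ⟨h2, h3, h1, ?_, ?_, ?_⟩
  · rw [em]
    exact mul_ne_zero (mul_ne_zero hc hn) hm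
  · rw [ee]
    exact mul_ne_zero (pow_ne_zero _ hc) hm
  · have : ((muO h : ℤ) : F) - ((eO h : ℤ) : F) = 2 * 2 * (2 * (h : F) - 3) * (mO h : ℤ) := by
      rw [em, ee]; ring
    rw [this]
    exact mul_ne_zero (mul_ne_zero (mul_ne_zero h2 h2) hc) hm

theorem amO9_simple {F : Type*} [CommRing F] [IsDomain F] {h : ℕ} (hh : 2 ≤ h)
    (hu : ∀ m : ℕ, 0 < m → m ≤ 2 * h + 1 → (m : F) ≠ 0) {θ x w : F}
    (hx : x ^ 2 = (muO h : ℤ))
    (hx1 : x ^ (2 * h - 1) * (x ^ 2 - (alO h : ℤ)) - w * (x ^ 2 - (eO h : ℤ)) = 0)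
    (hw : w ≠ 0)
    (hθ : θ ^ (2 * h - 1) * (θ ^ 2 - (alO h : ℤ)) - w * (θ ^ 2 - (eO h : ℤ)) = 0)
    (hd : θ ^ 2 * (θ ^ (h - 2) * (θ ^ 2 - (muO h : ℤ))) ^ 2 = 0) : θ = x := by
  obtain ⟨c2, -, -, -, ce, cd⟩ := amO9_consts (F := F) hh hu
  have h0 : θ ≠ 0 := by
    rintro rfl
    rw [zero_pow (by omega : 2 * h - 1 ≠ 0)] at hθ
    have : w * (eO h : ℤ) = 0 := by linear_combination hθ
    rcases mul_eq_zero.mp this with h1 | h1
    · exact hw h1
    · exact ce h1
  have h1 : θ ^ 2 = (muO h : ℤ) := by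
    rcases mul_eq_zero.mp hd with h2 | h2
    · exact absurd (pow_eq_zero_iff (two_ne_zero) |>.mp h2) h0
    · have h3 := pow_eq_zero_iff (two_ne_zero) |>.mp h2
      rcases mul_eq_zero.mp h3 with h4 | h4
      · exact absurd h4 (pow_ne_zero _ h0)
      · exact sub_eq_zero.mp h4
  rw [← hx] at h1
  rcases sq_eq_sq_iff_eq_or_eq_neg.mp h1 with h2 | h2
  · exact h2
  · exfalso
    have ho : Odd (2 * h - 1) := ⟨h - 1, by omega⟩
    rw [h2, ho.neg_pow, neg_sq] at hθ
    have h3 : 2 * w * ((muO h : ℤ) - (eO h : ℤ)) = 0 := by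
      rw [← hx]
      linear_combination -hθ - hx1
    rcases mul_eq_zero.mp h3 with h4 | h4
    · exact (mul_ne_zero c2 hw) h4
    · exact cd h4

end Consts

section Base

theorem amO9_gB_map {F E : Type*} [Field F] [Field E] (φ : F →+* E) (h : ℕ) :
    (gB h : F[X]).map φ = gB h := by
  simp [gB]

theorem amO9_fB_map {F E : Type*} [Field F] [Field E] (φ : F →+* E) (h : ℕ) (w : F) :
    (fB h w : F[X]).map φ = fB h (φ w) := by
  simp [fB]

theorem amO9_gB_eval {F : Type*} [Field F] (h : ℕ) (x : F) :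
    (gB h : F[X]).eval x = x ^ (h - 2) * (x ^ 2 - (muO h : ℤ)) := by
  simp [gB]

theorem amO9_fB_eval {F : Type*} [Field F] (h : ℕ) (w x : F) :
    (fB h w : F[X]).eval x =
      x ^ (2 * h - 1) * (x ^ 2 - (alO h : ℤ)) - w * (x ^ 2 - (eO h : ℤ)) := by
  simp [fB]

theorem amO9_gB_deriv {F : Type*} [Field F] (h : ℕ) (x : F) :
    (derivative (gB h : F[X])).eval x =
      ((h - 2 : ℕ) : F) * x ^ (h - 2 - 1) * (x ^ 2 - (muO h : ℤ)) + 2 * (x ^ (h - 2) * x) := by
  rw [gB, derivative_mul, derivative_X_pow, derivative_sub, derivative_X_pow, derivative_C]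
  simp
  ring

end Base

section Main

variable {k L : Type} [Field k] [NumberField k] [Field L] [NumberField L] [Algebra k L]

/-- the simple roots -/
theorem amO9_hsimple {h : ℕ} (hh : 2 ≤ h) {w : k} {g f : k[X]}
    {l p q : HeightOneSpectrum (𝓞 k)} {x0 : ℤ} (H : CondO k h w g f l p q x0)
    (P : HeightOneSpectrum (𝓞 L)) (hP : below k P = q) {θ : L}
    (hroot : (f.map (algebraMap k L)).eval θ = 0) (hne : θ ≠ (x0 : L))
    (hord : ord P (θ - (x0 : L)) = 0) :
    ¬ Ge P 1 ((f.derivative.map (algebraMap k L)).eval θ) := by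
  intro hge
  -- closeness above
  have hup : ∀ {m : ℤ} {x : k}, 0 ≤ m → Ge q m x → Ge P m (algebraMap k L x) := by
    intro m x hm hx
    subst hP
    have h1 := ge_algebraMap P hx
    refine ge_mono P ?_ h1
    have : (1 : ℤ) ≤ erel k P := by exact_mod_cast erel_pos (k := k) P
    nlinarith
  have hu : UnitsUpTo P (2 * h + 1) := unitsUpTo_below P (hP ▸ H.q_units)
  have hint : ∀ i, Ge P 0 ((f.map (algebraMap k L)).coeff i) := by
    intro i
    rw [coeff_map]
    exact hup le_rfl (ge_of_isIntegral q (H.int i))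
  have hfc : ∀ j, Ge P 1 ((f.map (algebraMap k L)).coeff j -
      (fB h (algebraMap k L w)).coeff j) := by
    intro j
    rw [← amO9_fB_map, coeff_map, coeff_map, ← map_sub]
    exact hup zero_le_one (ge_mono q (by norm_num) (H.q_close j))
  have hgc : ∀ j, Ge P 1 ((g.map (algebraMap k L)).coeff j - (gB h : L[X]).coeff j) := by
    intro j
    rw [← amO9_gB_map (algebraMap k L), coeff_map, coeff_map, ← map_sub]
    exact hup zero_le_one (H.q_gclose j)
  have hmon : (f.map (algebraMap k L)).leadingCoeff = 1 := (H.mem.monic.map _).leadingCoeff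
  have hθ : Ge P 0 θ := an15_integral P hint (by rw [hmon, ord_one]) (by rw [hmon]; exact one_ne_zero)
    hroot
  have hw0 : w ≠ 0 := by
    rintro rfl
    have := H.l_ord
    rw [ord_zero] at this
    exact zero_ne_one this
  have hw := an17_above (L := L) ⟨hw0, H.q_ord⟩ hP
  have hwg : Ge P 0 (algebraMap k L w) := an17_ge_of_ord P hw.2
  -- elements of the local ring
  set T : an17_sub P := ⟨θ, hθ⟩ with hT
  set W : an17_sub P := ⟨algebraMap k L w, hwg⟩ with hW
  have hTc : (T : L) = θ := rfl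
  have hWc : (W : L) = algebraMap k L w := rfl
  set r := amO9_r P with hr
  have hFu : ∀ m : ℕ, 0 < m → m ≤ 2 * h + 1 → (m : amO9_F P) ≠ 0 :=
    fun m h0 hm => amO9_nat_ne P hu h0 hm
  have key : r T = (x0 : ℤ) := by
    refine amO9_simple (F := amO9_F P) hh hFu (w := r W) ?_ ?_ ?_ ?_ ?_
    · have h1 : Ge P 1 (((x0 : ℤ) : an17_sub P) ^ 2 - ((muO h : ℤ) : an17_sub P) : an17_sub P) := by
        have := hup zero_le_one H.q_mu
        push_cast at this ⊢
        simpa using this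
      have h2 := (amO9_r_eq_zero P).mpr h1
      rw [map_sub, map_pow, map_intCast, map_intCast] at h2
      exact sub_eq_zero.mp h2
    · have h0 : Ge q 1 ((x0 : k) ^ (2 * h - 1) * ((x0 : k) ^ 2 - (alO h : k)) -
          w * ((x0 : k) ^ 2 - (eO h : k))) := by
        rw [ge_iff q, H.q_one]
        intro hz
        have := H.q_one
        rw [hz, ord_zero] at this
        exact zero_ne_one this
      have h1 : Ge P 1 (((x0 : ℤ) : an17_sub P) ^ (2 * h - 1) *
          (((x0 : ℤ) : an17_sub P) ^ 2 - ((alO h : ℤ) : an17_sub P)) -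
          W * (((x0 : ℤ) : an17_sub P) ^ 2 - ((eO h : ℤ) : an17_sub P)) : an17_sub P) := by
        have := hup zero_le_one h0
        push_cast at this ⊢
        simpa using this
      have h2 := (amO9_r_eq_zero P).mpr h1
      simpa using h2
    · rw [Ne, amO9_r_eq_zero]
      exact an17_not_ge P hw
    · have h0 : Ge P 1 ((fB h (algebraMap k L w)).eval θ) := by
        have := amO9_eval_close P hfc hθ
        rw [hroot, zero_sub] at this
        have h3 := ge_neg P this
        rwa [neg_neg] at h3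
      rw [amO9_fB_eval] at h0
      have h1 : Ge P 1 (T ^ (2 * h - 1) * (T ^ 2 - ((alO h : ℤ) : an17_sub P)) -
          W * (T ^ 2 - ((eO h : ℤ) : an17_sub P)) : an17_sub P) := by
        push_cast
        exact h0
      have h2 := (amO9_r_eq_zero P).mpr h1
      simpa using h2
    · -- the identity at `θ`
      have hid := congrArg (fun z : k[X] => (z.map (algebraMap k L)).eval θ) H.mem.ident
      simp only [Polynomial.map_mul, Polynomial.map_sub, Polynomial.map_add, Polynomial.map_pow,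
        map_X, map_C, eval_mul, eval_sub, eval_add, eval_pow, eval_X, eval_C, hroot, mul_zero,
        zero_add] at hid
      have h0 : Ge P 1 ((2 * (h : L) - 1) * (θ ^ 2 * ((g.map (algebraMap k L)).eval θ) ^ 2)) := by
        have h3 : (2 * (h : L) - 1) * (θ ^ 2 * ((g.map (algebraMap k L)).eval θ) ^ 2) =
            ((derivative f).map (algebraMap k L)).eval θ * (θ ^ 2 - ((eO h : ℤ) : L)) := by
          have e2 : algebraMap k L (2 * (h : k) - 1) = 2 * (h : L) - 1 := by
            rw [map_sub, map_mul, map_natCast, map_one, map_ofNat]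
          rw [← map_intCast (algebraMap k L) (eO h), hid, e2]
          ring
        rw [h3]
        have h4 : Ge P 0 (θ ^ 2 - ((eO h : ℤ) : L)) := by
          apply ge_sub P
          · have := ge_pow P hθ 2
            simpa using this
          · exact ge_int P _
        have := ge_mul P hge h4
        simpa using this
      set γ := (g.map (algebraMap k L)).eval θ with hγdef
      have hc := amO9_eval_close P hgc hθ
      rw [amO9_gB_eval] at hc
      set U : an17_sub P := T ^ (h - 2) * (T ^ 2 - ((muO h : ℤ) : an17_sub P)) with hU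
      have hUc : (U : L) = θ ^ (h - 2) * (θ ^ 2 - ((muO h : ℤ) : L)) := by
        rw [hU]
        push_cast
        rfl
      rw [← hUc] at hc
      have hγ : Ge P 0 γ := by
        have h5 := ge_add P (ge_mono P zero_le_one hc) ((an17_mem P).mp U.2)
        rwa [sub_add_cancel] at h5
      set Γ : an17_sub P := ⟨γ, hγ⟩ with hΓ
      have hrΓ : r Γ = r U := by
        rw [← sub_eq_zero, ← map_sub, amO9_r_eq_zero]
        push_cast
        exact hc
      have h6 : r ((2 * (h : an17_sub P) - 1) * (T ^ 2 * Γ ^ 2)) = 0 := by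
        rw [amO9_r_eq_zero]
        push_cast
        exact h0
      obtain ⟨-, -, c1, -, -, -⟩ := amO9_consts (F := amO9_F P) hh hFu
      rw [map_mul, map_mul, map_pow, map_pow, hrΓ] at h6
      have h7 : r (2 * (h : an17_sub P) - 1) = 2 * (h : amO9_F P) - 1 := by
        rw [map_sub, map_mul, map_natCast, map_one, map_ofNat]
      rw [h7] at h6
      rcases mul_eq_zero.mp h6 with h8 | h8
      · exact absurd h8 c1
      · rw [hU] at h8
        simpa using h8
  have h1 : Ge P 1 (θ - (x0 : L)) := by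
    have h2 : r (T - ((x0 : ℤ) : an17_sub P)) = 0 := by
      rw [map_sub, key, map_intCast, sub_self]
    have h3 := (amO9_r_eq_zero P).mp h2
    push_cast at h3
    exact h3
  exact an17_not_ge P ⟨sub_ne_zero.mpr hne, hord⟩ h1

theorem amO9_alg {F : Type*} [CommRing F] [IsDomain F] {a0 a1 a2 a3 b0 b1 b2 x e c : F}
    (h1 : a1 * (x ^ 2 - e) = 2 * x * a0 + c * x ^ 2 * b0 ^ 2)
    (h2 : 2 * a2 * (x ^ 2 - e) = 2 * a0 + c * (2 * x ^ 2 * b0 * b1 + 2 * x * b0 ^ 2))
    (h3 : 3 * a3 * (x ^ 2 - e) + 2 * x * a2 =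
      a1 + c * (x ^ 2 * (2 * b0 * b2 + b1 ^ 2) + 4 * x * b0 * b1 + b0 ^ 2))
    (ha : a0 = 0) (hb : b0 = 0) (hd : x ^ 2 - e ≠ 0) (hc : c ≠ 0) (hx : x ≠ 0) (hb1 : b1 ≠ 0)
    (two : (2 : F) ≠ 0) : a1 = 0 ∧ a2 = 0 ∧ a3 ≠ 0 := by
  subst ha
  subst hb
  have e1 : a1 = 0 := by
    have : a1 * (x ^ 2 - e) = 0 := by rw [h1]; ring
    exact (mul_eq_zero.mp this).resolve_right hd
  have e2 : a2 = 0 := by
    have : 2 * a2 * (x ^ 2 - e) = 0 := by rw [h2]; ring
    exact (mul_eq_zero.mp ((mul_eq_zero.mp this).resolve_right hd)).resolve_left two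
  refine ⟨e1, e2, ?_⟩
  rintro rfl
  have : c * (x ^ 2 * b1 ^ 2) = 0 := by
    rw [e1, e2] at h3
    linear_combination -h3
  exact mul_ne_zero hc (mul_ne_zero (pow_ne_zero _ hx) (pow_ne_zero _ hb1)) this

/-- the Taylor coefficients at `x0` -/
theorem amO9_coeffs {h : ℕ} (hh : 2 ≤ h) {w : k} {g f : k[X]}
    {l p q : HeightOneSpectrum (𝓞 k)} {x0 : ℤ} (H : CondO k h w g f l p q x0) :
    ((taylor (x0 : k) f).coeff 0 ≠ 0 ∧ ord q ((taylor (x0 : k) f).coeff 0) = 1) ∧
    Ge q 1 ((taylor (x0 : k) f).coeff 1) ∧ Ge q 1 ((taylor (x0 : k) f).coeff 2) ∧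
    ((taylor (x0 : k) f).coeff 3 ≠ 0 ∧ ord q ((taylor (x0 : k) f).coeff 3) = 0) := by
  have hx0 : Ge q 0 (x0 : k) := ge_int q x0
  have hF : ∀ i, Ge q 0 (f.coeff i) := fun i => ge_of_isIntegral q (H.int i)
  have hgB : ∀ i, Ge q 0 ((gB h : k[X]).coeff i) := by
    intro i
    have e1 : (gB h : k[X]) = (X ^ (h - 2) * (X ^ 2 - C (muO h)) : ℤ[X]).map
        (Int.castRingHom k) := by
      simp [gB]
    rw [e1, coeff_map]
    exact ge_int q _
  have hg : ∀ i, Ge q 0 (g.coeff i) := by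
    intro i
    have := ge_add q (ge_mono q zero_le_one (H.q_gclose i)) (hgB i)
    rwa [sub_add_cancel] at this
  have hFu : ∀ m : ℕ, 0 < m → m ≤ 2 * h + 1 → (m : amO9_F q) ≠ 0 :=
    fun m h0 hm => amO9_nat_ne q H.q_units h0 hm
  obtain ⟨c2, c3, c1, cm, ce, cd⟩ := amO9_consts (F := amO9_F q) hh hFu
  -- the constant term
  have hf0 : (taylor (x0 : k) f).coeff 0 ≠ 0 ∧ ord q ((taylor (x0 : k) f).coeff 0) = 1 := by
    have h1 := H.q_one
    rw [← amO9_fB_eval] at h1
    have h2 : (fB h w : k[X]).eval (x0 : k) ≠ 0 := by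
      intro h3
      rw [h3, ord_zero] at h1
      exact zero_ne_one h1
    have h3 := amO9_eval_close q H.q_close hx0
    have h4 := ord_add_eq q (y := f.eval (x0 : k) - (fB h w : k[X]).eval (x0 : k)) h2
      (by rw [h1]; exact h3)
    rw [add_sub_cancel, h1] at h4
    rw [taylor_coeff_zero]
    exact h4
  set r := amO9_r q with hr
  have hct : ∀ i, Ge q 0 ((taylor (x0 : k) f).coeff i) := amO9_taylor_ge q hF hx0
  have hgt : ∀ i, Ge q 0 ((taylor (x0 : k) g).coeff i) := amO9_taylor_ge q hg hx0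
  set A : ℕ → an17_sub q := fun i => ⟨(taylor (x0 : k) f).coeff i, hct i⟩ with hA
  set B : ℕ → an17_sub q := fun i => ⟨(taylor (x0 : k) g).coeff i, hgt i⟩ with hB
  set T : an17_sub q := ((x0 : ℤ) : an17_sub q) with hT
  have hTx : (r T) ^ 2 = ((muO h : ℤ) : amO9_F q) := by
    have h1 : Ge q 1 ((T ^ 2 - ((muO h : ℤ) : an17_sub q) : an17_sub q) : k) := by
      have := H.q_mu
      rw [hT]
      push_cast
      exact this
    have h2 := (amO9_r_eq_zero q).mpr h1
    rw [map_sub, map_pow, map_intCast] at h2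
    exact sub_eq_zero.mp h2
  have hx : r T ≠ 0 := by
    intro h1
    rw [h1, zero_pow two_ne_zero] at hTx
    exact cm hTx.symm
  have hd : (r T) ^ 2 - ((eO h : ℤ) : amO9_F q) ≠ 0 := by
    rw [hTx]
    exact cd
  obtain ⟨i1, i2, i3⟩ := amO9_ident (x0 : k) H.mem.ident
  have ha0 : r (A 0) = 0 := by
    rw [amO9_r_eq_zero]
    change Ge q 1 ((taylor (x0 : k) f).coeff 0)
    rw [ge_iff q hf0.1, hf0.2]
  have hb0 : r (B 0) = 0 := by
    have h1 := amO9_taylor_close q H.q_gclose hx0 0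
    rw [taylor_coeff_zero (x0 : k) (gB h), amO9_gB_eval] at h1
    have h2 : r (B 0 - T ^ (h - 2) * (T ^ 2 - ((muO h : ℤ) : an17_sub q))) = 0 := by
      rw [amO9_r_eq_zero]
      push_cast
      rw [hT]
      push_cast
      exact h1
    rw [map_sub, map_mul, map_sub, map_pow, map_pow, map_intCast r (muO h), hTx, sub_self,
      mul_zero, sub_zero] at h2
    exact h2
  have hb1 : r (B 1) ≠ 0 := by
    have h1 := amO9_taylor_close q H.q_gclose hx0 1
    rw [taylor_coeff_one (x0 : k) (gB h), amO9_gB_deriv] at h1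
    have h2 : r (B 1 - (((h - 2 : ℕ) : an17_sub q) * T ^ (h - 2 - 1) *
        (T ^ 2 - ((muO h : ℤ) : an17_sub q)) + 2 * (T ^ (h - 2) * T))) = 0 := by
      rw [amO9_r_eq_zero]
      rw [hT]
      push_cast
      exact h1
    rw [map_sub, map_add, map_mul, map_mul, map_sub, map_pow, map_pow, map_intCast r (muO h), hTx,
      sub_self, mul_zero, zero_add, map_mul, map_mul, map_pow, map_ofNat, sub_eq_zero] at h2
    rw [h2]
    exact mul_ne_zero c2 (mul_ne_zero (pow_ne_zero _ hx) hx)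
  have r2 : r 2 = 2 := map_ofNat r 2
  have r3 : r 3 = 3 := map_ofNat r 3
  have r4 : r 4 = 4 := map_ofNat r 4
  have key := amO9_alg (F := amO9_F q) (a0 := r (A 0)) (a1 := r (A 1)) (a2 := r (A 2))
    (a3 := r (A 3)) (b0 := r (B 0)) (b1 := r (B 1)) (b2 := r (B 2)) (x := r T)
    (e := ((eO h : ℤ) : amO9_F q)) (c := 2 * (h : amO9_F q) - 1) ?_ ?_ ?_ ha0 hb0 hd c1 hx hb1 c2
  · obtain ⟨k1, k2, k3⟩ := key
    refine ⟨hf0, (amO9_r_eq_zero q).mp k1, (amO9_r_eq_zero q).mp k2, ?_⟩
    refine amO9_unit_of_ge q (hct 3) fun h1 => k3 ((amO9_r_eq_zero q).mpr h1)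
  · have h1 : A 1 * (T ^ 2 - ((eO h : ℤ) : an17_sub q)) =
        2 * T * A 0 + (2 * (h : an17_sub q) - 1) * T ^ 2 * B 0 ^ 2 := by
      apply Subtype.ext
      rw [hT]
      push_cast
      exact i1
    simpa [r2, r3, r4] using congrArg r h1
  · have h1 : 2 * A 2 * (T ^ 2 - ((eO h : ℤ) : an17_sub q)) =
        2 * A 0 + (2 * (h : an17_sub q) - 1) * (2 * T ^ 2 * B 0 * B 1 + 2 * T * B 0 ^ 2) := by
      apply Subtype.ext
      rw [hT]
      push_cast
      exact i2
    simpa [r2, r3, r4] using congrArg r h1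
  · have h1 : 3 * A 3 * (T ^ 2 - ((eO h : ℤ) : an17_sub q)) + 2 * T * A 2 =
        A 1 + (2 * (h : an17_sub q) - 1) *
          (T ^ 2 * (2 * B 0 * B 2 + B 1 ^ 2) + 4 * T * B 0 * B 1 + B 0 ^ 2) := by
      apply Subtype.ext
      rw [hT]
      push_cast
      exact i3
    simpa [r2, r3, r4] using congrArg r h1

variable [IsGalois k L]

theorem three_cycleO {h : ℕ} (hh : 2 ≤ h) {w : k} {g f : k[X]} {l p q : HeightOneSpectrum (𝓞 k)}
    {x0 : ℤ} (H : CondO k h w g f l p q x0) (R : Roots k L (2 * h + 1) f)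
    (hgen : IntermediateField.adjoin k (Set.range R.θ) = ⊤) :
    ∃ σ : L ≃ₐ[k] L, (R.permHom σ).IsThreeCycle := by
  obtain ⟨⟨h0n, h0⟩, h1, h2, h3n, h3⟩ := amO9_coeffs hh H
  refine exists_three_cycle' R hgen q (x0 : k) (ge_int q x0)
    (fun i => ge_of_isIntegral q (H.int i)) ?_ h0n h0 h1 h2 h3n h3 ?_
  · rw [H.mem.monic.leadingCoeff, ord_one]
  · intro P hP i hne hord
    rw [map_intCast] at hne hord
    exact amO9_hsimple hh H P hP (R.eval_root i) hne hord

end Main

end Pool.Agent.H9.AM
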