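import Pool.Agent.H35.AN.Defs

/-!
# AM-O7: a primitivity criterion with a pair of exceptional points
-/

set_option autoImplicit false

namespace Pool.Agent.H9.AM

open Pool.Agent.H35.AN
open scoped Pointwise

/-- a stable set without a stable pair -/
theorem amO7_sdiff {n : ℕ} (D : Subgroup (Equiv.Perm (Fin n))) (r s : Fin n) (hrs : r ≠ s)
    (hpair : ∀ σ ∈ D, (σ r = r ∨ σ r = s) ∧ (σ s = r ∨ σ s = s)) (U : Finset (Fin n))
    (hU : ∀ σ ∈ D, ∀ x ∈ U, σ x ∈ U) :
    ∀ σ ∈ D, ∀ x ∈ (U.erase r).erase s, σ x ∈ (U.erase r).erase s := by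
  intro σ hσ x hx
  rw [Finset.mem_erase, Finset.mem_erase] at hx ⊢
  obtain ⟨hxs, hxr, hxU⟩ := hx
  -- the pair is permuted by `σ`
  have h1 := hpair σ hσ
  have hne : σ r ≠ σ s := fun h => hrs (σ.injective h)
  refine ⟨fun h => ?_, fun h => ?_, hU σ hσ x hxU⟩
  · rcases h1 with ⟨h2 | h2, h3 | h3⟩
    · exact hne (by rw [h2, h3])
    · exact hxs (σ.injective (by rw [h, h3]))
    · exact hxr (σ.injective (by rw [h, h2]))
    · exact hne (by rw [h2, h3])
  · rcases h1 with ⟨h2 | h2, h3 | h3⟩
    · exact hne (by rw [h2, h3])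
    · exact hxr (σ.injective (by rw [h, h2]))
    · exact hxs (σ.injective (by rw [h, h3]))
    · exact hne (by rw [h2, h3])

theorem isPreprimitive_of_pair {n : ℕ} (hodd : Odd n) (hn : 5 ≤ n)
    (G D : Subgroup (Equiv.Perm (Fin n))) (htr : MulAction.IsPretransitive G (Fin n))
    (hD : D ≤ G) (r s : Fin n) (hrs : r ≠ s)
    (hpair : ∀ σ ∈ D, (σ r = r ∨ σ r = s) ∧ (σ s = r ∨ σ s = s))
    (hor : ∀ S : Finset (Fin n), (∀ σ ∈ D, ∀ x ∈ S, σ x ∈ S) → r ∉ S → s ∉ S →
      (n - 2) ∣ S.card) :
    MulAction.IsPreprimitive G (Fin n) := by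
  classical
  refine MulAction.IsPreprimitive.of_isTrivialBlock_base r ?_
  intro B hrB hB
  have hrB' : r ∈ B.toFinset := Set.mem_toFinset.mpr hrB
  have hbn : B.toFinset.card ∣ n := by
    have h1 := hB.ncard_dvd_card ⟨r, hrB⟩
    rwa [Set.ncard_eq_toFinset_card', Nat.card_eq_fintype_card, Fintype.card_fin] at h1
  have hbodd : Odd B.toFinset.card := hodd.of_dvd_nat hbn
  -- it suffices to show that the block has one element or all elements
  suffices hmain : B.toFinset.card = 1 ∨ B.toFinset.card = n by
    rcases hmain with h | h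
    · left
      obtain ⟨a, ha⟩ := Finset.card_eq_one.mp h
      intro x hx y hy
      have hx' : x ∈ B.toFinset := Set.mem_toFinset.mpr hx
      have hy' : y ∈ B.toFinset := Set.mem_toFinset.mpr hy
      rw [ha, Finset.mem_singleton] at hx' hy'
      rw [hx', hy']
    · right
      have h1 : B.toFinset.card = Fintype.card (Fin n) := by rw [h, Fintype.card_fin]
      have h2 := (Finset.card_eq_iff_eq_univ _).mp h1
      ext x
      constructor
      · intro _
        trivial
      · intro _
        rw [← Set.mem_toFinset, h2]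
        exact Finset.mem_univ x
  -- elements of `D` that fix `r` preserve `B`
  have hfix : ∀ g : G, g • r = r → g • B = B := by
    intro g hg
    apply hB.smul_eq_of_mem hrB
    rw [hg]
    exact hrB
  -- the size of the complement of the pair in a stable set
  have hkey : ∀ U : Finset (Fin n), (∀ σ ∈ D, ∀ x ∈ U, σ x ∈ U) →
      ((U.erase r).erase s).card = 0 ∨ ((U.erase r).erase s).card = n - 2 := by
    intro U hU
    have h1 := hor ((U.erase r).erase s) (amO7_sdiff D r s hrs hpair U hU)
      (fun h => Finset.notMem_erase r U (Finset.mem_of_mem_erase h)) (Finset.notMem_erase s _)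
    have h2 : ((U.erase r).erase s).card ≤ n - 2 := by
      have h3 : ((U.erase r).erase s).card ≤ ((Finset.univ.erase r).erase s).card :=
        Finset.card_le_card (Finset.erase_subset_erase _ (Finset.erase_subset_erase _
          (Finset.subset_univ U)))
      rw [Finset.card_erase_of_mem (Finset.mem_erase.mpr ⟨hrs.symm, Finset.mem_univ s⟩),
        Finset.card_erase_of_mem (Finset.mem_univ r), Finset.card_univ, Fintype.card_fin] at h3
      omega
    rcases Nat.eq_zero_or_pos ((U.erase r).erase s).card with h3 | h3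
    · exact Or.inl h3
    · exact Or.inr (le_antisymm h2 (Nat.le_of_dvd h3 h1))
  by_cases hall : ∀ σ ∈ D, σ r = r
  · -- `B` itself is stable
    have hst : ∀ σ ∈ D, ∀ x ∈ B.toFinset, σ x ∈ B.toFinset := by
      intro σ hσ x hx
      rw [Set.mem_toFinset] at hx ⊢
      have h2 : (⟨σ, hD hσ⟩ : G) • B = B := hfix _ (hall σ hσ)
      have h3 : (⟨σ, hD hσ⟩ : G) • x ∈ (⟨σ, hD hσ⟩ : G) • B := Set.smul_mem_smul_set hx
      rw [h2] at h3
      exact h3
    have h1 := hkey _ hst
    have h2 := Finset.card_erase_add_one hrB'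
    have h3 : (B.toFinset.erase r).card ≤ ((B.toFinset.erase r).erase s).card + 1 :=
      by
      have := Finset.pred_card_le_card_erase (s := B.toFinset.erase r) (a := s)
      omega
    have h4 : ((B.toFinset.erase r).erase s).card ≤ (B.toFinset.erase r).card :=
      Finset.card_erase_le
    rcases h1 with h5 | h5
    · left
      obtain ⟨j, hj⟩ := hbodd
      omega
    · right
      have h6 : B.toFinset.card ≤ n := Nat.le_of_dvd (by omega) hbn
      obtain ⟨c, hc⟩ := hbn
      have h7 : c = 1 := by
        have h8 : n - 1 ≤ B.toFinset.card := by omega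
        rcases Nat.lt_or_ge c 2 with h9 | h9
        · interval_cases c
          · omega
          · rfl
        · exfalso
          have : B.toFinset.card * 2 ≤ B.toFinset.card * c := Nat.mul_le_mul_left _ h9
          omega
      rw [h7, mul_one] at hc
      exact hc.symm
  · push Not at hall
    obtain ⟨τ, hτ, hτr⟩ := hall
    have hτs : τ r = s := (hpair τ hτ).1.resolve_left hτr
    set g0 : G := ⟨τ, hD hτ⟩ with hg0
    have hg0r : g0 • r = s := hτs
    have hsC : s ∈ g0 • B := by
      rw [← hg0r]
      exact Set.smul_mem_smul_set hrB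
    -- every element of `D` maps `B` to `B` or to `g0 B`
    have htwo : ∀ σ (hσ : σ ∈ D), (⟨σ, hD hσ⟩ : G) • B = B ∨ (⟨σ, hD hσ⟩ : G) • B = g0 • B := by
      intro σ hσ
      rcases (hpair σ hσ).1 with h | h
      · exact Or.inl (hfix _ h)
      · right
        have h1 : (g0⁻¹ * (⟨σ, hD hσ⟩ : G)) • r = r := by
          rw [mul_smul]
          have h2 : (⟨σ, hD hσ⟩ : G) • r = s := h
          rw [h2, ← hg0r, inv_smul_smul]
        have h3 := hfix _ h1
        rw [mul_smul, inv_smul_eq_iff] at h3
        exact h3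
    set U : Finset (Fin n) := B.toFinset ∪ (g0 • B).toFinset with hUdef
    have hU : ∀ σ ∈ D, ∀ x ∈ U, σ x ∈ U := by
      intro σ hσ x hx
      rw [hUdef, Finset.mem_union, Set.mem_toFinset, Set.mem_toFinset] at hx ⊢
      rcases hx with hx | hx
      · have h3 : (⟨σ, hD hσ⟩ : G) • x ∈ (⟨σ, hD hσ⟩ : G) • B := Set.smul_mem_smul_set hx
        rcases htwo σ hσ with h | h
        · rw [h] at h3
          exact Or.inl h3
        · rw [h] at h3
          exact Or.inr h3
      · have h3 : (⟨σ, hD hσ⟩ : G) • x ∈ (⟨σ, hD hσ⟩ : G) • (g0 • B) := Set.smul_mem_smul_set hx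
        have h4 : (⟨σ, hD hσ⟩ : G) • (g0 • B) = (⟨σ * τ, hD (D.mul_mem hσ hτ)⟩ : G) • B := by
          rw [← mul_smul]
          rfl
        rw [h4] at h3
        rcases htwo (σ * τ) (D.mul_mem hσ hτ) with h | h
        · rw [h] at h3
          exact Or.inl h3
        · rw [h] at h3
          exact Or.inr h3
    have h1 := hkey U hU
    have hrU : r ∈ U := Finset.mem_union_left _ hrB'
    have hsU : s ∈ U.erase r :=
      Finset.mem_erase.mpr ⟨hrs.symm, Finset.mem_union_right _ (Set.mem_toFinset.mpr hsC)⟩
    have h2 := Finset.card_erase_add_one hrU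
    have h3 := Finset.card_erase_add_one hsU
    have hcard : (g0 • B).toFinset.card = B.toFinset.card := by
      rw [← Set.ncard_eq_toFinset_card', ← Set.ncard_eq_toFinset_card', Set.ncard_smul_set]
    rcases hB.smul_eq_or_disjoint g0 with h | h
    · -- the two translates agree
      have h4 : U = B.toFinset := by
        rw [hUdef]
        ext x
        simp [h]
      rw [h4] at h1 h2 h3
      obtain ⟨j, hj⟩ := hbodd
      rcases h1 with h5 | h5
      · omega
      · right
        omega
    · have h4 : U.card = B.toFinset.card + B.toFinset.card := by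
        rw [hUdef, Finset.card_union_of_disjoint (Set.disjoint_toFinset.mpr h.symm), hcard]
      obtain ⟨j, hj⟩ := hodd
      rcases h1 with h5 | h5
      · left
        omega
      · exfalso
        omega

end Pool.Agent.H9.AM
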