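import Pool.Agent.H9.AM.Eisen
import Pool.Agent.H9.AM.OddPair
import Pool.Agent.H9.AM.Pair
import Pool.Agent.H9.AM.OddSq
import Pool.Agent.H9.AM.OddTri
import Pool.Agent.H35.AN.Gal1

/-!
# Project AN2 = AM, AM-O10: the Galois group of the odd family
-/

set_option autoImplicit false

open Polynomial IsDedekindDomain NumberField

namespace Pool.Agent.H9.AM

open Pool.Agent.H35.AN

section Gal

variable {k L : Type} [Field k] [NumberField k] [Field L] [NumberField L] [Algebra k L]
  [IsGalois k L]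

omit [IsGalois k L] in
/-- the valuations of the roots at `l` -/
theorem amO10_l {h : ℕ} (hh : 2 ≤ h) {w : k} {g f : k[X]} {l p q : HeightOneSpectrum (𝓞 k)}
    {x0 : ℤ} (H : CondO k h w g f l p q x0) (R : Roots k L (2 * h + 1) f)
    (P : HeightOneSpectrum (𝓞 L)) (hP : below k P = l) (i : Fin (2 * h + 1)) :
    R.θ i ≠ 0 ∧ (2 * (h : ℤ) + 1) * ord P (R.θ i) = erel k P := by
  obtain ⟨h0, hj⟩ := H.eisen hh
  have h1 := ord_eisenstein (k := k) (K := L) H.mem.monic H.mem.deg (by omega) P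
    (by rw [hP]; exact h0) (by rw [hP]; exact hj) (x := R.θ i) (by
      rw [← eval_map_algebraMap]
      exact R.eval_root i)
  refine ⟨h1.1, ?_⟩
  rw [← h1.2]
  push_cast
  ring

/-- The Galois group. -/
theorem galO {h : ℕ} (hh : 2 ≤ h) {w : k} {g f : k[X]} {l p q : HeightOneSpectrum (𝓞 k)}
    {x0 : ℤ} (H : CondO k h w g f l p q x0) (R : Roots k L (2 * h + 1) f)
    (hgen : IntermediateField.adjoin k (Set.range R.θ) = ⊤) :
    R.permHom.range = alternatingGroup (Fin (2 * h + 1)) := by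
  -- transitivity
  have htr : MulAction.IsPretransitive R.permHom.range (Fin (2 * h + 1)) := by
    obtain ⟨P, hP⟩ := exists_above L l
    obtain ⟨D, -, hD2⟩ := an18_orbit R P
    have he : (0 : ℤ) < erel k P := by exact_mod_cast erel_pos P
    have hs := amO10_l hh H R P hP
    refine isPretransitive_of_dvd (by omega) _ fun S hS => ?_
    rcases S.eq_empty_or_nonempty with rfl | ⟨i0, hi0⟩
    · simp
    refine an18_dvd (m := 2 * (h : ℤ) + 1) (s := 1) (by push_cast; ring) he.ne'
      isCoprime_one_left (t := ord P (R.θ i0)) (by rw [(hs i0).2, mul_one])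
      (hD2 S (fun σ _ x hx => hS _ ⟨σ, rfl⟩ x hx) (fun i _ => (hs i).1) (ord P (R.θ i0)) ?_)
    intro x _
    have h1 := (hs x).2
    rw [← (hs i0).2] at h1
    exact mul_left_cancel₀ (by positivity) h1
  -- primitivity
  have hpr : MulAction.IsPreprimitive R.permHom.range (Fin (2 * h + 1)) := by
    obtain ⟨P, hP⟩ := exists_above L p
    obtain ⟨D, hD, hD2⟩ := an18_orbit R P
    have he : (0 : ℤ) < erel k P := by exact_mod_cast erel_pos P
    obtain ⟨r, s, hrs, hr0, hs0, hi⟩ := pairO hh H R P hP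
    have hne : ∀ i, ord P (R.θ i) = 0 → i = r ∨ i = s := by
      intro i h0
      by_contra hc
      rw [not_or] at hc
      have h1 := (hi i hc.1 hc.2).2
      rw [h0, mul_zero] at h1
      omega
    refine isPreprimitive_of_pair ⟨h, rfl⟩ (by omega) R.permHom.range (D.map R.permHom) htr ?_
      r s hrs ?_ ?_
    · rintro _ ⟨σ, -, rfl⟩
      exact ⟨σ, rfl⟩
    · rintro _ ⟨σ, hσ, rfl⟩
      refine ⟨hne _ ?_, hne _ ?_⟩
      · rw [← R.permHom_spec, hD σ hσ, hr0]
      · rw [← R.permHom_spec, hD σ hσ, hs0]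
    · intro S hS hrS hsS
      rcases S.eq_empty_or_nonempty with rfl | ⟨i0, hi0⟩
      · simp
      have hmem : ∀ i ∈ S, i ≠ r ∧ i ≠ s := fun i hi' =>
        ⟨fun h' => hrS (h' ▸ hi'), fun h' => hsS (h' ▸ hi')⟩
      have hh1 : (0 : ℤ) < 2 * (h : ℤ) - 1 := by omega
      refine an18_dvd (m := 2 * (h : ℤ) - 1) (s := 1) (by omega) he.ne'
        isCoprime_one_left (t := ord P (R.θ i0))
        (by rw [(hi i0 (hmem i0 hi0).1 (hmem i0 hi0).2).2, mul_one])
        (hD2 S (fun σ hσ x hx => hS _ ⟨σ, hσ, rfl⟩ x hx) ?_ _ ?_)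
      · intro i hi'
        exact (hi i (hmem i hi').1 (hmem i hi').2).1
      · intro i hi'
        have h1 := (hi i (hmem i hi').1 (hmem i hi').2).2
        rw [← (hi i0 (hmem i0 hi0).1 (hmem i0 hi0).2).2] at h1
        exact mul_left_cancel₀ hh1.ne' h1
  -- no root is a square root of `e`
  have hne : ∀ i, (R.θ i) ^ 2 ≠ (eO h : L) := by
    intro i hc
    obtain ⟨P, hP⟩ := exists_above L l
    have he : (0 : ℤ) < erel k P := by exact_mod_cast erel_pos P
    have h1 := (amO10_l hh H R P hP i).2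
    have h2 : ord P ((R.θ i) ^ 2) = 0 := by
      rw [hc, show (eO h : L) = algebraMap k L (eO h : k) by rw [map_intCast], ord_algebraMap P,
        hP, H.l_e, mul_zero]
    rw [ord_pow] at h2
    have h3 : ord P (R.θ i) = 0 := by
      push_cast at h2
      omega
    rw [h3, mul_zero] at h1
    omega
  obtain ⟨σ, hσ⟩ := three_cycleO hh H R hgen
  obtain ⟨d, hd⟩ := disc_sqO hh H.mem R hne
  exact eq_alternating _ hpr ⟨_, ⟨σ, rfl⟩, hσ⟩ (even_of_sq R d hd)

end Gal

end Pool.Agent.H9.AM
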