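import Pool.Agent.H9.AM.DefsOdd
import Pool.Agent.H9.AM.EvParam

/-!
# Project AN2 (MP_a3214d), row AM-O15: the choice of the parameters, odd family
-/

set_option autoImplicit false
set_option maxHeartbeats 400000

open Polynomial IsDedekindDomain NumberField

namespace Pool.Agent.H9.AM

open Pool.Agent.H35.AN

/-- the prime with a triple root: the integer `x0`, and the class of `w` -/
theorem amO15_q (k : Type) [Field k] [NumberField k] {h : ℕ} (hh : 2 ≤ h) (N : ℕ)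
    (hN : 2 * h + 1 ≤ N) :
    ∃ (q : HeightOneSpectrum (𝓞 k)) (r : ℕ) (x0 : ℤ) (y0 : 𝓞 k), r.Prime ∧ N < r ∧
      (r : 𝓞 k) ∈ q.asIdeal ∧ Ge q 1 ((x0 : k) ^ 2 - (muO h : k)) ∧
      ∀ y : 𝓞 k, y - y0 ∈ q.asIdeal ^ 2 → y ≠ 0 ∧ ord q (y : k) = 0 ∧
        ord q ((x0 : k) ^ (2 * h - 1) * ((x0 : k) ^ 2 - (alO h : k)) -
          (y : k) * ((x0 : k) ^ 2 - (eO h : k))) = 1 := by
  have hh' : (2 : ℤ) ≤ h := by exact_mod_cast hh
  have hmO : mO h ≠ 0 := mul_ne_zero (pow_ne_zero _ (by norm_num)) (by omega)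
  have hmu : muO h ≠ 0 := by
    rw [muO]
    exact mul_ne_zero (mul_ne_zero (by omega) (by omega)) hmO
  set c : ℕ := N.factorial with hc
  have hc6 : 6 ≤ c := by
    have h1 : (3).factorial ≤ N.factorial := Nat.factorial_le (by omega)
    exact h1
  set m : ℤ := muO h * (c : ℤ) ^ 2 - 1 with hm
  have hmne : m.natAbs ≠ 1 := by
    intro h0
    have h1 : m = 1 ∨ m = -1 := Int.natAbs_eq_iff.mp (by simpa using h0)
    have h2 : (36 : ℤ) ≤ (c : ℤ) ^ 2 := by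
      have : (6 : ℤ) ≤ c := by exact_mod_cast hc6
      nlinarith
    rcases lt_or_gt_of_ne hmu with h3 | h3
    · have h4 : muO h * (c : ℤ) ^ 2 ≤ -36 := by nlinarith
      omega
    · have h4 : 36 ≤ muO h * (c : ℤ) ^ 2 := by nlinarith
      omega
  obtain ⟨r, hr, hrm⟩ := Nat.exists_prime_and_dvd hmne
  have hrm' : (r : ℤ) ∣ m := Int.natCast_dvd.mpr hrm
  have hrZ : Prime (r : ℤ) := Int.prime_iff_natAbs_prime.mpr (by simpa using hr)
  have hrdc : ¬ (r : ℤ) ∣ muO h * c := by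
    intro h0
    have h1 : (r : ℤ) ∣ 1 := by
      have h2 : (1 : ℤ) = muO h * c * c - m := by rw [hm]; ring
      rw [h2]
      exact dvd_sub (Dvd.dvd.mul_right h0 _) hrm'
    have h2 := Int.natCast_dvd.mp h1
    exact hr.one_lt.ne' (Nat.dvd_one.mp (by simpa using h2))
  have hrN : N < r := by
    by_contra hcon
    push Not at hcon
    apply hrdc
    refine Dvd.dvd.mul_left ?_ _
    exact_mod_cast (hr.dvd_factorial.mpr hcon)
  have hrmu : ¬ (r : ℤ) ∣ muO h := fun h0 => hrdc (Dvd.dvd.mul_right h0 _)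
  have hrmO : ¬ (r : ℤ) ∣ mO h := fun h0 => hrmu (by rw [muO]; exact Dvd.dvd.mul_left h0 _)
  have hr4 : ¬ (r : ℤ) ∣ 4 := fun h0 => by
    have := Int.le_of_dvd (by norm_num) h0
    omega
  -- the integers
  set x0 : ℤ := muO h * c with hx0
  have hsq : (r : ℤ) ∣ x0 ^ 2 - muO h := by
    have h1 : x0 ^ 2 - muO h = muO h * m := by rw [hx0, hm]; ring
    rw [h1]
    exact Dvd.dvd.mul_left hrm' _
  set A : ℤ := x0 ^ (2 * h - 1) * (x0 ^ 2 - alO h) with hA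
  set B : ℤ := x0 ^ 2 - eO h with hB
  have hrB : ¬ (r : ℤ) ∣ B := by
    intro h0
    have h1 : (r : ℤ) ∣ 4 * ((2 * h - 3) * mO h) := by
      have h2 : (4 : ℤ) * ((2 * h - 3) * mO h) = B - (x0 ^ 2 - muO h) := by
        rw [hB, muO, eO]; ring
      rw [h2]
      exact dvd_sub h0 hsq
    rcases hrZ.dvd_or_dvd h1 with h2 | h2
    · exact hr4 h2
    · rcases hrZ.dvd_or_dvd h2 with h3 | h3
      · have := Int.le_of_dvd (by omega) h3
        omega
      · exact hrmO h3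
  have hrA : ¬ (r : ℤ) ∣ A := by
    intro h0
    rcases hrZ.dvd_or_dvd h0 with h1 | h1
    · exact hrdc (hrZ.dvd_of_dvd_pow h1)
    · have h2 : (r : ℤ) ∣ 4 * ((2 * h + 1) * mO h) := by
        have h3 : (4 : ℤ) * ((2 * h + 1) * mO h) = (x0 ^ 2 - muO h) - (x0 ^ 2 - alO h) := by
          rw [muO, alO]; ring
        rw [h3]
        exact dvd_sub hsq h1
      rcases hrZ.dvd_or_dvd h2 with h3 | h3
      · exact hr4 h3
      · rcases hrZ.dvd_or_dvd h3 with h4 | h4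
        · have := Int.le_of_dvd (by omega) h4
          omega
        · exact hrmO h4
  -- the inverse of `B` modulo `r²`
  have hcop : IsCoprime B ((r : ℤ) ^ 2) :=
    ((hrZ.coprime_iff_not_dvd.mpr hrB).symm).pow_right
  obtain ⟨B', v, hBv⟩ := hcop
  have hrB' : ¬ (r : ℤ) ∣ B' := by
    intro h0
    have h1 : (r : ℤ) ∣ 1 := by
      rw [← hBv]
      exact dvd_add (Dvd.dvd.mul_right h0 _) (Dvd.dvd.mul_left (dvd_pow_self _ (by norm_num)) _)
    have h2 := Int.natCast_dvd.mp h1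
    exact hr.one_lt.ne' (Nat.dvd_one.mp (by simpa using h2))
  obtain ⟨q, hq⟩ := exists_prime_over k hr
  obtain ⟨t, ht1, ht2⟩ := ame8_exists q 1
  rw [pow_one] at ht1
  have hle : q.asIdeal ^ 2 ≤ q.asIdeal := Ideal.pow_le_self (by norm_num)
  have hr2 : (r : 𝓞 k) ^ 2 ∈ q.asIdeal ^ 2 := Ideal.pow_mem_pow hq 2
  refine ⟨q, r, x0, (B' : 𝓞 k) * ((A : 𝓞 k) - t), hr, hrN, hq, ?_, fun y hy => ?_⟩
  · have h1 : (((x0 ^ 2 - muO h : ℤ)) : 𝓞 k) ∈ q.asIdeal := by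
      obtain ⟨e, he⟩ := hsq
      rw [he]
      push_cast
      exact q.asIdeal.mul_mem_right _ hq
    have h2 := (mem_iff_ge_one q _).mp h1
    have h3 : (((((x0 ^ 2 - muO h : ℤ)) : 𝓞 k)) : k) = (x0 : k) ^ 2 - (muO h : k) := by
      simp
    rwa [h3] at h2
  · have hAt : (A : 𝓞 k) - t ∉ q.asIdeal := by
      intro h0
      apply an25_int_notMem q hr hq hrA
      have h1 := q.asIdeal.add_mem h0 ht1
      rwa [sub_add_cancel] at h1
    have hy0 : (B' : 𝓞 k) * ((A : 𝓞 k) - t) ∉ q.asIdeal := by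
      intro h0
      rcases q.isPrime.mem_or_mem h0 with h1 | h1
      · exact an25_int_notMem q hr hq hrB' h1
      · exact hAt h1
    have hyq : y ∉ q.asIdeal := by
      intro h0
      apply hy0
      have h1 := q.asIdeal.sub_mem h0 (hle hy)
      rwa [sub_sub_cancel] at h1
    have hord := an25_ord_zero q hyq
    refine ⟨hord.1, hord.2, ?_⟩
    -- `A - y B ≡ t`
    have hcong : ((A : 𝓞 k) - y * (B : 𝓞 k)) - t ∈ q.asIdeal ^ 2 := by
      have h1 : ((A : 𝓞 k) - y * (B : 𝓞 k)) - t =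
          -(B : 𝓞 k) * (y - (B' : 𝓞 k) * ((A : 𝓞 k) - t)) +
            ((v : 𝓞 k) * ((A : 𝓞 k) - t)) * (r : 𝓞 k) ^ 2 := by
        have h2 := congrArg (Int.cast : ℤ → 𝓞 k) hBv
        push_cast at h2
        linear_combination (-((A : 𝓞 k) - t)) * h2
      rw [h1]
      exact (q.asIdeal ^ 2).add_mem ((q.asIdeal ^ 2).mul_mem_left _ hy)
        ((q.asIdeal ^ 2).mul_mem_left _ hr2)
    have h1 := ame8_exact q (n := 1) (e := 2) (by norm_num) (by simpa using ht1) ht2 hcong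
    have h2 : ((((A : 𝓞 k) - y * (B : 𝓞 k)) : 𝓞 k) : k) =
        (x0 : k) ^ (2 * h - 1) * ((x0 : k) ^ 2 - (alO h : k)) -
          (y : k) * ((x0 : k) ^ 2 - (eO h : k)) := by
      rw [hA, hB]
      push_cast
      simp
    rw [← h2, h1.2]
    norm_num

theorem exists_paramO (k : Type) [Field k] [NumberField k] {h : ℕ} (hh : 2 ≤ h) (Y : ℕ) :
    ∃ (N : ℕ) (l p q : HeightOneSpectrum (𝓞 k)) (η : 𝓞 k) (x0 : ℤ), 0 < N ∧
      (∀ r : ℕ, r.Prime → r ≤ Y → r ∣ N) ∧ (∀ r : ℕ, r.Prime → r ≤ 2 * h + 1 → r ∣ N) ∧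
      (N : 𝓞 k) ∈ l.asIdeal ^ 2 ∧ (N : 𝓞 k) ∈ p.asIdeal ^ 2 ∧ (N : 𝓞 k) ∈ q.asIdeal ^ 2 ∧
      η ≠ 0 ∧ FixedAt N η ∧ Ge l 1 ((2 * h + 1 : ℕ) : k) ∧ ord l (eO h : k) = 0 ∧
      UnitsUpTo p (2 * h + 1) ∧ UnitsUpTo q (2 * h + 1) ∧
      Ge q 1 ((x0 : k) ^ 2 - (muO h : k)) ∧
      ∀ y : 𝓞 k, (N : 𝓞 k) ∣ y - η →
        ord l (y : k) = 1 ∧ ord p (y : k) = 1 ∧ ord q (y : k) = 0 ∧
        ord q ((x0 : k) ^ (2 * h - 1) * ((x0 : k) ^ 2 - (alO h : k)) -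
          (y : k) * ((x0 : k) ^ 2 - (eO h : k))) = 1 := by
  classical
  -- the prime `l`
  obtain ⟨l0, hl0, hl0h⟩ := Nat.exists_prime_and_dvd (n := 2 * h + 1) (by omega)
  obtain ⟨l, hl⟩ := exists_prime_over k hl0
  have hl0le : l0 ≤ 2 * h + 1 := Nat.le_of_dvd (by omega) hl0h
  have hl0Z : Prime (l0 : ℤ) := Int.prime_iff_natAbs_prime.mpr (by simpa using hl0)
  have hl0h' : (l0 : ℤ) ∣ 2 * h + 1 := by exact_mod_cast hl0h
  have hl02 : ¬ (l0 : ℤ) ∣ 2 := by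
    intro h0
    have h1 : l0 ∣ 2 := by exact_mod_cast h0
    have h2 := (Nat.prime_dvd_prime_iff_eq hl0 Nat.prime_two).mp h1
    rw [h2] at hl0h
    omega
  have hle : ¬ (l0 : ℤ) ∣ eO h := by
    intro h0
    rw [eO] at h0
    rcases hl0Z.dvd_or_dvd h0 with h1 | h1
    · have h2 := hl0Z.dvd_of_dvd_pow h1
      have h3 : (l0 : ℤ) ∣ 2 * 2 := by
        have h4 : (2 : ℤ) * 2 = (2 * h + 1) - (2 * h - 3) := by ring
        rw [h4]
        exact dvd_sub hl0h' h2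
      rcases hl0Z.dvd_or_dvd h3 with h4 | h4 <;> exact hl02 h4
    · rw [mO] at h1
      rcases hl0Z.dvd_or_dvd h1 with h2 | h2
      · have h3 := hl0Z.dvd_of_dvd_pow h2
        exact hl02 (h3.trans (by norm_num))
      · have h4 : (2 : ℤ) = (2 * h + 1) - (2 * h - 1) := by ring
        apply hl02
        rw [h4]
        exact dvd_sub hl0h' h2
  have hle0 : ord l (eO h : k) = 0 := ord_int_unit l hl0 hl hle
  have hln : Ge l 1 ((2 * h + 1 : ℕ) : k) := by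
    have h1 : ((2 * h + 1 : ℕ) : 𝓞 k) ∈ l.asIdeal := by
      obtain ⟨z, hz⟩ := hl0h
      rw [hz, Nat.cast_mul]
      exact l.asIdeal.mul_mem_right _ hl
    have h2 := (mem_iff_ge_one l _).mp h1
    have h3 : ((((2 * h + 1 : ℕ) : 𝓞 k)) : k) = ((2 * h + 1 : ℕ) : k) :=
      map_natCast (algebraMap (𝓞 k) k) _
    rwa [h3] at h2
  -- the prime `q`
  obtain ⟨q, r, x0, y0, hr, hrN, hrq, hx0, hq⟩ := amO15_q k hh (2 * h + 1 + Y) (by omega)
  -- the prime `p`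
  obtain ⟨s, hsN, hs⟩ := Nat.exists_infinite_primes (r + 1)
  obtain ⟨p, hp⟩ := exists_prime_over k hs
  have hlq : l ≠ q := ame8_ne hr hl0.pos (by omega) hl hrq
  have hlp : l ≠ p := ame8_ne hs hl0.pos (by omega) hl hp
  have hqp : q ≠ p := ame8_ne hs hr.pos (by omega) hrq hp
  set m : ℕ := r * s * (2 * h + 1 + Y).factorial with hm
  have hmpos : 0 < m := Nat.mul_pos (Nat.mul_pos hr.pos hs.pos) (Nat.factorial_pos _)
  have hfm : (2 * h + 1 + Y).factorial ∣ m := Dvd.intro_left _ rfl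
  have hmem : ∀ (v : HeightOneSpectrum (𝓞 k)) (a c : ℕ), a ∣ c → (a : 𝓞 k) ∈ v.asIdeal →
      (c : 𝓞 k) ∈ v.asIdeal := by
    intro v a c hac ha
    obtain ⟨z, hz⟩ := hac
    rw [hz, Nat.cast_mul]
    exact v.asIdeal.mul_mem_right _ ha
  have hml : (m : 𝓞 k) ∈ l.asIdeal :=
    hmem l l0 m ((hl0.dvd_factorial.mpr (by omega)).trans hfm) hl
  have hmq : (m : 𝓞 k) ∈ q.asIdeal :=
    hmem q r m (Dvd.dvd.mul_right (Dvd.intro _ rfl) _) hrq
  have hmp : (m : 𝓞 k) ∈ p.asIdeal :=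
    hmem p s m (Dvd.dvd.mul_right (Dvd.intro_left _ rfl) _) hp
  obtain ⟨tp, htp1, htp2⟩ := ame8_exists p 1
  obtain ⟨tl, htl1, htl2⟩ := ame8_exists l 1
  obtain ⟨η, hη⟩ := an25_crt k hmpos 2
    (fun v => if v = q then y0 else if v = p then tp else if v = l then tl else 1)
  have hM : ∀ v : HeightOneSpectrum (𝓞 k), (((m ^ 2 : ℕ)) : 𝓞 k) ∈ v.asIdeal →
      (m : 𝓞 k) ∈ v.asIdeal := by
    intro v hv
    rw [Nat.cast_pow] at hv
    exact v.isPrime.mem_of_pow_mem _ hv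
  have hM2 : ∀ v : HeightOneSpectrum (𝓞 k), (m : 𝓞 k) ∈ v.asIdeal →
      (((m ^ 2 : ℕ)) : 𝓞 k) ∈ v.asIdeal ^ 2 := by
    intro v hv
    rw [Nat.cast_pow]
    exact Ideal.pow_mem_pow hv 2
  have hyq : ∀ y : 𝓞 k, ((m ^ 2 : ℕ) : 𝓞 k) ∣ y - η → y - y0 ∈ q.asIdeal ^ 2 := by
    intro y hy
    have h1 := hη y hy q hmq
    rwa [if_pos rfl] at h1
  have hyp : ∀ y : 𝓞 k, ((m ^ 2 : ℕ) : 𝓞 k) ∣ y - η → y ≠ 0 ∧ ord p (y : k) = (1 : ℕ) := by
    intro y hy
    have h1 := hη y hy p hmp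
    rw [if_neg hqp.symm, if_pos rfl] at h1
    exact ame8_exact p (by omega) htp1 htp2 h1
  have hyl : ∀ y : 𝓞 k, ((m ^ 2 : ℕ) : 𝓞 k) ∣ y - η → y ≠ 0 ∧ ord l (y : k) = (1 : ℕ) := by
    intro y hy
    have h1 := hη y hy l hml
    rw [if_neg hlq, if_neg hlp, if_pos rfl] at h1
    exact ame8_exact l (by omega) htl1 htl2 h1
  have hyv : ∀ y : 𝓞 k, ((m ^ 2 : ℕ) : 𝓞 k) ∣ y - η → ∀ v : HeightOneSpectrum (𝓞 k),
      (m : 𝓞 k) ∈ v.asIdeal → y ≠ 0 ∧
        ord v (y : k) = if v = q then 0 else if v = p then 1 else if v = l then 1 else 0 := by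
    intro y hy v hv
    by_cases hvq : v = q
    · rw [if_pos hvq, hvq]
      exact ⟨(hq y (hyq y hy)).1, (hq y (hyq y hy)).2.1⟩
    · rw [if_neg hvq]
      by_cases hvp : v = p
      · rw [if_pos hvp, hvp]
        exact ⟨(hyp y hy).1, by rw [(hyp y hy).2]; norm_num⟩
      · rw [if_neg hvp]
        by_cases hvl : v = l
        · rw [if_pos hvl, hvl]
          exact ⟨(hyl y hy).1, by rw [(hyl y hy).2]; norm_num⟩
        · rw [if_neg hvl]
          have h1 := hη y hy v hv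
          rw [if_neg hvq, if_neg hvp, if_neg hvl] at h1
          exact ame8_one v (by norm_num) h1
  have hηself : ((m ^ 2 : ℕ) : 𝓞 k) ∣ η - η := by rw [sub_self]; exact dvd_zero _
  have hmM : m ∣ m ^ 2 := dvd_pow_self m (by omega)
  refine ⟨m ^ 2, l, p, q, η, x0, pow_pos hmpos _, fun t ht htY => ?_, fun t ht htY => ?_,
    hM2 l hml, hM2 p hmp, hM2 q hmq, (hyl η hηself).1, fun y hy v hv => ?_, hln, hle0,
    unitsUpTo_of_lt p hs hp (by omega), unitsUpTo_of_lt q hr hrq (by omega), hx0,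
    fun y hy => ⟨?_, ?_, ?_, ?_⟩⟩
  · exact ((ht.dvd_factorial.mpr (by omega)).trans hfm).trans hmM
  · exact ((ht.dvd_factorial.mpr (by omega)).trans hfm).trans hmM
  · have h1 := hyv y hy v (hM v hv)
    have h2 := hyv η hηself v (hM v hv)
    exact ⟨h1.1, h1.2.trans h2.2.symm⟩
  · rw [(hyl y hy).2]
    norm_num
  · rw [(hyp y hy).2]
    norm_num
  · exact (hq y (hyq y hy)).2.1
  · exact (hq y (hyq y hy)).2.2

end Pool.Agent.H9.AM
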