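import Pool.Agent.H9.AM.DefsOdd

/-!
# Project AN2 (MP_a3214d): AM-O12, every root has size `1` or `H`
-/

set_option autoImplicit false

open Polynomial IsDedekindDomain NumberField

namespace Pool.Agent.H9.AM

open Pool.Agent.H35.AN

theorem amO12_eO_ne {h : ℕ} (hh : 2 ≤ h) : eO h ≠ 0 := by
  unfold eO mO
  have h1 : (2 * (h : ℤ) - 3) ≠ 0 := by omega
  have h2 : (2 * (h : ℤ) - 1) ≠ 0 := by omega
  have h3 : ((-1 : ℤ)) ^ (h + 1) ≠ 0 := pow_ne_zero _ (by norm_num)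
  exact mul_ne_zero (pow_ne_zero _ h1) (mul_ne_zero h3 h2)

/-- the upper bound for a root -/
theorem amO12_upper {n : ℕ} (hn : 1 ≤ n) {B : ℝ} (hB : 1 ≤ B) {f : ℂ[X]} {H : ℝ} (hH : 1 ≤ H)
    (hf : f.Monic) (hd : f.natDegree = n) (hc : ∀ j, ‖f.coeff j‖ ≤ B * H ^ (n - j)) {x : ℂ}
    (hx : f.eval x = 0) : ‖x‖ ≤ n * B * H := by
  by_contra hcon
  push Not at hcon
  have hn1 : (1 : ℝ) ≤ n := by exact_mod_cast hn
  have hH0 : 0 < H := by linarith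
  have hxH : H ≤ ‖x‖ := by
    have : H ≤ n * B * H := by
      have h1 : (1 : ℝ) ≤ n * B := by nlinarith
      nlinarith
    linarith
  have hx0 : 0 < ‖x‖ := by linarith
  obtain ⟨m, rfl⟩ : ∃ m, n = m + 1 := ⟨n - 1, by omega⟩
  rw [Polynomial.eval_eq_sum_range, hd, Finset.sum_range_succ] at hx
  have hlead : f.coeff (m + 1) = 1 := by
    rw [← hd]; exact hf
  rw [hlead, one_mul] at hx
  have h1 : ‖x‖ ^ (m + 1) ≤ ∑ j ∈ Finset.range (m + 1), ‖f.coeff j * x ^ j‖ := by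
    have h2 : x ^ (m + 1) = -∑ j ∈ Finset.range (m + 1), f.coeff j * x ^ j := by
      linear_combination hx
    calc ‖x‖ ^ (m + 1) = ‖x ^ (m + 1)‖ := by rw [norm_pow]
      _ = ‖∑ j ∈ Finset.range (m + 1), f.coeff j * x ^ j‖ := by rw [h2, norm_neg]
      _ ≤ _ := norm_sum_le _ _
  have h3 : ∑ j ∈ Finset.range (m + 1), ‖f.coeff j * x ^ j‖ ≤
      ∑ _j ∈ Finset.range (m + 1), B * H * ‖x‖ ^ m := by
    refine Finset.sum_le_sum fun j hj => ?_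
    have hj' : j ≤ m := by
      have := Finset.mem_range.1 hj
      omega
    rw [norm_mul, norm_pow]
    have h4 : H ^ (m + 1 - j) = H * H ^ (m - j) := by
      rw [← pow_succ']
      congr 1
      omega
    have h5 : H ^ (m - j) ≤ ‖x‖ ^ (m - j) := pow_le_pow_left₀ hH0.le hxH _
    calc ‖f.coeff j‖ * ‖x‖ ^ j ≤ B * H ^ (m + 1 - j) * ‖x‖ ^ j :=
          mul_le_mul_of_nonneg_right (hc j) (by positivity)
      _ = B * H * H ^ (m - j) * ‖x‖ ^ j := by rw [h4]; ring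
      _ ≤ B * H * ‖x‖ ^ (m - j) * ‖x‖ ^ j := by gcongr
      _ = B * H * ‖x‖ ^ m := by
          rw [mul_assoc, ← pow_add]
          congr 2
          omega
  rw [Finset.sum_const, Finset.card_range, nsmul_eq_mul] at h3
  have h6 : ‖x‖ * ‖x‖ ^ m ≤ (((m + 1 : ℕ) : ℝ) * B * H) * ‖x‖ ^ m := by
    calc ‖x‖ * ‖x‖ ^ m = ‖x‖ ^ (m + 1) := (pow_succ' _ _).symm
      _ ≤ _ := h1.trans h3
      _ = (((m + 1 : ℕ) : ℝ) * B * H) * ‖x‖ ^ m := by ring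
  have h7 : ‖x‖ ≤ ((m + 1 : ℕ) : ℝ) * B * H := le_of_mul_le_mul_right h6 (by positivity)
  linarith

/-- the estimate of the equation for small roots -/
theorem amO12_small {m : ℕ} {B : ℝ} (hB : 1 ≤ B) {f : ℂ[X]} {w e : ℂ} {H : ℝ}
    (hH : 1 ≤ H) (hd : f.natDegree = m + 3) (h0 : f.coeff 0 = w * e) (h1 : f.coeff 1 = 0)
    (h2 : f.coeff 2 = -w) (hc : ∀ j, ‖f.coeff j‖ ≤ B * H ^ (m + 3 - j)) {x : ℂ}
    (hx : f.eval x = 0) (hxH : ‖x‖ ≤ H) :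
    ‖w‖ * ‖x ^ 2 - e‖ ≤ (m + 1 : ℕ) * B * H ^ m * ‖x‖ ^ 3 := by
  have hH0 : 0 < H := by linarith
  rw [Polynomial.eval_eq_sum_range, hd, show m + 3 + 1 = m + 1 + 3 by omega,
    Finset.sum_range_succ', Finset.sum_range_succ', Finset.sum_range_succ'] at hx
  simp only [Nat.reduceAdd, zero_add] at hx
  rw [h0, h2] at hx
  rw [h1] at hx
  have h3 : w * (x ^ 2 - e) = ∑ j ∈ Finset.range (m + 1), f.coeff (j + 1 + 1 + 1) * x ^ (j + 1 + 1 + 1) := by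
    linear_combination -hx
  calc ‖w‖ * ‖x ^ 2 - e‖ = ‖w * (x ^ 2 - e)‖ := (norm_mul _ _).symm
    _ = ‖∑ j ∈ Finset.range (m + 1), f.coeff (j + 1 + 1 + 1) * x ^ (j + 1 + 1 + 1)‖ := by rw [h3]
    _ ≤ ∑ j ∈ Finset.range (m + 1), ‖f.coeff (j + 1 + 1 + 1) * x ^ (j + 1 + 1 + 1)‖ :=
        norm_sum_le _ _
    _ ≤ ∑ _j ∈ Finset.range (m + 1), B * H ^ m * ‖x‖ ^ 3 := by
        refine Finset.sum_le_sum fun j hj => ?_
        have hj' : j ≤ m := by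
          have := Finset.mem_range.1 hj
          omega
        rw [norm_mul, norm_pow]
        have h5 : ‖x‖ ^ j ≤ H ^ j := pow_le_pow_left₀ (norm_nonneg _) hxH _
        calc ‖f.coeff (j + 1 + 1 + 1)‖ * ‖x‖ ^ (j + 1 + 1 + 1)
            ≤ B * H ^ (m + 3 - (j + 1 + 1 + 1)) * ‖x‖ ^ (j + 1 + 1 + 1) :=
              mul_le_mul_of_nonneg_right (hc _) (by positivity)
          _ = B * H ^ (m - j) * ‖x‖ ^ j * ‖x‖ ^ 3 := by
              rw [show m + 3 - (j + 1 + 1 + 1) = m - j by omega]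
              ring
          _ ≤ B * H ^ (m - j) * H ^ j * ‖x‖ ^ 3 := by gcongr
          _ = B * H ^ m * ‖x‖ ^ 3 := by
              rw [mul_assoc B, ← pow_add, show m - j + j = m by omega]
    _ = (m + 1 : ℕ) * B * H ^ m * ‖x‖ ^ 3 := by
        rw [Finset.sum_const, Finset.card_range, nsmul_eq_mul]
        ring

theorem roots_size {h : ℕ} (hh : 2 ≤ h) (B lam : ℝ) (hB : 1 ≤ B) (hlam : 1 ≤ lam) : ∃ mu : ℝ,
    1 ≤ mu ∧ ∀ (f : ℂ[X]) (w : ℂ) (H : ℝ), 1 ≤ H → f.Monic → f.natDegree = 2 * h + 1 →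
      f.coeff 0 = w * (eO h : ℂ) → f.coeff 1 = 0 → f.coeff 2 = -w →
      (∀ j, ‖f.coeff j‖ ≤ B * H ^ (2 * h + 1 - j)) → H ^ (2 * h - 1) ≤ lam * ‖w‖ →
      ∀ x : ℂ, f.eval x = 0 →
        (1 ≤ mu * ‖x‖ ∧ ‖x‖ ≤ mu) ∨ (H ≤ mu * ‖x‖ ∧ ‖x‖ ≤ mu * H) := by
  obtain ⟨E, hE⟩ : ∃ E : ℝ, E = ‖(eO h : ℂ)‖ := ⟨_, rfl⟩
  have hE1 : 1 ≤ E := by
    rw [hE, Complex.norm_intCast]
    exact_mod_cast Int.one_le_abs (amO12_eO_ne hh)
  obtain ⟨n, hn⟩ : ∃ n : ℝ, n = ((2 * h + 1 : ℕ) : ℝ) := ⟨_, rfl⟩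
  have hn1 : 1 ≤ n := by
    rw [hn]
    exact_mod_cast (by omega : 1 ≤ 2 * h + 1)
  have hnB : 1 ≤ n * B := by nlinarith
  have hnBl : 1 ≤ n * B * lam := by nlinarith
  have hnBl2 : n * B ≤ n * B * lam := by nlinarith
  refine ⟨2 * (n * B * lam) + 2 * E, by linarith, ?_⟩
  intro f w H hH hf hd h0 h1 h2 hc hw x hx
  have hH0 : 0 < H := by linarith
  have hup : ‖x‖ ≤ n * B * H := by
    rw [hn]
    exact amO12_upper (by omega) hB hH hf hd hc hx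
  rcases le_or_gt (2 * (n * B * lam) * ‖x‖) H with hs | hs
  · left
    have hx0 : 0 ≤ ‖x‖ := norm_nonneg x
    have hxH : ‖x‖ ≤ H := by
      have : ‖x‖ ≤ 2 * (n * B * lam) * ‖x‖ := by nlinarith
      linarith
    obtain ⟨m, rfl⟩ : ∃ m, h = m + 1 := ⟨h - 1, by omega⟩
    have key := amO12_small (m := 2 * m) hB hH (by rw [hd]; omega) h0 h1 h2
      (fun j => by
        have := hc j
        rwa [show 2 * (m + 1) + 1 = 2 * m + 3 by omega] at this) hx hxH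
    have hw' : H ^ (2 * m + 1) ≤ lam * ‖w‖ := by
      rwa [show 2 * (m + 1) - 1 = 2 * m + 1 by omega] at hw
    have hmn : ((2 * m + 1 : ℕ) : ℝ) ≤ n := by
      rw [hn]
      exact_mod_cast (by omega : 2 * m + 1 ≤ 2 * (m + 1) + 1)
    obtain ⟨D, hD⟩ : ∃ D : ℝ, D = ‖x ^ 2 - (eO (m + 1) : ℂ)‖ := ⟨_, rfl⟩
    have hD0 : 0 ≤ D := by rw [hD]; exact norm_nonneg _
    rw [← hD] at key
    -- D ≤ ‖x‖ ^ 2 / 2
    have hP : 0 < H ^ (2 * m) := by positivity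
    have h3 : H ^ (2 * m) * (H * D) ≤ H ^ (2 * m) * (n * B * lam * ‖x‖ ^ 3) := by
      calc H ^ (2 * m) * (H * D) = H ^ (2 * m + 1) * D := by ring
        _ ≤ (lam * ‖w‖) * D := mul_le_mul_of_nonneg_right hw' hD0
        _ = lam * (‖w‖ * D) := by ring
        _ ≤ lam * ((2 * m + 1 : ℕ) * B * H ^ (2 * m) * ‖x‖ ^ 3) :=
            mul_le_mul_of_nonneg_left key (by linarith)
        _ ≤ lam * (n * B * H ^ (2 * m) * ‖x‖ ^ 3) := by gcongr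
        _ = H ^ (2 * m) * (n * B * lam * ‖x‖ ^ 3) := by ring
    have h4 : H * D ≤ n * B * lam * ‖x‖ ^ 3 := le_of_mul_le_mul_left h3 hP
    have h5 : H * D ≤ H * (‖x‖ ^ 2 / 2) := by
      calc H * D ≤ n * B * lam * ‖x‖ ^ 3 := h4
        _ = (2 * (n * B * lam) * ‖x‖) * (‖x‖ ^ 2 / 2) := by ring
        _ ≤ H * (‖x‖ ^ 2 / 2) := mul_le_mul_of_nonneg_right hs (by positivity)
    have h6 : D ≤ ‖x‖ ^ 2 / 2 := le_of_mul_le_mul_left h5 hH0
    have h7 : ‖x‖ ^ 2 ≤ E + D := by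
      rw [hE, hD, ← norm_pow]
      calc ‖x ^ 2‖ = ‖(eO (m + 1) : ℂ) + (x ^ 2 - (eO (m + 1) : ℂ))‖ := by congr 1; ring
        _ ≤ _ := norm_add_le _ _
    have h8 : E ≤ ‖x‖ ^ 2 + D := by
      rw [hE, hD, ← norm_pow]
      calc ‖(eO (m + 1) : ℂ)‖ = ‖x ^ 2 - (x ^ 2 - (eO (m + 1) : ℂ))‖ := by congr 1; ring
        _ ≤ _ := norm_sub_le _ _
    constructor
    · have h9 : 1 ≤ 2 * ‖x‖ := by
        by_contra hcon
        push Not at hcon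
        nlinarith
      nlinarith
    · have h10 : ‖x‖ ≤ 2 * E := by
        by_contra hcon
        push Not at hcon
        nlinarith
      linarith
  · right
    constructor
    · have hx0 : 0 ≤ ‖x‖ := norm_nonneg x
      nlinarith
    · calc ‖x‖ ≤ n * B * H := hup
        _ ≤ (2 * (n * B * lam) + 2 * E) * H :=
            mul_le_mul_of_nonneg_right (by linarith) hH0.le

end Pool.Agent.H9.AM
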