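import Pool.Agent.H9.AM.OddIdent

/-!
# Project AN2 (MP_a3214d), row AM-O11: sizes of the coefficients, odd family
-/

set_option autoImplicit false

open Polynomial IsDedekindDomain NumberField

namespace Pool.Agent.H9.AM

open Pool.Agent.H35.AN

section Size

variable {k : Type*} [Field k] (φ : k →+* ℂ)

/-- degree at most `N` and the coefficient of `x^j` of size at most `A H^(N-j)` -/
def amO11_Sz (H A : ℝ) (N : ℕ) (P : k[X]) : Prop :=
  P.natDegree ≤ N ∧ ∀ j, j ≤ N → ‖φ (P.coeff j)‖ ≤ A * H ^ (N - j)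

variable {φ}

theorem amO11_mul {H A B : ℝ} {N L : ℕ} {P Q : k[X]} (hH : 0 ≤ H) (hA : 0 ≤ A) (hB : 0 ≤ B)
    (hP : amO11_Sz φ H A N P) (hQ : amO11_Sz φ H B L Q) :
    amO11_Sz φ H ((N + L + 1 : ℕ) * (A * B)) (N + L) (P * Q) := by
  refine ⟨natDegree_mul_le.trans (add_le_add hP.1 hQ.1), fun j hj => ?_⟩
  rw [coeff_mul, map_sum]
  refine (norm_sum_le _ _).trans ?_
  have hb : ∀ x ∈ Finset.HasAntidiagonal.antidiagonal j,
      ‖φ (P.coeff x.1 * Q.coeff x.2)‖ ≤ A * B * H ^ (N + L - j) := by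
    intro x hx
    rw [Finset.HasAntidiagonal.mem_antidiagonal] at hx
    rw [map_mul, norm_mul]
    by_cases h1 : x.1 ≤ N
    · by_cases h2 : x.2 ≤ L
      · refine (mul_le_mul (hP.2 _ h1) (hQ.2 _ h2) (norm_nonneg _)
          (mul_nonneg hA (pow_nonneg hH _))).trans (le_of_eq ?_)
        have h3 : N + L - j = (N - x.1) + (L - x.2) := by omega
        rw [h3, pow_add]
        ring
      · rw [coeff_eq_zero_of_natDegree_lt (lt_of_le_of_lt hQ.1 (not_le.mp h2)), map_zero,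
          norm_zero, mul_zero]
        positivity
    · rw [coeff_eq_zero_of_natDegree_lt (lt_of_le_of_lt hP.1 (not_le.mp h1)), map_zero,
        norm_zero, zero_mul]
      positivity
  refine (Finset.sum_le_card_nsmul _ _ _ hb).trans ?_
  rw [Finset.Nat.card_antidiagonal, nsmul_eq_mul]
  have h4 : ((j + 1 : ℕ) : ℝ) ≤ ((N + L + 1 : ℕ) : ℝ) := by exact_mod_cast (by omega)
  calc ((j + 1 : ℕ) : ℝ) * (A * B * H ^ (N + L - j))
      ≤ ((N + L + 1 : ℕ) : ℝ) * (A * B * H ^ (N + L - j)) := by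
        refine mul_le_mul_of_nonneg_right h4 ?_
        positivity
    _ = _ := by ring

theorem amO11_spoly {r : ℕ} (δ : Fin r → k) (j : ℕ) :
    (spoly δ).coeff j = if hj : j < r then δ ⟨j, hj⟩ else 0 := by
  unfold spoly
  rw [finsetSum_coeff]
  simp only [coeff_C_mul, coeff_X_pow]
  by_cases hj : j < r
  · rw [dif_pos hj, Finset.sum_eq_single ⟨j, hj⟩]
    · rw [if_pos rfl, mul_one]
    · intro b _ hb
      rw [if_neg (fun h => hb (Fin.ext h.symm)), mul_zero]
    · intro h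
      exact absurd (Finset.mem_univ _) h
  · rw [dif_neg hj]
    refine Finset.sum_eq_zero fun i _ => ?_
    rw [if_neg (by have := i.2; omega), mul_zero]

theorem amO11_rO [CharZero k] {h : ℕ} (hh : 2 ≤ h) (M : ℕ) (lam : ℝ) (hlam : 1 ≤ lam)
    (δ : Fin (h - 2) → k) (H : ℝ) (hH : 1 ≤ H)
    (hδ : ∀ i, ‖φ (δ i)‖ ≤ lam * H ^ (h - 2 - (i : ℕ))) :
    amO11_Sz φ H (2 * h + 1 + M * lam) (h - 2) (rO h (M : k) δ) := by
  refine ⟨(rO_deg hh (M : k) δ).1.le, fun j hj => ?_⟩
  have hH0 : (0 : ℝ) ≤ H := by linarith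
  have hl0 : (0 : ℝ) ≤ lam := by linarith
  unfold rO
  rw [coeff_add, coeff_C_mul, coeff_C_mul, coeff_X_pow, amO11_spoly, map_add, map_mul, map_mul]
  refine (norm_add_le _ _).trans ?_
  rw [norm_mul, norm_mul, add_mul]
  have e1 : φ (2 * (h : k) + 1) = ((2 * h + 1 : ℝ) : ℂ) := by
    rw [map_add, map_mul, map_natCast, map_one, map_ofNat]
    push_cast
    ring
  have e2 : ‖φ (2 * (h : k) + 1)‖ = 2 * h + 1 := by
    rw [e1, Complex.norm_real, Real.norm_of_nonneg (by positivity)]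
  have e3 : ‖φ (M : k)‖ = M := by
    rw [map_natCast, Complex.norm_natCast]
  rw [e2, e3]
  refine add_le_add ?_ ?_
  · refine mul_le_mul_of_nonneg_left ?_ (by positivity)
    split_ifs
    · rw [map_one, norm_one]
      exact one_le_pow₀ hH
    · rw [map_zero, norm_zero]
      positivity
  · rw [mul_assoc]
    refine mul_le_mul_of_nonneg_left ?_ (by positivity)
    split_ifs with h1
    · exact hδ ⟨j, h1⟩
    · rw [map_zero, norm_zero]
      positivity

theorem amO11_gT [CharZero k] {h : ℕ} (hh : 2 ≤ h) (M : ℕ) (A : ℝ) (hA : 0 ≤ A)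
    (δ : Fin (h - 2) → k) (H : ℝ) (hH : 1 ≤ H)
    (hR : amO11_Sz φ H A (h - 2) (rO h (M : k) δ)) :
    amO11_Sz φ H (A * (1 + |(eO h : ℝ)|)) h (gT h (M : k) δ) := by
  refine ⟨(oddMem_fT hh (M : k) δ 0).gdeg.le, fun j hj => ?_⟩
  have hH0 : (0 : ℝ) ≤ H := by linarith
  have h1 := congrArg (fun x => ‖φ x‖) (hO_coeff (eO h : k) (rO h (M : k) δ) j)
  simp only [map_mul, norm_mul, map_sub] at h1
  have e1 : φ (2 * (j : k) + 1) = ((2 * j + 1 : ℝ) : ℂ) := by
    rw [map_add, map_mul, map_natCast, map_one, map_ofNat]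
    push_cast
    ring
  have e2 : ‖φ (2 * (j : k) + 1)‖ = 2 * j + 1 := by
    rw [e1, Complex.norm_real, Real.norm_of_nonneg (by positivity)]
  have e3 : ‖φ (eO h : k)‖ = |(eO h : ℝ)| := by
    rw [map_intCast, Complex.norm_intCast]
  rw [e2] at h1
  have h2 : ‖φ ((gT h (M : k) δ).coeff j)‖ ≤
      (2 * (j : ℝ) + 1) * ‖φ ((gT h (M : k) δ).coeff j)‖ := by
    refine le_mul_of_one_le_left (norm_nonneg _) ?_
    have : (0 : ℝ) ≤ j := Nat.cast_nonneg j
    linarith
  refine h2.trans ?_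
  have h3 : (2 * (j : ℝ) + 1) * ‖φ ((gT h (M : k) δ).coeff j)‖ =
      ‖φ ((rO h (M : k) δ * X ^ 2).coeff j) - φ (eO h : k) * φ ((rO h (M : k) δ).coeff j)‖ := h1
  rw [h3]
  refine (norm_sub_le _ _).trans ?_
  rw [norm_mul, e3, coeff_mul_X_pow', mul_add, mul_one, add_mul]
  refine add_le_add ?_ ?_
  · split_ifs with h4
    · refine (hR.2 (j - 2) (by omega)).trans (le_of_eq ?_)
      congr 2
      omega
    · rw [map_zero, norm_zero]
      positivity
  · rw [mul_comm A, mul_assoc]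
    refine mul_le_mul_of_nonneg_left ?_ (abs_nonneg _)
    by_cases h5 : j ≤ h - 2
    · refine (hR.2 j h5).trans ?_
      refine mul_le_mul_of_nonneg_left ?_ hA
      exact pow_le_pow_right₀ hH (by omega)
    · rw [coeff_eq_zero_of_natDegree_lt (lt_of_le_of_lt hR.1 (not_le.mp h5)), map_zero, norm_zero]
      positivity

end Size

theorem sizeO {h : ℕ} (hh : 2 ≤ h) (M : ℕ) (lam : ℝ) (hlam : 1 ≤ lam) :
    ∃ B : ℝ, 1 ≤ B ∧ ∀ (k : Type) [Field k] (φ : k →+* ℂ) (δ : Fin (h - 2) → k) (w : k) (H : ℝ),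
      1 ≤ H → (∀ i, ‖φ (δ i)‖ ≤ lam * H ^ (h - 2 - (i : ℕ))) → ‖φ w‖ ≤ lam * H ^ (2 * h - 1) →
      ∀ j, ‖φ ((fT h (M : k) δ w).coeff j)‖ ≤ B * H ^ (2 * h + 1 - j) := by
  set A1 : ℝ := 2 * h + 1 + M * lam with hA1
  set E : ℝ := |(eO h : ℝ)| with hE
  set A2 : ℝ := A1 * (1 + E) with hA2
  set A3 : ℝ := (h + (h - 2) + 1 : ℕ) * (A2 * A1) with hA3
  have hl0 : (0 : ℝ) ≤ lam := by linarith
  have hA10 : 0 ≤ A1 := by positivity
  have hE0 : 0 ≤ E := abs_nonneg _
  have hA20 : 0 ≤ A2 := by positivity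
  have hA30 : 0 ≤ A3 := by positivity
  have h2h : (0 : ℝ) ≤ 2 * h - 1 := by
    have : (2 : ℝ) ≤ h := by exact_mod_cast hh
    linarith
  refine ⟨1 + lam * E + lam + (2 * h - 1) * A3, ?_, ?_⟩
  · have : 0 ≤ lam * E + lam + (2 * h - 1) * A3 := by positivity
    linarith
  intro k _ φ δ w H hH hδ hw j
  have hH0 : (0 : ℝ) ≤ H := by linarith
  have : CharZero k := RingHom.charZero φ
  have hR : amO11_Sz φ H A1 (h - 2) (rO h (M : k) δ) := amO11_rO hh M lam hlam δ H hH hδ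
  have hg : amO11_Sz φ H A2 h (gT h (M : k) δ) := amO11_gT hh M A1 hA10 δ H hH hR
  have hgR : amO11_Sz φ H A3 (h + (h - 2)) (gT h (M : k) δ * rO h (M : k) δ) :=
    amO11_mul hH0 hA20 hA10 hg hR
  have hdeg := (oddMem_fT hh (M : k) δ w).deg
  have e3 : ‖φ (eO h : k)‖ = E := by
    rw [map_intCast, Complex.norm_intCast]
  obtain ⟨c0, c1, c2⟩ := fO_coeff_low (2 * (h : k) - 1) (eO h : k) w (rO h (M : k) δ)
  have hpos : ∀ i : ℕ, 0 ≤ H ^ i := fun i => pow_nonneg hH0 i
  have key : ∀ x a : ℝ, x ≤ a * H ^ (2 * h + 1 - j) →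
      a ≤ 1 + lam * E + lam + (2 * h - 1) * A3 →
      x ≤ (1 + lam * E + lam + (2 * h - 1) * A3) * H ^ (2 * h + 1 - j) := fun x a h1 h2 =>
    h1.trans (mul_le_mul_of_nonneg_right h2 (hpos _))
  have hp1 : 0 ≤ lam * E := by positivity
  have hp2 : 0 ≤ (2 * (h : ℝ) - 1) * A3 := by positivity
  rcases Nat.lt_or_ge j 3 with hj | hj
  · interval_cases j
    · refine key _ (lam * E) ?_ (by linarith)
      have h1 : (fT h (M : k) δ w).coeff 0 = w * (eO h : k) := c0
      rw [h1, map_mul, norm_mul, e3]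
      calc ‖φ w‖ * E ≤ (lam * H ^ (2 * h - 1)) * E := mul_le_mul_of_nonneg_right hw hE0
        _ ≤ (lam * H ^ (2 * h + 1 - 0)) * E := by
          refine mul_le_mul_of_nonneg_right (mul_le_mul_of_nonneg_left ?_ hl0) hE0
          exact pow_le_pow_right₀ hH (by omega)
        _ = lam * E * H ^ (2 * h + 1 - 0) := by ring
    · have h1 : (fT h (M : k) δ w).coeff 1 = 0 := c1
      rw [h1, map_zero, norm_zero]
      exact mul_nonneg (by linarith) (hpos _)
    · refine key _ lam ?_ (by linarith)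
      have h1 : (fT h (M : k) δ w).coeff 2 = -w := c2
      rw [h1, map_neg, norm_neg]
      refine hw.trans (le_of_eq ?_)
      congr 2
  · obtain ⟨i, rfl⟩ : ∃ i, j = i + 3 := ⟨j - 3, by omega⟩
    by_cases hi : i ≤ h + (h - 2)
    · refine key _ ((2 * h - 1) * A3) ?_ (by linarith)
      have h1 := congrArg (fun x => ‖φ x‖)
        (fO_coeff (2 * (h : k) - 1) (eO h : k) w (rO h (M : k) δ) i)
      simp only [map_mul, norm_mul] at h1
      have e1 : ‖φ ((i : k) + 1)‖ = i + 1 := by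
        have : φ ((i : k) + 1) = ((i + 1 : ℝ) : ℂ) := by
          rw [map_add, map_natCast, map_one]
          push_cast
          ring
        rw [this, Complex.norm_real, Real.norm_of_nonneg (by positivity)]
      have e2 : ‖φ ((i : k) + 3)‖ = i + 3 := by
        have : φ ((i : k) + 3) = ((i + 3 : ℝ) : ℂ) := by
          rw [map_add, map_natCast, map_ofNat]
          push_cast
          ring
        rw [this, Complex.norm_real, Real.norm_of_nonneg (by positivity)]
      have e4 : ‖φ (2 * (h : k) - 1)‖ = 2 * h - 1 := by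
        have : φ (2 * (h : k) - 1) = ((2 * h - 1 : ℝ) : ℂ) := by
          rw [map_sub, map_mul, map_natCast, map_one, map_ofNat]
          push_cast
          ring
        rw [this, Complex.norm_real, Real.norm_of_nonneg h2h]
      rw [e1, e2, e4] at h1
      have hi0 : (0 : ℝ) ≤ i := Nat.cast_nonneg i
      have h2 : ‖φ ((fT h (M : k) δ w).coeff (i + 3))‖ ≤
          ((i : ℝ) + 1) * (i + 3) * ‖φ ((fT h (M : k) δ w).coeff (i + 3))‖ := by
        refine le_mul_of_one_le_left (norm_nonneg _) ?_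
        nlinarith
      refine h2.trans ?_
      have h3 : ((i : ℝ) + 1) * (i + 3) * ‖φ ((fT h (M : k) δ w).coeff (i + 3))‖ =
        (2 * h - 1) * ‖φ ((gT h (M : k) δ * rO h (M : k) δ).coeff i)‖ := h1
      rw [h3, mul_assoc (2 * (h : ℝ) - 1)]
      refine mul_le_mul_of_nonneg_left ?_ h2h
      refine (hgR.2 i hi).trans (le_of_eq ?_)
      congr 2
      omega
    · have h1 : (fT h (M : k) δ w).coeff (i + 3) = 0 :=
        coeff_eq_zero_of_natDegree_lt (by omega)
      rw [h1, map_zero, norm_zero]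
      exact mul_nonneg (by linarith) (hpos _)

end Pool.Agent.H9.AM
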