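import Pool.Agent.H9.AM.DefsOdd
import Pool.Agent.H35.AN.Val
import Pool.Agent.H35.AN.Tower
import Pool.Agent.H35.AN.Ram
import Pool.Agent.H35.AN.Rad

/-!
# Project AN2 (MP_a3214d), row AM-O14: the norm and the visible primes, odd family
-/

set_option autoImplicit false

open Polynomial IsDedekindDomain NumberField

namespace Pool.Agent.H9.AM

open Pool.Agent.H35.AN

/-- the number `e` is a unit at `p` -/
theorem amO14_unit {k : Type} [Field k] [NumberField k] {h : ℕ} (hh : 2 ≤ h)
    (p : HeightOneSpectrum (𝓞 k)) (hu : UnitsUpTo p (2 * h + 1)) :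
    (eO h : k) ≠ 0 ∧ ord p (eO h : k) = 0 := by
  have h1 := an23_ord_nat p hu (m := 2 * h - 3) (by omega) (by omega)
  have h2 := an23_ord_nat p hu (m := 2 * h - 1) (by omega) (by omega)
  have e : (eO h : k) = ((2 * h - 3 : ℕ) : k) ^ 2 * ((-1 : k) ^ (h + 1) * ((2 * h - 1 : ℕ) : k)) := by
    unfold eO mO
    rw [Nat.cast_sub (by omega), Nat.cast_sub (by omega)]
    push_cast
    ring
  have n3 : ((-1 : k) ^ (h + 1)) ≠ 0 := pow_ne_zero _ (by norm_num)
  rw [e]
  refine ⟨mul_ne_zero (pow_ne_zero 2 h1.1) (mul_ne_zero n3 h2.1), ?_⟩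
  rw [ord_mul p (pow_ne_zero 2 h1.1) (mul_ne_zero n3 h2.1), ord_mul p n3 h2.1, ord_pow,
    an23_ord_sign, h1.2, h2.2]
  norm_num

theorem norm_eq_neg {k K : Type} [Field k] [NumberField k] [Field K] [NumberField K] [Algebra k K]
    {h : ℕ} {w : k} {g f : k[X]} (H : OddMem h w g f) {x : K} (hx : minpoly k x = f)
    (hgen : IntermediateField.adjoin k {x} = ⊤) :
    Algebra.norm k x = -(eO h : k) * w := by
  have hint : IsIntegral k x := Algebra.IsIntegral.isIntegral x
  have hn : Module.finrank k K = f.natDegree := by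
    rw [← hx, ← IntermediateField.adjoin.finrank hint, hgen, IntermediateField.finrank_top']
  have hroot : (f.map (algebraMap k K)).eval x = 0 := by
    rw [eval_map_algebraMap, ← hx, minpoly.aeval]
  have h1 := an23_norm hroot hgen hn H.monic.ne_zero
  rw [h1, H.deg, H.monic.leadingCoeff, H.c0, div_one, Odd.neg_one_pow ⟨h, rfl⟩]
  ring

theorem visO {k K : Type} [Field k] [NumberField k] [Field K] [NumberField K] [Algebra k K]
    {h : ℕ} (hh : 2 ≤ h) {w : k} {g f : k[X]} (H : OddMem h w g f)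
    (hint : ∀ j, IsIntegral ℤ (f.coeff j))
    {x : K} (hx : minpoly k x = f) (hgen : IntermediateField.adjoin k {x} = ⊤)
    (p : HeightOneSpectrum (𝓞 k)) (hu : UnitsUpTo p (2 * h + 1)) (hw : ord p w = 1)
    {r : ℕ} (hr : r.Prime) (hrp : (r : 𝓞 k) ∈ p.asIdeal) :
    (r : ℤ) ∣ NumberField.discr K := by
  obtain ⟨ne, oe⟩ := amO14_unit hh p hu
  have nw : w ≠ 0 := by
    rintro rfl
    rw [ord_zero] at hw
    norm_num at hw
  have nwe : w * (eO h : k) ≠ 0 := mul_ne_zero nw ne
  have owe : ord p (w * (eO h : k)) = 1 := by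
    rw [ord_mul p nw ne, hw, oe, add_zero]
  have hroot : aeval x f = 0 := by rw [← hx, minpoly.aeval]
  have hx0 : x ≠ 0 := by
    rintro rfl
    rw [← coeff_zero_eq_aeval_zero', H.c0] at hroot
    exact nwe ((map_eq_zero _).mp hroot)
  have hnorm : ord p (Algebra.norm k x) = 1 := by
    rw [norm_eq_neg H hx hgen]
    have : -(eO h : k) * w = -(w * (eO h : k)) := by ring
    rw [this, ord_neg, owe]
  obtain ⟨P, hP, hPx⟩ := exists_ord_neg (k := k) (inv_ne_zero hx0) p (by
    rw [an23_norm_inv hx0, ord_inv, hnorm]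
    norm_num)
  rw [ord_inv] at hPx
  refine dvd_discr_of_erel (k := k) P hr ((mem_below P r).mp (by rw [hP]; exact hrp)) ?_
  by_contra hcon
  have he0 := erel_pos (k := k) P
  have he : erel k P = 1 := by omega
  have hxg : Ge P 1 x := (ge_iff P hx0).mpr (by omega)
  -- the equation
  rw [aeval_eq_sum_range, H.deg, Finset.sum_range_succ', pow_zero, H.c0,
    Algebra.smul_def, mul_one] at hroot
  have h1 : algebraMap k K (w * (eO h : k)) =
      -∑ i ∈ Finset.range (2 * h + 1), f.coeff (i + 1) • x ^ (i + 1) := by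
    linear_combination hroot
  refine ord_not_cancel P ((_root_.map_ne_zero _).mpr nwe) h1 ?_
  rw [ord_algebraMap, he, hP, owe]
  refine ge_neg P (ge_sum P _ _ fun i hi => ?_)
  rw [Algebra.smul_def]
  have hc : Ge P 0 (algebraMap k K (f.coeff (i + 1))) := by
    have h2 := ge_algebraMap P (ge_of_isIntegral (below k P) (hint (i + 1)))
    simpa using h2
  rcases i with _ | i
  · rw [zero_add, H.c1, map_zero, zero_mul]
    exact ge_zero P _
  have h2 := ge_mul P hc (ge_pow P hxg (i + 1 + 1))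
  refine ge_mono P ?_ h2
  push_cast
  linarith [(Nat.cast_nonneg i : (0 : ℤ) ≤ i)]

end Pool.Agent.H9.AM
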