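import Pool.Agent.H9.AM.DefsOdd
import Pool.Agent.H9.AM.OddIdent
import Pool.Agent.H9.AM.OddBase
import Pool.Agent.H9.AM.OddClose
import Pool.Agent.H9.AM.Eisen
import Pool.Agent.H9.AM.EisIrr
import Pool.Agent.H9.AM.OddGal
import Pool.Agent.H9.AM.OddSize
import Pool.Agent.H9.AM.OddRoots
import Pool.Agent.H9.AM.DiscPow
import Pool.Agent.H9.AM.OddVis
import Pool.Agent.H9.AM.OddParam
import Pool.Agent.H35.AN.Key
import Pool.Agent.H35.AN.ThreeCycle
import Pool.Agent.H35.AN.Transport

/-!
# AM-O16: the key statement, odd degree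
-/

set_option autoImplicit false

open Polynomial IsDedekindDomain NumberField

namespace Pool.Agent.H9.AM

open Pool.Agent.H35.AN

theorem amO16_eO_ne (h : ℕ) : eO h ≠ 0 := by
  unfold eO mO
  have h1 : (2 * (h : ℤ) - 3) ≠ 0 := by omega
  have h2 : (2 * (h : ℤ) - 1) ≠ 0 := by omega
  exact mul_ne_zero (pow_ne_zero _ h1) (mul_ne_zero (pow_ne_zero _ (by norm_num)) h2)

/-- a root of a monic polynomial with integral coefficients is integral -/
theorem amO16_integral {k K : Type} [Field k] [NumberField k] [Field K] [NumberField K]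
    [Algebra k K] {f : k[X]} (hf : f.Monic) (hint : ∀ j, IsIntegral ℤ (f.coeff j)) {x : K}
    (hx : aeval x f = 0) : IsIntegral ℤ x := by
  refine isIntegral_of_forall_ge fun P => ?_
  have hmon : (f.map (algebraMap k K)).Monic := hf.map _
  refine an15_integral P (G := f.map (algebraMap k K)) (fun j => ?_) ?_ ?_ ?_
  · rw [coeff_map]
    exact ge_of_isIntegral P ((hint j).map (algebraMap k K).toIntAlgHom)
  · rw [hmon.leadingCoeff, ord_one]
  · rw [hmon.leadingCoeff]; exact one_ne_zero
  · rw [eval_map_algebraMap]; exact hx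

theorem key_odd (k : Type) [Field k] [NumberField k] {h : ℕ} (hh : 2 ≤ h) :
    KeyW k (2 * h + 1) (h - 2) (fun i => h - 2 - (i : ℕ)) (2 * h - 1) 1
      ((2 * h - 1) * (2 * h + 2)) := by
  intro Y
  obtain ⟨N, l, p, q, η, x0, hN, hY, hsm, hl2, hp2, hq2, hη, hfix, hln, hle, hpu, hqu, hqm,
    hloc⟩ := exists_paramO k hh Y
  set M : ℕ := (2 * h + 1).factorial ^ 3 * N with hM
  have hM0 : 0 < M := Nat.mul_pos (pow_pos (Nat.factorial_pos _) _) hN
  have hMk : ((M : ℕ) : k) ≠ 0 := by exact_mod_cast hM0.ne'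
  refine ⟨N, η, -((eO h : ℤ) : 𝓞 k), fun δ y => fT h ((M : ℕ) : k) (fun i => (δ i : k)) (y : k),
    hN, hY, hη, ?_, ?_, hfix, ?_⟩
  · rw [neg_ne_zero]
    exact_mod_cast amO16_eO_ne h
  · intro y δ δ' he
    have h1 := fT_inj hh hMk (y : k) he
    funext i
    exact RingOfIntegers.ext (congrFun h1 i)
  intro lam hlam
  obtain ⟨B, hB, hsize⟩ := sizeO hh M lam hlam
  obtain ⟨mu, hmu, hroots⟩ := roots_size hh B lam hB hlam
  obtain ⟨C, hC, hdisc⟩ := discr_le_pow k (2 * h - 1) mu (|(eO h : ℝ)| * lam + 1) hmu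
    (by have : 0 ≤ |(eO h : ℝ)| * lam := mul_nonneg (abs_nonneg _) (by linarith)
        linarith)
  refine ⟨C, mu, 1, hC, hmu, ?_⟩
  intro H hH δ y hδ hy hbal hsq
  have hH1 : (1 : ℝ) ≤ H := by exact_mod_cast hH
  obtain ⟨hyl, hyp, hyq, hyx⟩ := hloc y hy
  set f : k[X] := fT h ((M : ℕ) : k) (fun i => (δ i : k)) (y : k) with hf
  set g : k[X] := gT h ((M : ℕ) : k) (fun i => (δ i : k)) with hg
  have hmem : OddMem h (y : k) g f := oddMem_fT hh _ _ _
  have hint : ∀ j, IsIntegral ℤ (f.coeff j) := fT_int hh N δ y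
  have hfc := fT_close hh N δ y
  have hgc := gT_close hh N δ
  have hcond : CondO k h (y : k) g f l p q x0 :=
    { mem := hmem
      int := hint
      l_ord := hyl
      l_n := hln
      l_e := hle
      l_close := fun j => hfc.ge l hl2 j
      p_ord := hyp
      p_units := hpu
      p_close := fun j => hfc.ge p hp2 j
      q_ord := hyq
      q_units := hqu
      q_close := fun j => hfc.ge q hq2 j
      q_gclose := fun j => ge_mono q (by norm_num) (hgc.ge q hq2 j)
      q_mu := hqm
      q_one := hyx }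
  obtain ⟨he0, hej⟩ := hcond.eisen hh
  have hirr : Irreducible f := irreducible_of_eisenstein hmem.monic hmem.deg (by omega) hint l he0 hej
  obtain ⟨R⟩ := exists_roots_of_irreducible (L := AlgebraicClosure k) hirr hmem.deg
  set i0 : Fin (2 * h + 1) := ⟨0, by omega⟩ with hi0
  have halt : IsAltField k (2 * h + 1) (IntermediateField.adjoin k {R.θ i0}) :=
    transport k (by omega) R (fun L _ _ _ _ R' hR' => galO hh hcond R' hR') i0
  have hfr : Module.finrank k (IntermediateField.adjoin k {R.θ i0}) = 2 * h + 1 := halt.1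
  have hfd : FiniteDimensional k (IntermediateField.adjoin k {R.θ i0}) :=
    Module.finite_of_finrank_pos (by omega)
  have hNF : NumberField (IntermediateField.adjoin k {R.θ i0}) := NumberField.of_module_finite k _
  set x : IntermediateField.adjoin k {R.θ i0} := IntermediateField.AdjoinSimple.gen k (R.θ i0)
    with hx
  have hgen : IntermediateField.adjoin k {x} = ⊤ := by
    apply IntermediateField.lift_injective
    rw [IntermediateField.lift_adjoin_simple, IntermediateField.lift_top,
      IntermediateField.AdjoinSimple.coe_gen]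
  have hroot : aeval x f = 0 := by
    have h1 := R.eval_root i0
    rw [eval_map_algebraMap] at h1
    apply Subtype.ext
    have h2 : aeval (algebraMap (IntermediateField.adjoin k {R.θ i0}) (AlgebraicClosure k) x) f =
        algebraMap (IntermediateField.adjoin k {R.θ i0}) (AlgebraicClosure k) (aeval x f) :=
      aeval_algebraMap_apply _ _ _
    rw [IntermediateField.AdjoinSimple.algebraMap_gen, h1] at h2
    exact h2.symm
  have hxi : IsIntegral ℤ x := amO16_integral hmem.monic hint hroot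
  have hmin : minpoly k x = f := (minpoly.eq_of_irreducible_of_monic hirr hroot hmem.monic).symm
  -- sizes
  have hyu : ∀ φ : k →+* ℂ, ‖φ (y : k)‖ ≤ lam * (H : ℝ) ^ (2 * h - 1) := fun φ => (hbal φ).2
  have htwo : TwoScale mu (H : ℝ) x := by
    intro φ
    set ψ : k →+* ℂ := φ.comp (algebraMap k _) with hψ
    have hm : OddMem h (ψ (y : k)) (g.map ψ) (f.map ψ) := hmem.map ψ
    refine hroots (f.map ψ) (ψ (y : k)) (H : ℝ) hH1 hm.monic hm.deg hm.c0 hm.c1 hm.c2 ?_ (hbal ψ).1
      (φ x) ?_
    · intro j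
      rw [coeff_map]
      exact hsize k ψ (fun i => (δ i : k)) (y : k) (H : ℝ) hH1 (fun i => hδ i ψ) (hyu ψ) j
    · have h3 := congrArg φ hroot
      rw [map_zero, aeval_def, hom_eval₂] at h3
      rw [eval_map]
      exact h3
  refine ⟨IntermediateField.adjoin k {R.θ i0}, hNF, ⟨x, hxi⟩, halt, hmin, ?_, htwo, ?_, ?_⟩
  · rw [pow_one]
    have := norm_eq_neg hmem hmin hgen
    push_cast
    exact this
  · have h1 := hdisc _ x f (H : ℝ) hH1 hmem.monic (by rw [hmem.deg]; omega) hroot
      (by rw [hfr]; omega) hgen hint htwo ?_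
    · have h2 : (2 * h - 1) * (2 * h - 1 + 3) = (2 * h - 1) * (2 * h + 2) := by
        congr 1
        omega
      rw [h2] at h1
      exact h1
    · intro φ
      rw [hmem.c0, map_mul, norm_mul, map_intCast, Complex.norm_intCast]
      have h3 := hyu φ
      have h4 : (0 : ℝ) ≤ (H : ℝ) ^ (2 * h - 1) := by positivity
      calc ‖φ (y : k)‖ * |(eO h : ℝ)| ≤ (lam * (H : ℝ) ^ (2 * h - 1)) * |(eO h : ℝ)| := by
            gcongr
        _ ≤ (|(eO h : ℝ)| * lam + 1) * (H : ℝ) ^ (2 * h - 1) := by nlinarith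
  · intro r hr p' hrp hMp hyp'
    have hy0 : y ≠ 0 := by
      rintro rfl
      have h5 : ord l ((0 : 𝓞 k) : k) = 1 := hyl
      simp [ord_zero] at h5
    exact visO hh hmem hint hmin hgen p' (an26_units hsm le_rfl p' hMp)
      (an26_ord_one hy0 hsq p' hMp hyp') hr hrp

end Pool.Agent.H9.AM
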