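import Pool.Agent.H34.AM.CountW
import Pool.Agent.H9.AM.EvKey
import Pool.Agent.H9.AM.OddKey
import Pool.Agent.H35.AN.Main

/-!
# Project AM (MP_a3214d): assembly

Exponents for the alternating groups: `(n^2-2n+8)/(8n(n-3))` for even `n`, `(n-1)/(8(n-2))` for odd
`n ≥ 9`, and `1/(n-1)` for `n = 5, 7`.
-/

set_option autoImplicit false

open Polynomial IsDedekindDomain NumberField Filter

namespace Pool.Agent.H9.AM

open Pool.Agent.H35.AN

/-- `1/(n-1)` for `n = 5, 7`, `(n^2-2n+8)/(8n(n-3))` for even `n`, `(n-1)/(8(n-2))` for other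
odd `n`. -/
noncomputable def expo (n : ℕ) : ℝ :=
  if n = 5 ∨ n = 7 then 1 / ((n : ℝ) - 1)
  else if Even n then ((n : ℝ) ^ 2 - 2 * n + 8) / (8 * n * (n - 3))
  else ((n : ℝ) - 1) / (8 * (n - 2))

theorem sum_ws (r : ℕ) : ((∑ i : Fin r, (r - (i : ℕ)) : ℕ) : ℝ) = r * (r + 1) / 2 := by
  have h : (∑ i : Fin r, (r - (i : ℕ))) = ∑ i ∈ Finset.range r, (i + 1) := by
    rw [Fin.sum_univ_eq_sum_range (fun i => r - i) r, ← Finset.sum_range_reflect]
    refine Finset.sum_congr rfl fun i hi => ?_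
    rw [Finset.mem_range] at hi
    omega
  rw [h]
  have h2 : ∀ m : ℕ, ((∑ i ∈ Finset.range m, (i + 1) : ℕ) : ℝ) = m * (m + 1) / 2 := by
    intro m
    induction m with
    | zero => simp
    | succ m ih =>
      rw [Finset.sum_range_succ]
      push_cast at ih ⊢
      rw [ih]
      ring
  exact h2 r

/-- the theorem with a constant -/
theorem main (k : Type) [Field k] [NumberField k] {n : ℕ} (hn : 5 ≤ n) (ε : ℝ) (hε : 0 < ε) :
    ∃ c : ℝ, 0 < c ∧ ∀ᶠ B : ℝ in atTop,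
      c * B ^ (expo n - ε) ≤ (malleCount k n (alternatingGroup (Fin n)) B : ℝ) := by
  unfold expo
  split_ifs with h1 h2
  · exact Pool.Agent.H35.AN.main k hn ε hε
  · obtain ⟨m, hm⟩ := h2
    obtain ⟨h, rfl⟩ : ∃ h, m = h + 1 := ⟨m - 1, by omega⟩
    have hn2 : n = 2 * h + 2 := by omega
    subst hn2
    have hh : 2 ≤ h := by omega
    have h3 := count_of_keyW k (by omega) (by omega)
      (Nat.mul_pos (by omega) (by omega)) (key_even k hh) ε hε
    have h4 : ((((∑ i : Fin (h - 1), (h - 1 - (i : ℕ))) + (h + 1) : ℕ) : ℝ) /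
        (((2 * h + 2) * (2 * h - 1) : ℕ) : ℝ)) =
        (((2 * h + 2 : ℕ) : ℝ) ^ 2 - 2 * ((2 * h + 2 : ℕ) : ℝ) + 8) /
          (8 * ((2 * h + 2 : ℕ) : ℝ) * (((2 * h + 2 : ℕ) : ℝ) - 3)) := by
      rw [Nat.cast_add, sum_ws]
      obtain ⟨j, rfl⟩ : ∃ j, h = j + 2 := ⟨h - 2, by omega⟩
      rw [show j + 2 - 1 = j + 1 by omega, show 2 * (j + 2) - 1 = 2 * j + 3 by omega]
      push_cast
      have hj : (0 : ℝ) ≤ j := by positivity
      rw [div_eq_div_iff (by positivity) (by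
        have : (0 : ℝ) < 2 * (j + 2) + 2 - 3 := by linarith
        positivity)]
      ring
    rw [h4] at h3
    exact h3
  · have h5 : ¬ Even n := h2
    rw [Nat.not_even_iff_odd] at h5
    obtain ⟨h, rfl⟩ := h5
    have hh : 4 ≤ h := by omega
    have h3 := count_of_keyW k (by omega) (by omega)
      (Nat.mul_pos (by omega) (by omega)) (key_odd k (by omega : 2 ≤ h)) ε hε
    have h4 : ((((∑ i : Fin (h - 2), (h - 2 - (i : ℕ))) + (2 * h - 1) : ℕ) : ℝ) /
        (((2 * h - 1) * (2 * h + 2) : ℕ) : ℝ)) =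
        (((2 * h + 1 : ℕ) : ℝ) - 1) / (8 * (((2 * h + 1 : ℕ) : ℝ) - 2)) := by
      rw [Nat.cast_add, sum_ws]
      obtain ⟨j, rfl⟩ : ∃ j, h = j + 4 := ⟨h - 4, by omega⟩
      rw [show j + 4 - 2 = j + 2 by omega, show 2 * (j + 4) - 1 = 2 * j + 7 by omega]
      push_cast
      have hj : (0 : ℝ) ≤ j := by positivity
      rw [div_eq_div_iff (by positivity) (by
        have : (0 : ℝ) < 2 * (j + 4) + 1 - 2 := by linarith
        positivity)]
      ring
    rw [h4] at h3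
    exact h3

theorem expo_gt {n : ℕ} (hn : 5 ≤ n) : 1 / 8 + 1 / (8 * (n : ℝ)) < expo n := by
  have hn' : (5 : ℝ) ≤ n := by exact_mod_cast hn
  unfold expo
  split_ifs with h1 h2
  · rcases h1 with rfl | rfl <;> norm_num
  · rw [div_add_div _ _ (by norm_num) (by positivity), div_lt_div_iff₀ (by positivity) (by
      have : (0 : ℝ) < n - 3 := by linarith
      positivity)]
    nlinarith [sq_nonneg ((n : ℝ) - 5), mul_pos (by linarith : (0 : ℝ) < n) (by linarith : (0 : ℝ) < (n : ℝ) - 3)]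
  · rw [div_add_div _ _ (by norm_num) (by positivity), div_lt_div_iff₀ (by positivity) (by
      have : (0 : ℝ) < n - 2 := by linarith
      positivity)]
    nlinarith [sq_nonneg ((n : ℝ) - 5)]

/-- the theorem without a constant -/
theorem main' (k : Type) [Field k] [NumberField k] {n : ℕ} (hn : 5 ≤ n) (a : ℝ) (ha : a < expo n) :
    ∀ᶠ B : ℝ in atTop, B ^ a ≤ (malleCount k n (alternatingGroup (Fin n)) B : ℝ) := by
  obtain ⟨ε, hε, hea⟩ : ∃ ε : ℝ, 0 < ε ∧ expo n - ε = a + ε :=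
    ⟨(expo n - a) / 2, by linarith, by ring⟩
  obtain ⟨c, hc, h⟩ := main k hn ε hε
  have ht : ∀ᶠ B : ℝ in atTop, c⁻¹ ≤ B ^ ε :=
    (tendsto_rpow_atTop hε).eventually_ge_atTop _
  filter_upwards [h, ht, eventually_gt_atTop (0 : ℝ)] with B hB hB' hpos
  refine le_trans ?_ hB
  rw [hea, Real.rpow_add hpos]
  have h2 : 0 ≤ B ^ a := Real.rpow_nonneg hpos.le _
  calc B ^ a = c * (B ^ a * c⁻¹) := by
        field_simp
    _ ≤ c * (B ^ a * B ^ ε) := by gcongr

end Pool.Agent.H9.AM
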